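import Mathlib

open Set Topology

namespace H299.As

universe u

/-- maximal subsets on which a relation holds pairwise -/
lemma exists_max_pairwise {α : Type u} (S : Set α) (r : α → α → Prop) :
    ∃ C ⊆ S, C.Pairwise r ∧ ∀ x ∈ S, x ∉ C → ∃ y ∈ C, ¬ (r x y ∧ r y x) := by
  obtain ⟨C, hC⟩ := zorn_subset {C : Set α | C ⊆ S ∧ C.Pairwise r} (by
    intro c hc hchain
    refine ⟨⋃₀ c, ⟨sUnion_subset fun t ht => (hc ht).1, ?_⟩, fun t ht => subset_sUnion_of_mem ht⟩
    rw [pairwise_sUnion hchain.directedOn]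
    exact fun t ht => (hc ht).2)
  refine ⟨C, hC.prop.1, hC.prop.2, fun x hx hxC => ?_⟩
  by_contra hcon
  push Not at hcon
  apply hxC
  have h1 : insert x C ∈ {C : Set α | C ⊆ S ∧ C.Pairwise r} := by
    refine ⟨insert_subset hx hC.prop.1, ?_⟩
    apply hC.prop.2.insert
    intro b hb _
    exact hcon b hb
  exact hC.le_of_ge h1 (subset_insert x C) (mem_insert x C)

variable {X : Type u} [TopologicalSpace X]

lemma meagre_cover {A : Set X} (h : IsMeagre A) :
    ∃ f : ℕ → Set X, (∀ n, IsNowhereDense (f n)) ∧ A ⊆ ⋃ n, f n := by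
  rw [isMeagre_iff_countable_union_isNowhereDense] at h
  obtain ⟨S, hS1, hS2, hS3⟩ := h
  rcases S.eq_empty_or_nonempty with hS | hS
  · subst hS
    refine ⟨fun _ => ∅, fun _ => by simp [IsNowhereDense], ?_⟩
    simpa using hS3
  · obtain ⟨f, hf⟩ := hS2.exists_eq_range hS
    refine ⟨f, fun n => hS1 _ (by rw [hf]; exact mem_range_self n), ?_⟩
    rw [hf, sUnion_range] at hS3
    exact hS3

/-- Banach category theorem -/
theorem meagre_of_local {A : Set X} (h : ∀ U : Set X, IsOpen U → U.Nonempty →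
    ∃ V ⊆ U, IsOpen V ∧ V.Nonempty ∧ IsMeagre (A ∩ V)) : IsMeagre A := by
  obtain ⟨W, hW1, hW2, hW3⟩ := exists_max_pairwise
    {V : Set X | IsOpen V ∧ V.Nonempty ∧ IsMeagre (A ∩ V)} (fun a b => Disjoint a b)
  have hf : ∀ V : W, ∃ f : ℕ → Set X, (∀ n, IsNowhereDense (f n)) ∧ A ∩ V ⊆ ⋃ n, f n :=
    fun V => meagre_cover (hW1 V.2).2.2
  choose f hf1 hf2 using hf
  have hM : ∀ n, IsNowhereDense (⋃ V : W, f V n ∩ V) := by
    intro n
    rw [IsNowhereDense]
    by_contra hne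
    rw [← Ne, ← nonempty_iff_ne_empty] at hne
    obtain ⟨x, hx⟩ := hne
    have hx1 : x ∈ closure (⋃ V : W, f V n ∩ V) := interior_subset hx
    obtain ⟨y, hy1, hy2⟩ := mem_closure_iff.1 hx1 _ isOpen_interior hx
    obtain ⟨V, hyV⟩ := mem_iUnion.1 hy2
    have hVo : IsOpen (V : Set X) := (hW1 V.2).1
    have hsub : interior (closure (⋃ V : W, f V n ∩ V)) ∩ V ⊆ closure (f V n) := by
      rintro z ⟨hz1, hz2⟩
      rw [mem_closure_iff]
      intro O hO hzO
      obtain ⟨w, ⟨hw1, hw2⟩, hw3⟩ := mem_closure_iff.1 (interior_subset hz1) (O ∩ V)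
        (hO.inter hVo) ⟨hzO, hz2⟩
      obtain ⟨V', hwV'⟩ := mem_iUnion.1 hw3
      by_cases hVV : V' = V
      · subst hVV
        exact ⟨w, hw1, hwV'.1⟩
      · exfalso
        have hd := hW2 V'.2 V.2 (fun h => hVV (Subtype.ext h))
        exact disjoint_left.1 hd hwV'.2 hw2
    have hint : interior (closure (⋃ V : W, f V n ∩ V)) ∩ V ⊆ interior (closure (f V n)) :=
      interior_maximal hsub (isOpen_interior.inter hVo)
    have := hint ⟨hy1, hyV.2⟩
    rw [hf1 V n] at this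
    exact this
  have hR : IsNowhereDense ((⋃₀ W)ᶜ) := by
    have hcl : IsClosed ((⋃₀ W)ᶜ) := (isOpen_sUnion fun V hV => (hW1 hV).1).isClosed_compl
    rw [IsNowhereDense, hcl.closure_eq]
    by_contra hne
    rw [← Ne, ← nonempty_iff_ne_empty] at hne
    obtain ⟨V, hV1, hV2, hV3, hV4⟩ := h _ isOpen_interior hne
    have hdis : ∀ V' ∈ W, Disjoint V V' := by
      intro V' hV'
      rw [disjoint_left]
      intro a ha ha'
      exact interior_subset (hV1 ha) ⟨V', hV', ha'⟩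
    by_cases hVW : V ∈ W
    · obtain ⟨a, ha⟩ := hV3
      exact disjoint_left.1 (hdis V hVW) ha ha
    · obtain ⟨V', hV', hn⟩ := hW3 V ⟨hV2, hV3, hV4⟩ hVW
      exact hn ⟨hdis V' hV', (hdis V' hV').symm⟩
  have hsub : A ⊆ (⋃₀ W)ᶜ ∪ ⋃ n, ⋃ V : W, f V n ∩ V := by
    intro a ha
    by_cases haW : a ∈ ⋃₀ W
    · right
      obtain ⟨V, hV, haV⟩ := haW
      obtain ⟨n, hn⟩ := mem_iUnion.1 (hf2 ⟨V, hV⟩ ⟨ha, haV⟩)
      exact mem_iUnion.2 ⟨n, mem_iUnion.2 ⟨⟨V, hV⟩, hn, haV⟩⟩
    · left; exact haW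
  exact (hR.isMeagre.union (isMeagre_iUnion fun n => (hM n).isMeagre)).mono hsub

/-- a nonmeagre set is everywhere nonmeagre in some nonempty open set -/
theorem localize {A : Set X} (h : ¬ IsMeagre A) : ∃ U : Set X, IsOpen U ∧ U.Nonempty ∧
    ∀ V ⊆ U, IsOpen V → V.Nonempty → ¬ IsMeagre (A ∩ V) := by
  by_contra hcon
  push Not at hcon
  apply h
  apply meagre_of_local
  intro U hU hne
  obtain ⟨V, h1, h2, h3, h4⟩ := hcon U hU hne
  exact ⟨V, h1, h2, h3, h4⟩

lemma nd_iUnion {f : ℕ → Set X} (hf : ∀ n, IsNowhereDense (f n)) (hc : ∀ n, IsClosed (f n))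
    (n : ℕ) : interior (⋃ k ∈ Finset.range n, f k) = ∅ := by
  induction n with
  | zero => simp
  | succ n ih =>
    rw [Finset.range_add_one, Finset.set_biUnion_insert]
    have h1 : interior (f n) = ∅ := by
      have := hf n
      rwa [IsNowhereDense, (hc n).closure_eq] at this
    rw [interior_union_isClosed_of_interior_empty (hc n) ih, h1]

/-- in a metrizable space a dense set with meagre complement contains a dense `Gδ` -/
theorem gdelta_of_meagre [TopologicalSpace.MetrizableSpace X] {D S : Set X} (hD : IsOpen D) (hSD : S ⊆ D)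
    (hdense : D ⊆ closure S) (hm : IsMeagre (D \ S)) :
    ∃ G ⊆ S, IsGδ G ∧ D ⊆ closure G := by
  letI := TopologicalSpace.metrizableSpaceMetric X
  obtain ⟨f, hf1, hf2⟩ := meagre_cover hm
  set F : ℕ → Set X := fun n => closure (f n) with hF
  have hFc : ∀ n, IsClosed (F n) := fun n => isClosed_closure
  have hFn : ∀ n, IsNowhereDense (F n) := fun n => (hf1 n).closure
  have hcov : D \ S ⊆ ⋃ n, F n := hf2.trans (iUnion_mono fun n => subset_closure)
  have hC : ∀ n : ℕ, ∃ C ⊆ S \ (⋃ k ∈ Finset.range (n + 1), F k),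
      C.Pairwise (fun x y => 1 / ((n : ℝ) + 1) ≤ dist x y) ∧
      ∀ x ∈ S \ (⋃ k ∈ Finset.range (n + 1), F k), x ∉ C →
        ∃ y ∈ C, ¬ (1 / ((n : ℝ) + 1) ≤ dist x y ∧ 1 / ((n : ℝ) + 1) ≤ dist y x) :=
    fun n => exists_max_pairwise _ _
  choose C hC1 hC2 hC3 using hC
  have hCc : ∀ n, IsClosed (C n) := fun n =>
    Metric.isClosed_of_pairwise_le_dist (by positivity) (hC2 n)
  set G : Set X := D ∩ ⋂ m, ((F m)ᶜ ∪ ⋃ n ∈ Finset.range m, C n) with hG
  have hGC : ∀ n, C n ⊆ G := by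
    intro n x hx
    refine ⟨hSD (hC1 n hx).1, mem_iInter.2 fun m => ?_⟩
    by_cases hm : n < m
    · right
      simp only [mem_iUnion]
      exact ⟨n, Finset.mem_range.2 hm, hx⟩
    · left
      intro hxF
      apply (hC1 n hx).2
      simp only [mem_iUnion]
      exact ⟨m, Finset.mem_range.2 (by omega), hxF⟩
  refine ⟨G, ?_, ?_, ?_⟩
  · rintro x ⟨hxD, hx⟩
    by_contra hxS
    obtain ⟨m, hm⟩ := mem_iUnion.1 (hcov ⟨hxD, hxS⟩)
    rcases mem_iInter.1 hx m with h1 | h1
    · exact h1 hm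
    · simp only [mem_iUnion] at h1
      obtain ⟨n, -, hn⟩ := h1
      exact hxS (hC1 n hn).1
  · refine hD.isGδ.inter (IsGδ.iInter fun m => ?_)
    refine ((hFc m).isOpen_compl.isGδ).union (IsClosed.isGδ ?_)
    exact Set.Finite.isClosed_biUnion (Finset.finite_toSet _) fun n _ => hCc n
  · intro x hx
    rw [Metric.mem_closure_iff]
    intro ε hε
    obtain ⟨ρ, hρ, hρD⟩ := Metric.isOpen_iff.1 hD x hx
    obtain ⟨n, hn⟩ := exists_nat_one_div_lt (show (0 : ℝ) < ε / 2 by positivity)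
    set δ := min ρ (ε / 2) with hδ
    have hδ0 : 0 < δ := lt_min hρ (by positivity)
    have hopen : IsOpen (Metric.ball x δ \ (⋃ k ∈ Finset.range (n + 1), F k)) :=
      Metric.isOpen_ball.sdiff
        (Set.Finite.isClosed_biUnion (Finset.finite_toSet _) fun k _ => hFc k)
    have hne : (Metric.ball x δ \ (⋃ k ∈ Finset.range (n + 1), F k)).Nonempty := by
      by_contra hemp
      rw [not_nonempty_iff_eq_empty, sdiff_eq_empty] at hemp
      have h1 := interior_mono hemp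
      rw [nd_iUnion hFn hFc (n + 1), Metric.isOpen_ball.interior_eq] at h1
      exact h1 (Metric.mem_ball_self hδ0)
    obtain ⟨z, hz⟩ := hne
    have hzD : z ∈ D := hρD (Metric.ball_subset_ball (min_le_left _ _) hz.1)
    obtain ⟨s, hs1, hs2⟩ := mem_closure_iff.1 (hdense hzD) _ hopen hz
    have hsx : dist s x < ε / 2 := (Metric.mem_ball.1 hs1.1).trans_le (min_le_right _ _)
    by_cases hsC : s ∈ C n
    · refine ⟨s, hGC n hsC, ?_⟩
      rw [dist_comm]
      linarith
    · obtain ⟨y, hy1, hy2⟩ := hC3 n s ⟨hs2, hs1.2⟩ hsC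
      refine ⟨y, hGC n hy1, ?_⟩
      have h3 : dist s y < 1 / ((n : ℝ) + 1) := by
        by_contra h4
        push Not at h4
        exact hy2 ⟨h4, by rw [dist_comm]; exact h4⟩
      have h4 := dist_triangle x s y
      rw [dist_comm] at hsx
      linarith

end H299.As
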