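import Pool.Agent.H299R3.AsA
import Pool.Agent.H647R3.DD

open Set Topology

namespace H299.As

open H647R3.Fac

universe u

variable {E : Type u} [AddCommGroup E] [Module ℝ E] [TopologicalSpace E]
  [IsTopologicalAddGroup E] [ContinuousSMul ℝ E]

/-- `φ` is a subgradient of `f` at `x` on `D` -/
def Sub (D : Set E) (f : E → ℝ) (x : E) (φ : E → ℝ) : Prop := ∀ y ∈ D, f x + φ (y - x) ≤ f y

lemma exists_subgrad {D : Set E} (hD : IsOpen D) {f : E → ℝ} (hfc : ContinuousOn f D)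
    (hf : ConvexOn ℝ D f) {x : E} (hx : x ∈ D) : ∃ φ : E →L[ℝ] ℝ, Sub D f x φ := by
  set s : Set (E × ℝ) := {z | z.1 ∈ D ∧ f z.1 < z.2} with hs
  have hs1 : Convex ℝ s := hf.convex_strict_epigraph
  have hs2 : IsOpen s := by
    have h1 : ContinuousOn (fun z : E × ℝ => f z.1 - z.2) (Prod.fst ⁻¹' D) :=
      (hfc.comp continuous_fst.continuousOn fun z hz => hz).sub continuous_snd.continuousOn
    have h2 := h1.isOpen_inter_preimage (hD.preimage continuous_fst) (isOpen_Iio (a := (0 : ℝ)))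
    convert h2 using 1
    ext z
    simp only [hs, mem_ofPred_eq, mem_inter_iff, mem_preimage, mem_Iio, sub_neg]
  have hs3 : (x, f x) ∉ s := fun h => lt_irrefl _ h.2
  obtain ⟨F, hF⟩ := geometric_hahn_banach_open_point hs1 hs2 hs3
  have hdec : ∀ (y : E) (r : ℝ), F (y, r) = F (y, 0) + r * F (0, 1) := by
    intro y r
    have e : ((y, r) : E × ℝ) = (y, 0) + r • (0, 1) := by simp
    rw [e, map_add, map_smul, smul_eq_mul]
  set c := F (0, 1) with hc
  have hc0 : c < 0 := by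
    have h1 := hF (x, f x + 1) ⟨hx, by simp⟩
    rw [hdec x (f x + 1), hdec x (f x)] at h1
    nlinarith
  refine ⟨(-(1 / c)) • (F.comp (ContinuousLinearMap.inl ℝ E ℝ)), fun y hy => ?_⟩
  have h1 : F (y, 0) + f y * c ≤ F (x, 0) + f x * c := by
    apply le_of_forall_pos_le_add
    intro ε hε
    have h2 := hF (y, f y + ε / (-c)) ⟨hy, by
      have : 0 < ε / (-c) := div_pos hε (by linarith)
      linarith⟩
    rw [hdec y _, hdec x (f x)] at h2
    have h3 : (f y + ε / (-c)) * c = f y * c - ε := by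
      have : c ≠ 0 := hc0.ne
      field_simp
      ring
    rw [h3] at h2
    linarith
  have h2 : ((-(1 / c)) • (F.comp (ContinuousLinearMap.inl ℝ E ℝ))) (y - x) =
      -(1 / c) * (F (y, 0) - F (x, 0)) := by
    change -(1 / c) * F (y - x, 0) = _
    rw [← map_sub]
    simp
  rw [h2]
  have h3 : -(1 / c) * (F (y, 0) - F (x, 0)) ≤ -(1 / c) * ((f x - f y) * c) := by
    apply mul_le_mul_of_nonneg_left
    · linarith
    · rw [neg_nonneg]
      exact div_nonpos_of_nonneg_of_nonpos zero_le_one hc0.le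
  have h4 : -(1 / c) * ((f x - f y) * c) = f y - f x := by
    have : c ≠ 0 := hc0.ne
    field_simp
    ring
  linarith

lemma split {D : Set E} (hD : IsOpen D) {f : E → ℝ} (hfc : ContinuousOn f D)
    {x h : E} {t ε : ℝ} (ht : 0 < t) (hε : 0 < ε) (hx : x ∈ D) (h1 : x + t • h ∈ D)
    (h2 : x - t • h ∈ D) (hbad : ε * t < f (x + t • h) + f (x - t • h) - 2 * f x)
    {U : Set E} (hU : IsOpen U) (hU1 : x + t • h ∈ U) (hU2 : x - t • h ∈ U) :
    ∃ (c : ℝ) (U0 U1 : Set E), U0 ⊆ U ∧ U1 ⊆ U ∧ IsOpen U0 ∧ IsOpen U1 ∧ U0.Nonempty ∧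
      U1.Nonempty ∧
      (∀ z ∈ U1, ∀ φ : E →L[ℝ] ℝ, Sub D f z φ → c + ε / 3 ≤ φ h) ∧
      (∀ z ∈ U0, ∀ φ : E →L[ℝ] ℝ, Sub D f z φ → φ h ≤ c) := by
  have cD : ∀ y ∈ D, ContinuousAt f y := fun y hy => hfc.continuousAt (hD.mem_nhds hy)
  have e1 : ∀ᶠ z in 𝓝 (x + t • h), z ∈ U ∧ z - t • h ∈ D ∧
      (f (x + t • h) - f x) - ε * t / 3 < f z - f (z - t • h) := by
    have a1 : ∀ᶠ z in 𝓝 (x + t • h), z ∈ U := hU.mem_nhds hU1
    have c1 : ContinuousAt (fun z : E => z - t • h) (x + t • h) := by fun_prop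
    have a2 : ∀ᶠ z in 𝓝 (x + t • h), z - t • h ∈ D := by
      apply c1.eventually (hD.mem_nhds ?_)
      simpa using hx
    have c2 : ContinuousAt (fun z : E => f z - f (z - t • h)) (x + t • h) := by
      apply (cD _ h1).sub
      apply ContinuousAt.comp (g := f) _ c1
      rw [add_sub_cancel_right]
      exact cD x hx
    have a3 := c2.eventually (lt_mem_nhds (show (f (x + t • h) - f x) - ε * t / 3 <
      f (x + t • h) - f (x + t • h - t • h) by
        rw [add_sub_cancel_right]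
        have : 0 < ε * t := by positivity
        linarith))
    filter_upwards [a1, a2, a3] with z b1 b2 b3
    exact ⟨b1, b2, b3⟩
  have e2 : ∀ᶠ z in 𝓝 (x - t • h), z ∈ U ∧ z + t • h ∈ D ∧
      f (z + t • h) - f z < (f x - f (x - t • h)) + ε * t / 3 := by
    have a1 : ∀ᶠ z in 𝓝 (x - t • h), z ∈ U := hU.mem_nhds hU2
    have c1 : ContinuousAt (fun z : E => z + t • h) (x - t • h) := by fun_prop
    have a2 : ∀ᶠ z in 𝓝 (x - t • h), z + t • h ∈ D := by
      apply c1.eventually (hD.mem_nhds ?_)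
      simpa using hx
    have c2 : ContinuousAt (fun z : E => f (z + t • h) - f z) (x - t • h) := by
      apply ContinuousAt.sub _ (cD _ h2)
      apply ContinuousAt.comp (g := f) _ c1
      rw [sub_add_cancel]
      exact cD x hx
    have a3 := c2.eventually (gt_mem_nhds (show f (x - t • h + t • h) - f (x - t • h) <
      (f x - f (x - t • h)) + ε * t / 3 by
        rw [sub_add_cancel]
        have : 0 < ε * t := by positivity
        linarith))
    filter_upwards [a1, a2, a3] with z b1 b2 b3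
    exact ⟨b1, b2, b3⟩
  obtain ⟨U1, hU1a, hU1o, hU1m⟩ := eventually_nhds_iff.1 e1
  obtain ⟨U0, hU0a, hU0o, hU0m⟩ := eventually_nhds_iff.1 e2
  refine ⟨(f x - f (x - t • h)) / t + ε / 3, U0, U1, fun z hz => (hU0a z hz).1,
    fun z hz => (hU1a z hz).1, hU0o, hU1o, ⟨_, hU0m⟩, ⟨_, hU1m⟩, ?_, ?_⟩
  · intro z hz φ hφ
    obtain ⟨-, b2, b3⟩ := hU1a z hz
    have b4 := hφ _ b2
    have b5 : φ (z - t • h - z) = -(t * φ h) := by
      rw [sub_sub_cancel_left, map_neg, map_smul, smul_eq_mul]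
    rw [b5] at b4
    have b6 : (f x - f (x - t • h)) / t + ε / 3 + ε / 3 =
        ((f x - f (x - t • h)) + 2 * (ε * t) / 3) / t := by field_simp; ring
    rw [b6, div_le_iff₀ ht]
    linarith
  · intro z hz φ hφ
    obtain ⟨-, b2, b3⟩ := hU0a z hz
    have b4 := hφ _ b2
    have b5 : φ (z + t • h - z) = t * φ h := by
      rw [add_sub_cancel_left, map_smul, smul_eq_mul]
    rw [b5] at b4
    have b6 : (f x - f (x - t • h)) / t + ε / 3 =
        ((f x - f (x - t • h)) + ε * t / 3) / t := by field_simp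
    rw [b6, le_div_iff₀ ht]
    linarith

lemma small_bdd {B : Set E} (hB : Bornology.IsVonNBounded ℝ B) {U : Set E} (hU : IsOpen U)
    {x : E} (hx : x ∈ U) : ∃ δ > 0, ∀ b ∈ B, ∀ t : ℝ, |t| < δ → x + t • b ∈ U := by
  have h1 : (fun v : E => x + v) ⁻¹' U ∈ 𝓝 (0 : E) := by
    have hc : Continuous (fun v : E => x + v) := by fun_prop
    apply hc.continuousAt.preimage_mem_nhds
    rw [add_zero]
    exact hU.mem_nhds hx
  obtain ⟨r, hr, h2⟩ := (hB h1).exists_pos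
  refine ⟨r⁻¹, inv_pos.2 hr, fun b hb t ht => ?_⟩
  by_cases ht0 : t = 0
  · subst ht0
    rw [zero_smul, add_zero]; exact hx
  · have h3 : r ≤ ‖t⁻¹‖ := by
      rw [norm_inv, Real.norm_eq_abs]
      rw [le_inv_comm₀ hr (abs_pos.2 ht0)]
      exact ht.le
    obtain ⟨v, hv, hvb⟩ := h2 t⁻¹ h3 hb
    simp only at hvb
    have h4 : t • b = v := by
      rw [← hvb, smul_smul, mul_inv_cancel₀ ht0, one_smul]
    rw [h4]
    exact hv

lemma loc_bound {D : Set E} (hD : IsOpen D) {f : E → ℝ} (hfc : ContinuousOn f D)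
    {x₀ : E} (hx₀ : x₀ ∈ D) : ∃ (W V : Set E), IsOpen W ∧ x₀ ∈ W ∧ W ⊆ D ∧ V ∈ 𝓝 (0 : E) ∧
      ∀ z ∈ W, ∀ φ : E →L[ℝ] ℝ, Sub D f z φ → ∀ v ∈ V, |φ v| ≤ 2 := by
  have h1 : ∀ᶠ y in 𝓝 x₀, y ∈ D ∧ f x₀ - 1 < f y ∧ f y < f x₀ + 1 := by
    have cD := hfc.continuousAt (hD.mem_nhds hx₀)
    have a1 : ∀ᶠ y in 𝓝 x₀, y ∈ D := hD.mem_nhds hx₀
    have a2 := cD.eventually (lt_mem_nhds (show f x₀ - 1 < f x₀ by linarith))
    have a3 := cD.eventually (gt_mem_nhds (show f x₀ < f x₀ + 1 by linarith))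
    filter_upwards [a1, a2, a3] with y b1 b2 b3
    exact ⟨b1, b2, b3⟩
  obtain ⟨N, hN, hNo, hxN⟩ := eventually_nhds_iff.1 h1
  have hc : ContinuousAt (fun q : E × E => q.1 + q.2) (x₀, 0) := by fun_prop
  have h2 : (fun q : E × E => q.1 + q.2) ⁻¹' N ∈ 𝓝 ((x₀, 0) : E × E) := by
    apply hc.preimage_mem_nhds
    simp only [add_zero]
    exact hNo.mem_nhds hxN
  obtain ⟨W, hW, V, hV, hWV⟩ := mem_nhds_prod_iff.1 h2
  obtain ⟨W', hW'W, hW'o, hxW'⟩ := mem_nhds_iff.1 hW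
  have hVn : -V ∈ 𝓝 (0 : E) := by
    have := neg_mem_nhds_zero E hV
    exact this
  refine ⟨W' ∩ N, V ∩ -V, hW'o.inter hNo, ⟨hxW', hxN⟩, fun z hz => (hN z hz.2).1,
    Filter.inter_mem hV hVn, fun z hz φ hφ v hv => ?_⟩
  obtain ⟨-, n1, n2⟩ := hN z hz.2
  have h3 : z + v ∈ N := hWV (show ((z, v) : E × E) ∈ W ×ˢ V from ⟨hW'W hz.1, hv.1⟩)
  have h4 : z + -v ∈ N := hWV (show ((z, -v) : E × E) ∈ W ×ˢ V from ⟨hW'W hz.1, hv.2⟩)
  obtain ⟨d1, -, m1⟩ := hN _ h3
  obtain ⟨d2, -, m2⟩ := hN _ h4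
  have s1 := hφ _ d1
  have s2 := hφ _ d2
  rw [add_sub_cancel_left] at s1 s2
  rw [map_neg] at s2
  rw [abs_le]
  constructor <;> linarith

end H299.As
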