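import Pool.Agent.H299R3.AsB

open Set Topology

namespace H299.As

open H647R3.Fac

universe u

variable {E : Type u} [AddCommGroup E] [Module ℝ E] [TopologicalSpace E]
  [IsTopologicalAddGroup E] [ContinuousSMul ℝ E]

/-- linear functionals bounded by `2` on `V` -/
def XV (V : Set E) : Set (E → ℝ) :=
  {φ | (∀ x y, φ (x + y) = φ x + φ y) ∧ (∀ (a : ℝ) x, φ (a • x) = a * φ x) ∧ ∀ v ∈ V, |φ v| ≤ 2}

lemma absorb {V : Set E} (hV : V ∈ 𝓝 (0 : E)) (y : E) : ∃ a : ℝ, 0 < a ∧ a • y ∈ V := by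
  have hc : ContinuousAt (fun a : ℝ => a • y) 0 := by fun_prop
  have h1 : V ∈ 𝓝 ((fun a : ℝ => a • y) 0) := by simpa using hV
  obtain ⟨δ, hδ, h2⟩ := Metric.mem_nhds_iff.1 (hc.preimage_mem_nhds h1)
  refine ⟨δ / 2, by positivity, h2 ?_⟩
  rw [Metric.mem_ball, Real.dist_eq, sub_zero, abs_of_pos (by positivity)]
  linarith

lemma XV_bound {V : Set E} (hV : V ∈ 𝓝 (0 : E)) (y : E) : ∃ C : ℝ, ∀ φ ∈ XV V, |φ y| ≤ C := by
  obtain ⟨a, ha, hy⟩ := absorb hV y
  refine ⟨2 / a, fun φ hφ => ?_⟩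
  have h1 := hφ.2.2 _ hy
  rw [hφ.2.1, abs_mul, abs_of_pos ha] at h1
  rw [le_div_iff₀ ha]
  linarith

lemma XV_closed (V : Set E) : IsClosed (XV V) := by
  have : XV V = (⋂ x : E, ⋂ y : E, {φ : E → ℝ | φ (x + y) = φ x + φ y}) ∩
      ((⋂ a : ℝ, ⋂ x : E, {φ : E → ℝ | φ (a • x) = a * φ x}) ∩
        ⋂ v ∈ V, {φ : E → ℝ | |φ v| ≤ 2}) := by
    ext φ
    simp only [XV, mem_ofPred_eq, mem_inter_iff, mem_iInter]
  rw [this]
  refine IsClosed.inter (isClosed_iInter fun x => isClosed_iInter fun y => ?_)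
    (IsClosed.inter (isClosed_iInter fun a => isClosed_iInter fun x => ?_)
      (isClosed_iInter fun v => isClosed_iInter fun _ => ?_))
  · exact isClosed_eq (by fun_prop) (by fun_prop)
  · exact isClosed_eq (by fun_prop) (by fun_prop)
  · exact isClosed_le (continuous_apply v).abs continuous_const

lemma XV_compact {V : Set E} (hV : V ∈ 𝓝 (0 : E)) : IsCompact (XV V) := by
  choose C hC using fun y => XV_bound hV y
  have h1 : IsCompact (Set.pi univ fun y : E => Icc (-C y) (C y)) :=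
    isCompact_univ_pi fun y => isCompact_Icc
  exact h1.of_isClosed_subset (XV_closed V) fun φ hφ y _ => abs_le.1 (hC y φ hφ)

lemma res_isOpen (n : ℕ) (l : List Bool) : IsOpen {s : ℕ → Bool | PiNat.res s n = l} := by
  rw [isOpen_iff_mem_nhds]
  intro s hs
  have h1 : PiNat.cylinder s n ∈ 𝓝 s :=
    (PiNat.isOpen_cylinder _ s n).mem_nhds (PiNat.self_mem_cylinder s n)
  filter_upwards [h1] with s' hs'
  rw [PiNat.cylinder_eq_res] at hs'
  exact hs'.trans hs

/-- the compact set attached to a tree -/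
def TT (V : Set E) (b : List Bool → E) (c : List Bool → ℝ) (η : ℝ) :
    Set ((ℕ → Bool) × (E → ℝ)) :=
  {q | q.2 ∈ XV V ∧ ∀ (n : ℕ) (l : List Bool),
    (PiNat.res q.1 (n + 1) = true :: l → c l + η ≤ q.2 (b l)) ∧
    (PiNat.res q.1 (n + 1) = false :: l → q.2 (b l) ≤ c l)}

lemma TT_closed (V : Set E) (b : List Bool → E) (c : List Bool → ℝ) (η : ℝ) :
    IsClosed (TT V b c η) := by
  have : TT V b c η = (Prod.snd ⁻¹' (XV V)) ∩ ⋂ n : ℕ, ⋂ l : List Bool,
      (({q : (ℕ → Bool) × (E → ℝ) | PiNat.res q.1 (n + 1) = true :: l}ᶜ ∪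
        {q | c l + η ≤ q.2 (b l)}) ∩
      ({q : (ℕ → Bool) × (E → ℝ) | PiNat.res q.1 (n + 1) = false :: l}ᶜ ∪
        {q | q.2 (b l) ≤ c l})) := by
    ext q
    simp only [TT, mem_ofPred_eq, mem_inter_iff, mem_iInter, mem_union, mem_compl_iff, mem_preimage,
      imp_iff_not_or]
  rw [this]
  have ho : ∀ (n : ℕ) (l : List Bool),
      IsOpen {q : (ℕ → Bool) × (E → ℝ) | PiNat.res q.1 (n + 1) = l} := fun n l =>
    (res_isOpen (n + 1) l).preimage continuous_fst
  have hev : ∀ l, Continuous fun q : (ℕ → Bool) × (E → ℝ) => q.2 (b l) := fun l =>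
    (continuous_apply (b l)).comp continuous_snd
  refine IsClosed.inter ((XV_closed V).preimage continuous_snd)
    (isClosed_iInter fun n => isClosed_iInter fun l => IsClosed.inter ?_ ?_)
  · exact (ho n _).isClosed_compl.union (isClosed_le continuous_const (hev l))
  · exact (ho n _).isClosed_compl.union (isClosed_le (hev l) continuous_const)

lemma TT_compact {V : Set E} (hV : V ∈ 𝓝 (0 : E)) (b : List Bool → E) (c : List Bool → ℝ) (η : ℝ) :
    IsCompact (TT V b c η) :=
  (isCompact_univ.prod (XV_compact hV)).of_isClosed_subset (TT_closed V b c η)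
    fun _ hq => ⟨mem_univ _, hq.1⟩

/-- a separating tree of functionals gives a nowhere differentiable function -/
theorem rough_of_tree {V : Set E} (hV : V ∈ 𝓝 (0 : E)) {b : List Bool → E} {c : List Bool → ℝ}
    {η : ℝ} (hη : 0 < η) (hb : Bornology.IsVonNBounded ℝ (range b))
    (hsurj : ∀ s : ℕ → Bool, ∀ m : ℕ, ∃ φ ∈ XV V, ∀ n < m,
      (s n = true → c (PiNat.res s n) + η ≤ φ (b (PiNat.res s n))) ∧
      (s n = false → φ (b (PiNat.res s n)) ≤ c (PiNat.res s n))) :
    ∃ g : E → ℝ, Continuous g ∧ ConvexOn ℝ univ g ∧ ∀ y, ¬ SD (bdd E) univ g y := by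
  -- surjectivity
  have hsur : ∀ s : ℕ → Bool, ∃ φ, (s, φ) ∈ TT V b c η := by
    intro s
    set F : ℕ → Set (E → ℝ) := fun m => XV V ∩ {φ | ∀ n < m,
      (s n = true → c (PiNat.res s n) + η ≤ φ (b (PiNat.res s n))) ∧
      (s n = false → φ (b (PiNat.res s n)) ≤ c (PiNat.res s n))} with hF
    have hFc : ∀ m, IsClosed (F m) := by
      intro m
      apply (XV_closed V).inter
      have : {φ : E → ℝ | ∀ n < m,
        (s n = true → c (PiNat.res s n) + η ≤ φ (b (PiNat.res s n))) ∧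
        (s n = false → φ (b (PiNat.res s n)) ≤ c (PiNat.res s n))} =
        ⋂ n, ⋂ (_ : n < m), ((⋂ (_ : s n = true), {φ | c (PiNat.res s n) + η ≤
          φ (b (PiNat.res s n))}) ∩ ⋂ (_ : s n = false), {φ : E → ℝ |
            φ (b (PiNat.res s n)) ≤ c (PiNat.res s n)}) := by
        ext φ
        simp only [mem_ofPred_eq, mem_iInter, mem_inter_iff]
      rw [this]
      refine isClosed_iInter fun n => isClosed_iInter fun _ => IsClosed.inter
        (isClosed_iInter fun _ => isClosed_le continuous_const (continuous_apply _))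
        (isClosed_iInter fun _ => isClosed_le (continuous_apply _) continuous_const)
    obtain ⟨φ, hφ⟩ := IsCompact.nonempty_iInter_of_sequence_nonempty_isCompact_isClosed F
      (fun m φ hφ => ⟨hφ.1, fun n hn => hφ.2 n (by omega)⟩)
      (fun m => by
        obtain ⟨φ, h1, h2⟩ := hsurj s m
        exact ⟨φ, h1, h2⟩)
      ((XV_compact hV).of_isClosed_subset (hFc 0) inter_subset_left) hFc
    rw [mem_iInter] at hφ
    refine ⟨φ, (hφ 0).1, fun n l => ⟨fun h => ?_, fun h => ?_⟩⟩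
    · simp only [PiNat.res_succ, List.cons.injEq] at h
      obtain ⟨h1, h2⟩ := h
      subst h2
      exact ((hφ (n + 1)).2 n (by omega)).1 h1
    · simp only [PiNat.res_succ, List.cons.injEq] at h
      obtain ⟨h1, h2⟩ := h
      subst h2
      exact ((hφ (n + 1)).2 n (by omega)).2 h1
  have hTc : CompactSpace (TT V b c η) := isCompact_iff_compactSpace.1 (TT_compact hV b c η)
  let X : TT V b c η → ULift.{u} (ℕ → Bool) := fun q => ⟨q.1.1⟩
  have hX : Continuous X := continuous_uliftUp.comp (continuous_fst.comp continuous_subtype_val)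
  have hXs : Function.Surjective X := by
    rintro ⟨s⟩
    obtain ⟨φ, hφ⟩ := hsur s
    exact ⟨⟨(s, φ), hφ⟩, rfl⟩
  obtain ⟨K, hKc, hKs, hKm⟩ := exists_compact_surjective_zorn_subset hX hXs
  let ev : K → E → ℝ := fun q => q.1.1.2
  have hevc : ∀ y, Continuous fun q : K => ev q y := fun y =>
    (continuous_apply y).comp (continuous_snd.comp
      (continuous_subtype_val.comp continuous_subtype_val))
  have hevX : ∀ q : K, ev q ∈ XV V := fun q => q.1.2.1
  obtain ⟨q₀⟩ : Nonempty K := by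
    have : (⟨fun _ => true⟩ : ULift.{u} (ℕ → Bool)) ∈ X '' K := by rw [hKs]; trivial
    obtain ⟨q, hq, -⟩ := this
    exact ⟨⟨q, hq⟩⟩
  choose C hC using fun y => XV_bound hV y
  let g : E → ℝ := fun y => sSup (range fun q : K => ev q y)
  have hbdd : ∀ y, BddAbove (range fun q : K => ev q y) := by
    intro y
    refine ⟨C y, ?_⟩
    rintro _ ⟨q, rfl⟩
    exact (abs_le.1 (hC y _ (hevX q))).2
  have hle : ∀ (q : K) y, ev q y ≤ g y := fun q y => le_csSup (hbdd y) ⟨q, rfl⟩
  have hlub : ∀ y r, (∀ q : K, ev q y ≤ r) → g y ≤ r := by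
    intro y r h
    apply csSup_le (⟨ev q₀ y, q₀, rfl⟩ : (range fun q : K => ev q y).Nonempty)
    rintro _ ⟨q, rfl⟩
    exact h q
  have hgconv : ConvexOn ℝ univ g := by
    refine ⟨convex_univ, fun x _ y _ a b' ha hb' _ => ?_⟩
    apply hlub
    intro q
    have h1 : ev q (a • x + b' • y) = a * ev q x + b' * ev q y := by
      rw [(hevX q).1, (hevX q).2.1, (hevX q).2.1]
    rw [h1]
    simp only [smul_eq_mul]
    have h2 := mul_le_mul_of_nonneg_left (hle q x) ha
    have h3 := mul_le_mul_of_nonneg_left (hle q y) hb'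
    linarith
  have hsubadd : ∀ y z, g y ≤ g z + g (y - z) := by
    intro y z
    apply hlub
    intro q
    have h1 : ev q y = ev q z + ev q (y - z) := by
      rw [← (hevX q).1]; simp
    rw [h1]
    exact add_le_add (hle q z) (hle q _)
  have hgcont : Continuous g := by
    rw [continuous_iff_continuousAt]
    intro y
    rw [Metric.continuousAt_iff']
    intro ε hε
    have hW : ∀ᶠ z in 𝓝 y, (4 / ε) • (z - y) ∈ V ∩ -V := by
      have hc : ContinuousAt (fun z : E => (4 / ε) • (z - y)) y := by fun_prop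
      apply hc.preimage_mem_nhds
      simp only [sub_self, smul_zero]
      exact Filter.inter_mem hV (neg_mem_nhds_zero E hV)
    filter_upwards [hW] with z hz
    have hsmall : ∀ w : E, (4 / ε) • w ∈ V → g w ≤ ε / 2 := by
      intro w hw
      apply hlub
      intro q
      have h1 := (abs_le.1 ((hevX q).2.2 _ hw)).2
      rw [(hevX q).2.1, div_mul_eq_mul_div, div_le_iff₀ hε] at h1
      linarith
    have h1 := hsmall _ hz.1
    have h2 : g (y - z) ≤ ε / 2 := by
      apply hsmall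
      have h3 : (4 / ε) • (y - z) = -((4 / ε) • (z - y)) := by
        rw [← smul_neg, neg_sub]
      rw [h3]
      exact hz.2
    have h3 := hsubadd z y
    have h4 := hsubadd y z
    rw [Real.dist_eq, abs_lt]
    constructor <;> linarith
  refine ⟨g, hgcont, hgconv, fun y hSD => ?_⟩
  obtain ⟨δ, hδ, hSD⟩ := hSD (range b) hb (η / 4) (by positivity)
  set t : ℝ := δ / 2 with ht
  have ht0 : 0 < t := by positivity
  have htδ : t < δ := by linarith
  set W : Set K := {q | g y - η / 4 * t < ev q y} with hW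
  have hWo : IsOpen W := isOpen_lt continuous_const (hevc y)
  have hWne : Wᶜ ≠ univ := by
    intro h
    have h1 : g y ≤ g y - η / 4 * t := by
      apply hlub
      intro q
      have : q ∈ Wᶜ := by rw [h]; trivial
      exact not_lt.1 this
    have : 0 < η / 4 * t := by positivity
    linarith
  have himg := hKm Wᶜ hWne hWo.isClosed_compl
  set R : Set (ULift.{u} (ℕ → Bool)) := K.domRestrict X '' Wᶜ with hR
  have hRc : IsClosed R := by
    apply IsCompact.isClosed
    apply hWo.isClosed_compl.isCompact.image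
    exact hX.comp continuous_subtype_val
  obtain ⟨⟨s⟩, hs⟩ := (ne_univ_iff_exists_notMem R).1 himg
  have hO : IsOpen (ULift.up ⁻¹' Rᶜ : Set (ℕ → Bool)) := hRc.isOpen_compl.preimage continuous_uliftUp
  have hsO : s ∈ (ULift.up ⁻¹' Rᶜ : Set (ℕ → Bool)) := hs
  obtain ⟨n, hn⟩ : ∃ n, PiNat.cylinder s n ⊆ (ULift.up ⁻¹' Rᶜ : Set (ℕ → Bool)) := by
    obtain ⟨v, hv, hsv, hvO⟩ := (PiNat.isTopologicalBasis_cylinders (E := fun _ : ℕ => Bool)).mem_nhds_iff.1
      (hO.mem_nhds hsO)
    obtain ⟨x, m, rfl⟩ := hv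
    exact ⟨m, by rwa [← PiNat.mem_cylinder_iff_eq.1 hsv] at hvO⟩
  have key : ∀ s₁ : ℕ → Bool, s₁ ∈ PiNat.cylinder s n → ∃ q ∈ W, q.1.1.1 = s₁ := by
    intro s₁ hs₁
    have h1 : (⟨s₁⟩ : ULift.{u} (ℕ → Bool)) ∈ X '' K := by rw [hKs]; trivial
    obtain ⟨q, hq, hqs⟩ := h1
    refine ⟨⟨q, hq⟩, ?_, ?_⟩
    · by_contra hqW
      exact hn hs₁ ⟨⟨q, hq⟩, hqW, hqs⟩
    · exact congrArg ULift.down hqs
  have hcyl : ∀ a : Bool, Function.update s n a ∈ PiNat.cylinder s n := fun a =>
    PiNat.update_mem_cylinder s n a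
  obtain ⟨q1, hq1W, hq1⟩ := key _ (hcyl true)
  obtain ⟨q2, hq2W, hq2⟩ := key _ (hcyl false)
  have hres : ∀ a : Bool, PiNat.res (Function.update s n a) (n + 1) = a :: PiNat.res s n := by
    intro a
    rw [PiNat.res_succ]
    congr 1
    · simp
    · rw [PiNat.res_eq_res]
      intro m hm
      rw [Function.update_of_ne (by omega)]
  have e1 := (q1.1.2.2 n (PiNat.res s n)).1 (by rw [hq1]; exact hres true)
  have e2 := (q2.1.2.2 n (PiNat.res s n)).2 (by rw [hq2]; exact hres false)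
  change c (PiNat.res s n) + η ≤ ev q1 (b (PiNat.res s n)) at e1
  change ev q2 (b (PiNat.res s n)) ≤ c (PiNat.res s n) at e2
  set β := b (PiNat.res s n) with hβ
  obtain ⟨-, -, h3⟩ := hSD β ⟨_, rfl⟩ t ht0 htδ
  have f1 := hle q1 (y + t • β)
  have f2 := hle q2 (y - t • β)
  rw [(hevX q1).1, (hevX q1).2.1] at f1
  have f3 : ev q2 (y - t • β) = ev q2 y - t * ev q2 β := by
    have := (hevX q2).1 (y - t • β) (t • β)
    rw [sub_add_cancel, (hevX q2).2.1] at this
    linarith
  rw [f3] at f2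
  have g1 : g y - η / 4 * t < ev q1 y := hq1W
  have g2 : g y - η / 4 * t < ev q2 y := hq2W
  have e3 := mul_le_mul_of_nonneg_left e1 ht0.le
  have e4 := mul_le_mul_of_nonneg_left e2 ht0.le
  have e5 : 0 < η * t := by positivity
  nlinarith

end H299.As
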