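import Pool.Agent.H299R3.AsC

open Set Topology

namespace H299.As

open H647R3.Fac

universe u

variable {E : Type u} [AddCommGroup E] [Module ℝ E] [TopologicalSpace E]

/-- a countable-tree description of the bounded sets -/
structure Sys (P : ℕ → (ℕ → ℕ) → Set E) : Prop where
  mono : ∀ k r r', (∀ i < k, r i ≤ r' i) → P k r ⊆ P k r'
  anti : ∀ j k r, j ≤ k → P k r ⊆ P j r
  cover : ∀ B : Set E, Bornology.IsVonNBounded ℝ B → ∃ r, ∀ k, B ⊆ P k r
  bdd : ∀ r (B : Set E), (∀ k, (B \ P k r).Finite) → Bornology.IsVonNBounded ℝ B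

/-- bad points with partially prescribed bounds -/
def BadP (P : ℕ → (ℕ → ℕ) → Set E) (D : Set E) (f : E → ℝ) (ε : ℝ) (k : ℕ) (r : ℕ → ℕ) : Set E :=
  {x | x ∈ D ∧ ∃ (r' : ℕ → ℕ) (B : Set E), (∀ i < k, r' i ≤ r i) ∧ Bornology.IsVonNBounded ℝ B ∧
    (∀ j, B ⊆ P j r') ∧ ∀ δ > 0, ∃ h ∈ B, ∃ t : ℝ, 0 < t ∧ t < δ ∧
      ¬ (x + t • h ∈ D ∧ x - t • h ∈ D ∧ f (x + t • h) + f (x - t • h) - 2 * f x ≤ ε * t)}

/-- everywhere nonmeagre at level `k` -/
def Good (P : ℕ → (ℕ → ℕ) → Set E) (D : Set E) (f : E → ℝ) (ε : ℝ) (k : ℕ) (r : ℕ → ℕ)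
    (U : List Bool → Set E) : Prop :=
  ∀ l : List Bool, l.length = k → IsOpen (U l) ∧ (U l).Nonempty ∧ U l ⊆ D ∧
    ∀ V ⊆ U l, IsOpen V → V.Nonempty → ¬ IsMeagre (BadP P D f ε k r ∩ V)

variable [IsTopologicalAddGroup E] [ContinuousSMul ℝ E]

/-- children -/
def kids (U0 U1 : List Bool → Set E) : List Bool → Set E
  | [] => ∅
  | (true :: l) => U1 l
  | (false :: l) => U0 l

theorem step {P : ℕ → (ℕ → ℕ) → Set E} (hP : Sys P) {D : Set E} (hD : IsOpen D) {f : E → ℝ}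
    (hfc : ContinuousOn f D) {ε : ℝ} (hε : 0 < ε) (k : ℕ) (r : ℕ → ℕ)
    (U : List Bool → Set E) (hG : Good P D f ε k r U) :
    ∃ (r' : ℕ → ℕ) (U' : List Bool → Set E) (b : List Bool → E) (c : List Bool → ℝ),
      Good P D f ε (k + 1) r' U' ∧ (∀ i < k, r' i = r i) ∧
      ∀ l, l.length = k → U' (false :: l) ⊆ U l ∧ U' (true :: l) ⊆ U l ∧ b l ∈ P (k + 1) r' ∧
        (∀ z ∈ U' (true :: l), ∀ φ : E →L[ℝ] ℝ, Sub D f z φ → c l + ε / 3 ≤ φ (b l)) ∧
        (∀ z ∈ U' (false :: l), ∀ φ : E →L[ℝ] ℝ, Sub D f z φ → φ (b l) ≤ c l) := by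
  have h1 : ∀ l : List Bool, l.length = k → ∃ m : ℕ,
      ¬ IsMeagre (BadP P D f ε (k + 1) (Function.update r k m) ∩ U l) := by
    intro l hl
    by_contra hcon
    push Not at hcon
    obtain ⟨g1, g2, g3, g4⟩ := hG l hl
    apply g4 (U l) subset_rfl g1 g2
    apply (isMeagre_iUnion hcon).mono
    rintro x ⟨⟨hxD, r', B, h1, h2, h3, h4⟩, hxU⟩
    refine mem_iUnion.2 ⟨r' k, ⟨hxD, r', B, ?_, h2, h3, h4⟩, hxU⟩
    intro i hi
    by_cases hik : i = k
    · subst hik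
      simp
    · rw [Function.update_of_ne hik]
      exact h1 i (by omega)
  choose! m hm using h1
  obtain ⟨M, hM⟩ : ∃ M : ℕ, ∀ l : List Bool, l.length = k → m l ≤ M := by
    obtain ⟨M, hM⟩ := ((List.finite_length_eq Bool k).image m).bddAbove
    exact ⟨M, fun l hl => hM ⟨l, hl, rfl⟩⟩
  set r' := Function.update r k M with hr'
  have hmono : ∀ (a b : ℕ → ℕ) (j : ℕ), (∀ i < j, a i ≤ b i) →
      BadP P D f ε j a ⊆ BadP P D f ε j b := by
    rintro a b j hab x ⟨hxD, r', B, h1, h2⟩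
    exact ⟨hxD, r', B, fun i hi => (h1 i hi).trans (hab i hi), h2⟩
  have h2 : ∀ l : List Bool, l.length = k → ¬ IsMeagre (BadP P D f ε (k + 1) r' ∩ U l) := by
    intro l hl hme
    apply hm l hl
    apply hme.mono
    apply inter_subset_inter_left
    apply hmono
    intro i hi
    by_cases hik : i = k
    · subst hik
      simp only [hr', Function.update_self]
      exact hM l hl
    · rw [hr', Function.update_of_ne hik, Function.update_of_ne hik]
  have h3 : ∀ l : List Bool, l.length = k → ∃ (b : E) (c : ℝ) (U0 U1 : Set E),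
      U0 ⊆ U l ∧ U1 ⊆ U l ∧ IsOpen U0 ∧ IsOpen U1 ∧ U0.Nonempty ∧ U1.Nonempty ∧
      b ∈ P (k + 1) r' ∧
      (∀ V ⊆ U0, IsOpen V → V.Nonempty → ¬ IsMeagre (BadP P D f ε (k + 1) r' ∩ V)) ∧
      (∀ V ⊆ U1, IsOpen V → V.Nonempty → ¬ IsMeagre (BadP P D f ε (k + 1) r' ∩ V)) ∧
      (∀ z ∈ U1, ∀ φ : E →L[ℝ] ℝ, Sub D f z φ → c + ε / 3 ≤ φ b) ∧
      (∀ z ∈ U0, ∀ φ : E →L[ℝ] ℝ, Sub D f z φ → φ b ≤ c) := by
    intro l hl
    obtain ⟨g1, g2, g3, g4⟩ := hG l hl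
    obtain ⟨U₁, hU₁o, hU₁n, hU₁⟩ := localize (h2 l hl)
    obtain ⟨x, ⟨hxB, hxU⟩, hxU₁⟩ := nonempty_of_not_isMeagre (hU₁ U₁ subset_rfl hU₁o hU₁n)
    obtain ⟨hxD, r'', B, b1, b2, b3, b4⟩ := hxB
    have hWo : IsOpen (U₁ ∩ U l) := hU₁o.inter g1
    obtain ⟨δ, hδ, hsm⟩ := small_bdd b2 hWo (x := x) ⟨hxU₁, hxU⟩
    obtain ⟨h, hh, t, ht0, htδ, hn⟩ := b4 δ hδ
    have p1 : x + t • h ∈ U₁ ∩ U l := hsm h hh t (by rwa [abs_of_pos ht0])
    have p2 : x - t • h ∈ U₁ ∩ U l := by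
      have := hsm h hh (-t) (by rwa [abs_neg, abs_of_pos ht0])
      rwa [neg_smul, ← sub_eq_add_neg] at this
    have hbad : ε * t < f (x + t • h) + f (x - t • h) - 2 * f x := by
      by_contra hcon
      exact hn ⟨g3 p1.2, g3 p2.2, not_lt.1 hcon⟩
    obtain ⟨c, U0, U1, s1, s2, s3, s4, s5, s6, s7, s8⟩ :=
      split hD hfc ht0 hε hxD (g3 p1.2) (g3 p2.2) hbad hWo p1 p2
    have hall : ∀ V ⊆ U₁ ∩ U l, IsOpen V → V.Nonempty →
        ¬ IsMeagre (BadP P D f ε (k + 1) r' ∩ V) := by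
      intro V hV hVo hVn hme
      apply hU₁ V (hV.trans inter_subset_left) hVo hVn
      have hsub : (BadP P D f ε (k + 1) r' ∩ U l) ∩ V ⊆ BadP P D f ε (k + 1) r' ∩ V :=
        inter_subset_inter_left V inter_subset_left
      exact hme.mono hsub
    refine ⟨h, c, U0, U1, s1.trans inter_subset_right, s2.trans inter_subset_right, s3, s4, s5, s6,
      hP.mono _ _ _ b1 (b3 _ hh), fun V hV => hall V (hV.trans s1), fun V hV => hall V (hV.trans s2),
      s7, s8⟩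
  choose! b c U0 U1 t1 t2 t3 t4 t5 t6 t7 t8 t9 t10 t11 using h3
  refine ⟨r', kids U0 U1, b, c, ?_, ?_, ?_⟩
  · intro l hl
    match l, hl with
    | (true :: l), hl =>
      have hl' : l.length = k := by simpa using hl
      exact ⟨t4 l hl', t6 l hl', (t2 l hl').trans (hG l hl').2.2.1, t9 l hl'⟩
    | (false :: l), hl =>
      have hl' : l.length = k := by simpa using hl
      exact ⟨t3 l hl', t5 l hl', (t1 l hl').trans (hG l hl').2.2.1, t8 l hl'⟩
  · intro i hi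
    rw [hr', Function.update_of_ne (by omega)]
  · intro l hl
    exact ⟨t1 l hl, t2 l hl, t7 l hl, t10 l hl, t11 l hl⟩

theorem tree {P : ℕ → (ℕ → ℕ) → Set E} (hP : Sys P) {D : Set E} (hD : IsOpen D) {f : E → ℝ}
    (hfc : ContinuousOn f D) (hf : ConvexOn ℝ D f) {ε : ℝ} (hε : 0 < ε)
    (h : ¬ IsMeagre (BadP P D f ε 0 (fun _ => 0))) :
    ∃ V ∈ 𝓝 (0 : E), ∃ (b : List Bool → E) (c : List Bool → ℝ),
      Bornology.IsVonNBounded ℝ (range b) ∧
      ∀ s : ℕ → Bool, ∀ m : ℕ, ∃ φ ∈ XV V, ∀ n < m,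
        (s n = true → c (PiNat.res s n) + ε / 3 ≤ φ (b (PiNat.res s n))) ∧
        (s n = false → φ (b (PiNat.res s n)) ≤ c (PiNat.res s n)) := by
  obtain ⟨U₁, hU₁o, hU₁n, hU₁⟩ := localize h
  obtain ⟨x₀, hx₀B, hx₀U⟩ := nonempty_of_not_isMeagre (hU₁ U₁ subset_rfl hU₁o hU₁n)
  have hx₀D : x₀ ∈ D := hx₀B.1
  obtain ⟨W, V, hWo, hx₀W, hWD, hV, hWV⟩ := loc_bound hD hfc hx₀D
  have hG0 : Good P D f ε 0 (fun _ => 0) (fun _ => W ∩ U₁) := by
    intro l _
    exact ⟨hWo.inter hU₁o, ⟨x₀, hx₀W, hx₀U⟩, inter_subset_left.trans hWD,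
      fun V hV => hU₁ V (hV.trans inter_subset_right)⟩
  have hstep := step hP hD hfc hε
  choose! nr nU nb nc n1 n2 n3 using hstep
  let st : ℕ → (ℕ → ℕ) × (List Bool → Set E) := fun n =>
    Nat.rec ((fun _ => 0), (fun _ => W ∩ U₁)) (fun k p => (nr k p.1 p.2, nU k p.1 p.2)) n
  have st0 : st 0 = ((fun _ => 0), (fun _ => W ∩ U₁)) := rfl
  have sts : ∀ k, st (k + 1) = (nr k (st k).1 (st k).2, nU k (st k).1 (st k).2) := fun k => rfl
  have hst : ∀ k, Good P D f ε k (st k).1 (st k).2 := by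
    intro k
    induction k with
    | zero => exact hG0
    | succ k ih => rw [sts k]; exact n1 k _ _ ih
  let b : List Bool → E := fun l => nb l.length (st l.length).1 (st l.length).2 l
  let c : List Bool → ℝ := fun l => nc l.length (st l.length).1 (st l.length).2 l
  have hb : ∀ n l, l.length = n → b l = nb n (st n).1 (st n).2 l := by
    rintro n l rfl; rfl
  have hc : ∀ n l, l.length = n → c l = nc n (st n).1 (st n).2 l := by
    rintro n l rfl; rfl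
  let R : ℕ → ℕ := fun i => (st (i + 1)).1 i
  have hR : ∀ k i, i < k → (st k).1 i = R i := by
    intro k
    induction k with
    | zero => intro i hi; omega
    | succ k ih =>
      intro i hi
      by_cases hik : i = k
      · subst hik; rfl
      · rw [← ih i (by omega), sts k]
        exact n2 k _ _ (hst k) i (by omega)
  have hprop : ∀ n l, l.length = n → (st (n + 1)).2 (false :: l) ⊆ (st n).2 l ∧
      (st (n + 1)).2 (true :: l) ⊆ (st n).2 l ∧ b l ∈ P (n + 1) (st (n + 1)).1 ∧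
      (∀ z ∈ (st (n + 1)).2 (true :: l), ∀ φ : E →L[ℝ] ℝ, Sub D f z φ → c l + ε / 3 ≤ φ (b l)) ∧
      (∀ z ∈ (st (n + 1)).2 (false :: l), ∀ φ : E →L[ℝ] ℝ, Sub D f z φ → φ (b l) ≤ c l) := by
    intro n l hl
    rw [hb n l hl, hc n l hl, sts n]
    exact n3 n _ _ (hst n) l hl
  refine ⟨V, hV, b, c, ?_, ?_⟩
  · apply hP.bdd R
    intro k
    apply ((List.finite_length_lt Bool k).image b).subset
    rintro _ ⟨⟨l, rfl⟩, hl⟩
    refine ⟨l, ?_, rfl⟩
    by_contra hlk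
    have hlk' : k ≤ l.length + 1 := by
      have : ¬ l.length < k := hlk
      omega
    apply hl
    apply hP.anti k (l.length + 1) R hlk'
    apply hP.mono _ _ _ _ (hprop l.length l rfl).2.2.1
    intro i hi
    exact (hR (l.length + 1) i hi).le
  · intro s m
    have hnest1 : ∀ n, (st (n + 1)).2 (PiNat.res s (n + 1)) ⊆ (st n).2 (PiNat.res s n) := by
      intro n
      have h1 := hprop n (PiNat.res s n) (PiNat.res_length s n)
      rw [PiNat.res_succ]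
      cases s n
      · exact h1.1
      · exact h1.2.1
    have hnest : ∀ n k, (st (n + k)).2 (PiNat.res s (n + k)) ⊆ (st n).2 (PiNat.res s n) := by
      intro n k
      induction k with
      | zero => exact subset_rfl
      | succ k ih => exact (hnest1 (n + k)).trans ih
    obtain ⟨z, hz⟩ := (hst m (PiNat.res s m) (PiNat.res_length s m)).2.1
    have hzn : ∀ n ≤ m, z ∈ (st n).2 (PiNat.res s n) := by
      intro n hn
      obtain ⟨k, rfl⟩ := Nat.exists_eq_add_of_le hn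
      exact hnest n k hz
    have hz0 : z ∈ W ∩ U₁ := hzn 0 (Nat.zero_le m)
    obtain ⟨φ, hφ⟩ := exists_subgrad hD hfc hf (hWD hz0.1)
    refine ⟨φ, ⟨fun x y => map_add φ x y, fun a x => by simp, hWV z hz0.1 φ hφ⟩, ?_⟩
    intro n hn
    have h1 := hprop n (PiNat.res s n) (PiNat.res_length s n)
    have h2 := hzn (n + 1) hn
    rw [PiNat.res_succ] at h2
    refine ⟨fun hs => ?_, fun hs => ?_⟩
    · rw [hs] at h2
      exact h1.2.2.2.1 z h2 φ hφ
    · rw [hs] at h2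
      exact h1.2.2.2.2 z h2 φ hφ

/-- in a Fréchet differentiability space with such a system the bad set is meagre -/
theorem meagre_bad {P : ℕ → (ℕ → ℕ) → Set E} (hP : Sys P) (hE : IsFDS E) {D : Set E}
    (hD : IsOpen D) {f : E → ℝ} (hfc : ContinuousOn f D) (hf : ConvexOn ℝ D f) :
    IsMeagre {x | x ∈ D ∧ ¬ SD (bdd E) D f x} := by
  have hsub : {x | x ∈ D ∧ ¬ SD (bdd E) D f x} ⊆
      ⋃ m : ℕ, BadP P D f (1 / ((m : ℝ) + 1)) 0 (fun _ => 0) := by
    rintro x ⟨hxD, hx⟩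
    simp only [SD, not_forall, not_exists] at hx
    obtain ⟨B, hB, ε, hε, hx⟩ := hx
    obtain ⟨m, hm⟩ := exists_nat_one_div_lt hε
    obtain ⟨r, hr⟩ := hP.cover B hB
    refine mem_iUnion.2 ⟨m, hxD, r, B, fun i hi => absurd hi (Nat.not_lt_zero i), hB, hr, ?_⟩
    intro δ hδ
    have h1 := hx δ
    simp only [not_and, not_forall] at h1
    obtain ⟨h, hh, t, ht0, htδ, hn⟩ := h1 hδ
    refine ⟨h, hh, t, ht0, htδ, fun hcon => hn hcon.1 hcon.2.1 (hcon.2.2.trans ?_)⟩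
    exact mul_le_mul_of_nonneg_right hm.le ht0.le
  apply (isMeagre_iUnion fun m => ?_).mono hsub
  by_contra hcon
  obtain ⟨V, hV, b, c, hb, hs⟩ := tree hP hD hfc hf (by positivity) hcon
  obtain ⟨g, hg1, hg2, hg3⟩ := rough_of_tree hV (by positivity) hb hs
  have h1 := hE univ ⟨0, trivial⟩ isOpen_univ convex_univ g hg1.continuousOn hg2
  obtain ⟨y, -, hy⟩ := mem_closure_iff.1 (h1 (mem_univ (0 : E))) univ isOpen_univ trivial
  exact hg3 y (sd_of_diff (frechet_iff.1 hy.2))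

end H299.As
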