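import Pool.Agent.H299R3.AsD

open Set Topology Pointwise

namespace H299.As

open H647R3.Fac

universe u v

variable {E : Type u} [AddCommGroup E] [Module ℝ E] [TopologicalSpace E]
  [IsTopologicalAddGroup E] [ContinuousSMul ℝ E]

lemma absorbs_smul_self {V : Set E} (hV : Balanced ℝ V) (a : ℝ) : Absorbs ℝ V (a • V) := by
  rw [absorbs_iff_norm]
  exact ⟨‖a‖, fun c hc => hV.smul_mono hc⟩

lemma sys_metrizable [LocallyConvexSpace ℝ E] [FirstCountableTopology E] :
    ∃ P : ℕ → (ℕ → ℕ) → Set E, Sys P := by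
  obtain ⟨V, hV1, hV2⟩ := (nhds_hasBasis_absConvex_open ℝ E).exists_antitone_subbasis
  have hbal : ∀ i, Balanced ℝ (V i) := fun i => (hV1 i).2.2.1
  have hnhds : ∀ i, V i ∈ 𝓝 (0 : E) := fun i => (hV1 i).2.1.mem_nhds (hV1 i).1
  refine ⟨fun k r => {h | ∀ i < k, h ∈ ((r i : ℝ) + 1) • V i}, ?_, ?_, ?_, ?_⟩
  · intro k r r' hr h hh i hi
    apply (hbal i).smul_mono _ (hh i hi)
    have h1 : (r i : ℝ) ≤ r' i := by exact_mod_cast hr i hi
    rw [Real.norm_of_nonneg (by positivity), Real.norm_of_nonneg (by positivity)]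
    linarith
  · intro j k r hjk h hh i hi
    exact hh i (by omega)
  · intro B hB
    have h1 : ∀ i, ∃ n : ℕ, B ⊆ ((n : ℝ) + 1) • V i := by
      intro i
      obtain ⟨ρ, hρ, h2⟩ := (hB (hnhds i)).exists_pos
      obtain ⟨n, hn⟩ := exists_nat_ge ρ
      refine ⟨n, h2 _ ?_⟩
      rw [Real.norm_of_nonneg (by positivity)]
      linarith
    choose r hr using h1
    exact ⟨r, fun k h hh i _ => hr i hh⟩
  · intro r B hfin N hN
    obtain ⟨i, -, hi⟩ := hV2.toHasBasis.mem_iff.1 hN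
    have h1 : Absorbs ℝ N (B \ {h | ∀ j < i + 1, h ∈ ((r j : ℝ) + 1) • V j}) :=
      (hfin (i + 1)).isVonNBounded hN
    have h2 : Absorbs ℝ N (((r i : ℝ) + 1) • V i) :=
      (absorbs_smul_self (hbal i) _).mono_left hi
    refine (h1.union h2).mono_right ?_
    intro h hh
    by_cases hc : h ∈ {h | ∀ j < i + 1, h ∈ ((r j : ℝ) + 1) • V j}
    · right
      exact hc i (by omega)
    · left
      exact ⟨hh, hc⟩

/-- metrizable: Fréchet differentiability spaces are Asplund -/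
theorem asplund_of_metrizable [LocallyConvexSpace ℝ E] [TopologicalSpace.MetrizableSpace E]
    (hE : IsFDS E) : IsAsplund E := by
  obtain ⟨P, hP⟩ := sys_metrizable (E := E)
  intro D hne hD hDc f hfc hf
  have h1 := hE D hne hD hDc f hfc hf
  have h2 : D ⊆ closure {x | x ∈ D ∧ SD (bdd E) D f x} := h1.trans
    (closure_mono fun x hx => ⟨hx.1, sd_of_diff (frechet_iff.1 hx.2)⟩)
  have h3 : IsMeagre (D \ {x | x ∈ D ∧ SD (bdd E) D f x}) := by
    apply (meagre_bad hP hE hD hfc hf).mono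
    rintro x ⟨hx1, hx2⟩
    exact ⟨hx1, fun h => hx2 ⟨hx1, h⟩⟩
  obtain ⟨G, hG1, hG2, hG3⟩ := gdelta_of_meagre hD (fun x hx => hx.1) h2 h3
  exact ⟨G, fun x hx => (hG1 hx).1, hG2, hG3, fun x hx => frechet_iff.2
    (diff_of_sd hD hfc hf (hG1 hx).1 (fun h => singleton_bdd h) (hG1 hx).2)⟩

lemma fds_of_asplund (hE : IsAsplund E) : IsFDS E := by
  intro D hne hD hDc f hfc hf
  obtain ⟨S, h1, -, h2, h3⟩ := hE D hne hD hDc f hfc hf
  exact h2.trans (closure_mono fun x hx => ⟨h1 hx, h3 x hx⟩)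

/-- a fundamental sequence of bounded sets -/
def FSB (E : Type u) [AddCommGroup E] [Module ℝ E] [TopologicalSpace E] : Prop :=
  ∃ B : ℕ → Set E, (∀ n, Bornology.IsVonNBounded ℝ (B n)) ∧
    ∀ C : Set E, Bornology.IsVonNBounded ℝ C → ∃ n, C ⊆ B n

/-- spaces with a fundamental sequence of bounded sets: the set of points of Fréchet
differentiability is a `Gδ` -/
theorem asplund_of_fsb (hB : FSB E) (hE : IsFDS E) : IsAsplund E := by
  obtain ⟨B, hB1, hB2⟩ := hB
  intro D hne hD hDc f hfc hf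
  set O : ℕ → ℕ → Set E := fun n m => {x | ∃ t : ℝ, 0 < t ∧ ∃ U : Set E, IsOpen U ∧ x ∈ U ∧
    ∀ x' ∈ U, ∀ h ∈ B n, x' + t • h ∈ D ∧ x' - t • h ∈ D ∧
      f (x' + t • h) + f (x' - t • h) - 2 * f x' ≤ t / ((m : ℝ) + 1)} with hO
  have hOo : ∀ n m, IsOpen (O n m) := by
    intro n m
    rw [isOpen_iff_mem_nhds]
    rintro x ⟨t, ht, U, hU, hxU, hU2⟩
    filter_upwards [hU.mem_nhds hxU] with x' hx'
    exact ⟨t, ht, U, hU, hx', hU2⟩
  have key1 : ∀ x ∈ D, SD (bdd E) D f x → ∀ n m, x ∈ O n m := by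
    intro x hxD hx n m
    obtain ⟨δ, hδ, h1⟩ := hx (B n) (hB1 n) (1 / (2 * ((m : ℝ) + 1))) (by positivity)
    obtain ⟨W, V, hWo, hxW, hWD, hV, hWV⟩ := loc_bound hD hfc hxD
    have hc : ContinuousAt (fun q : E × E => q.1 + q.2) (x, 0) := by fun_prop
    have h2 : (fun q : E × E => q.1 + q.2) ⁻¹' W ∈ 𝓝 ((x, 0) : E × E) := by
      apply hc.preimage_mem_nhds
      simp only [add_zero]
      exact hWo.mem_nhds hxW
    obtain ⟨U1, hU1, V1, hV1, hUV⟩ := mem_nhds_prod_iff.1 h2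
    obtain ⟨V2, hV2V, hV2o, h0V2⟩ := mem_nhds_iff.1 hV1
    obtain ⟨δ', hδ', h3⟩ := small_bdd (hB1 n) hV2o h0V2
    set t : ℝ := min δ δ' / 2 with ht
    have ht0 : 0 < t := by positivity
    have ht1 : t < δ := by
      have := min_le_left δ δ'
      rw [ht]; linarith
    have ht2 : t < δ' := by
      have := min_le_right δ δ'
      rw [ht]; linarith
    set κ : ℝ := t / (8 * ((m : ℝ) + 1)) with hκ
    have hκ0 : 0 < κ := by positivity
    have hnear : ∀ᶠ x' in 𝓝 x, x' ∈ U1 ∧ (2 / κ) • (x' - x) ∈ V ∩ -V := by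
      have c1 : ContinuousAt (fun z : E => (2 / κ) • (z - x)) x := by fun_prop
      have c2 : ∀ᶠ x' in 𝓝 x, (2 / κ) • (x' - x) ∈ V ∩ -V := by
        apply c1.preimage_mem_nhds
        simp only [sub_self, smul_zero]
        exact Filter.inter_mem hV (neg_mem_nhds_zero E hV)
      exact Filter.Eventually.and hU1 c2
    obtain ⟨U, hU, hUo, hxU⟩ := eventually_nhds_iff.1 hnear
    refine ⟨t, ht0, U, hUo, hxU, fun x' hx' h hh => ?_⟩
    obtain ⟨p1, p2⟩ := hU x' hx'
    have hxU1 : x ∈ U1 := (hU x hxU).1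
    have v1 : t • h ∈ V1 := by
      have := h3 h hh t (by rwa [abs_of_pos ht0])
      rw [zero_add] at this
      exact hV2V this
    have v2 : -(t • h) ∈ V1 := by
      have := h3 h hh (-t) (by rwa [abs_neg, abs_of_pos ht0])
      rw [zero_add, neg_smul] at this
      exact hV2V this
    have w1 : x' + t • h ∈ W := hUV (show ((x', t • h) : E × E) ∈ U1 ×ˢ V1 from ⟨p1, v1⟩)
    have w2 : x' - t • h ∈ W := by
      rw [sub_eq_add_neg]
      exact hUV (show ((x', -(t • h)) : E × E) ∈ U1 ×ˢ V1 from ⟨p1, v2⟩)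
    have w3 : x + t • h ∈ W := hUV (show ((x, t • h) : E × E) ∈ U1 ×ˢ V1 from ⟨hxU1, v1⟩)
    have w4 : x - t • h ∈ W := by
      rw [sub_eq_add_neg]
      exact hUV (show ((x, -(t • h)) : E × E) ∈ U1 ×ˢ V1 from ⟨hxU1, v2⟩)
    -- Lipschitz estimate
    have lip : ∀ z ∈ W, ∀ z' ∈ D, (2 / κ) • (z - z') ∈ V ∨ (2 / κ) • (z' - z) ∈ V →
        f z - f z' ≤ κ := by
      intro z hz z' hz' hv
      obtain ⟨φ, hφ⟩ := exists_subgrad hD hfc hf (hWD hz)
      have q1 := hφ z' hz'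
      have q2 : |φ (z - z')| ≤ κ := by
        rcases hv with hv | hv
        · have q3 := hWV z hz φ hφ _ hv
          rw [map_smul, smul_eq_mul, abs_mul, abs_of_pos (by positivity), div_mul_eq_mul_div,
            div_le_iff₀ hκ0] at q3
          linarith
        · have q3 := hWV z hz φ hφ _ hv
          rw [map_smul, smul_eq_mul, abs_mul, abs_of_pos (by positivity), div_mul_eq_mul_div,
            div_le_iff₀ hκ0, ← neg_sub z z', map_neg, abs_neg] at q3
          linarith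
      have q4 : φ (z' - z) = - φ (z - z') := by rw [← map_neg, neg_sub]
      rw [q4] at q1
      have := (abs_le.1 q2).2
      linarith
    have l1 : f (x' + t • h) - f (x + t • h) ≤ κ := by
      apply lip _ w1 _ (hWD w3)
      left
      rw [add_sub_add_right_eq_sub]
      exact p2.1
    have l2 : f (x' - t • h) - f (x - t • h) ≤ κ := by
      apply lip _ w2 _ (hWD w4)
      left
      rw [sub_sub_sub_cancel_right]
      exact p2.1
    have l3 : f x - f x' ≤ κ := by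
      apply lip _ hxW _
      · have : x' + t • h ∈ D ∧ x' - t • h ∈ D := ⟨hWD w1, hWD w2⟩
        have e : x' = (1 / 2 : ℝ) • (x' + t • h) + (1 / 2 : ℝ) • (x' - t • h) := by module
        rw [e]
        exact hDc this.1 this.2 (by norm_num) (by norm_num) (by norm_num)
      · right
        exact p2.1
    obtain ⟨-, -, h4⟩ := h1 h hh t ht0 ht1
    refine ⟨hWD w1, hWD w2, ?_⟩
    have e1 : 4 * κ = 1 / (2 * ((m : ℝ) + 1)) * t := by
      rw [hκ]; field_simp; norm_num
    have e2 : t / ((m : ℝ) + 1) = 2 * (1 / (2 * ((m : ℝ) + 1)) * t) := by field_simp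
    rw [e2]
    linarith
  have key2 : ∀ x ∈ D, (∀ n m, x ∈ O n m) → SD (bdd E) D f x := by
    intro x hxD hx C hC ε hε
    obtain ⟨n, hn⟩ := hB2 C hC
    obtain ⟨m, hm⟩ := exists_nat_one_div_lt hε
    obtain ⟨t, ht, U, hU, hxU, hU2⟩ := hx n m
    refine ⟨t, ht, fun h hh s hs hst => ?_⟩
    obtain ⟨d1, d2, d3⟩ := hU2 x hxU h (hn hh)
    have hst1 : 0 ≤ 1 - s / t := by
      rw [sub_nonneg, div_le_one ht]; exact hst.le
    have hst0 : 0 ≤ s / t := by positivity
    have e1 : x + s • h = (1 - s / t) • x + (s / t) • (x + t • h) := by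
      rw [smul_add, smul_smul, div_mul_cancel₀ _ ht.ne', sub_smul, one_smul]
      abel
    have e2 : x - s • h = (1 - s / t) • x + (s / t) • (x - t • h) := by
      rw [smul_sub, smul_smul, div_mul_cancel₀ _ ht.ne', sub_smul, one_smul]
      abel
    have c1 := hf.2 hxD d1 hst1 hst0 (by ring)
    have c2 := hf.2 hxD d2 hst1 hst0 (by ring)
    rw [← e1] at c1
    rw [← e2] at c2
    simp only [smul_eq_mul] at c1 c2
    refine ⟨?_, ?_, ?_⟩
    · rw [e1]; exact hDc hxD d1 hst1 hst0 (by ring)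
    · rw [e2]; exact hDc hxD d2 hst1 hst0 (by ring)
    · have c3 : f (x + s • h) + f (x - s • h) - 2 * f x ≤
          (s / t) * (f (x + t • h) + f (x - t • h) - 2 * f x) := by linarith
      have c4 : (s / t) * (f (x + t • h) + f (x - t • h) - 2 * f x) ≤
          (s / t) * (t / ((m : ℝ) + 1)) := mul_le_mul_of_nonneg_left d3 hst0
      have c5 : (s / t) * (t / ((m : ℝ) + 1)) = 1 / ((m : ℝ) + 1) * s := by field_simp
      have c6 : 1 / ((m : ℝ) + 1) * s ≤ ε * s := mul_le_mul_of_nonneg_right hm.le hs.le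
      linarith
  refine ⟨D ∩ ⋂ n, ⋂ m, O n m, inter_subset_left,
    hD.isGδ.inter (IsGδ.iInter fun n => IsGδ.iInter fun m => (hOo n m).isGδ), ?_, ?_⟩
  · apply (hE D hne hD hDc f hfc hf).trans
    apply closure_mono
    rintro x ⟨hxD, hx⟩
    exact ⟨hxD, mem_iInter.2 fun n => mem_iInter.2 fun m =>
      key1 x hxD (sd_of_diff (frechet_iff.1 hx)) n m⟩
  · rintro x ⟨hxD, hx⟩
    exact frechet_iff.2 (diff_of_sd hD hfc hf hxD (fun h => singleton_bdd h)
      (key2 x hxD fun n m => mem_iInter.1 (mem_iInter.1 hx n) m))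

/-- the real line as the space of functions on a point -/
noncomputable def eR (E : Type u) [AddCommGroup E] [Module ℝ E] [TopologicalSpace E] :
    (E × FS PUnit.{u + 1}) ≃L[ℝ] (E × ℝ) where
  toFun z := (z.1, z.2.1 PUnit.unit)
  invFun z := (z.1, ⟨fun _ => z.2, Set.toFinite _⟩)
  left_inv z := by
    obtain ⟨x, y⟩ := z
    rfl
  right_inv z := rfl
  map_add' _ _ := rfl
  map_smul' _ _ := rfl
  continuous_toFun := continuous_fst.prodMk ((FS_cont _).comp continuous_snd)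
  continuous_invFun := continuous_fst.prodMk
    (Continuous.subtype_mk (continuous_pi fun _ => continuous_snd) _)

/-- stability under products with the line -/
theorem fds_prod [LocallyConvexSpace ℝ E] (hE : IsFDS E) : IsFDS (E × ℝ) := by
  intro D hne hD hDc f hfc hf
  set e := eR E with he
  have hD' : IsOpen (e ⁻¹' D) := hD.preimage e.continuous
  have hdense := dense_prod (Γ := PUnit.{u + 1}) (𝓑E := bdd E) (𝓑 := bdd (E × FS PUnit.{u + 1}))
    (fun B hB => fst_bdd hB) (fun B hB a => coord_bdd hB a)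
    (fun D hne hD hDc f hfc hf => (hE D hne hD hDc f hfc hf).trans
      (closure_mono fun x hx => ⟨hx.1, sd_of_diff (frechet_iff.1 hx.2)⟩)) hD'
    (g := fun z => f (e z)) (hfc.comp e.continuous.continuousOn fun z hz => hz)
    (by
      refine ⟨hDc.linear_preimage e.toLinearEquiv.toLinearMap, fun x hx y hy a b ha hb hab => ?_⟩
      have h1 := hf.2 hx hy ha hb hab
      have h2 : e (a • x + b • y) = a • e x + b • e y := by rw [map_add, map_smul, map_smul]
      change f (e (a • x + b • y)) ≤ _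
      rw [h2]
      exact h1)
  intro z hz
  rw [mem_closure_iff]
  intro O hO hzO
  obtain ⟨w, hwO, hwD, hw⟩ := mem_closure_iff.1
    (hdense (show e.symm z ∈ e ⁻¹' D by simpa using hz)) (e ⁻¹' O) (hO.preimage e.continuous)
    (by simpa using hzO)
  refine ⟨e w, hwO, hwD, frechet_iff.2 (diff_of_sd hD hfc hf hwD (fun h => singleton_bdd h) ?_)⟩
  intro B hB ε hε
  obtain ⟨δ, hδ, h1⟩ := hw (e.symm '' B)
    (Bornology.IsVonNBounded.image hB (e.symm : (E × ℝ) →L[ℝ] (E × FS PUnit.{u + 1}))) ε hε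
  refine ⟨δ, hδ, fun h hh t ht0 ht1 => ?_⟩
  have h2 := h1 _ ⟨h, hh, rfl⟩ t ht0 ht1
  have e1 : e (w + t • e.symm h) = e w + t • h := by
    rw [map_add, map_smul, ContinuousLinearEquiv.apply_symm_apply]
  have e2 : e (w - t • e.symm h) = e w - t • h := by
    rw [map_sub, map_smul, ContinuousLinearEquiv.apply_symm_apply]
  simp only [mem_preimage] at h2
  rw [e1, e2] at h2
  exact h2

/-- factors of Asplund products are Fréchet differentiability spaces -/
theorem fds_of_prod {F : Type v} [AddCommGroup F] [Module ℝ F] [TopologicalSpace F]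
    [IsTopologicalAddGroup F] [ContinuousSMul ℝ F] (h : IsAsplund (E × F)) : IsFDS E := by
  intro D hne hD hDc f hfc hf x hx
  obtain ⟨S, hS1, -, hS2, hS3⟩ := h (Prod.fst ⁻¹' D) ⟨(x, 0), hx⟩ (hD.preimage continuous_fst)
    (hDc.linear_preimage (LinearMap.fst ℝ E F)) (fun z => f z.1)
    (hfc.comp continuous_fst.continuousOn fun z hz => hz)
    (by
      refine ⟨hDc.linear_preimage (LinearMap.fst ℝ E F), fun z hz w hw a b ha hb hab => ?_⟩
      exact hf.2 hz hw ha hb hab)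
  rw [mem_closure_iff]
  intro O hO hxO
  obtain ⟨z, hz1, hz2⟩ := mem_closure_iff.1 (hS2 (show ((x, 0) : E × F) ∈ Prod.fst ⁻¹' D from hx))
    (Prod.fst ⁻¹' O) (hO.preimage continuous_fst) hxO
  refine ⟨z.1, hz1, hS1 hz2, ?_⟩
  obtain ⟨φ, hφ⟩ := hS3 z hz2
  refine ⟨φ.comp (ContinuousLinearMap.inl ℝ E F), fun B hB ε hε => ?_⟩
  obtain ⟨δ, hδ, h1⟩ := hφ _ (Bornology.IsVonNBounded.image hB (ContinuousLinearMap.inl ℝ E F))
    ε hε
  refine ⟨δ, hδ, fun t ht1 ht2 b hb => ?_⟩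
  obtain ⟨h2, h3⟩ := h1 t ht1 ht2 _ ⟨b, hb, rfl⟩
  exact ⟨h2, h3⟩

lemma fsb_prod (h : FSB E) : FSB (E × ℝ) := by
  obtain ⟨B, hB1, hB2⟩ := h
  refine ⟨fun n => B n.unpair.1 ×ˢ Icc (-(n.unpair.2 : ℝ)) n.unpair.2, ?_, ?_⟩
  · intro n
    have h1 := Bornology.IsVonNBounded.image (hB1 n.unpair.1) (ContinuousLinearMap.inl ℝ E ℝ)
    have h0 : Bornology.IsVonNBounded ℝ (Icc (-(n.unpair.2 : ℝ)) n.unpair.2) := by
      rw [NormedSpace.isVonNBounded_iff]
      exact Metric.isBounded_Icc _ _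
    have h2 := Bornology.IsVonNBounded.image h0 (ContinuousLinearMap.inr ℝ E ℝ)
    apply (h1.add h2).subset
    rintro ⟨x, s⟩ ⟨hx, hs⟩
    exact ⟨(x, 0), ⟨x, hx, rfl⟩, (0, s), ⟨s, hs, rfl⟩, by simp⟩
  · intro C hC
    obtain ⟨n, hn⟩ := hB2 _ (Bornology.IsVonNBounded.image hC (ContinuousLinearMap.fst ℝ E ℝ))
    have h2 := Bornology.IsVonNBounded.image hC (ContinuousLinearMap.snd ℝ E ℝ)
    rw [NormedSpace.isVonNBounded_iff, isBounded_iff_forall_norm_le] at h2
    obtain ⟨c, hc⟩ := h2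
    obtain ⟨m, hm⟩ := exists_nat_ge c
    refine ⟨Nat.pair n m, ?_⟩
    intro z hz
    change z ∈ B (Nat.unpair (Nat.pair n m)).1 ×ˢ
      Icc (-((Nat.unpair (Nat.pair n m)).2 : ℝ)) (Nat.unpair (Nat.pair n m)).2
    rw [Nat.unpair_pair]
    refine ⟨hn ⟨z, hz, rfl⟩, ?_⟩
    have h3 : |z.2| ≤ c := hc _ ⟨z, hz, rfl⟩
    exact abs_le.1 (h3.trans hm)

end H299.As
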