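import Pool.Agent.H299R3.AsE

open Set Topology Pointwise

namespace H299.As

open H647R3.Fac

universe u

variable {E : Type u} [AddCommGroup E] [Module ℝ E] [TopologicalSpace E]

/-- resolution of the bounded sets modulo every neighbourhood of zero -/
def Res (E : Type u) [AddCommGroup E] [Module ℝ E] [TopologicalSpace E] : Prop :=
  ∀ V ∈ 𝓝 (0 : E), ∃ C : (ℕ → ℕ) → Set E, (∀ α β : ℕ → ℕ, α ≤ β → C α ⊆ C β) ∧
    (∀ α, Bornology.IsVonNBounded ℝ (C α)) ∧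
    ∀ B : Set E, Bornology.IsVonNBounded ℝ B → ∃ α, B ⊆ C α + V

/-- bad points with partially prescribed bounds -/
def BadR (C : (ℕ → ℕ) → Set E) (V : Set E) (D : Set E) (f : E → ℝ) (ε : ℝ) (k : ℕ)
    (r : ℕ → ℕ) : Set E :=
  {x | x ∈ D ∧ ∃ (α : ℕ → ℕ) (B : Set E), (∀ i < k, α i ≤ r i) ∧ Bornology.IsVonNBounded ℝ B ∧
    B ⊆ C α + V ∧ ∀ δ > 0, ∃ h ∈ B, ∃ t : ℝ, 0 < t ∧ t < δ ∧
      ¬ (x + t • h ∈ D ∧ x - t • h ∈ D ∧ f (x + t • h) + f (x - t • h) - 2 * f x ≤ ε * t)}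

/-- everywhere nonmeagre at level `k` -/
def GoodR (C : (ℕ → ℕ) → Set E) (V : Set E) (D : Set E) (f : E → ℝ) (ε : ℝ) (k : ℕ) (r : ℕ → ℕ)
    (U : List Bool → Set E) : Prop :=
  ∀ l : List Bool, l.length = k → IsOpen (U l) ∧ (U l).Nonempty ∧ U l ⊆ D ∧
    ∀ W ⊆ U l, IsOpen W → W.Nonempty → ¬ IsMeagre (BadR C V D f ε k r ∩ W)

variable [IsTopologicalAddGroup E] [ContinuousSMul ℝ E]

theorem stepR {C : (ℕ → ℕ) → Set E} {V : Set E} {D : Set E} (hD : IsOpen D) {f : E → ℝ}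
    (hfc : ContinuousOn f D) {ε : ℝ} (hε : 0 < ε) (k : ℕ) (r : ℕ → ℕ)
    (U : List Bool → Set E) (hG : GoodR C V D f ε k r U) :
    ∃ (r' : ℕ → ℕ) (U' : List Bool → Set E) (b : List Bool → E) (c : List Bool → ℝ)
      (α : List Bool → ℕ → ℕ),
      GoodR C V D f ε (k + 1) r' U' ∧ (∀ i < k, r' i = r i) ∧
      ∀ l, l.length = k → U' (false :: l) ⊆ U l ∧ U' (true :: l) ⊆ U l ∧
        (b l ∈ C (α l) + V ∧ ∀ i < k + 1, α l i ≤ r' i) ∧
        (∀ z ∈ U' (true :: l), ∀ φ : E →L[ℝ] ℝ, Sub D f z φ → c l + ε / 3 ≤ φ (b l)) ∧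
        (∀ z ∈ U' (false :: l), ∀ φ : E →L[ℝ] ℝ, Sub D f z φ → φ (b l) ≤ c l) := by
  have h1 : ∀ l : List Bool, l.length = k → ∃ m : ℕ,
      ¬ IsMeagre (BadR C V D f ε (k + 1) (Function.update r k m) ∩ U l) := by
    intro l hl
    by_contra hcon
    push Not at hcon
    obtain ⟨g1, g2, g3, g4⟩ := hG l hl
    apply g4 (U l) subset_rfl g1 g2
    apply (isMeagre_iUnion hcon).mono
    rintro x ⟨⟨hxD, α, B, h1, h2, h3, h4⟩, hxU⟩
    refine mem_iUnion.2 ⟨α k, ⟨hxD, α, B, ?_, h2, h3, h4⟩, hxU⟩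
    intro i hi
    by_cases hik : i = k
    · subst hik
      simp
    · rw [Function.update_of_ne hik]
      exact h1 i (by omega)
  choose! m hm using h1
  obtain ⟨M, hM⟩ : ∃ M : ℕ, ∀ l : List Bool, l.length = k → m l ≤ M := by
    obtain ⟨M, hM⟩ := ((List.finite_length_eq Bool k).image m).bddAbove
    exact ⟨M, fun l hl => hM ⟨l, hl, rfl⟩⟩
  set r' := Function.update r k M with hr'
  have hmono : ∀ (a b : ℕ → ℕ) (j : ℕ), (∀ i < j, a i ≤ b i) →
      BadR C V D f ε j a ⊆ BadR C V D f ε j b := by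
    rintro a b j hab x ⟨hxD, α, B, h1, h2⟩
    exact ⟨hxD, α, B, fun i hi => (h1 i hi).trans (hab i hi), h2⟩
  have h2 : ∀ l : List Bool, l.length = k → ¬ IsMeagre (BadR C V D f ε (k + 1) r' ∩ U l) := by
    intro l hl hme
    apply hm l hl
    apply hme.mono
    apply inter_subset_inter_left
    apply hmono
    intro i hi
    by_cases hik : i = k
    · subst hik
      simp only [hr', Function.update_self]
      exact hM l hl
    · rw [hr', Function.update_of_ne hik, Function.update_of_ne hik]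
  have h3 : ∀ l : List Bool, l.length = k → ∃ (b : E) (c : ℝ) (α : ℕ → ℕ) (U0 U1 : Set E),
      U0 ⊆ U l ∧ U1 ⊆ U l ∧ IsOpen U0 ∧ IsOpen U1 ∧ U0.Nonempty ∧ U1.Nonempty ∧
      (b ∈ C α + V ∧ ∀ i < k + 1, α i ≤ r' i) ∧
      (∀ W ⊆ U0, IsOpen W → W.Nonempty → ¬ IsMeagre (BadR C V D f ε (k + 1) r' ∩ W)) ∧
      (∀ W ⊆ U1, IsOpen W → W.Nonempty → ¬ IsMeagre (BadR C V D f ε (k + 1) r' ∩ W)) ∧
      (∀ z ∈ U1, ∀ φ : E →L[ℝ] ℝ, Sub D f z φ → c + ε / 3 ≤ φ b) ∧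
      (∀ z ∈ U0, ∀ φ : E →L[ℝ] ℝ, Sub D f z φ → φ b ≤ c) := by
    intro l hl
    obtain ⟨g1, g2, g3, g4⟩ := hG l hl
    obtain ⟨U₁, hU₁o, hU₁n, hU₁⟩ := localize (h2 l hl)
    obtain ⟨x, ⟨hxB, hxU⟩, hxU₁⟩ := nonempty_of_not_isMeagre (hU₁ U₁ subset_rfl hU₁o hU₁n)
    obtain ⟨hxD, α, B, b1, b2, b3, b4⟩ := hxB
    have hWo : IsOpen (U₁ ∩ U l) := hU₁o.inter g1
    obtain ⟨δ, hδ, hsm⟩ := small_bdd b2 hWo (x := x) ⟨hxU₁, hxU⟩
    obtain ⟨h, hh, t, ht0, htδ, hn⟩ := b4 δ hδ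
    have p1 : x + t • h ∈ U₁ ∩ U l := hsm h hh t (by rwa [abs_of_pos ht0])
    have p2 : x - t • h ∈ U₁ ∩ U l := by
      have := hsm h hh (-t) (by rwa [abs_neg, abs_of_pos ht0])
      rwa [neg_smul, ← sub_eq_add_neg] at this
    have hbad : ε * t < f (x + t • h) + f (x - t • h) - 2 * f x := by
      by_contra hcon
      exact hn ⟨g3 p1.2, g3 p2.2, not_lt.1 hcon⟩
    obtain ⟨c, U0, U1, s1, s2, s3, s4, s5, s6, s7, s8⟩ :=
      split hD hfc ht0 hε hxD (g3 p1.2) (g3 p2.2) hbad hWo p1 p2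
    have hall : ∀ W ⊆ U₁ ∩ U l, IsOpen W → W.Nonempty →
        ¬ IsMeagre (BadR C V D f ε (k + 1) r' ∩ W) := by
      intro W hW hWo hWn hme
      apply hU₁ W (hW.trans inter_subset_left) hWo hWn
      have hsub : (BadR C V D f ε (k + 1) r' ∩ U l) ∩ W ⊆ BadR C V D f ε (k + 1) r' ∩ W :=
        inter_subset_inter_left W inter_subset_left
      exact hme.mono hsub
    exact ⟨h, c, α, U0, U1, s1.trans inter_subset_right, s2.trans inter_subset_right, s3, s4, s5,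
      s6, ⟨b3 hh, b1⟩, fun W hW => hall W (hW.trans s1), fun W hW => hall W (hW.trans s2), s7, s8⟩
  choose! b c α U0 U1 t1 t2 t3 t4 t5 t6 t7 t8 t9 t10 t11 using h3
  refine ⟨r', kids U0 U1, b, c, α, ?_, ?_, ?_⟩
  · intro l hl
    match l, hl with
    | (true :: l), hl =>
      have hl' : l.length = k := by simpa using hl
      exact ⟨t4 l hl', t6 l hl', (t2 l hl').trans (hG l hl').2.2.1, t9 l hl'⟩
    | (false :: l), hl =>
      have hl' : l.length = k := by simpa using hl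
      exact ⟨t3 l hl', t5 l hl', (t1 l hl').trans (hG l hl').2.2.1, t8 l hl'⟩
  · intro i hi
    rw [hr', Function.update_of_ne (by omega)]
  · intro l hl
    exact ⟨t1 l hl, t2 l hl, t7 l hl, t10 l hl, t11 l hl⟩

/-- the set of points at which the oscillation is at least `ε` along some bounded set -/
def BadE (D : Set E) (f : E → ℝ) (ε : ℝ) : Set E :=
  {x | x ∈ D ∧ ∃ B : Set E, Bornology.IsVonNBounded ℝ B ∧ ∀ δ > 0, ∃ h ∈ B, ∃ t : ℝ,
    0 < t ∧ t < δ ∧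
      ¬ (x + t • h ∈ D ∧ x - t • h ∈ D ∧ f (x + t • h) + f (x - t • h) - 2 * f x ≤ ε * t)}

theorem treeR (hR : Res E) {D : Set E} (hD : IsOpen D) {f : E → ℝ}
    (hfc : ContinuousOn f D) (hf : ConvexOn ℝ D f) {ε : ℝ} (hε : 0 < ε)
    (h : ¬ IsMeagre (BadE D f ε)) :
    ∃ V ∈ 𝓝 (0 : E), ∃ (b : List Bool → E) (c : List Bool → ℝ),
      Bornology.IsVonNBounded ℝ (range b) ∧
      ∀ s : ℕ → Bool, ∀ m : ℕ, ∃ φ ∈ XV V, ∀ n < m,
        (s n = true → c (PiNat.res s n) + ε / 6 ≤ φ (b (PiNat.res s n))) ∧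
        (s n = false → φ (b (PiNat.res s n)) ≤ c (PiNat.res s n)) := by
  obtain ⟨U₁, hU₁o, hU₁n, hU₁⟩ := localize h
  obtain ⟨x₀, hx₀B, hx₀U⟩ := nonempty_of_not_isMeagre (hU₁ U₁ subset_rfl hU₁o hU₁n)
  have hx₀D : x₀ ∈ D := hx₀B.1
  obtain ⟨W, V, hWo, hx₀W, hWD, hV, hWV⟩ := loc_bound hD hfc hx₀D
  set V₁ : Set E := (fun v : E => (24 / ε) • v) ⁻¹' V with hV₁
  have hV₁n : V₁ ∈ 𝓝 (0 : E) := by
    have hc : ContinuousAt (fun v : E => (24 / ε) • v) 0 := by fun_prop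
    apply hc.preimage_mem_nhds
    simpa using hV
  have hV₁s : ∀ φ ∈ XV V, ∀ v ∈ V₁, |φ v| ≤ ε / 12 := by
    intro φ hφ v hv
    have h1 := hφ.2.2 _ hv
    rw [hφ.2.1, abs_mul, abs_of_pos (by positivity), div_mul_eq_mul_div, div_le_iff₀ hε] at h1
    linarith
  obtain ⟨C, hC1, hC2, hC3⟩ := hR V₁ hV₁n
  have hBB : BadE D f ε ⊆ BadR C V₁ D f ε 0 (fun _ => 0) := by
    rintro x ⟨hxD, B, hB, hx⟩
    obtain ⟨α, hα⟩ := hC3 B hB
    exact ⟨hxD, α, B, fun i hi => absurd hi (Nat.not_lt_zero i), hB, hα, hx⟩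
  have hG0 : GoodR C V₁ D f ε 0 (fun _ => 0) (fun _ => W ∩ U₁) := by
    intro l _
    refine ⟨hWo.inter hU₁o, ⟨x₀, hx₀W, hx₀U⟩, inter_subset_left.trans hWD,
      fun V hV hVo hVn hme => hU₁ V (hV.trans inter_subset_right) hVo hVn ?_⟩
    exact hme.mono (inter_subset_inter_left V hBB)
  have hstep := stepR (C := C) (V := V₁) hD hfc hε
  choose! nr nU nb nc nα n1 n2 n3 using hstep
  let st : ℕ → (ℕ → ℕ) × (List Bool → Set E) := fun n =>
    Nat.rec ((fun _ => 0), (fun _ => W ∩ U₁)) (fun k p => (nr k p.1 p.2, nU k p.1 p.2)) n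
  have sts : ∀ k, st (k + 1) = (nr k (st k).1 (st k).2, nU k (st k).1 (st k).2) := fun k => rfl
  have hst : ∀ k, GoodR C V₁ D f ε k (st k).1 (st k).2 := by
    intro k
    induction k with
    | zero => exact hG0
    | succ k ih => rw [sts k]; exact n1 k _ _ ih
  let b : List Bool → E := fun l => nb l.length (st l.length).1 (st l.length).2 l
  let c : List Bool → ℝ := fun l => nc l.length (st l.length).1 (st l.length).2 l
  let A : List Bool → ℕ → ℕ := fun l => nα l.length (st l.length).1 (st l.length).2 l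
  have hb : ∀ n l, l.length = n → b l = nb n (st n).1 (st n).2 l := by
    rintro n l rfl; rfl
  have hc : ∀ n l, l.length = n → c l = nc n (st n).1 (st n).2 l := by
    rintro n l rfl; rfl
  have hA : ∀ n l, l.length = n → A l = nα n (st n).1 (st n).2 l := by
    rintro n l rfl; rfl
  let R : ℕ → ℕ := fun i => (st (i + 1)).1 i
  have hR : ∀ k i, i < k → (st k).1 i = R i := by
    intro k
    induction k with
    | zero => intro i hi; omega
    | succ k ih =>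
      intro i hi
      by_cases hik : i = k
      · subst hik; rfl
      · rw [← ih i (by omega), sts k]
        exact n2 k _ _ (hst k) i (by omega)
  have hprop : ∀ n l, l.length = n → (st (n + 1)).2 (false :: l) ⊆ (st n).2 l ∧
      (st (n + 1)).2 (true :: l) ⊆ (st n).2 l ∧
      (b l ∈ C (A l) + V₁ ∧ ∀ i < n + 1, A l i ≤ (st (n + 1)).1 i) ∧
      (∀ z ∈ (st (n + 1)).2 (true :: l), ∀ φ : E →L[ℝ] ℝ, Sub D f z φ → c l + ε / 3 ≤ φ (b l)) ∧
      (∀ z ∈ (st (n + 1)).2 (false :: l), ∀ φ : E →L[ℝ] ℝ, Sub D f z φ → φ (b l) ≤ c l) := by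
    intro n l hl
    rw [hb n l hl, hc n l hl, hA n l hl, sts n]
    exact n3 n _ _ (hst n) l hl
  -- a common bound
  have hbound : ∀ i, ∃ M, ∀ l, A l i ≤ M := by
    intro i
    obtain ⟨M, hM⟩ := ((List.finite_length_lt Bool i).image (fun l => A l i)).bddAbove
    refine ⟨max M (R i), fun l => ?_⟩
    by_cases hl : l.length < i
    · exact (hM ⟨l, hl, rfl⟩).trans (le_max_left _ _)
    · have h1 := (hprop l.length l rfl).2.2.1.2 i (by omega)
      rw [hR (l.length + 1) i (by omega)] at h1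
      exact h1.trans (le_max_right _ _)
  choose β hβ using hbound
  have hdec : ∀ l, ∃ b' ∈ C β, ∃ v ∈ V₁, b l = b' + v := by
    intro l
    obtain ⟨b', hb', v, hv, hbv⟩ := (hprop l.length l rfl).2.2.1.1
    exact ⟨b', hC1 (A l) β (fun i => hβ i l) hb', v, hv, hbv.symm⟩
  choose b' hb' v hv hbv using hdec
  refine ⟨V, hV, b', fun l => c l + ε / 12, ?_, ?_⟩
  · apply (hC2 β).subset
    rintro _ ⟨l, rfl⟩
    exact hb' l
  · intro s m
    have hnest1 : ∀ n, (st (n + 1)).2 (PiNat.res s (n + 1)) ⊆ (st n).2 (PiNat.res s n) := by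
      intro n
      have h1 := hprop n (PiNat.res s n) (PiNat.res_length s n)
      rw [PiNat.res_succ]
      cases s n
      · exact h1.1
      · exact h1.2.1
    have hnest : ∀ n k, (st (n + k)).2 (PiNat.res s (n + k)) ⊆ (st n).2 (PiNat.res s n) := by
      intro n k
      induction k with
      | zero => exact subset_rfl
      | succ k ih => exact (hnest1 (n + k)).trans ih
    obtain ⟨z, hz⟩ := (hst m (PiNat.res s m) (PiNat.res_length s m)).2.1
    have hzn : ∀ n ≤ m, z ∈ (st n).2 (PiNat.res s n) := by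
      intro n hn
      obtain ⟨k, rfl⟩ := Nat.exists_eq_add_of_le hn
      exact hnest n k hz
    have hz0 : z ∈ W ∩ U₁ := hzn 0 (Nat.zero_le m)
    obtain ⟨φ, hφ⟩ := exists_subgrad hD hfc hf (hWD hz0.1)
    have hφX : (φ : E → ℝ) ∈ XV V := ⟨fun x y => map_add φ x y, fun a x => by simp,
      hWV z hz0.1 φ hφ⟩
    refine ⟨φ, hφX, ?_⟩
    intro n hn
    have h1 := hprop n (PiNat.res s n) (PiNat.res_length s n)
    have h2 := hzn (n + 1) hn
    rw [PiNat.res_succ] at h2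
    have h3 := abs_le.1 (hV₁s φ hφX _ (hv (PiNat.res s n)))
    have h4 : φ (b (PiNat.res s n)) = φ (b' (PiNat.res s n)) + φ (v (PiNat.res s n)) := by
      rw [hbv, map_add]
    refine ⟨fun hs => ?_, fun hs => ?_⟩
    · rw [hs] at h2
      have h5 := h1.2.2.2.1 z h2 φ hφ
      have h6 := h3.2
      simp only
      linarith
    · rw [hs] at h2
      have h5 := h1.2.2.2.2 z h2 φ hφ
      have h6 := h3.1
      simp only
      linarith

/-- with a resolution of the bounded sets, the bad set is meagre -/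
theorem meagre_badR (hR : Res E) (hE : IsFDS E) {D : Set E}
    (hD : IsOpen D) {f : E → ℝ} (hfc : ContinuousOn f D) (hf : ConvexOn ℝ D f) :
    IsMeagre {x | x ∈ D ∧ ¬ SD (bdd E) D f x} := by
  have hsub : {x | x ∈ D ∧ ¬ SD (bdd E) D f x} ⊆
      ⋃ m : ℕ, BadE D f (1 / ((m : ℝ) + 1)) := by
    rintro x ⟨hxD, hx⟩
    simp only [SD, not_forall, not_exists] at hx
    obtain ⟨B, hB, ε, hε, hx⟩ := hx
    obtain ⟨m, hm⟩ := exists_nat_one_div_lt hε
    refine mem_iUnion.2 ⟨m, hxD, B, hB, ?_⟩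
    intro δ hδ
    have h1 := hx δ
    simp only [not_and, not_forall] at h1
    obtain ⟨h, hh, t, ht0, htδ, hn⟩ := h1 hδ
    refine ⟨h, hh, t, ht0, htδ, fun hcon => hn hcon.1 hcon.2.1 (hcon.2.2.trans ?_)⟩
    exact mul_le_mul_of_nonneg_right hm.le ht0.le
  apply (isMeagre_iUnion fun m => ?_).mono hsub
  by_contra hcon
  obtain ⟨V, hV, b, c, hb, hs⟩ := treeR hR hD hfc hf (by positivity) hcon
  obtain ⟨g, hg1, hg2, hg3⟩ := rough_of_tree hV (by positivity) hb hs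
  have h1 := hE univ ⟨0, trivial⟩ isOpen_univ convex_univ g hg1.continuousOn hg2
  obtain ⟨y, -, hy⟩ := mem_closure_iff.1 (h1 (mem_univ (0 : E))) univ isOpen_univ trivial
  exact hg3 y (sd_of_diff (frechet_iff.1 hy.2))

/-- Baire spaces with a resolution of the bounded sets -/
theorem asplund_of_baire [BaireSpace E] (hR : Res E) (hE : IsFDS E) : IsAsplund E := by
  intro D hne hD hDc f hfc hf
  have h3 := meagre_badR hR hE hD hfc hf
  rw [IsMeagre, mem_residual] at h3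
  obtain ⟨t, ht1, ht2, ht3⟩ := h3
  refine ⟨D ∩ t, inter_subset_left, hD.isGδ.inter ht2, ht3.open_subset_closure_inter hD, ?_⟩
  rintro x ⟨hxD, hxt⟩
  refine frechet_iff.2 (diff_of_sd hD hfc hf hxD (fun h => singleton_bdd h) ?_)
  by_contra hx
  exact ht1 hxt ⟨hxD, hx⟩

end H299.As
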