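import Pool.Agent.H299R3.AsF

open Set Topology Pointwise

namespace H299.As

open H647R3.Fac

universe u

/-- the product of a Baire space with the line is Baire -/
theorem baire_prod (X : Type u) [TopologicalSpace X] [BaireSpace X] : BaireSpace (X × ℝ) := by
  constructor
  intro f ho hd
  rw [dense_iff_inter_open]
  rintro O hO ⟨⟨x₀, t₀⟩, h0⟩
  obtain ⟨U, V, hU, hV, hx₀, ht₀, hUV⟩ := isOpen_prod_iff.1 hO x₀ t₀ h0
  obtain ⟨b, hbc, -, hb⟩ := TopologicalSpace.exists_countable_basis ℝ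
  -- open dense sets in the base
  have hA : ∀ (n : ℕ) (J : b), (J.1 ∩ V).Nonempty → Dense {x : X | ∃ t ∈ J.1 ∩ V, (x, t) ∈ f n} := by
    rintro n J ⟨t, ht⟩
    rw [dense_iff_inter_open]
    rintro U' hU' ⟨x, hx⟩
    have hop : IsOpen (U' ×ˢ (J.1 ∩ V)) := hU'.prod ((hb.isOpen J.2).inter hV)
    obtain ⟨⟨y, s⟩, hy1, hy2⟩ := (dense_iff_inter_open.1 (hd n)) _ hop ⟨(x, t), hx, ht⟩
    exact ⟨y, hy1.1, s, hy1.2, hy2⟩
  have hAo : ∀ (n : ℕ) (J : b), IsOpen {x : X | ∃ t ∈ J.1 ∩ V, (x, t) ∈ f n} := by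
    intro n J
    have e : {x : X | ∃ t ∈ J.1 ∩ V, (x, t) ∈ f n} =
        Prod.fst '' ((f n) ∩ (univ ×ˢ (J.1 ∩ V))) := by
      ext x
      constructor
      · rintro ⟨t, ht, hf⟩
        exact ⟨(x, t), ⟨hf, trivial, ht⟩, rfl⟩
      · rintro ⟨⟨y, t⟩, ⟨hf, -, ht⟩, rfl⟩
        exact ⟨t, ht, hf⟩
    rw [e]
    exact isOpenMap_fst _ ((ho n).inter (isOpen_univ.prod ((hb.isOpen J.2).inter hV)))
  haveI : Countable b := hbc.to_subtype
  let A : ℕ × b → Set X := fun p => {x : X | (p.2.1 ∩ V).Nonempty → ∃ t ∈ p.2.1 ∩ V, (x, t) ∈ f p.1}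
  have hA1 : ∀ p, IsOpen (A p) ∧ Dense (A p) := by
    intro p
    by_cases hp : (p.2.1 ∩ V).Nonempty
    · have e : A p = {x : X | ∃ t ∈ p.2.1 ∩ V, (x, t) ∈ f p.1} := by
        ext x
        simp only [A, mem_ofPred_eq]
        exact ⟨fun h => h hp, fun h _ => h⟩
      rw [e]
      exact ⟨hAo _ _, hA _ _ hp⟩
    · have e : A p = univ := by
        ext x
        simp only [A, mem_ofPred_eq, mem_univ, iff_true]
        exact fun h => absurd h hp
      rw [e]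
      exact ⟨isOpen_univ, dense_univ⟩
  have hAd : Dense (⋂ p, A p) := dense_iInter_of_isOpen (fun p => (hA1 p).1) fun p => (hA1 p).2
  obtain ⟨x, hxU, hxA⟩ := (dense_iff_inter_open.1 hAd) U hU ⟨x₀, hx₀⟩
  rw [mem_iInter] at hxA
  let G : ℕ → Set ℝ := fun n => {t | (x, t) ∈ f n} ∪ (closure V)ᶜ
  have hGo : ∀ n, IsOpen (G n) := fun n =>
    ((ho n).preimage (by fun_prop : Continuous fun t : ℝ => (x, t))).union
      isClosed_closure.isOpen_compl
  have hGd : ∀ n, Dense (G n) := by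
    intro n
    rw [dense_iff_inter_open]
    rintro O' hO' ⟨t, ht⟩
    by_cases hne : (O' ∩ V).Nonempty
    · obtain ⟨s, hsO, hsV⟩ := hne
      obtain ⟨J, hJ, hsJ, hJO⟩ := hb.exists_subset_of_mem_open hsO hO'
      obtain ⟨r, hr, hrf⟩ := hxA (n, ⟨J, hJ⟩) ⟨s, hsJ, hsV⟩
      exact ⟨r, hJO hr.1, Or.inl hrf⟩
    · refine ⟨t, ht, Or.inr fun htV => ?_⟩
      obtain ⟨s, hs1, hs2⟩ := mem_closure_iff.1 htV O' hO' ht
      exact hne ⟨s, hs1, hs2⟩
  have hGG : Dense (⋂ n, G n) := dense_iInter_of_isOpen hGo hGd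
  obtain ⟨t, htV, htG⟩ := (dense_iff_inter_open.1 hGG) V hV ⟨t₀, ht₀⟩
  refine ⟨(x, t), hUV ⟨hxU, htV⟩, mem_iInter.2 fun n => ?_⟩
  rcases mem_iInter.1 htG n with h | h
  · exact h
  · exact absurd (subset_closure htV) h

variable {E : Type u} [AddCommGroup E] [Module ℝ E] [TopologicalSpace E]
  [IsTopologicalAddGroup E] [ContinuousSMul ℝ E]

lemma bdd_prod {B : Set E} (hB : Bornology.IsVonNBounded ℝ B) (c : ℝ) :
    Bornology.IsVonNBounded ℝ (B ×ˢ Icc (-c) c : Set (E × ℝ)) := by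
  have h1 := Bornology.IsVonNBounded.image hB (ContinuousLinearMap.inl ℝ E ℝ)
  have h0 : Bornology.IsVonNBounded ℝ (Icc (-c) c) := by
    rw [NormedSpace.isVonNBounded_iff]
    exact Metric.isBounded_Icc _ _
  have h2 := Bornology.IsVonNBounded.image h0 (ContinuousLinearMap.inr ℝ E ℝ)
  apply (h1.add h2).subset
  rintro ⟨x, s⟩ ⟨hx, hs⟩
  exact ⟨(x, 0), ⟨x, hx, rfl⟩, (0, s), ⟨s, hs, rfl⟩, by simp⟩

lemma snd_bdd {C : Set (E × ℝ)} (hC : Bornology.IsVonNBounded ℝ C) :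
    ∃ m : ℕ, ∀ z ∈ C, z.2 ∈ Icc (-(m : ℝ)) m := by
  have h2 := Bornology.IsVonNBounded.image hC (ContinuousLinearMap.snd ℝ E ℝ)
  rw [NormedSpace.isVonNBounded_iff, isBounded_iff_forall_norm_le] at h2
  obtain ⟨c, hc⟩ := h2
  obtain ⟨m, hm⟩ := exists_nat_ge c
  refine ⟨m, fun z hz => ?_⟩
  have h3 : |z.2| ≤ c := hc _ ⟨z, hz, rfl⟩
  exact abs_le.1 (h3.trans hm)

lemma slice_nhds {V : Set (E × ℝ)} (hV : V ∈ 𝓝 (0 : E × ℝ)) :
    {x : E | (x, (0 : ℝ)) ∈ V} ∈ 𝓝 (0 : E) := by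
  have hc : ContinuousAt (fun x : E => (x, (0 : ℝ))) 0 := by fun_prop
  exact hc.preimage_mem_nhds hV

lemma res_prod (h : Res E) : Res (E × ℝ) := by
  intro V hV
  obtain ⟨C, hC1, hC2, hC3⟩ := h _ (slice_nhds hV)
  refine ⟨fun α => C α ×ˢ Icc (-(α 0 : ℝ)) (α 0), ?_, ?_, ?_⟩
  · intro α β hαβ
    apply prod_mono (hC1 α β hαβ)
    have h1 : (α 0 : ℝ) ≤ β 0 := by exact_mod_cast hαβ 0
    exact Icc_subset_Icc (by linarith) h1
  · intro α
    exact bdd_prod (hC2 α) _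
  · intro B hB
    obtain ⟨α, hα⟩ := hC3 _ (Bornology.IsVonNBounded.image hB (ContinuousLinearMap.fst ℝ E ℝ))
    obtain ⟨m, hm⟩ := snd_bdd hB
    refine ⟨fun i => max (α i) m, ?_⟩
    intro z hz
    obtain ⟨a, ha, v, hv, hav⟩ := hα ⟨z, hz, rfl⟩
    refine ⟨(a, z.2), ⟨hC1 α _ (fun i => le_max_left _ _) ha, ?_⟩, (v, 0), hv, ?_⟩
    · have h1 := hm z hz
      have h2 : (m : ℝ) ≤ ((max (α 0) m : ℕ) : ℝ) := by exact_mod_cast le_max_right _ _
      exact ⟨by linarith [h1.1], by linarith [h1.2]⟩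
    · have h1 : a + v = z.1 := hav
      ext
      · exact h1
      · simp

/-- the bounded sets are countably generated modulo every neighbourhood of zero -/
def CG (E : Type u) [AddCommGroup E] [Module ℝ E] [TopologicalSpace E] : Prop :=
  ∀ V ∈ 𝓝 (0 : E), ∃ B : ℕ → Set E, (∀ n, Bornology.IsVonNBounded ℝ (B n)) ∧
    ∀ C : Set E, Bornology.IsVonNBounded ℝ C → ∃ n, C ⊆ B n + V

lemma cg_prod (h : CG E) : CG (E × ℝ) := by
  intro V hV
  obtain ⟨B, hB1, hB2⟩ := h _ (slice_nhds hV)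
  refine ⟨fun n => B n.unpair.1 ×ˢ Icc (-(n.unpair.2 : ℝ)) n.unpair.2,
    fun n => bdd_prod (hB1 _) _, ?_⟩
  intro C hC
  obtain ⟨n, hn⟩ := hB2 _ (Bornology.IsVonNBounded.image hC (ContinuousLinearMap.fst ℝ E ℝ))
  obtain ⟨m, hm⟩ := snd_bdd hC
  refine ⟨Nat.pair n m, ?_⟩
  intro z hz
  obtain ⟨a, ha, v, hv, hav⟩ := hn ⟨z, hz, rfl⟩
  refine ⟨(a, z.2), ?_, (v, 0), hv, ?_⟩
  · change (a, z.2) ∈ B (Nat.unpair (Nat.pair n m)).1 ×ˢ
      Icc (-((Nat.unpair (Nat.pair n m)).2 : ℝ)) (Nat.unpair (Nat.pair n m)).2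
    rw [Nat.unpair_pair]
    exact ⟨ha, hm z hz⟩
  · have h1 : a + v = z.1 := hav
    ext
    · exact h1
    · simp

/-- local version: near every point the set of points of differentiability is a `Gδ` -/
lemma cg_local (h : CG E) {D : Set E} (hD : IsOpen D) (hDc : Convex ℝ D) {f : E → ℝ}
    (hfc : ContinuousOn f D) (hf : ConvexOn ℝ D f) {x₀ : E} (hx₀ : x₀ ∈ D) :
    ∃ W : Set E, IsOpen W ∧ x₀ ∈ W ∧ W ⊆ D ∧ IsGδ ({x | x ∈ D ∧ SD (bdd E) D f x} ∩ W) := by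
  obtain ⟨W, V, hWo, hxW, hWD, hV, hWV⟩ := loc_bound hD hfc hx₀
  obtain ⟨B, hB1, hB2⟩ := h V hV
  refine ⟨W, hWo, hxW, hWD, ?_⟩
  set O : ℕ → Set E := fun n => {x | ∃ t : ℝ, 0 < t ∧ ∃ U : Set E, IsOpen U ∧ x ∈ U ∧
    ∀ x' ∈ U, ∀ h ∈ B n, x' + t • h ∈ D ∧ x' - t • h ∈ D ∧
      f (x' + t • h) + f (x' - t • h) - 2 * f x' ≤ t} with hO
  have hOo : ∀ n, IsOpen (O n) := by
    intro n
    rw [isOpen_iff_mem_nhds]
    rintro x ⟨t, ht, U, hU, hxU, hU2⟩
    filter_upwards [hU.mem_nhds hxU] with x' hx'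
    exact ⟨t, ht, U, hU, hx', hU2⟩
  have key1 : ∀ x ∈ W, SD (bdd E) D f x → ∀ n, x ∈ O n := by
    intro x hxW hx n
    obtain ⟨δ, hδ, h1⟩ := hx (B n) (hB1 n) (1 / 2) (by positivity)
    have hc : ContinuousAt (fun q : E × E => q.1 + q.2) (x, 0) := by fun_prop
    have h2 : (fun q : E × E => q.1 + q.2) ⁻¹' W ∈ 𝓝 ((x, 0) : E × E) := by
      apply hc.preimage_mem_nhds
      simp only [add_zero]
      exact hWo.mem_nhds hxW
    obtain ⟨U1, hU1, V1, hV1, hUV⟩ := mem_nhds_prod_iff.1 h2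
    obtain ⟨V2, hV2V, hV2o, h0V2⟩ := mem_nhds_iff.1 hV1
    obtain ⟨δ', hδ', h3⟩ := small_bdd (hB1 n) hV2o h0V2
    set t : ℝ := min δ δ' / 2 with ht
    have ht0 : 0 < t := by positivity
    have ht1 : t < δ := by
      have := min_le_left δ δ'
      rw [ht]; linarith
    have ht2 : t < δ' := by
      have := min_le_right δ δ'
      rw [ht]; linarith
    set κ : ℝ := t / 8 with hκ
    have hκ0 : 0 < κ := by positivity
    have hnear : ∀ᶠ x' in 𝓝 x, x' ∈ U1 ∧ (2 / κ) • (x' - x) ∈ V ∩ -V := by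
      have c1 : ContinuousAt (fun z : E => (2 / κ) • (z - x)) x := by fun_prop
      have c2 : ∀ᶠ x' in 𝓝 x, (2 / κ) • (x' - x) ∈ V ∩ -V := by
        apply c1.preimage_mem_nhds
        simp only [sub_self, smul_zero]
        exact Filter.inter_mem hV (neg_mem_nhds_zero E hV)
      exact Filter.Eventually.and hU1 c2
    obtain ⟨U, hU, hUo, hxU⟩ := eventually_nhds_iff.1 hnear
    refine ⟨t, ht0, U, hUo, hxU, fun x' hx' h hh => ?_⟩
    obtain ⟨p1, p2⟩ := hU x' hx'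
    have hxU1 : x ∈ U1 := (hU x hxU).1
    have v1 : t • h ∈ V1 := by
      have := h3 h hh t (by rwa [abs_of_pos ht0])
      rw [zero_add] at this
      exact hV2V this
    have v2 : -(t • h) ∈ V1 := by
      have := h3 h hh (-t) (by rwa [abs_neg, abs_of_pos ht0])
      rw [zero_add, neg_smul] at this
      exact hV2V this
    have w1 : x' + t • h ∈ W := hUV (show ((x', t • h) : E × E) ∈ U1 ×ˢ V1 from ⟨p1, v1⟩)
    have w2 : x' - t • h ∈ W := by
      rw [sub_eq_add_neg]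
      exact hUV (show ((x', -(t • h)) : E × E) ∈ U1 ×ˢ V1 from ⟨p1, v2⟩)
    have w3 : x + t • h ∈ W := hUV (show ((x, t • h) : E × E) ∈ U1 ×ˢ V1 from ⟨hxU1, v1⟩)
    have w4 : x - t • h ∈ W := by
      rw [sub_eq_add_neg]
      exact hUV (show ((x, -(t • h)) : E × E) ∈ U1 ×ˢ V1 from ⟨hxU1, v2⟩)
    have lip : ∀ z ∈ W, ∀ z' ∈ D, (2 / κ) • (z - z') ∈ V ∨ (2 / κ) • (z' - z) ∈ V →
        f z - f z' ≤ κ := by
      intro z hz z' hz' hv
      obtain ⟨φ, hφ⟩ := exists_subgrad hD hfc hf (hWD hz)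
      have q1 := hφ z' hz'
      have q2 : |φ (z - z')| ≤ κ := by
        rcases hv with hv | hv
        · have q3 := hWV z hz φ hφ _ hv
          rw [map_smul, smul_eq_mul, abs_mul, abs_of_pos (by positivity), div_mul_eq_mul_div,
            div_le_iff₀ hκ0] at q3
          linarith
        · have q3 := hWV z hz φ hφ _ hv
          rw [map_smul, smul_eq_mul, abs_mul, abs_of_pos (by positivity), div_mul_eq_mul_div,
            div_le_iff₀ hκ0, ← neg_sub z z', map_neg, abs_neg] at q3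
          linarith
      have q4 : φ (z' - z) = - φ (z - z') := by rw [← map_neg, neg_sub]
      rw [q4] at q1
      have := (abs_le.1 q2).2
      linarith
    have l1 : f (x' + t • h) - f (x + t • h) ≤ κ := by
      apply lip _ w1 _ (hWD w3)
      left
      rw [add_sub_add_right_eq_sub]
      exact p2.1
    have l2 : f (x' - t • h) - f (x - t • h) ≤ κ := by
      apply lip _ w2 _ (hWD w4)
      left
      rw [sub_sub_sub_cancel_right]
      exact p2.1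
    have l3 : f x - f x' ≤ κ := by
      apply lip _ hxW _
      · have : x' + t • h ∈ D ∧ x' - t • h ∈ D := ⟨hWD w1, hWD w2⟩
        have e : x' = (1 / 2 : ℝ) • (x' + t • h) + (1 / 2 : ℝ) • (x' - t • h) := by module
        rw [e]
        exact hDc this.1 this.2 (by norm_num) (by norm_num) (by norm_num)
      · right
        exact p2.1
    obtain ⟨-, -, h4⟩ := h1 h hh t ht0 ht1
    refine ⟨hWD w1, hWD w2, ?_⟩
    have e1 : 4 * κ = t / 2 := by rw [hκ]; ring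
    linarith
  have key2 : ∀ x ∈ W, (∀ n, x ∈ O n) → SD (bdd E) D f x := by
    intro x hxW hx C hC ε hε
    have hxD := hWD hxW
    -- scale
    set K : ℝ := 5 / ε with hK
    have hK0 : 0 < K := by positivity
    have hKC : Bornology.IsVonNBounded ℝ (K • C) := by
      have h1 := Bornology.IsVonNBounded.image hC (K • ContinuousLinearMap.id ℝ E)
      have e : (K • ContinuousLinearMap.id ℝ E : E →L[ℝ] E) '' C = K • C := by
        rw [← image_smul]; rfl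
      rwa [e] at h1
    obtain ⟨n, hn⟩ := hB2 _ hKC
    obtain ⟨t, ht, U, hU, hxU, hU2⟩ := hx n
    obtain ⟨δ, hδ, hsm⟩ := small_bdd hC hWo hxW
    refine ⟨min δ (K * t), by positivity, fun h hh s hs hst => ?_⟩
    have hs1 : s < δ := hst.trans_le (min_le_left _ _)
    have hs2 : s < K * t := hst.trans_le (min_le_right _ _)
    have w1 : x + s • h ∈ W := hsm h hh s (by rwa [abs_of_pos hs])
    have w2 : x - s • h ∈ W := by
      have := hsm h hh (-s) (by rwa [abs_neg, abs_of_pos hs])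
      rwa [neg_smul, ← sub_eq_add_neg] at this
    refine ⟨hWD w1, hWD w2, ?_⟩
    obtain ⟨b, hb, v, hv, hbv⟩ := hn ⟨h, hh, rfl⟩
    simp only at hbv
    set τ : ℝ := s / K with hτ
    have hτ0 : 0 < τ := by positivity
    have hτt : τ < t := by rw [hτ, div_lt_iff₀ hK0]; linarith
    have hsh : s • h = τ • b + τ • v := by
      rw [← smul_add, hbv, smul_smul, hτ, div_mul_cancel₀ _ hK0.ne']
    obtain ⟨d1, d2, d3⟩ := hU2 x hxU b hb
    have hst1 : 0 ≤ 1 - τ / t := by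
      rw [sub_nonneg, div_le_one ht]; exact hτt.le
    have hst0 : 0 ≤ τ / t := by positivity
    have e1 : x + τ • b = (1 - τ / t) • x + (τ / t) • (x + t • b) := by
      rw [smul_add, smul_smul, div_mul_cancel₀ _ ht.ne', sub_smul, one_smul]
      abel
    have e2 : x - τ • b = (1 - τ / t) • x + (τ / t) • (x - t • b) := by
      rw [smul_sub, smul_smul, div_mul_cancel₀ _ ht.ne', sub_smul, one_smul]
      abel
    have c1 := hf.2 hxD d1 hst1 hst0 (by ring)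
    have c2 := hf.2 hxD d2 hst1 hst0 (by ring)
    have z1 : x + τ • b ∈ D := by rw [e1]; exact hDc hxD d1 hst1 hst0 (by ring)
    have z2 : x - τ • b ∈ D := by rw [e2]; exact hDc hxD d2 hst1 hst0 (by ring)
    rw [← e1] at c1
    rw [← e2] at c2
    simp only [smul_eq_mul] at c1 c2
    have c3 : f (x + τ • b) + f (x - τ • b) - 2 * f x ≤
        (τ / t) * (f (x + t • b) + f (x - t • b) - 2 * f x) := by linarith
    have c4 : (τ / t) * (f (x + t • b) + f (x - t • b) - 2 * f x) ≤ (τ / t) * t :=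
      mul_le_mul_of_nonneg_left d3 hst0
    have c5 : (τ / t) * t = τ := by field_simp
    have m1 : f (x + s • h) - f (x + τ • b) ≤ 2 * τ := by
      obtain ⟨φ, hφ⟩ := exists_subgrad hD hfc hf (hWD w1)
      have q1 := hφ _ z1
      have q2 := hWV _ w1 φ hφ v hv
      have q3 : x + τ • b - (x + s • h) = -(τ • v) := by rw [hsh]; abel
      rw [q3, map_neg, map_smul, smul_eq_mul] at q1
      have q4 := mul_le_mul_of_nonneg_left (abs_le.1 q2).2 hτ0.le
      linarith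
    have m2 : f (x - s • h) - f (x - τ • b) ≤ 2 * τ := by
      obtain ⟨φ, hφ⟩ := exists_subgrad hD hfc hf (hWD w2)
      have q1 := hφ _ z2
      have q2 := hWV _ w2 φ hφ v hv
      have q3 : x - τ • b - (x - s • h) = τ • v := by rw [hsh]; abel
      rw [q3, map_smul, smul_eq_mul] at q1
      have q4 := mul_le_mul_of_nonneg_left (abs_le.1 q2).1 hτ0.le
      linarith
    have c6 : 5 * τ = ε * s := by
      rw [hτ, hK]; field_simp
    linarith
  have e : {x | x ∈ D ∧ SD (bdd E) D f x} ∩ W = W ∩ ⋂ n, O n := by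
    ext x
    constructor
    · rintro ⟨⟨-, hx⟩, hxW⟩
      exact ⟨hxW, mem_iInter.2 fun n => key1 x hxW hx n⟩
    · rintro ⟨hxW, hx⟩
      exact ⟨⟨hWD hxW, key2 x hxW fun n => mem_iInter.1 hx n⟩, hxW⟩
  rw [e]
  exact hWo.isGδ.inter (IsGδ.iInter fun n => (hOo n).isGδ)

/-- a dense set which is locally a `Gδ` contains a dense `Gδ` -/
lemma local_gdelta {X : Type u} [TopologicalSpace X] {D S : Set X} (hD : IsOpen D)
    (hdense : D ⊆ closure S)
    (hloc : ∀ x ∈ D, ∃ W : Set X, IsOpen W ∧ x ∈ W ∧ W ⊆ D ∧ IsGδ (S ∩ W)) :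
    ∃ G ⊆ S, G ⊆ D ∧ IsGδ G ∧ D ⊆ closure G := by
  obtain ⟨M, hM1, hM2, hM3⟩ := exists_max_pairwise
    {W : Set X | IsOpen W ∧ W.Nonempty ∧ W ⊆ D ∧ IsGδ (S ∩ W)} (fun a b => Disjoint a b)
  have hch : ∀ W : M, ∃ O : ℕ → Set X, (∀ n, IsOpen (O n)) ∧ S ∩ W = ⋂ n, O n := fun W =>
    (hM1 W.2).2.2.2.eq_iInter_nat
  choose O hO1 hO2 using hch
  have hG : (⋃ W : M, S ∩ W.1) = ⋂ n, ⋃ W : M, (O W n ∩ W.1) := by
    ext x
    constructor
    · intro hx
      obtain ⟨W, hW⟩ := mem_iUnion.1 hx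
      have h1 : x ∈ ⋂ n, O W n := by rw [← hO2 W]; exact hW
      exact mem_iInter.2 fun n => mem_iUnion.2 ⟨W, mem_iInter.1 h1 n, hW.2⟩
    · intro hx
      rw [mem_iInter] at hx
      obtain ⟨W, hW⟩ := mem_iUnion.1 (hx 0)
      refine mem_iUnion.2 ⟨W, ?_⟩
      rw [hO2 W, mem_iInter]
      intro n
      obtain ⟨W', hW'⟩ := mem_iUnion.1 (hx n)
      have : W' = W := by
        by_contra hne
        have hd := hM2 W'.2 W.2 (fun h => hne (Subtype.ext h))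
        exact disjoint_left.1 hd hW'.2 hW.2
      subst this
      exact hW'.1
  refine ⟨⋃ W : M, S ∩ W.1, iUnion_subset fun W => inter_subset_left,
    iUnion_subset fun W => inter_subset_right.trans (hM1 W.2).2.2.1, ?_, ?_⟩
  · rw [hG]
    exact IsGδ.iInter fun n => (isOpen_iUnion fun W => (hO1 W n).inter (hM1 W.2).1).isGδ
  · intro x hx
    rw [mem_closure_iff]
    intro U hU hxU
    obtain ⟨W₀, hW₀o, hxW₀, hW₀D, hW₀G⟩ := hloc x hx
    have hUo : IsOpen (U ∩ W₀) := hU.inter hW₀o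
    have hUG : IsGδ (S ∩ (U ∩ W₀)) := by
      have e : S ∩ (U ∩ W₀) = U ∩ (S ∩ W₀) := by
        ext y; constructor
        · rintro ⟨a, b, c⟩; exact ⟨b, a, c⟩
        · rintro ⟨a, b, c⟩; exact ⟨b, a, c⟩
      rw [e]
      exact hU.isGδ.inter hW₀G
    have hmeet : ∃ W : M, ((U ∩ W₀) ∩ W.1).Nonempty := by
      by_cases hUM : (U ∩ W₀) ∈ M
      · exact ⟨⟨_, hUM⟩, x, ⟨hxU, hxW₀⟩, hxU, hxW₀⟩
      · obtain ⟨W, hW, hn⟩ := hM3 (U ∩ W₀) ⟨hUo, ⟨x, hxU, hxW₀⟩,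
          inter_subset_right.trans hW₀D, hUG⟩ hUM
        refine ⟨⟨W, hW⟩, ?_⟩
        by_contra hne
        rw [not_nonempty_iff_eq_empty] at hne
        have hd : Disjoint (U ∩ W₀) W := disjoint_iff_inter_eq_empty.2 hne
        exact hn ⟨hd, hd.symm⟩
    obtain ⟨W, y, hy1, hy2⟩ := hmeet
    obtain ⟨s, hs1, hs2⟩ := mem_closure_iff.1 (hdense (hW₀D hy1.2)) ((U ∩ W₀) ∩ W.1)
      (hUo.inter (hM1 W.2).1) ⟨hy1, hy2⟩
    exact ⟨s, hs1.1.1, mem_iUnion.2 ⟨W, hs2, hs1.2⟩⟩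

theorem asplund_of_cg (h : CG E) (hE : IsFDS E) : IsAsplund E := by
  intro D hne hD hDc f hfc hf
  have h1 := hE D hne hD hDc f hfc hf
  have h2 : D ⊆ closure {x | x ∈ D ∧ SD (bdd E) D f x} := h1.trans
    (closure_mono fun x hx => ⟨hx.1, sd_of_diff (frechet_iff.1 hx.2)⟩)
  obtain ⟨G, hG1, hG2, hG3, hG4⟩ := local_gdelta hD h2 fun x hx => cg_local h hD hDc hfc hf hx
  exact ⟨G, hG2, hG3, hG4, fun x hx => frechet_iff.2
    (diff_of_sd hD hfc hf (hG1 hx).1 (fun h => singleton_bdd h) (hG1 hx).2)⟩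

end H299.As
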