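import Pool.Agent.H299R3.AsG

open Set Topology Pointwise

namespace H299.As

open H647R3.Fac

universe u

variable {E : Type u} [AddCommGroup E] [Module ℝ E] [TopologicalSpace E]

/-- quasinormable spaces (Grothendieck) -/
def QN (E : Type u) [AddCommGroup E] [Module ℝ E] [TopologicalSpace E] : Prop :=
  ∀ V ∈ 𝓝 (0 : E), ∃ U ∈ 𝓝 (0 : E), ∀ ε : ℝ, 0 < ε → ∃ B : Set E,
    Bornology.IsVonNBounded ℝ B ∧ U ⊆ B + ε • V

variable [IsTopologicalAddGroup E] [ContinuousSMul ℝ E]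

lemma bdd_smul {C : Set E} (hC : Bornology.IsVonNBounded ℝ C) (K : ℝ) :
    Bornology.IsVonNBounded ℝ (K • C) := by
  have h1 := Bornology.IsVonNBounded.image hC (K • ContinuousLinearMap.id ℝ E)
  have e : (K • ContinuousLinearMap.id ℝ E : E →L[ℝ] E) '' C = K • C := by
    rw [← image_smul]; rfl
  rwa [e] at h1

lemma cg_of_qn (h : QN E) : CG E := by
  intro V hV
  obtain ⟨V', hV', hbal, hV'V⟩ : ∃ V' ∈ 𝓝 (0 : E), Balanced ℝ V' ∧ V' ⊆ V :=
    ⟨balancedCore ℝ V, balancedCore_mem_nhds_zero hV, balancedCore_balanced V,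
      balancedCore_subset V⟩
  obtain ⟨U, hU, hUB⟩ := h V' hV'
  have h1 : ∀ n : ℕ, ∃ B : Set E, Bornology.IsVonNBounded ℝ B ∧
      U ⊆ B + (1 / ((n : ℝ) + 1)) • V' := fun n => hUB _ (by positivity)
  choose B hB1 hB2 using h1
  refine ⟨fun n => ((n : ℝ) + 1) • B n, fun n => bdd_smul (hB1 n) _, ?_⟩
  intro C hC
  obtain ⟨ρ, hρ, hC2⟩ := (hC hU).exists_pos
  obtain ⟨n, hn⟩ := exists_nat_ge ρ
  refine ⟨n, ?_⟩
  have h2 : C ⊆ ((n : ℝ) + 1) • U := hC2 _ (by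
    rw [Real.norm_of_nonneg (by positivity)]; linarith)
  intro x hx
  obtain ⟨y, hy, hyx⟩ := h2 hx
  obtain ⟨b, hb, w, ⟨v, hv, hvw⟩, hbw⟩ := hB2 n hy
  simp only at hyx hvw hbw
  refine ⟨((n : ℝ) + 1) • b, ⟨b, hb, rfl⟩, v, hV'V hv, ?_⟩
  have hn0 : ((n : ℝ) + 1) ≠ 0 := by positivity
  have h3 : ((n : ℝ) + 1) • w = v := by
    rw [← hvw, smul_smul, mul_one_div_cancel hn0, one_smul]
  change ((n : ℝ) + 1) • b + v = x
  rw [← h3, ← smul_add, hbw, hyx]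

omit [IsTopologicalAddGroup E] [ContinuousSMul ℝ E] in
lemma cg_of_fsb (h : FSB E) : CG E := by
  obtain ⟨B, hB1, hB2⟩ := h
  intro V hV
  refine ⟨B, hB1, fun C hC => ?_⟩
  obtain ⟨n, hn⟩ := hB2 C hC
  exact ⟨n, fun x hx => ⟨x, hn hx, 0, mem_of_mem_nhds hV, add_zero x⟩⟩

lemma res_of_metrizable [LocallyConvexSpace ℝ E] [FirstCountableTopology E] : Res E := by
  obtain ⟨V, hV1, hV2⟩ := (nhds_hasBasis_absConvex_open ℝ E).exists_antitone_subbasis
  have hbal : ∀ i, Balanced ℝ (V i) := fun i => (hV1 i).2.2.1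
  have hnhds : ∀ i, V i ∈ 𝓝 (0 : E) := fun i => (hV1 i).2.1.mem_nhds (hV1 i).1
  intro W hW
  refine ⟨fun α => {h | ∀ i, h ∈ ((α i : ℝ) + 1) • V i}, ?_, ?_, ?_⟩
  · intro α β hαβ h hh i
    apply (hbal i).smul_mono _ (hh i)
    have h1 : (α i : ℝ) ≤ β i := by exact_mod_cast hαβ i
    rw [Real.norm_of_nonneg (by positivity), Real.norm_of_nonneg (by positivity)]
    linarith
  · intro α N hN
    obtain ⟨i, -, hi⟩ := hV2.toHasBasis.mem_iff.1 hN
    exact ((absorbs_smul_self (hbal i) ((α i : ℝ) + 1)).mono_left hi).mono_right fun h hh => hh i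
  · intro B hB
    have h1 : ∀ i, ∃ n : ℕ, B ⊆ ((n : ℝ) + 1) • V i := by
      intro i
      obtain ⟨ρ, hρ, h2⟩ := (hB (hnhds i)).exists_pos
      obtain ⟨n, hn⟩ := exists_nat_ge ρ
      refine ⟨n, h2 _ ?_⟩
      rw [Real.norm_of_nonneg (by positivity)]
      linarith
    choose α hα using h1
    exact ⟨α, fun x hx => ⟨x, fun i => hα i hx, 0, mem_of_mem_nhds hW, add_zero x⟩⟩

lemma res_pi {ι : Type u} (F : ι → Type u) [∀ i, AddCommGroup (F i)] [∀ i, Module ℝ (F i)]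
    [∀ i, TopologicalSpace (F i)] [∀ i, IsTopologicalAddGroup (F i)]
    [∀ i, ContinuousSMul ℝ (F i)] (h : ∀ i, Res (F i)) : Res (∀ i, F i) := by
  classical
  intro V hV
  rw [nhds_pi, Filter.mem_pi] at hV
  obtain ⟨J, hJ, t, ht, htV⟩ := hV
  have hch : ∀ i, ∃ C : (ℕ → ℕ) → Set (F i), (∀ α β : ℕ → ℕ, α ≤ β → C α ⊆ C β) ∧
    (∀ α, Bornology.IsVonNBounded ℝ (C α)) ∧
    ∀ B : Set (F i), Bornology.IsVonNBounded ℝ B → ∃ α, B ⊆ C α + t i := fun i =>
      h i (t i) (ht i)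
  choose C hC1 hC2 hC3 using hch
  refine ⟨fun α => {x | (∀ i ∈ J, x i ∈ C i α) ∧ ∀ i ∉ J, x i = 0}, ?_, ?_, ?_⟩
  · intro α β hαβ x hx
    exact ⟨fun i hi => hC1 i α β hαβ (hx.1 i hi), hx.2⟩
  · intro α
    rw [Bornology.isVonNBounded_pi_iff]
    intro i
    by_cases hi : i ∈ J
    · apply (hC2 i α).subset
      rintro _ ⟨x, hx, rfl⟩
      exact hx.1 i hi
    · apply (Bornology.isVonNBounded_singleton (𝕜 := ℝ) (0 : F i)).subset
      rintro _ ⟨x, hx, rfl⟩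
      exact hx.2 i hi
  · intro B hB
    have h1 : ∀ i, ∃ α, (Function.eval i) '' B ⊆ C i α + t i := fun i =>
      hC3 i _ ((Bornology.isVonNBounded_pi_iff.1 hB) i)
    choose a ha using h1
    set α : ℕ → ℕ := hJ.toFinset.sup a with hα
    have haα : ∀ i ∈ J, a i ≤ α := fun i hi => Finset.le_sup (hJ.mem_toFinset.2 hi)
    refine ⟨α, fun x hx => ?_⟩
    have h2 : ∀ i, ∃ p ∈ C i (a i), ∃ q ∈ t i, x i = p + q := by
      intro i
      obtain ⟨p, hp, q, hq, hpq⟩ := ha i ⟨x, hx, rfl⟩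
      exact ⟨p, hp, q, hq, hpq.symm⟩
    choose p hp q hq hpq using h2
    refine ⟨fun i => if i ∈ J then p i else 0, ⟨fun i hi => ?_, fun i hi => ?_⟩,
      fun i => if i ∈ J then q i else x i, htV fun i hi => ?_, ?_⟩
    · simp only [hi, if_true]
      exact hC1 i _ _ (haα i hi) (hp i)
    · simp only [hi, if_false]
    · simp only [hi, if_true]
      exact hq i
    · funext i
      by_cases hi : i ∈ J
      · simp only [Pi.add_apply, hi, if_true]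
        exact (hpq i).symm
      · simp only [Pi.add_apply, hi, if_false, zero_add]

end H299.As
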