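import Pool.Agent.H299R3.AsH

open Set Topology Pointwise

namespace H299.As

open H647R3.Fac

universe u

variable {E : Type u} [AddCommGroup E] [Module ℝ E] [TopologicalSpace E]

lemma res_of_cg (h : CG E) : Res E := by
  intro V hV
  obtain ⟨B, hB1, hB2⟩ := h V hV
  refine ⟨fun α => ⋃ n ∈ {n : ℕ | n ≤ α 0}, B n, ?_, ?_, ?_⟩
  · intro α β hαβ
    apply biUnion_mono _ fun n _ => subset_rfl
    intro n hn
    exact le_trans hn (hαβ 0)
  · intro α
    rw [Bornology.isVonNBounded_biUnion (Set.finite_le_nat (α 0))]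
    exact fun n _ => hB1 n
  · intro C hC
    obtain ⟨n, hn⟩ := hB2 C hC
    refine ⟨fun _ => n, hn.trans (add_subset_add_right ?_)⟩
    exact subset_biUnion_of_mem (u := fun n => B n) (show n ∈ {m : ℕ | m ≤ n} from le_refl n)

variable [IsTopologicalAddGroup E]

omit [Module ℝ E] in
/-- a topological group that is not Baire is a countable increasing union of closed sets with
empty interior -/
lemma meagre_of_not_baire (h : ¬ BaireSpace E) :
    ∃ N : ℕ → Set E, Monotone N ∧ (∀ n, IsClosed (N n)) ∧ (∀ n, interior (N n) = ∅) ∧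
      ⋃ n, N n = univ := by
  have h1 : ∃ f : ℕ → Set E, (∀ n, IsOpen (f n)) ∧ (∀ n, Dense (f n)) ∧ ¬ Dense (⋂ n, f n) := by
    by_contra hcon
    push Not at hcon
    exact h ⟨fun f h1 h2 => hcon f h1 h2⟩
  obtain ⟨f, hf1, hf2, hf3⟩ := h1
  rw [dense_iff_inter_open] at hf3
  push Not at hf3
  obtain ⟨O, hO, hOn, hOe⟩ := hf3
  have hOm : IsMeagre O := by
    have h2 : O ⊆ ⋃ n, (f n)ᶜ := by
      intro x hx
      by_contra hcon
      simp only [mem_iUnion, mem_compl_iff, not_exists, not_not] at hcon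
      have : x ∈ O ∩ ⋂ n, f n := ⟨hx, mem_iInter.2 hcon⟩
      rw [hOe] at this
      exact this
    refine (isMeagre_iUnion fun n => ?_).mono h2
    apply IsNowhereDense.isMeagre
    rw [IsNowhereDense, (hf1 n).isClosed_compl.closure_eq, interior_compl, (hf2 n).closure_eq,
      compl_univ]
  obtain ⟨o, ho⟩ := hOn
  have h3 : IsMeagre (univ : Set E) := by
    apply meagre_of_local
    rintro U hU ⟨u, hu⟩
    have hc : Continuous (fun x : E => x - u + o) := by fun_prop
    have hop : IsOpenMap (fun x : E => x - u + o) := by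
      have e : (fun x : E => x - u + o) = (Homeomorph.addRight (o - u) : E ≃ₜ E) := by
        funext x
        change x - u + o = x + (o - u)
        abel
      rw [e]
      exact (Homeomorph.addRight (o - u)).isOpenMap
    refine ⟨U ∩ (fun x : E => x - u + o) ⁻¹' O, inter_subset_left, hU.inter (hO.preimage hc),
      ⟨u, hu, by simpa using ho⟩, ?_⟩
    apply (hOm.preimage_of_isOpenMap hc hop).mono
    rw [univ_inter]
    exact inter_subset_right
  obtain ⟨g, hg1, hg2⟩ := meagre_cover h3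
  refine ⟨fun n => ⋃ k ∈ Finset.range n, closure (g k), ?_, ?_, ?_, ?_⟩
  · intro a b hab
    apply biUnion_mono _ fun n _ => subset_rfl
    intro n hn
    have := Finset.mem_range.1 (Finset.mem_coe.1 hn)
    exact Finset.mem_coe.2 (Finset.mem_range.2 (by omega))
  · intro n
    exact Set.Finite.isClosed_biUnion (Finset.finite_toSet _) fun k _ => isClosed_closure
  · intro n
    exact nd_iUnion (fun k => (hg1 k).closure) (fun k => isClosed_closure) n
  · rw [eq_univ_iff_forall]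
    intro x
    obtain ⟨n, hn⟩ := mem_iUnion.1 (hg2 (mem_univ x))
    refine mem_iUnion.2 ⟨n + 1, ?_⟩
    simp only [mem_iUnion]
    exact ⟨n, Finset.mem_range.2 (by omega), subset_closure hn⟩

variable [ContinuousSMul ℝ E]

/-- the parabola -/
noncomputable def qq (a b : ℝ) (r : ℝ) : ℝ := 2 * ((2 * r - a - b) / (b - a)) ^ 2

lemma qq_cont (a b : ℝ) : Continuous (qq a b) := by
  unfold qq
  fun_prop

/-- slices -/
def slc (D : Set (E × ℝ)) (a b : ℝ) : Set E := {x | ∀ r ∈ Icc a b, (x, r) ∈ D}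

omit [AddCommGroup E] [Module ℝ E] [IsTopologicalAddGroup E] [ContinuousSMul ℝ E] in
lemma slc_open {D : Set (E × ℝ)} (hD : IsOpen D) (a b : ℝ) : IsOpen (slc D a b) := by
  rw [isOpen_iff_mem_nhds]
  intro x hx
  have h1 : ({x} ×ˢ Icc a b : Set (E × ℝ)) ⊆ D := by
    rintro ⟨y, r⟩ ⟨hy, hr⟩
    rw [mem_singleton_iff] at hy
    simp only at hy
    rw [hy]
    exact hx r hr
  obtain ⟨u, v, hu, hv, hxu, hrv, huv⟩ := generalized_tube_lemma isCompact_singleton
    isCompact_Icc hD h1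
  filter_upwards [hu.mem_nhds (hxu rfl)] with y hy r hr
  exact huv ⟨hy, hrv hr⟩

/-- For a non-Baire space the Asplund property passes to the product with the line. -/
theorem asplund_prod_of_not_baire (hN : ¬ BaireSpace E) (hE : IsAsplund E) :
    IsAsplund (E × ℝ) := by
  obtain ⟨N, hNm, hNc, hNi, hNu⟩ := meagre_of_not_baire hN
  intro D hne hD hDc f hfc hf
  -- the functions h
  have hfam : ∀ k : ℚ × ℚ, (k.1 : ℝ) < k.2 → ∃ (h : E → ℝ) (G : Set E),
      ContinuousOn h (slc D k.1 k.2) ∧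
      (∀ x ∈ slc D k.1 k.2, ∃ r ∈ Icc (k.1 : ℝ) k.2, h x = f (x, r) - qq k.1 k.2 r) ∧
      (∀ x ∈ slc D k.1 k.2, ∀ r ∈ Icc (k.1 : ℝ) k.2, f (x, r) - qq k.1 k.2 r ≤ h x) ∧
      G ⊆ slc D k.1 k.2 ∧ IsGδ G ∧ slc D k.1 k.2 ⊆ closure G ∧
      ∀ x ∈ G, FrechetAt (slc D k.1 k.2) h x := by
    rintro ⟨a, b⟩ hab
    simp only at hab ⊢
    have hcx : Convex ℝ (slc D a b) := by
      intro x hx y hy s t hs ht hst r hr
      have h1 := hDc (hx r hr) (hy r hr) hs ht hst
      have h2 : s • ((x, r) : E × ℝ) + t • ((y, r) : E × ℝ) = (s • x + t • y, r) := by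
        ext
        · rfl
        · change s * r + t * r = r
          rw [← add_mul, hst, one_mul]
      rwa [h2] at h1
    haveI : Nonempty (Icc (a : ℝ) b) := ⟨⟨a, le_refl _, hab.le⟩⟩
    obtain ⟨h, h1, h2, h3, h4⟩ := sup_fn (C := Icc (a : ℝ) b) hcx
      (fun x c => f (x, c.1) - qq a b c.1)
      (by
        have hc1 : Continuous (fun p : slc D a b × Icc (a : ℝ) b => f (p.1.1, p.2.1)) := by
          have h5 : ContinuousOn f D := hfc
          rw [continuousOn_iff_continuous_domRestrict] at h5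
          exact h5.comp (f := fun p : slc D a b × Icc (a : ℝ) b =>
            (⟨(p.1.1, p.2.1), p.1.2 p.2.1 p.2.2⟩ : D)) (by fun_prop)
        exact hc1.sub ((qq_cont a b).comp (continuous_subtype_val.comp continuous_snd)))
      (by
        intro c
        refine ⟨hcx, fun x hx y hy s t hs ht hst => ?_⟩
        have h5 := hf.2 (hx c.1 c.2) (hy c.1 c.2) hs ht hst
        have h6 : s • ((x, c.1) : E × ℝ) + t • ((y, c.1) : E × ℝ) = (s • x + t • y, c.1) := by
          ext
          · rfl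
          · change s * c.1 + t * c.1 = c.1
            rw [← add_mul, hst, one_mul]
        rw [h6] at h5
        simp only [smul_eq_mul] at h5 ⊢
        have h7 : qq a b c.1 = s * qq a b c.1 + t * qq a b c.1 := by rw [← add_mul, hst, one_mul]
        linarith)
    have h3' : ∀ x ∈ slc D a b, ∃ r ∈ Icc (a : ℝ) b, h x = f (x, r) - qq a b r := by
      intro x hx
      obtain ⟨c, hc⟩ := h3 x hx
      exact ⟨c.1, c.2, hc⟩
    have h4' : ∀ x ∈ slc D a b, ∀ r ∈ Icc (a : ℝ) b, f (x, r) - qq a b r ≤ h x :=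
      fun x hx r hr => h4 x hx ⟨r, hr⟩
    rcases (slc D a b).eq_empty_or_nonempty with he | hn
    · refine ⟨h, ∅, h1, h3', h4', empty_subset _, IsGδ.empty, ?_, fun x hx => absurd hx (by simp)⟩
      rw [he]
      exact empty_subset _
    · obtain ⟨G, g1, g2, g3, g4⟩ := hE (slc D a b) hn (slc_open hD a b) hcx h h1 h2
      exact ⟨h, G, h1, h3', h4', g1, g2, g3, g4⟩
  choose! h G hh1 hh2 hh3 hG1 hG2 hG3 hG4 using hfam
  set S : ℚ × ℚ → Set (E × ℝ) := fun k => {z | (k.1 : ℝ) < k.2 ∧ z.1 ∈ G k ∧ (k.1 : ℝ) < z.2 ∧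
    z.2 < k.2 ∧ f z - qq k.1 k.2 z.2 = h k z.1} with hS
  have hSG : ∀ k, IsGδ (S k) := by
    intro k
    by_cases hk : (k.1 : ℝ) < k.2
    · set Ω : Set (E × ℝ) := (slc D k.1 k.2) ×ˢ Ioo (k.1 : ℝ) k.2 with hΩ
      have hΩo : IsOpen Ω := (slc_open hD _ _).prod isOpen_Ioo
      have hΩD : Ω ⊆ D := by
        rintro ⟨x, r⟩ ⟨hx, hr⟩
        exact hx r (Ioo_subset_Icc_self hr)
      have hcont : ContinuousOn (fun z : E × ℝ => |f z - qq k.1 k.2 z.2 - h k z.1|) Ω := by
        apply ContinuousOn.abs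
        apply ContinuousOn.sub
        · exact (hfc.mono hΩD).sub ((qq_cont _ _).comp continuous_snd).continuousOn
        · exact (hh1 k hk).comp continuous_fst.continuousOn fun z hz => hz.1
      have hO : ∀ n : ℕ, IsOpen (Ω ∩ (fun z : E × ℝ => |f z - qq k.1 k.2 z.2 - h k z.1|) ⁻¹'
          Iio (1 / ((n : ℝ) + 1))) := fun n => hcont.isOpen_inter_preimage hΩo isOpen_Iio
      have e : S k = (Prod.fst ⁻¹' (G k)) ∩ ⋂ n : ℕ,
          (Ω ∩ (fun z : E × ℝ => |f z - qq k.1 k.2 z.2 - h k z.1|) ⁻¹' Iio (1 / ((n : ℝ) + 1))) := by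
        ext z
        constructor
        · rintro ⟨-, z1, z2, z3, z4⟩
          refine ⟨z1, mem_iInter.2 fun n => ⟨⟨hG1 k hk z1, z2, z3⟩, ?_⟩⟩
          simp only [mem_preimage, mem_Iio]
          rw [z4, sub_self, abs_zero]
          positivity
        · rintro ⟨z1, z2⟩
          rw [mem_iInter] at z2
          refine ⟨hk, z1, (z2 0).1.2.1, (z2 0).1.2.2, ?_⟩
          have h5 : |f z - qq k.1 k.2 z.2 - h k z.1| ≤ 0 := by
            apply le_of_forall_pos_le_add
            intro ε hε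
            obtain ⟨n, hn⟩ := exists_nat_one_div_lt hε
            have h6 : |f z - qq k.1 k.2 z.2 - h k z.1| < 1 / ((n : ℝ) + 1) := (z2 n).2
            linarith
          have h6 := abs_eq_zero.1 (le_antisymm h5 (abs_nonneg _))
          linarith
      rw [e]
      refine IsGδ.inter ?_ (IsGδ.iInter fun n => (hO n).isGδ)
      obtain ⟨O, hO1, hO2⟩ := (hG2 k hk).eq_iInter_nat
      rw [hO2, preimage_iInter]
      exact IsGδ.iInter fun n => ((hO1 n).preimage continuous_fst).isGδ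
    · have : S k = ∅ := by
        ext z
        simp only [hS, mem_ofPred_eq, mem_empty_iff_false, iff_false]
        exact fun hz => hk hz.1
      rw [this]
      exact IsGδ.empty
  have hSD' : ∀ k, ∀ z ∈ S k, z ∈ D ∧ SD (bdd (E × ℝ)) D f z := by
    rintro k ⟨x, r⟩ ⟨hk, hx, hr1, hr2, hz⟩
    simp only at hx hr1 hr2 hz
    have hxs := hG1 k hk hx
    refine ⟨hxs r ⟨hr1.le, hr2.le⟩, ?_⟩
    intro B hB ε hε
    have hsd := sd_of_diff (frechet_iff.1 (hG4 k hk x hx))
    obtain ⟨δ1, hδ1, hd1⟩ := hsd _ (Bornology.IsVonNBounded.image hB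
      (ContinuousLinearMap.fst ℝ E ℝ)) (ε / 2) (by positivity)
    obtain ⟨m, hm⟩ := snd_bdd hB
    -- size of the second coordinate
    set ρ : ℝ := min (r - k.1) (k.2 - r) with hρ
    have hρ0 : 0 < ρ := lt_min (by linarith) (by linarith)
    set c : ℝ := 4 * (2 / ((k.2 : ℝ) - k.1)) ^ 2 * (m + 1) ^ 2 with hc
    have hkk : 0 < (k.2 : ℝ) - k.1 := by linarith
    have hc0 : 0 < c := by positivity
    refine ⟨min δ1 (min (ρ / (m + 1)) (ε / (2 * c))), by positivity, ?_⟩
    rintro ⟨y, s⟩ hys t ht0 ht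
    have ht1 : t < δ1 := ht.trans_le (min_le_left _ _)
    have ht2 : t < ρ / (m + 1) := ht.trans_le ((min_le_right _ _).trans (min_le_left _ _))
    have ht3 : t < ε / (2 * c) := ht.trans_le ((min_le_right _ _).trans (min_le_right _ _))
    obtain ⟨d1, d2, d3⟩ := hd1 y ⟨(y, s), hys, rfl⟩ t ht0 ht1
    have hs := hm _ hys
    simp only at hs
    have hsm : |s| ≤ m := abs_le.2 hs
    have hts : |t * s| ≤ ρ := by
      rw [abs_mul, abs_of_pos ht0]
      rw [lt_div_iff₀ (by positivity)] at ht2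
      have : t * |s| ≤ t * (m + 1) := mul_le_mul_of_nonneg_left (by linarith) ht0.le
      linarith
    have hts' := abs_le.1 hts
    have hρ1 : ρ ≤ r - k.1 := min_le_left _ _
    have hρ2 : ρ ≤ k.2 - r := min_le_right _ _
    have m1 : r + t * s ∈ Icc (k.1 : ℝ) k.2 := ⟨by linarith, by linarith⟩
    have m2 : r - t * s ∈ Icc (k.1 : ℝ) k.2 := ⟨by linarith, by linarith⟩
    have e1 : ((x, r) : E × ℝ) + t • (y, s) = (x + t • y, r + t * s) := rfl
    have e2 : ((x, r) : E × ℝ) - t • (y, s) = (x - t • y, r - t * s) := rfl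
    rw [e1, e2]
    refine ⟨d1 _ m1, d2 _ m2, ?_⟩
    have f1 := hh3 k hk _ d1 _ m1
    have f2 := hh3 k hk _ d2 _ m2
    have q1 : qq k.1 k.2 (r + t * s) + qq k.1 k.2 (r - t * s) - 2 * qq k.1 k.2 r =
        4 * (2 / ((k.2 : ℝ) - k.1)) ^ 2 * (t * s) ^ 2 := by
      unfold qq
      field_simp
      ring
    have q2 : 4 * (2 / ((k.2 : ℝ) - k.1)) ^ 2 * (t * s) ^ 2 ≤ c * t ^ 2 := by
      have h7 : s ^ 2 ≤ (m + 1) ^ 2 := by
        rw [← sq_abs s]
        exact pow_le_pow_left₀ (abs_nonneg s) (by linarith) 2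
      have h8 : 4 * (2 / ((k.2 : ℝ) - k.1)) ^ 2 * (t * s) ^ 2 =
          (4 * (2 / ((k.2 : ℝ) - k.1)) ^ 2 * t ^ 2) * s ^ 2 := by ring
      have h9 : c * t ^ 2 = (4 * (2 / ((k.2 : ℝ) - k.1)) ^ 2 * t ^ 2) * (m + 1) ^ 2 := by
        rw [hc]; ring
      rw [h8, h9]
      exact mul_le_mul_of_nonneg_left h7 (by positivity)
    have q3 : c * t ^ 2 ≤ ε / 2 * t := by
      rw [lt_div_iff₀ (by positivity)] at ht3
      nlinarith
    linarith
  -- the dense set
  set e : ℚ × ℚ → ℕ := Encodable.encode with he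
  have heinj : Function.Injective e := Encodable.encode_injective
  set T : Set (E × ℝ) := ⋃ k, S k ∩ Prod.fst ⁻¹' (N (e k))ᶜ with hT
  have hTeq : T = ⋂ j : ℕ, ((⋃ k ∈ {k : ℚ × ℚ | e k < j}, S k ∩ Prod.fst ⁻¹' (N (e k))ᶜ) ∪
      Prod.fst ⁻¹' (N j)ᶜ) := by
    ext z
    constructor
    · intro hz
      obtain ⟨k, hk1, hk2⟩ := mem_iUnion.1 hz
      rw [mem_iInter]
      intro j
      by_cases hj : z.1 ∈ N j
      · left
        have hkj : e k < j := by
          by_contra hcon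
          exact hk2 (hNm (not_lt.1 hcon) hj)
        exact mem_biUnion (show k ∈ {k : ℚ × ℚ | e k < j} from hkj) ⟨hk1, hk2⟩
      · right; exact hj
    · intro hz
      rw [mem_iInter] at hz
      obtain ⟨j, hj⟩ := mem_iUnion.1 (show z.1 ∈ ⋃ n, N n by rw [hNu]; trivial)
      rcases hz j with h1 | h1
      · obtain ⟨k, -, hk⟩ := mem_iUnion₂.1 h1
        exact mem_iUnion.2 ⟨k, hk⟩
      · exact absurd hj h1
  have hTG : IsGδ T := by
    rw [hTeq]
    refine IsGδ.iInter fun j => IsGδ.union ?_ (((hNc j).isOpen_compl.preimage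
      continuous_fst).isGδ)
    have hfin : {k : ℚ × ℚ | e k < j}.Finite :=
      Set.Finite.preimage heinj.injOn (Set.finite_lt_nat j)
    exact IsGδ.biUnion hfin fun k _ => (hSG k).inter
      ((hNc _).isOpen_compl.preimage continuous_fst).isGδ
  refine ⟨T, ?_, hTG, ?_, ?_⟩
  · intro z hz
    obtain ⟨k, hk, -⟩ := mem_iUnion.1 hz
    exact (hSD' k z hk).1
  · rintro ⟨x₀, r₀⟩ hz₀
    rw [mem_closure_iff]
    intro O hO hzO
    have h1 : ∀ᶠ z in 𝓝 ((x₀, r₀) : E × ℝ), z ∈ D ∧ z ∈ O ∧ f (x₀, r₀) - 1 / 2 < f z ∧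
        f z < f (x₀, r₀) + 1 / 2 := by
      have cD := hfc.continuousAt (hD.mem_nhds hz₀)
      have a1 : ∀ᶠ y in 𝓝 ((x₀, r₀) : E × ℝ), y ∈ D := hD.mem_nhds hz₀
      have a0 : ∀ᶠ y in 𝓝 ((x₀, r₀) : E × ℝ), y ∈ O := hO.mem_nhds hzO
      have a2 := cD.eventually (lt_mem_nhds (show f (x₀, r₀) - 1 / 2 < f (x₀, r₀) by linarith))
      have a3 := cD.eventually (gt_mem_nhds (show f (x₀, r₀) < f (x₀, r₀) + 1 / 2 by linarith))
      filter_upwards [a1, a0, a2, a3] with y b1 b0 b2 b3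
      exact ⟨b1, b0, b2, b3⟩
    obtain ⟨U₀, hU₀, I, hI, hUI⟩ := mem_nhds_prod_iff.1 h1
    obtain ⟨U, hUU, hUo, hxU⟩ := mem_nhds_iff.1 hU₀
    obtain ⟨η, hη, hηI⟩ := Metric.mem_nhds_iff.1 hI
    obtain ⟨a, ha1, ha2⟩ := exists_rat_btwn (show r₀ - η < r₀ by linarith)
    obtain ⟨b, hb1, hb2⟩ := exists_rat_btwn (show r₀ < r₀ + η by linarith)
    have hab : (a : ℝ) < b := ha2.trans hb1
    have hIcc : Icc (a : ℝ) b ⊆ I := by
      intro r hr
      apply hηI
      rw [Metric.mem_ball, Real.dist_eq, abs_lt]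
      exact ⟨by linarith [hr.1], by linarith [hr.2]⟩
    have hbox : ∀ x ∈ U, ∀ r ∈ Icc (a : ℝ) b, (x, r) ∈ D ∧ (x, r) ∈ O ∧
        f (x₀, r₀) - 1 / 2 < f (x, r) ∧ f (x, r) < f (x₀, r₀) + 1 / 2 := fun x hx r hr =>
      hUI (show ((x, r) : E × ℝ) ∈ U₀ ×ˢ I from ⟨hUU hx, hIcc hr⟩)
    have hUs : U ⊆ slc D a b := fun x hx r hr => (hbox x hx r hr).1
    -- avoid N
    have hUN : (U \ N (e (a, b))).Nonempty := by
      by_contra hemp
      rw [not_nonempty_iff_eq_empty, sdiff_eq_empty] at hemp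
      have h2 := interior_mono hemp
      rw [hNi, hUo.interior_eq] at h2
      exact h2 hxU
    obtain ⟨x1, hx1⟩ := hUN
    obtain ⟨x, hx, hxG⟩ := mem_closure_iff.1 (hG3 (a, b) hab (hUs hx1.1)) _
      (hUo.sdiff (hNc (e (a, b)))) hx1
    obtain ⟨r, hr, hmax⟩ := hh2 (a, b) hab x (hUs hx.1)
    simp only at hr hmax
    have hmid : ((a : ℝ) + b) / 2 ∈ Icc (a : ℝ) b := ⟨by linarith, by linarith⟩
    have g1 := hh3 (a, b) hab x (hUs hx.1) _ hmid
    simp only at g1
    have g2 := hbox x hx.1 _ hmid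
    have g3 := hbox x hx.1 r hr
    have g4 : qq a b (((a : ℝ) + b) / 2) = 0 := by
      unfold qq
      have : 2 * (((a : ℝ) + b) / 2) - a - b = 0 := by ring
      rw [this]
      simp
    have g5 : qq a b r < 2 := by
      rw [hmax, g4] at g1
      linarith [g2.2.2.1, g3.2.2.2]
    have hba : (b : ℝ) - a ≠ 0 := by
      have : 0 < (b : ℝ) - a := by linarith
      exact this.ne'
    have hra : (a : ℝ) < r := by
      rcases hr.1.lt_or_eq with hlt | heq
      · exact hlt
      · exfalso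
        rw [← heq] at g5
        unfold qq at g5
        have h3 : (2 * (a : ℝ) - a - b) / (b - a) = -1 := by
          rw [div_eq_iff hba]; ring
        rw [h3] at g5
        norm_num at g5
    have hrb : r < b := by
      rcases hr.2.lt_or_eq with hlt | heq
      · exact hlt
      · exfalso
        rw [heq] at g5
        unfold qq at g5
        have h3 : (2 * (b : ℝ) - a - b) / (b - a) = 1 := by
          rw [div_eq_iff hba]; ring
        rw [h3] at g5
        norm_num at g5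
    refine ⟨(x, r), g3.2.1, mem_iUnion.2 ⟨(a, b), ⟨hab, hxG, hra, hrb, ?_⟩, hx.2⟩⟩
    exact hmax.symm
  · intro z hz
    obtain ⟨k, hk, -⟩ := mem_iUnion.1 hz
    obtain ⟨h1, h2⟩ := hSD' k z hk
    exact frechet_iff.2 (diff_of_sd hD hfc hf h1 (fun h => singleton_bdd h) h2)

end H299.As
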