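import Pool.Agent.H299R3.CpMean

/-!
The core of the argument: a Riesz product construction.
-/

set_option autoImplicit false

namespace Pool.Agent.H299R3

open Filter Topology

theorem exists_seq_dep {S : Type*} (Inv : ℕ → S → Prop) (Step : ℕ → S → S → Prop) (s0 : S)
    (h0 : Inv 0 s0) (hs : ∀ k s, Inv k s → ∃ s', Inv (k + 1) s' ∧ Step k s s') :
    ∃ f : ℕ → S, f 0 = s0 ∧ (∀ k, Inv k (f k)) ∧ ∀ k, Step k (f k) (f (k + 1)) := by
  classical
  haveI : Nonempty S := ⟨s0⟩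
  choose! nxt hn1 hn2 using hs
  let f : ℕ → S := fun n => Nat.rec s0 (fun k s => nxt k s) n
  have hI : ∀ k, Inv k (f k) := by
    intro k
    induction k with
    | zero => exact h0
    | succ k ih => exact hn1 k (f k) ih
  exact ⟨f, rfl, hI, fun k => hn2 k (f k) (hI k)⟩

theorem exists_req : ∃ req : ℕ → ℕ × Finset ℕ, (∀ k, (req k).1 ≤ k) ∧
    (∀ k, 8 * ((req k).2.card : ℝ) * (3 / 4) ^ (req k).1 ≤ 1) ∧
    ∀ n (B : Finset ℕ), 8 * (B.card : ℝ) * (3 / 4) ^ n ≤ 1 → ∃ k, req k = (n, B) := by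
  classical
  let P : ℕ → ℕ × Finset ℕ → Prop := fun k p => p.1 ≤ k ∧ 8 * (p.2.card : ℝ) * (3 / 4) ^ p.1 ≤ 1
  have hP0 : ∀ k, P k (0, ∅) := fun k => ⟨Nat.zero_le _, by simp⟩
  let req : ℕ → ℕ × Finset ℕ := fun k =>
    match Encodable.decode (α := ℕ × Finset ℕ) k.unpair.2 with
    | some p => if P k p then p else (0, ∅)
    | none => (0, ∅)
  have hreq : ∀ k, P k (req k) := by
    intro k
    simp only [req]
    split
    · split_ifs with h
      · exact h
      · exact hP0 k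
    · exact hP0 k
  refine ⟨req, fun k => (hreq k).1, fun k => (hreq k).2, fun n B hB => ?_⟩
  refine ⟨Nat.pair n (Encodable.encode ((n, B) : ℕ × Finset ℕ)), ?_⟩
  have h1 : P (Nat.pair n (Encodable.encode ((n, B) : ℕ × Finset ℕ))) (n, B) :=
    ⟨Nat.left_le_pair _ _, hB⟩
  simp only [req, Nat.unpair_pair, Encodable.encodek]
  rw [if_pos h1]

/-- the indicator function of a set, with real values -/
noncomputable def ind {X : Type*} (S : Set X) : X → ℝ := S.indicator (fun _ => 1)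

theorem ind_of_mem {X : Type*} {S : Set X} {x : X} (h : x ∈ S) : ind S x = 1 := by
  simp [ind, h]

theorem ind_of_notMem {X : Type*} {S : Set X} {x : X} (h : x ∉ S) : ind S x = 0 := by
  simp [ind, h]

theorem ind_nonneg {X : Type*} (S : Set X) (x : X) : 0 ≤ ind S x := by
  by_cases h : x ∈ S
  · rw [ind_of_mem h]; exact zero_le_one
  · rw [ind_of_notMem h]

theorem ind_le_one {X : Type*} (S : Set X) (x : X) : ind S x ≤ 1 := by
  by_cases h : x ∈ S
  · rw [ind_of_mem h]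
  · rw [ind_of_notMem h]; exact zero_le_one

theorem bd_ind {X : Type*} (S : Set X) : Bd (ind S) :=
  ⟨1, fun x => by rw [abs_of_nonneg (ind_nonneg S x)]; exact ind_le_one S x⟩

theorem sum_ind_eq {X : Type*} (cell : X → ℕ) (B : Finset ℕ) (x : X) :
    ∑ t ∈ B, ind {x | cell x = t} x = ind {x | cell x ∈ B} x := by
  by_cases h : cell x ∈ B
  · rw [ind_of_mem (by exact h), Finset.sum_eq_single (cell x)]
    · exact ind_of_mem rfl
    · intro b _ hb
      exact ind_of_notMem (fun h' => hb h'.symm)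
    · exact fun h' => absurd h h'
  · rw [ind_of_notMem (by exact h)]
    refine Finset.sum_eq_zero fun t ht => ind_of_notMem ?_
    intro h'
    exact h (by rw [show cell x = t from h']; exact ht)

section Core

variable {E X U : Type*} [NormedAddCommGroup E] [NormedSpace ℝ E]

/-- the invariant of the construction -/
def Inv (L : Mean X) (cell : ℕ → X → ℕ) (ρ : ℝ) (k : ℕ) (s : (X → ℝ) × Set (X → ℝ)) : Prop :=
  (∀ x, 0 ≤ s.1 x) ∧ (∀ x, s.1 x ≤ (3 / 2) ^ k) ∧ s.2.Finite ∧ (∀ φ ∈ s.2, Bd φ) ∧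
  (fun _ => (1 : ℝ)) ∈ s.2 ∧ (∀ n ≤ k, ∀ t, ind {x | cell n x = t} ∈ s.2) ∧
  3 / 4 + 2 * ρ * (1 / 2) ^ k ≤ L.toFun s.1 ∧ L.toFun s.1 + 2 * ρ * (1 / 2) ^ k ≤ 5 / 4 ∧
  ∀ n ≤ k, ∀ t, L.toFun (fun x => s.1 x * ind {x | cell n x = t} x) + 2 * ρ * (1 / 2) ^ k ≤
    (3 / 4) ^ n + 2 * ρ * (1 / 2) ^ n

/-- the step relation of the construction -/
def Step (v : U → E) (m : ℕ) (c : X → Fin m → (E →L[ℝ] ℝ)) (Z : U → Set X)
    (L : Mean X) (cell : ℕ → X → ℕ) (req : ℕ → ℕ × Finset ℕ) (ρ ε : ℝ) (k : ℕ)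
    (s s' : (X → ℝ) × Set (X → ℝ)) : Prop :=
  ∃ u i, (∀ x, cell (req k).1 x ∈ (req k).2 → x ∈ Z u) ∧ s.2 ⊆ s'.2 ∧
    (fun x => c x i (v u)) ∈ s'.2 ∧
    (∀ φ ∈ s.2, |L.toFun (fun x => s'.1 x * φ x) - L.toFun (fun x => s.1 x * φ x)| ≤
      ρ * (1 / 2) ^ k) ∧
    ε ≤ L.toFun (fun x => s'.1 x * c x i (v u))

theorem step_exists
    (v : U → E) (m : ℕ) (hm : 1 ≤ m) (c : X → Fin m → (E →L[ℝ] ℝ)) (R : ℝ)
    (hR : 1 ≤ R) (hc : ∀ x i, ‖c x i‖ ≤ R) (hM : ∀ x i u, |c x i (v u)| ≤ R)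
    (Z G : U → Set X) (hG : ∀ u, ∀ x ∈ G u, ∃ i, 1 ≤ |c x i (v u)|)
    (hi : ∀ (q : E →L[ℝ] ℝ) (ε : ℝ), 0 < ε →
      ∃ A : Finset X, ∀ u, (∀ x ∈ A, x ∈ Z u) → |q (v u)| ≤ ε)
    (L : Mean X) (cell : ℕ → X → ℕ) (hfin : ∀ n x, cell n x < 2 ^ n)
    (hcell : ∀ n s, L.toFun (ind {x | cell n x = s}) ≤ (1 / 2) ^ n)
    (rich : ∀ n (B : Finset ℕ) (A : Finset X) (η : ℝ), 0 < η → ∃ u,
        (∀ x, cell n x ∈ B → x ∈ Z u) ∧ (∀ x ∈ A, x ∈ Z u) ∧
        L.toFun (ind {x | x ∉ G u ∧ cell n x ∉ B}) ≤ η)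
    (req : ℕ → ℕ × Finset ℕ) (hr1 : ∀ k, (req k).1 ≤ k)
    (hr2 : ∀ k, 8 * ((req k).2.card : ℝ) * (3 / 4) ^ (req k).1 ≤ 1)
    (k : ℕ) (s : (X → ℝ) × Set (X → ℝ))
    (hs : Inv L cell (1 / (32 * m * R)) k s) :
    ∃ s', Inv L cell (1 / (32 * m * R)) (k + 1) s' ∧
      Step v m c Z L cell req (1 / (32 * m * R)) (1 / (8 * m * R)) k s s' := by
  classical
  obtain ⟨g, Φ⟩ := s
  obtain ⟨hg0, hg1, hΦfin, hΦbd, hΦ1, hΦc, hL1, hL2, hLc⟩ := hs
  simp only at hg0 hg1 hΦfin hΦbd hΦ1 hΦc hL1 hL2 hLc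
  have hm' : (1 : ℝ) ≤ m := by exact_mod_cast hm
  have hmR : (1 : ℝ) ≤ m * R := one_le_mul_of_one_le_of_one_le hm' hR
  set ρ : ℝ := 1 / (32 * m * R) with hρ
  have hρ0 : 0 < ρ := by rw [hρ]; positivity
  have hρ1 : ρ ≤ 1 / 32 := by
    rw [hρ, mul_assoc]
    apply div_le_div_of_nonneg_left <;> linarith
  have hgbd : Bd g := ⟨(3 / 2) ^ k, fun x => by rw [abs_of_nonneg (hg0 x)]; exact hg1 x⟩
  have hδ : 0 < ρ * (1 / 2) ^ k := by positivity
  have hpow : ((1 : ℝ) / 2) ^ k ≤ 1 := pow_le_one₀ (by norm_num) (by norm_num)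
  have hδρ : ρ * (1 / 2) ^ k ≤ ρ := by nlinarith
  -- the finite set of points controlling finitely many functionals
  have hA : ∀ φ ∈ Φ, ∀ i : Fin m, ∃ A : Finset X, ∀ u, (∀ x ∈ A, x ∈ Z u) →
      |L.toFun (fun x => g x * φ x * c x i (v u))| ≤ ρ * (1 / 2) ^ k := by
    intro φ hφ i
    obtain ⟨q, hq⟩ := L.exists_avg (fun x => c x i) R (fun x => hc x i)
      (fun x => g x * φ x) (hgbd.mul (hΦbd φ hφ))
    obtain ⟨A, hA⟩ := hi q _ hδ
    exact ⟨A, fun u hu => by have := hA u hu; rwa [hq] at this⟩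
  choose! A hA using hA
  obtain ⟨u, hu1, hu2, hu3⟩ := rich (req k).1 (req k).2
    (hΦfin.toFinset.biUnion fun φ => Finset.univ.biUnion fun i => A φ i)
    (1 / 8 * (2 / 3) ^ k) (by positivity)
  have hsmall : ∀ φ ∈ Φ, ∀ i : Fin m,
      |L.toFun (fun x => g x * φ x * c x i (v u))| ≤ ρ * (1 / 2) ^ k := by
    intro φ hφ i
    refine hA φ hφ i u fun x hx => hu2 x ?_
    simp only [Finset.mem_biUnion, Finset.mem_univ, true_and, Set.Finite.mem_toFinset]
    exact ⟨φ, hφ, i, hx⟩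
  have hfbd : ∀ i : Fin m, Bd (fun x => c x i (v u)) := fun i => ⟨R, fun x => hM x i u⟩
  -- mass estimate
  have hB : L.toFun (fun x => g x * ind {x | cell (req k).1 x ∈ (req k).2} x) ≤ 1 / 4 := by
    have h1 : (fun x => g x * ind {x | cell (req k).1 x ∈ (req k).2} x) =
        fun x => ∑ t ∈ (req k).2, g x * ind {x | cell (req k).1 x = t} x := by
      ext x
      rw [← Finset.mul_sum, sum_ind_eq]
    rw [h1, L.sum _ _ (fun t _ => hgbd.mul (bd_ind _))]
    have h2 : ∀ t ∈ (req k).2, L.toFun (fun x => g x * ind {x | cell (req k).1 x = t} x) ≤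
        2 * (3 / 4) ^ (req k).1 := by
      intro t _
      have h3 := hLc _ (hr1 k) t
      have h4 : ((1 : ℝ) / 2) ^ (req k).1 ≤ (3 / 4) ^ (req k).1 :=
        pow_le_pow_left₀ (by norm_num) (by norm_num) _
      have h5 : (0 : ℝ) < (1 / 2) ^ (req k).1 := by positivity
      nlinarith
    refine (Finset.sum_le_sum h2).trans ?_
    rw [Finset.sum_const, nsmul_eq_mul]
    have := hr2 k
    linarith
  have hbad : L.toFun (fun x => (3 / 2) ^ k * ind {x | x ∉ G u ∧ cell (req k).1 x ∉ (req k).2} x)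
      ≤ 1 / 8 := by
    rw [L.smul' _ _ (bd_ind _)]
    calc _ ≤ (3 / 2 : ℝ) ^ k * (1 / 8 * (2 / 3) ^ k) :=
          mul_le_mul_of_nonneg_left hu3 (by positivity)
      _ = 1 / 8 * ((3 / 2) * (2 / 3)) ^ k := by rw [mul_pow]; ring
      _ = 1 / 8 := by norm_num
  have hsq : ∀ i : Fin m, Bd (fun x => g x * (c x i (v u)) ^ 2) := fun i => by
    have := hgbd.mul ((hfbd i).mul (hfbd i))
    simpa [pow_two] using this
  have hpt : ∀ x, g x ≤ (∑ i : Fin m, g x * (c x i (v u)) ^ 2) +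
      (g x * ind {x | cell (req k).1 x ∈ (req k).2} x +
        (3 / 2) ^ k * ind {x | x ∉ G u ∧ cell (req k).1 x ∉ (req k).2} x) := by
    intro x
    have hs0 : 0 ≤ ∑ i : Fin m, g x * (c x i (v u)) ^ 2 :=
      Finset.sum_nonneg fun i _ => mul_nonneg (hg0 x) (sq_nonneg _)
    have hi1 := mul_nonneg (hg0 x) (ind_nonneg {x | cell (req k).1 x ∈ (req k).2} x)
    have hi2 : 0 ≤ (3 / 2 : ℝ) ^ k * ind {x | x ∉ G u ∧ cell (req k).1 x ∉ (req k).2} x :=
      mul_nonneg (by positivity) (ind_nonneg _ x)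
    by_cases h1 : cell (req k).1 x ∈ (req k).2
    · rw [ind_of_mem (show x ∈ {x | cell (req k).1 x ∈ (req k).2} from h1)] at hi1 ⊢
      linarith
    · by_cases h2 : x ∈ G u
      · obtain ⟨i, hi⟩ := hG u x h2
        have h3 : g x * (c x i (v u)) ^ 2 ≤ ∑ i : Fin m, g x * (c x i (v u)) ^ 2 :=
          Finset.single_le_sum (f := fun i => g x * (c x i (v u)) ^ 2)
            (fun i _ => mul_nonneg (hg0 x) (sq_nonneg _)) (Finset.mem_univ i)
        have h4 : 1 ≤ (c x i (v u)) ^ 2 := by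
          rw [← sq_abs]; nlinarith
        nlinarith [hg0 x]
      · rw [ind_of_mem (show x ∈ {x | x ∉ G u ∧ cell (req k).1 x ∉ (req k).2} from ⟨h2, h1⟩)]
        have := hg1 x
        linarith
  have hsumL : 3 / 8 ≤ ∑ i : Fin m, L.toFun (fun x => g x * (c x i (v u)) ^ 2) := by
    have hbd1 : Bd (fun x => ∑ i : Fin m, g x * (c x i (v u)) ^ 2) :=
      Bd.sum Finset.univ fun i _ => hsq i
    have hbd2 : Bd (fun x => g x * ind {x | cell (req k).1 x ∈ (req k).2} x) :=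
      hgbd.mul (bd_ind _)
    have hbd3 : Bd (fun x => (3 / 2 : ℝ) ^ k *
        ind {x | x ∉ G u ∧ cell (req k).1 x ∉ (req k).2} x) := (bd_ind _).const_mul _
    have h1 := L.mono' _ _ hgbd (hbd1.add (hbd2.add hbd3)) hpt
    rw [L.add' _ _ hbd1 (hbd2.add hbd3), L.add' _ _ hbd2 hbd3,
      L.sum _ _ (fun i _ => hsq i)] at h1
    have h2 : 0 ≤ 2 * ρ * (1 / 2) ^ k := by positivity
    linarith
  obtain ⟨i, hi'⟩ : ∃ i : Fin m, 3 / (8 * m) ≤ L.toFun (fun x => g x * (c x i (v u)) ^ 2) := by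
    by_contra hcon
    push Not at hcon
    haveI : Nonempty (Fin m) := ⟨⟨0, by omega⟩⟩
    have h1 : ∑ i : Fin m, L.toFun (fun x => g x * (c x i (v u)) ^ 2) <
        ∑ i : Fin m, (3 / (8 * m) : ℝ) :=
      Finset.sum_lt_sum_of_nonempty Finset.univ_nonempty fun i _ => hcon i
    rw [Finset.sum_const, Finset.card_univ, Fintype.card_fin, nsmul_eq_mul] at h1
    have h2 : (m : ℝ) * (3 / (8 * m)) = 3 / 8 := by field_simp
    linarith
  set f : X → ℝ := fun x => c x i (v u) with hf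
  have hfb : Bd f := hfbd i
  have hfR : ∀ x, |f x| ≤ R := fun x => hM x i u
  have hR0 : 0 < R := by linarith
  let g' : X → ℝ := fun x => g x * (1 + 1 / (2 * R) * f x)
  have hfac : ∀ x, 1 / 2 ≤ 1 + 1 / (2 * R) * f x ∧ 1 + 1 / (2 * R) * f x ≤ 3 / 2 := by
    intro x
    have h1 : |1 / (2 * R) * f x| ≤ 1 / 2 := by
      rw [abs_mul, abs_of_pos (by positivity : (0:ℝ) < 1 / (2 * R))]
      calc 1 / (2 * R) * |f x| ≤ 1 / (2 * R) * R :=
            mul_le_mul_of_nonneg_left (hfR x) (by positivity)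
        _ = 1 / 2 := by field_simp
    have := abs_le.mp h1
    constructor <;> linarith
  have hg'0 : ∀ x, 0 ≤ g' x := fun x => mul_nonneg (hg0 x) (by linarith [(hfac x).1])
  have hg'1 : ∀ x, g' x ≤ (3 / 2) ^ (k + 1) := by
    intro x
    rw [pow_succ]
    exact mul_le_mul (hg1 x) (hfac x).2 (by linarith [(hfac x).1]) (by positivity)
  have hg'bd : Bd g' := ⟨(3 / 2) ^ (k + 1), fun x => by
    rw [abs_of_nonneg (hg'0 x)]; exact hg'1 x⟩
  -- expansion of the averages against the new weight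
  have hexp : ∀ φ : X → ℝ, Bd φ → L.toFun (fun x => g' x * φ x) =
      L.toFun (fun x => g x * φ x) + 1 / (2 * R) * L.toFun (fun x => g x * φ x * f x) := by
    intro φ hφ
    rw [← L.smul' _ _ ((hgbd.mul hφ).mul hfb), ← L.add' _ _ (hgbd.mul hφ)
      (((hgbd.mul hφ).mul hfb).const_mul _)]
    congr 1
    ext x
    simp only [g']
    ring
  have hdiff : ∀ φ ∈ Φ, |L.toFun (fun x => g' x * φ x) - L.toFun (fun x => g x * φ x)| ≤
      ρ * (1 / 2) ^ k := by
    intro φ hφ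
    rw [hexp φ (hΦbd φ hφ), add_sub_cancel_left, abs_mul,
      abs_of_pos (by positivity : (0:ℝ) < 1 / (2 * R))]
    have h1 := hsmall φ hφ i
    have h2 : 1 / (2 * R) ≤ 1 := by
      rw [div_le_one (by positivity)]; linarith
    calc 1 / (2 * R) * |L.toFun (fun x => g x * φ x * f x)|
        ≤ 1 * |L.toFun (fun x => g x * φ x * f x)| :=
          mul_le_mul_of_nonneg_right h2 (abs_nonneg _)
      _ ≤ ρ * (1 / 2) ^ k := by rw [one_mul]; exact h1
  have hLg' : |L.toFun g' - L.toFun g| ≤ ρ * (1 / 2) ^ k := by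
    have := hdiff _ hΦ1
    simpa using this
  have hhalf : ((1 : ℝ) / 2) ^ (k + 1) = (1 / 2) * (1 / 2) ^ k := by rw [pow_succ]; ring
  have habs := abs_le.mp hLg'
  refine ⟨(g', insert f (Φ ∪ Set.range fun t => ind {x | cell (k + 1) x = t})), ?_, ?_⟩
  · refine ⟨hg'0, hg'1, ?_, ?_, ?_, ?_, ?_, ?_, ?_⟩
    · -- finiteness
      refine Set.Finite.insert _ (hΦfin.union ?_)
      have : (Set.range fun t => ind {x | cell (k + 1) x = t}) ⊆
          insert (ind (∅ : Set X))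
            ((fun t => ind {x | cell (k + 1) x = t}) '' (Set.Iio (2 ^ (k + 1)))) := by
        rintro _ ⟨t, rfl⟩
        by_cases ht : t < 2 ^ (k + 1)
        · exact Or.inr ⟨t, ht, rfl⟩
        · left
          simp only
          congr 1
          ext x
          simp only [Set.mem_setOf_eq, Set.mem_empty_iff_false, iff_false]
          intro hx
          exact ht (hx ▸ hfin (k + 1) x)
      exact Set.Finite.subset (((Set.finite_Iio _).image _).insert _) this
    · rintro φ (rfl | hφ | ⟨t, rfl⟩)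
      · exact hfb
      · exact hΦbd φ hφ
      · exact bd_ind _
    · exact Or.inr (Or.inl hΦ1)
    · intro n hn t
      rcases Nat.lt_or_ge n (k + 1) with h | h
      · exact Or.inr (Or.inl (hΦc n (by omega) t))
      · have : n = k + 1 := by omega
        subst this
        exact Or.inr (Or.inr ⟨t, rfl⟩)
    · simp only
      rw [hhalf]
      nlinarith
    · simp only
      rw [hhalf]
      nlinarith
    · intro n hn t
      simp only
      rw [hhalf]
      rcases Nat.lt_or_ge n (k + 1) with h | h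
      · have h1 := hLc n (by omega) t
        have h2 := abs_le.mp (hdiff _ (hΦc n (by omega) t))
        nlinarith
      · have : n = k + 1 := by omega
        subst this
        have h1 : L.toFun (fun x => g' x * ind {x | cell (k + 1) x = t} x) ≤
            L.toFun (fun x => (3 / 2) ^ (k + 1) * ind {x | cell (k + 1) x = t} x) :=
          L.mono' _ _ (hg'bd.mul (bd_ind _)) ((bd_ind _).const_mul _)
            (fun x => mul_le_mul_of_nonneg_right (hg'1 x) (ind_nonneg _ x))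
        rw [L.smul' _ _ (bd_ind _)] at h1
        have h2 : (3 / 2 : ℝ) ^ (k + 1) * L.toFun (ind {x | cell (k + 1) x = t}) ≤
            (3 / 2 : ℝ) ^ (k + 1) * (1 / 2) ^ (k + 1) :=
          mul_le_mul_of_nonneg_left (hcell _ _) (by positivity)
        rw [← mul_pow] at h2
        norm_num at h2 h1 ⊢
        rw [← hhalf]
        norm_num
        linarith
  · refine ⟨u, i, hu1, ?_, Or.inl rfl, hdiff, ?_⟩
    · exact fun φ hφ => Or.inr (Or.inl hφ)
    · show 1 / (8 * m * R) ≤ L.toFun (fun x => g' x * f x)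
      rw [hexp f hfb]
      have h1 := (abs_le.mp (hsmall _ hΦ1 i)).1
      have h1' : -(ρ * (1 / 2) ^ k) ≤ L.toFun (fun x => g x * f x) := by
        simpa using h1
      have h2 : L.toFun (fun x => g x * f x * f x) = L.toFun (fun x => g x * (c x i (v u)) ^ 2) := by
        congr 1
        ext x
        simp only [hf]
        ring
      rw [h2]
      have h3 : 1 / (2 * R) * (3 / (8 * m)) ≤
          1 / (2 * R) * L.toFun (fun x => g x * (c x i (v u)) ^ 2) :=
        mul_le_mul_of_nonneg_left hi' (by positivity)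
      have h4 : 1 / (2 * R) * (3 / (8 * m)) = 6 * ρ := by
        rw [hρ]; field_simp; norm_num
      have h5 : 1 / (8 * m * R) = 4 * ρ := by
        rw [hρ]; field_simp; norm_num
      rw [h5]
      rw [h4] at h3
      linarith

end Core

end Pool.Agent.H299R3
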