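import Pool.Agent.H299R3.CpCore

/-!
The abstract non-embedding theorem.
-/

set_option autoImplicit false

namespace Pool.Agent.H299R3

open Filter Topology

theorem core {E X U : Type*} [NormedAddCommGroup E] [NormedSpace ℝ E]
    (v : U → E) (m : ℕ) (hm : 1 ≤ m) (c : X → Fin m → (E →L[ℝ] ℝ)) (R : ℝ)
    (hR : 1 ≤ R) (hc : ∀ x i, ‖c x i‖ ≤ R) (hM : ∀ x i u, |c x i (v u)| ≤ R)
    (Z G : U → Set X) (hG : ∀ u, ∀ x ∈ G u, ∃ i, 1 ≤ |c x i (v u)|)
    (hi : ∀ (q : E →L[ℝ] ℝ) (ε : ℝ), 0 < ε →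
      ∃ A : Finset X, ∀ u, (∀ x ∈ A, x ∈ Z u) → |q (v u)| ≤ ε)
    (L : Mean X) (cell : ℕ → X → ℕ) (hfin : ∀ n x, cell n x < 2 ^ n)
    (hcell : ∀ n s, L.toFun (ind {x | cell n x = s}) ≤ (1 / 2) ^ n)
    (rich : ∀ n (B : Finset ℕ) (A : Finset X) (η : ℝ), 0 < η → ∃ u,
        (∀ x, cell n x ∈ B → x ∈ Z u) ∧ (∀ x ∈ A, x ∈ Z u) ∧
        L.toFun (ind {x | x ∉ G u ∧ cell n x ∉ B}) ≤ η) : False := by
  classical
  obtain ⟨req, hr1, hr2, hr3⟩ := exists_req
  have hm' : (1 : ℝ) ≤ m := by exact_mod_cast hm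
  have hmR : (1 : ℝ) ≤ m * R := one_le_mul_of_one_le_of_one_le hm' hR
  set ρ : ℝ := 1 / (32 * m * R) with hρ
  have hρ0 : 0 < ρ := by rw [hρ]; positivity
  have hρ1 : ρ ≤ 1 / 32 := by
    rw [hρ, mul_assoc]
    apply div_le_div_of_nonneg_left <;> linarith
  have hε : (1 : ℝ) / (8 * m * R) = 4 * ρ := by
    have : 0 < R := by linarith
    rw [hρ]; field_simp; norm_num
  -- the initial state
  have hInit : Inv L cell ρ 0
      ((fun _ => (1 : ℝ)), insert (fun _ => (1 : ℝ)) (Set.range fun t => ind {x | cell 0 x = t})) := by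
    refine ⟨fun x => zero_le_one, fun x => by simp, ?_, ?_, Or.inl rfl, ?_, ?_, ?_, ?_⟩
    · refine Set.Finite.insert _ ?_
      have : (Set.range fun t => ind {x | cell 0 x = t}) ⊆
          insert (ind (∅ : Set X))
            ((fun t => ind {x | cell 0 x = t}) '' (Set.Iio (2 ^ 0))) := by
        rintro _ ⟨t, rfl⟩
        by_cases ht : t < 2 ^ 0
        · exact Or.inr ⟨t, ht, rfl⟩
        · left
          simp only
          congr 1
          ext x
          simp only [Set.mem_ofPred_eq, Set.mem_empty_iff_false, iff_false]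
          intro hx
          exact ht (hx ▸ hfin 0 x)
      exact Set.Finite.subset (((Set.finite_Iio _).image _).insert _) this
    · rintro φ (rfl | ⟨t, rfl⟩)
      · exact Bd.const 1
      · exact bd_ind _
    · intro n hn t
      obtain rfl : n = 0 := by omega
      exact Or.inr ⟨t, rfl⟩
    · simp only [L.one']
      norm_num
      linarith
    · simp only [L.one']
      norm_num
      linarith
    · intro n hn t
      obtain rfl : n = 0 := by omega
      have := hcell 0 t
      simp only [one_mul, pow_zero, mul_one] at this ⊢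
      linarith
  obtain ⟨σ, -, hσI, hσS⟩ := exists_seq_dep (Inv L cell ρ)
    (Step v m c Z L cell req ρ (1 / (8 * m * R))) _ hInit
    (fun k s hs => step_exists v m hm c R hR hc hM Z G hG hi L cell hfin hcell rich req hr1 hr2
      k s hs)
  choose u i hu hsub hmem hdiff hlow using hσS
  -- monotonicity of the families
  have hmono : ∀ k l, k ≤ l → (σ k).2 ⊆ (σ l).2 := by
    intro k l hkl
    induction l, hkl using Nat.le_induction with
    | base => exact subset_rfl
    | succ l _ ih => exact ih.trans (hsub l)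
  -- persistence of the lower bound
  have hpers : ∀ l k, l + 1 ≤ k → 2 * ρ + 2 * ρ * (1 / 2) ^ k ≤
      L.toFun (fun x => (σ k).1 x * c x (i l) (v (u l))) := by
    intro l k hk
    induction k, hk using Nat.le_induction with
    | base =>
      have h1 := hlow l
      rw [hε] at h1
      have h2 : ((1 : ℝ) / 2) ^ (l + 1) ≤ 1 := pow_le_one₀ (by norm_num) (by norm_num)
      nlinarith
    | succ k hk ih =>
      have h1 := (abs_le.mp (hdiff k _ (hmono (l + 1) k hk (hmem l)))).1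
      have h2 : ((1 : ℝ) / 2) ^ (k + 1) = (1 / 2) * (1 / 2) ^ k := by rw [pow_succ]; ring
      rw [h2]
      nlinarith
  -- the limit functionals
  have hgb : ∀ k, Bd (σ k).1 := fun k => by
    obtain ⟨h0, h1, -⟩ := hσI k
    exact ⟨(3 / 2) ^ k, fun x => by rw [abs_of_nonneg (h0 x)]; exact h1 x⟩
  have hq : ∀ j : Fin m, ∃ q : E →L[ℝ] ℝ, ∀ e,
      q e = ul (fun k => L.toFun (fun x => (σ k).1 x * c x j e)) ∧
      ∀ k, |L.toFun (fun x => (σ k).1 x * c x j e)| ≤ (5 / 4 * R) * ‖e‖ := by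
    intro j
    have h1 : ∀ k, ∃ q : E →L[ℝ] ℝ, ∀ e, q e = L.toFun (fun x => (σ k).1 x * c x j e) :=
      fun k => L.exists_avg (fun x => c x j) R (fun x => hc x j) _ (hgb k)
    choose φ hφ using h1
    have h2 : ∀ k e, |φ k e| ≤ (5 / 4 * R) * ‖e‖ := by
      intro k e
      rw [hφ]
      obtain ⟨h0, -, -, -, -, -, h5, h6, -⟩ := hσI k
      have hb : Bd (fun x => c x j e) := ⟨R * ‖e‖, fun x =>
        ((c x j).le_opNorm e).trans (mul_le_mul_of_nonneg_right (hc x j) (norm_nonneg e))⟩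
      have h3 : |L.toFun (fun x => (σ k).1 x * c x j e)| ≤
          L.toFun (fun x => (R * ‖e‖) * (σ k).1 x) := by
        refine L.abs_le ((hgb k).mul hb) ((hgb k).const_mul _) fun x => ?_
        rw [abs_mul, abs_of_nonneg (h0 x), mul_comm]
        refine mul_le_mul_of_nonneg_right ?_ (h0 x)
        exact ((c x j).le_opNorm e).trans (mul_le_mul_of_nonneg_right (hc x j) (norm_nonneg e))
      rw [L.smul' _ _ (hgb k)] at h3
      have h7 : 0 < 2 * ρ * (1 / 2) ^ k := by positivity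
      have h8 : 0 ≤ R * ‖e‖ := by positivity
      calc |L.toFun (fun x => (σ k).1 x * c x j e)| ≤ R * ‖e‖ * L.toFun (σ k).1 := h3
        _ ≤ R * ‖e‖ * (5 / 4) := mul_le_mul_of_nonneg_left (by linarith) h8
        _ = 5 / 4 * R * ‖e‖ := by ring
    have h3 : ∀ k, ‖φ k‖ ≤ 5 / 4 * R := fun k =>
      ContinuousLinearMap.opNorm_le_bound _ (by positivity) (fun e => h2 k e)
    obtain ⟨q, -, hq⟩ := exists_ulCLM φ _ h3
    refine ⟨q, fun e => ⟨?_, fun k => ?_⟩⟩
    · rw [hq]
      congr 1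
      ext k
      exact hφ k e
    · rw [← hφ]
      exact h2 k e
  choose q hq hqb using hq
  have hA : ∀ j : Fin m, ∃ A : Finset X, ∀ u, (∀ x ∈ A, x ∈ Z u) → |q j (v u)| ≤ ρ :=
    fun j => hi (q j) ρ hρ0
  choose A hA using hA
  set AA : Finset X := Finset.univ.biUnion A with hAA
  -- choose a level
  obtain ⟨n, hn⟩ : ∃ n : ℕ, 8 * (AA.card : ℝ) * (3 / 4) ^ n ≤ 1 := by
    have h1 : Tendsto (fun n : ℕ => 8 * (AA.card : ℝ) * (3 / 4 : ℝ) ^ n) atTop (𝓝 (8 * AA.card * 0)) :=
      (tendsto_pow_atTop_nhds_zero_of_lt_one (by norm_num) (by norm_num)).const_mul _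
    rw [mul_zero] at h1
    exact (h1.eventually_le_const one_pos).exists
  obtain ⟨l, hl⟩ := hr3 n (AA.image (cell n)) (by
    refine le_trans ?_ hn
    have : ((AA.image (cell n)).card : ℝ) ≤ AA.card := by exact_mod_cast Finset.card_image_le
    have h2 : (0 : ℝ) ≤ (3 / 4) ^ n := by positivity
    nlinarith)
  have hz : ∀ x ∈ AA, x ∈ Z (u l) := by
    intro x hx
    apply hu l
    rw [hl]
    exact Finset.mem_image_of_mem _ hx
  have h1 : |q (i l) (v (u l))| ≤ ρ := by
    apply hA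
    intro x hx
    apply hz
    rw [hAA]
    exact Finset.mem_biUnion.mpr ⟨i l, Finset.mem_univ _, hx⟩
  have h2 : 2 * ρ ≤ q (i l) (v (u l)) := by
    rw [hq]
    refine le_ul _ (hqb (i l) (v (u l))) ?_
    have h3 : ∀ᶠ k in (atTop : Filter ℕ), 2 * ρ ≤
        L.toFun (fun x => (σ k).1 x * c x (i l) (v (u l))) := by
      filter_upwards [eventually_ge_atTop (l + 1)] with k hk
      have := hpers l k hk
      have h4 : (0 : ℝ) < (1 / 2) ^ k := by positivity
      nlinarith
    exact (Nat.hyperfilter_le_atTop) h3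
  have := abs_le.mp h1
  linarith

end Pool.Agent.H299R3
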