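import Pool.Agent.H299R3.CpMetric

/-!
The Lipschitz-free space of a pointed metric space as a normed space.
-/

set_option autoImplicit false

namespace Pool.Agent.H299R3

open Filter Topology

section Free

variable {N : Type} [MetricSpace N] (n0 : N)

/-- Lipschitz functions vanishing at the base point -/
abbrev L0 : Type := {f : N → ℝ // f n0 = 0 ∧ ∃ K : NNReal, LipschitzWith K f}

/-- membership in the free space -/
def InF (Φ : L0 n0 → ℝ) : Prop :=
  ∀ ε : ℝ, 0 < ε → ∃ c : N →₀ ℝ, ∀ f : L0 n0, ∀ K : NNReal, LipschitzWith K f.1 →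
    |Φ f - c.sum (fun x a => a * f.1 x)| ≤ ε * (K : ℝ)

theorem sum_add_c (f : N → ℝ) (c d : N →₀ ℝ) :
    (c + d).sum (fun x a => a * f x) = c.sum (fun x a => a * f x) + d.sum (fun x a => a * f x) :=
  Finsupp.sum_add_index' (fun x => zero_mul _) (fun x a b => add_mul _ _ _)

theorem sum_smul_c (f : N → ℝ) (r : ℝ) (c : N →₀ ℝ) :
    (r • c).sum (fun x a => a * f x) = r * c.sum (fun x a => a * f x) := by
  rw [Finsupp.sum_smul_index (fun x => zero_mul _), Finsupp.mul_sum]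
  refine Finsupp.sum_congr fun x _ => ?_
  ring

/-- the free space as a submodule of all functions on the Lipschitz functions -/
def Fsub : Submodule ℝ (L0 n0 → ℝ) where
  carrier := {Φ | InF n0 Φ}
  zero_mem' := by
    intro ε hε
    refine ⟨0, fun f K _ => ?_⟩
    simp only [Pi.zero_apply, Finsupp.sum_zero_index, sub_zero, abs_zero]
    positivity
  add_mem' := by
    intro Φ Ψ hΦ hΨ ε hε
    obtain ⟨c, hc⟩ := hΦ (ε / 2) (by positivity)
    obtain ⟨d, hd⟩ := hΨ (ε / 2) (by positivity)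
    refine ⟨c + d, fun f K hK => ?_⟩
    have h1 := hc f K hK
    have h2 := hd f K hK
    rw [sum_add_c, Pi.add_apply]
    calc |Φ f + Ψ f - (c.sum (fun x a => a * f.1 x) + d.sum (fun x a => a * f.1 x))|
        = |(Φ f - c.sum (fun x a => a * f.1 x)) + (Ψ f - d.sum (fun x a => a * f.1 x))| := by
          congr 1; ring
      _ ≤ _ := abs_add_le _ _
      _ ≤ ε / 2 * K + ε / 2 * K := add_le_add h1 h2
      _ = ε * K := by ring
  smul_mem' := by
    intro r Φ hΦ ε hε
    obtain ⟨c, hc⟩ := hΦ (ε / (|r| + 1)) (by positivity)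
    refine ⟨r • c, fun f K hK => ?_⟩
    have h1 := hc f K hK
    rw [sum_smul_c, Pi.smul_apply, smul_eq_mul, ← mul_sub, abs_mul]
    have hr : 0 ≤ |r| := abs_nonneg r
    calc |r| * |Φ f - c.sum (fun x a => a * f.1 x)|
        ≤ (|r| + 1) * (ε / (|r| + 1) * K) :=
          mul_le_mul (by linarith) h1 (abs_nonneg _) (by positivity)
      _ = ε * K := by field_simp

/-- the free space -/
def FE : Type := ↥(Fsub n0)

noncomputable instance : AddCommGroup (FE n0) := inferInstanceAs (AddCommGroup ↥(Fsub n0))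
noncomputable instance : Module ℝ (FE n0) := inferInstanceAs (Module ℝ ↥(Fsub n0))

variable {n0}

/-- value of an element of the free space at a Lipschitz function -/
def FE.ev (Φ : FE n0) (f : L0 n0) : ℝ := Φ.1 f

theorem FE.ev_add (Φ Ψ : FE n0) (f : L0 n0) : (Φ + Ψ).ev f = Φ.ev f + Ψ.ev f := rfl

theorem FE.ev_smul (r : ℝ) (Φ : FE n0) (f : L0 n0) : (r • Φ).ev f = r * Φ.ev f := rfl

theorem FE.ev_sub (Φ Ψ : FE n0) (f : L0 n0) : (Φ - Ψ).ev f = Φ.ev f - Ψ.ev f := rfl

theorem FE.ev_zero (f : L0 n0) : (0 : FE n0).ev f = 0 := rfl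

theorem FE.ext' {Φ Ψ : FE n0} (h : ∀ f, Φ.ev f = Ψ.ev f) : Φ = Ψ :=
  Subtype.ext (funext h)

/-- admissible bounds -/
def bds (Φ : FE n0) : Set ℝ :=
  {C : ℝ | 0 ≤ C ∧ ∀ (f : L0 n0) (K : NNReal), LipschitzWith K f.1 → |Φ.ev f| ≤ C * K}

theorem bds_bddBelow (Φ : FE n0) : BddBelow (bds Φ) := ⟨0, fun _ hC => hC.1⟩

theorem bds_nonempty (Φ : FE n0) : (bds Φ).Nonempty := by
  obtain ⟨c, hc⟩ := Φ.2 1 one_pos
  refine ⟨1 + ∑ x ∈ c.support, |c x| * dist x n0, ?_, fun f K hK => ?_⟩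
  · have : 0 ≤ ∑ x ∈ c.support, |c x| * dist x n0 :=
      Finset.sum_nonneg fun _ _ => mul_nonneg (abs_nonneg _) dist_nonneg
    linarith
  · have h1 := hc f K hK
    have h2 : |c.sum (fun x a => a * f.1 x)| ≤ (∑ x ∈ c.support, |c x| * dist x n0) * K := by
      rw [Finsupp.sum, Finset.sum_mul]
      refine (Finset.abs_sum_le_sum_abs _ _).trans (Finset.sum_le_sum fun x _ => ?_)
      rw [abs_mul, mul_assoc]
      refine mul_le_mul_of_nonneg_left ?_ (abs_nonneg _)
      have h3 := hK.dist_le_mul x n0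
      rw [Real.dist_eq, f.2.1, sub_zero] at h3
      linarith
    have h3 : Φ.ev f = (Φ.ev f - c.sum (fun x a => a * f.1 x)) + c.sum (fun x a => a * f.1 x) := by
      ring
    calc |Φ.ev f| ≤ |Φ.ev f - c.sum (fun x a => a * f.1 x)| + |c.sum (fun x a => a * f.1 x)| := by
          rw [h3]; exact (abs_add_le _ _).trans (by rw [← h3])
      _ ≤ 1 * K + (∑ x ∈ c.support, |c x| * dist x n0) * K := add_le_add h1 h2
      _ = _ := by ring

noncomputable instance : Norm (FE n0) := ⟨fun Φ => sInf (bds Φ)⟩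

theorem FE.norm_def (Φ : FE n0) : ‖Φ‖ = sInf (bds Φ) := rfl

theorem FE.norm_nonneg' (Φ : FE n0) : 0 ≤ ‖Φ‖ := Real.sInf_nonneg fun _ hC => hC.1

theorem FE.norm_le {Φ : FE n0} {C : ℝ} (hC : 0 ≤ C)
    (h : ∀ (f : L0 n0) (K : NNReal), LipschitzWith K f.1 → |Φ.ev f| ≤ C * K) : ‖Φ‖ ≤ C :=
  csInf_le (bds_bddBelow Φ) ⟨hC, h⟩

theorem FE.abs_ev_le (Φ : FE n0) (f : L0 n0) (K : NNReal) (hK : LipschitzWith K f.1) :
    |Φ.ev f| ≤ ‖Φ‖ * K := by
  rcases eq_or_lt_of_le K.2 with h0 | h0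
  · obtain ⟨C, hC⟩ := bds_nonempty Φ
    have h1 := hC.2 f K hK
    have h2 : (K : ℝ) = 0 := h0.symm
    rw [h2, mul_zero] at h1 ⊢
    exact h1
  · rw [← div_le_iff₀ (show (0 : ℝ) < K from h0)]
    refine le_csInf (bds_nonempty Φ) fun C hC => ?_
    rw [div_le_iff₀ (show (0 : ℝ) < K from h0)]
    exact hC.2 f K hK

theorem FE.norm_smul_le' (r : ℝ) (Φ : FE n0) : ‖r • Φ‖ ≤ |r| * ‖Φ‖ := by
  refine FE.norm_le (mul_nonneg (abs_nonneg _) Φ.norm_nonneg') fun f K hK => ?_
  rw [FE.ev_smul, abs_mul, mul_assoc]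
  exact mul_le_mul_of_nonneg_left (Φ.abs_ev_le f K hK) (abs_nonneg _)

theorem FE.core : NormedSpace.Core ℝ (FE n0) where
  norm_nonneg := FE.norm_nonneg'
  norm_smul := by
    intro r Φ
    rw [Real.norm_eq_abs]
    refine le_antisymm (FE.norm_smul_le' r Φ) ?_
    rcases eq_or_ne r 0 with rfl | hr
    · rw [abs_zero, zero_mul]
      exact FE.norm_nonneg' _
    · have h1 := FE.norm_smul_le' r⁻¹ (r • Φ)
      rw [smul_smul, inv_mul_cancel₀ hr, one_smul, abs_inv] at h1
      have h2 : 0 < |r| := abs_pos.mpr hr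
      rwa [← le_inv_mul_iff₀ h2] at *
  norm_triangle := by
    intro Φ Ψ
    refine FE.norm_le (add_nonneg Φ.norm_nonneg' Ψ.norm_nonneg') fun f K hK => ?_
    rw [FE.ev_add, add_mul]
    exact (abs_add_le _ _).trans (add_le_add (Φ.abs_ev_le f K hK) (Ψ.abs_ev_le f K hK))
  norm_eq_zero_iff := by
    intro Φ
    constructor
    · intro h
      refine FE.ext' fun f => ?_
      obtain ⟨K, hK⟩ := f.2.2
      have h1 := Φ.abs_ev_le f K hK
      rw [h, zero_mul] at h1
      rw [FE.ev_zero]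
      exact abs_nonpos_iff.mp h1
    · rintro rfl
      refine le_antisymm (FE.norm_le le_rfl fun f K _ => ?_) (FE.norm_nonneg' _)
      rw [FE.ev_zero, abs_zero, zero_mul]

noncomputable instance : NormedAddCommGroup (FE n0) := NormedAddCommGroup.ofCore FE.core
noncomputable instance : NormedSpace ℝ (FE n0) := NormedSpace.ofCore FE.core

/-- the functional given by a Lipschitz function -/
theorem FE.exists_functional (f : L0 n0) : ∃ q : FE n0 →L[ℝ] ℝ, ∀ Φ : FE n0, q Φ = Φ.ev f := by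
  obtain ⟨K, hK⟩ := f.2.2
  refine ⟨LinearMap.mkContinuous ⟨⟨fun Φ => Φ.ev f, fun Φ Ψ => FE.ev_add Φ Ψ f⟩,
    fun r Φ => FE.ev_smul r Φ f⟩ K fun Φ => ?_, fun Φ => rfl⟩
  rw [mul_comm]
  exact Φ.abs_ev_le f K hK

/-- the point evaluation -/
noncomputable def FE.pt (x : N) : FE n0 := ⟨fun f => f.1 x, fun ε hε => ⟨Finsupp.single x 1, fun f K _ => by
  rw [Finsupp.sum_single_index (zero_mul _), one_mul, sub_self, abs_zero]
  positivity⟩⟩

theorem FE.pt_ev (x : N) (f : L0 n0) : (FE.pt x : FE n0).ev f = f.1 x := rfl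

theorem FE.pt_base : (FE.pt n0 : FE n0) = 0 := FE.ext' fun f => by
  rw [FE.pt_ev, FE.ev_zero]; exact f.2.1

theorem FE.pt_dist (x y : N) : ‖(FE.pt x : FE n0) - FE.pt y‖ ≤ dist x y := by
  refine FE.norm_le dist_nonneg fun f K hK => ?_
  rw [FE.ev_sub, FE.pt_ev, FE.pt_ev]
  have := hK.dist_le_mul x y
  rw [Real.dist_eq] at this
  linarith

theorem FE.sum_pt_ev (c : N →₀ ℝ) (f : L0 n0) :
    (c.sum (fun x a => a • (FE.pt x : FE n0))).ev f = c.sum (fun x a => a * f.1 x) := by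
  obtain ⟨q, hq⟩ := FE.exists_functional f
  rw [← hq, map_finsuppSum]
  refine Finsupp.sum_congr fun x _ => ?_
  rw [map_smul, smul_eq_mul, hq, FE.pt_ev]

/-- every functional is given by a Lipschitz function -/
theorem FE.exists_lip (q : FE n0 →L[ℝ] ℝ) : ∃ f : L0 n0, ∀ Φ : FE n0, q Φ = Φ.ev f := by
  let f : L0 n0 := ⟨fun x => q (FE.pt x), by
    refine ⟨?_, ‖q‖₊, ?_⟩
    · show q (FE.pt n0) = 0
      rw [FE.pt_base, map_zero]
    · refine LipschitzWith.of_dist_le_mul fun x y => ?_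
      rw [Real.dist_eq, ← map_sub]
      refine (q.le_opNorm _).trans ?_
      exact mul_le_mul_of_nonneg_left (FE.pt_dist x y) (norm_nonneg q)⟩
  have hf : LipschitzWith ‖q‖₊ f.1 := by
    refine LipschitzWith.of_dist_le_mul fun x y => ?_
    show dist (q (FE.pt x)) (q (FE.pt y)) ≤ _
    rw [Real.dist_eq, ← map_sub]
    refine (q.le_opNorm _).trans ?_
    exact mul_le_mul_of_nonneg_left (FE.pt_dist x y) (norm_nonneg q)
  refine ⟨f, fun Φ => ?_⟩
  have h : ∀ ε : ℝ, 0 < ε → |q Φ - Φ.ev f| ≤ ε := by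
    intro ε hε
    obtain ⟨c, hc⟩ := Φ.2 (ε / (2 * (‖q‖ + 1))) (by positivity)
    set Ψ : FE n0 := c.sum (fun x a => a • (FE.pt x : FE n0)) with hΨ
    have h1 : ‖Φ - Ψ‖ ≤ ε / (2 * (‖q‖ + 1)) := by
      refine FE.norm_le (by positivity) fun g K hK => ?_
      rw [FE.ev_sub, hΨ, FE.sum_pt_ev]
      exact hc g K hK
    have h2 : q Ψ = Ψ.ev f := by
      rw [hΨ, FE.sum_pt_ev, map_finsuppSum]
      refine Finsupp.sum_congr fun x _ => ?_
      rw [map_smul, smul_eq_mul]
    have h3 : |q (Φ - Ψ)| ≤ ‖q‖ * (ε / (2 * (‖q‖ + 1))) :=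
      (q.le_opNorm _).trans (mul_le_mul_of_nonneg_left h1 (norm_nonneg q))
    have h4 : |(Φ - Ψ).ev f| ≤ (ε / (2 * (‖q‖ + 1))) * ‖q‖ := by
      refine ((Φ - Ψ).abs_ev_le f ‖q‖₊ hf).trans ?_
      exact mul_le_mul_of_nonneg_right h1 (norm_nonneg q)
    have h5 : q Φ - Φ.ev f = q (Φ - Ψ) - (Φ - Ψ).ev f := by
      rw [map_sub, FE.ev_sub, h2]; ring
    have hq0 : 0 ≤ ‖q‖ := norm_nonneg q
    have h6 : ‖q‖ * (ε / (2 * (‖q‖ + 1))) ≤ ε / 2 := by
      rw [mul_div_assoc', div_le_div_iff₀ (by positivity) (by positivity)]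
      nlinarith
    rw [h5]
    calc |q (Φ - Ψ) - (Φ - Ψ).ev f| ≤ |q (Φ - Ψ)| + |(Φ - Ψ).ev f| := abs_sub _ _
      _ ≤ ε / 2 + ε / 2 := add_le_add (h3.trans h6) (h4.trans (by rw [mul_comm]; exact h6))
      _ = ε := by ring
  have h0 : |q Φ - Φ.ev f| ≤ 0 := le_of_forall_pos_le_add fun ε hε => by
    rw [zero_add]; exact h ε hε
  exact sub_eq_zero.mp (abs_nonpos_iff.mp h0)

/-- the free space of an infinite metric space is infinite-dimensional -/
theorem FE.infinite_dim [Infinite N] : ¬ FiniteDimensional ℝ (FE n0) := by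
  classical
  intro hfd
  have hli : LinearIndependent ℝ (fun x : {x : N // x ≠ n0} => (FE.pt x.1 : FE n0)) := by
    rw [linearIndependent_iff']
    intro s g hg i hi
    let T : Finset N := insert n0 ((s.erase i).image Subtype.val)
    have hTne : (T : Set N).Nonempty := ⟨n0, by simp [T]⟩
    have hiT : i.1 ∉ T := by
      simp only [T, Finset.mem_insert, Finset.mem_image, Finset.mem_erase, not_or]
      refine ⟨i.2, ?_⟩
      rintro ⟨j, ⟨hj, -⟩, hji⟩
      exact hj (Subtype.ext hji)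
    let f : L0 n0 := ⟨fun y => Metric.infDist y (T : Set N),
      Metric.infDist_zero_of_mem (by simp [T]), 1, Metric.lipschitz_infDist_pt _⟩
    obtain ⟨q, hq⟩ := FE.exists_functional f
    have h1 : q (∑ j ∈ s, g j • (FE.pt j.1 : FE n0)) = 0 := by rw [hg, map_zero]
    rw [map_sum, Finset.sum_eq_single_of_mem i hi] at h1
    · rw [map_smul, smul_eq_mul, hq, FE.pt_ev] at h1
      have h2 : 0 < Metric.infDist i.1 (T : Set N) :=
        (T.finite_toSet.isClosed.notMem_iff_infDist_pos hTne).mp (by simpa using hiT)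
      exact (mul_eq_zero.mp h1).resolve_right h2.ne'
    · intro j hj hji
      rw [map_smul, smul_eq_mul, hq, FE.pt_ev]
      have h2 : Metric.infDist j.1 (T : Set N) = 0 := by
        apply Metric.infDist_zero_of_mem
        simp only [T, Finset.coe_insert, Finset.coe_image, Finset.coe_erase, Set.mem_insert_iff,
          Set.mem_image]
        exact Or.inr ⟨j, ⟨hj, hji⟩, rfl⟩
      show g j * Metric.infDist j.1 (T : Set N) = 0
      rw [h2, mul_zero]
  have hfin : Finite {x : N // x ≠ n0} := hli.finite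
  have : Infinite {x : N // x ≠ n0} := by
    have h1 : ({n0}ᶜ : Set N).Infinite := (Set.finite_singleton n0).infinite_compl
    exact h1.to_subtype
  exact not_finite {x : N // x ≠ n0}

end Free

end Pool.Agent.H299R3
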