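import Pool.Agent.H299R3.CpMain

/-!
The homeomorphism forms of the main theorem.
-/

set_option autoImplicit false

namespace Pool.Agent.H299R3

open Filter Topology

/-- For an infinite compact Hausdorff space, the continuous real functions with the pointwise
topology are not homeomorphic to the Banach space of continuous functions with its weak topology. -/
theorem not_homeo (K : Type*) [TopologicalSpace K] [CompactSpace K] [T2Space K] [Infinite K] :
    ¬ Nonempty ({f : K → ℝ // Continuous f} ≃ₜ WeakSpace ℝ C(K, ℝ)) := by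
  rintro ⟨h⟩
  let toS : C(K, ℝ) → {f : K → ℝ // Continuous f} := fun f => ⟨f, f.continuous⟩
  let ofS : {f : K → ℝ // Continuous f} → C(K, ℝ) := fun f => ⟨f.1, f.2⟩
  let e : C(K, ℝ) → C(K, ℝ) := fun f => (h (toS f) : C(K, ℝ))
  let e' : C(K, ℝ) → C(K, ℝ) := fun g => ofS (h.symm (g : WeakSpace ℝ C(K, ℝ)))
  refine main_eps (K := K) e e' (fun f => ?_) (fun g => ?_) ?_ ?_
  · exact congrArg ofS (h.symm_apply_apply (toS f))
  · exact h.apply_symm_apply (g : WeakSpace ℝ C(K, ℝ))
  · intro f0 q ε hε
    have h1 : @Continuous {f : K → ℝ // Continuous f} ℝ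
        (TopologicalSpace.induced (fun (f : {f : K → ℝ // Continuous f}) (x : K) => f.1 x)
          Pi.topologicalSpace) _ (fun f => q (h f)) := by
      have h2 : Continuous (fun g : WeakSpace ℝ C(K, ℝ) => q g) :=
        WeakBilin.eval_continuous (topDualPairing ℝ C(K, ℝ)).flip q
      exact h2.comp h.continuous
    obtain ⟨A, δ, hδ, hA⟩ := finite_control _ _ h1 (toS f0) ε hε
    exact ⟨A, δ, hδ, fun f hf => hA (toS f) hf⟩
  · intro g0 x ε hε
    have h1 : @Continuous (WeakSpace ℝ C(K, ℝ)) ℝ
        (TopologicalSpace.induced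
          (fun (g : WeakSpace ℝ C(K, ℝ)) (q : StrongDual ℝ C(K, ℝ)) => q g)
          Pi.topologicalSpace) _ (fun g => (h.symm g).1 x) := by
      have h2 : Continuous (fun f : {f : K → ℝ // Continuous f} => f.1 x) :=
        (continuous_apply x).comp continuous_subtype_val
      exact h2.comp h.symm.continuous
    obtain ⟨S, δ, hδ, hS⟩ := finite_control _ _ h1 g0 ε hε
    exact ⟨S, δ, hδ, fun g hg => hS g hg⟩

/-- The version with explicitly generated topologies. -/
theorem not_equiv (K : Type*) [TopologicalSpace K] [CompactSpace K] [T2Space K] [Infinite K] :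
    ¬ ∃ e : C(K, ℝ) ≃ C(K, ℝ),
      @Continuous C(K, ℝ) C(K, ℝ)
        (⨅ x : K, TopologicalSpace.induced (fun f : C(K, ℝ) => f x)
          (inferInstance : TopologicalSpace ℝ))
        (⨅ φ : C(K, ℝ) →L[ℝ] ℝ, TopologicalSpace.induced (fun f : C(K, ℝ) => φ f)
          (inferInstance : TopologicalSpace ℝ))
        e ∧
      @Continuous C(K, ℝ) C(K, ℝ)
        (⨅ φ : C(K, ℝ) →L[ℝ] ℝ, TopologicalSpace.induced (fun f : C(K, ℝ) => φ f)
          (inferInstance : TopologicalSpace ℝ))
        (⨅ x : K, TopologicalSpace.induced (fun f : C(K, ℝ) => f x)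
          (inferInstance : TopologicalSpace ℝ))
        e.symm := by
  rintro ⟨e, h1, h2⟩
  refine main_eps (K := K) e e.symm (fun f => e.symm_apply_apply f) (fun g => e.apply_symm_apply g)
    ?_ ?_
  · intro f0 q ε hε
    rw [iInf_induced_eq (fun (f : C(K, ℝ)) (x : K) => f x)] at h1
    have h3 := continuous_iInf_rng.mp h1 q
    rw [continuous_induced_rng] at h3
    obtain ⟨A, δ, hδ, hA⟩ := finite_control _ _ h3 f0 ε hε
    exact ⟨A, δ, hδ, fun f hf => hA f hf⟩
  · intro g0 x ε hε
    rw [iInf_induced_eq (fun (f : C(K, ℝ)) (φ : C(K, ℝ) →L[ℝ] ℝ) => φ f)] at h2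
    have h3 := continuous_iInf_rng.mp h2 x
    rw [continuous_induced_rng] at h3
    obtain ⟨S, δ, hδ, hS⟩ := finite_control _ _ h3 g0 ε hε
    exact ⟨S, δ, hδ, fun g hg => hS g hg⟩

end Pool.Agent.H299R3
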