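import Pool.Agent.H299R3.CpUnit

/-!
No map from the continuous functions on the line to a normed space can be weakly continuous at
zero and have pointwise continuous inverse at zero along the unit interval.
-/

set_option autoImplicit false

namespace Pool.Agent.H299R3

open Filter Topology

section

variable {E : Type*} [NormedAddCommGroup E] [NormedSpace ℝ E]

theorem bounded_of_weakly_bounded (a : ℕ → E) (h : ∀ q : E →L[ℝ] ℝ, ∃ C, ∀ n, |q (a n)| ≤ C) :
    ∃ C, ∀ n, ‖a n‖ ≤ C := by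
  obtain ⟨C, hC⟩ := banach_steinhaus
    (g := fun n => (NormedSpace.inclusionInDoubleDualLi (𝕜 := ℝ) (E := E) (a n)))
    (fun q => by
      obtain ⟨C, hC⟩ := h q
      exact ⟨C, fun n => hC n⟩)
  refine ⟨C, fun n => ?_⟩
  have := hC n
  rwa [LinearIsometry.norm_map] at this

/-- test functions supported in `(α, β)` -/
def TF (α β : ℝ) : Set C(ℝ, ℝ) :=
  {f | (∀ x, 0 ≤ f x ∧ f x ≤ 1) ∧ ∀ x, x ∉ Set.Ioo α β → f x = 0}

theorem bounded_of_eventually (a : ℕ → ℝ) (h : ∀ᶠ n in atTop, |a n| ≤ 1) :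
    ∃ C, ∀ n, |a n| ≤ C := by
  obtain ⟨N, hN⟩ := eventually_atTop.mp h
  refine ⟨1 + ∑ n ∈ Finset.range N, |a n|, fun n => ?_⟩
  have h0 : 0 ≤ ∑ n ∈ Finset.range N, |a n| := Finset.sum_nonneg fun _ _ => abs_nonneg _
  rcases Nat.lt_or_ge n N with hn | hn
  · have := Finset.single_le_sum (f := fun n => |a n|) (fun i _ => abs_nonneg _)
      (Finset.mem_range.mpr hn)
    linarith
  · have := hN n hn
    linarith

theorem step_bdd (h : C(ℝ, ℝ) → E)
    (P1 : ∀ (q : E →L[ℝ] ℝ) (ε : ℝ), 0 < ε →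
      ∃ A : Finset ℝ, ∀ f : C(ℝ, ℝ), (∀ a ∈ A, f a = 0) → |q (h f)| ≤ ε) :
    ∃ α β R0 : ℝ, 0 ≤ α ∧ α < β ∧ β ≤ 1 ∧ ∀ f ∈ TF α β, ‖h f‖ ≤ R0 := by
  by_contra hcon
  push Not at hcon
  have h1 : ∀ n : ℕ, ∃ f ∈ TF (1 / ((n : ℝ) + 2)) (1 / ((n : ℝ) + 1)), (n : ℝ) < ‖h f‖ := by
    intro n
    refine hcon _ _ _ (by positivity) ?_ ?_
    · exact one_div_lt_one_div_of_lt (by positivity) (by linarith)
    · rw [div_le_one (by positivity)]
      have : (0 : ℝ) ≤ n := Nat.cast_nonneg n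
      linarith
  choose f hf1 hf2 using h1
  obtain ⟨C, hC⟩ := bounded_of_weakly_bounded (fun n => h (f n)) (fun q => by
    obtain ⟨A, hA⟩ := P1 q 1 one_pos
    refine bounded_of_eventually _ ?_
    have h2 : ∀ᶠ n in (atTop : Filter ℕ), ∀ a ∈ A, f n a = 0 := by
      rw [Filter.eventually_all_finset]
      intro a _
      by_cases ha : 0 < a
      · have h3 : ∀ᶠ n : ℕ in atTop, 1 / ((n : ℝ) + 1) < a :=
          tendsto_one_div_add_atTop_nhds_zero_nat.eventually (gt_mem_nhds ha)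
        filter_upwards [h3] with n hn
        refine (hf1 n).2 a ?_
        rw [Set.mem_Ioo]
        rintro ⟨_, h5⟩
        linarith
      · refine Eventually.of_forall fun n => (hf1 n).2 a ?_
        rw [Set.mem_Ioo]
        rintro ⟨h4, _⟩
        have : (0 : ℝ) < 1 / ((n : ℝ) + 2) := by positivity
        linarith
    filter_upwards [h2] with n hn
    exact hA _ hn)
  obtain ⟨n, hn⟩ := exists_nat_gt C
  have := hC n
  have := hf2 n
  linarith

theorem step_baire (h : C(ℝ, ℝ) → E) (α β : ℝ) (hαβ : α < β)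
    (P2 : ∀ x ∈ Set.Icc α β, ∃ k : ℕ, ∃ c : Fin k → (E →L[ℝ] ℝ),
      ∀ f : C(ℝ, ℝ), (∀ i, |c i (h f)| < 1) → |f x| < 1 / 2) :
    ∃ (m : ℕ) (α' β' : ℝ), α ≤ α' ∧ α' < β' ∧ β' ≤ β ∧
      ∀ x ∈ Set.Icc α' β', ∃ c : Fin m → (E →L[ℝ] ℝ), (∀ i, ‖c i‖ ≤ m) ∧
        ∀ f : C(ℝ, ℝ), 1 / 2 < f x → ∃ i, 1 ≤ |c i (h f)| := by
  set Y : ℕ → Set ℝ := fun m => {x | x ∈ Set.Icc α β ∧ ∃ c : Fin m → (E →L[ℝ] ℝ),
    (∀ i, ‖c i‖ ≤ m) ∧ ∀ f : C(ℝ, ℝ), 1 / 2 < f x → ∃ i, 1 ≤ |c i (h f)|} with hY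
  have hclosed : ∀ m, IsClosed (Y m) := by
    intro m
    apply IsSeqClosed.isClosed
    intro xs x hxs hx
    have h1 : x ∈ Set.Icc α β :=
      isClosed_Icc.mem_of_tendsto hx (Eventually.of_forall fun n => (hxs n).1)
    choose c hc1 hc2 using fun n => (hxs n).2
    have h2 : ∀ i : Fin m, ∃ q : E →L[ℝ] ℝ, ‖q‖ ≤ m ∧ ∀ e, q e = ul (fun n => c n i e) :=
      fun i => exists_ulCLM (fun n => c n i) m (fun n => hc1 n i)
    choose q hq1 hq2 using h2
    refine ⟨h1, q, hq1, fun f hf => ?_⟩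
    have h3 : ∀ᶠ n in (atTop : Filter ℕ), 1 / 2 < f (xs n) :=
      ((f.continuous.tendsto x).comp hx).eventually (lt_mem_nhds hf)
    have h3' : ∀ᶠ n in (hyperfilter ℕ : Filter ℕ), 1 / 2 < f (xs n) :=
      Nat.hyperfilter_le_atTop h3
    have h4 : ∀ᶠ n in (hyperfilter ℕ : Filter ℕ), ∃ i : Fin m, 1 ≤ |c n i (h f)| :=
      h3'.mono fun n hn => hc2 n f hn
    obtain ⟨i, hi⟩ := Ultrafilter.eventually_exists_iff.mp h4
    refine ⟨i, ?_⟩
    rw [hq2]
    have hb : ∀ n, |c n i (h f)| ≤ m * ‖h f‖ := fun n =>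
      ((c n i).le_opNorm _).trans (mul_le_mul_of_nonneg_right (hc1 n i) (norm_nonneg _))
    exact ge_of_tendsto (ul_tendsto _ hb).abs hi
  have hcover : ⋃ m, (Y m ∪ (Set.Iic α ∪ Set.Ici β)) = Set.univ := by
    rw [Set.eq_univ_iff_forall]
    intro x
    rw [Set.mem_iUnion]
    by_cases hx : x ∈ Set.Icc α β
    · obtain ⟨k, c, hc⟩ := P2 x hx
      obtain ⟨m1, hm1⟩ : ∃ m1 : ℕ, ∀ i, ‖c i‖ ≤ m1 := by
        obtain ⟨m1, hm1⟩ := exists_nat_ge (∑ i, ‖c i‖)
        exact ⟨m1, fun i => (Finset.single_le_sum (f := fun i => ‖c i‖)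
          (fun i _ => norm_nonneg _) (Finset.mem_univ i)).trans hm1⟩
      refine ⟨max k m1, Or.inl ⟨hx, fun i => if hi : (i : ℕ) < k then c ⟨i, hi⟩ else 0, ?_, ?_⟩⟩
      · intro i
        simp only
        split_ifs with hi
        · refine (hm1 _).trans ?_
          exact_mod_cast le_max_right k m1
        · rw [norm_zero]
          positivity
      · intro f hf
        by_contra hcon
        push Not at hcon
        have h1 : ∀ i : Fin k, |c i (h f)| < 1 := by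
          intro i
          have h2 := hcon ⟨i, lt_of_lt_of_le i.2 (le_max_left k m1)⟩
          simpa using h2
        have h2 := hc f h1
        have h3 := le_abs_self (f x)
        linarith
    · refine ⟨0, Or.inr ?_⟩
      rw [Set.mem_Icc, not_and_or, not_le, not_le] at hx
      rcases hx with hx | hx
      · exact Or.inl hx.le
      · exact Or.inr hx.le
  have hdense := dense_iUnion_interior_of_closed
    (fun m => (hclosed m).union (isClosed_Iic.union isClosed_Ici)) hcover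
  obtain ⟨y, hy1, hy2⟩ := hdense.inter_open_nonempty (Set.Ioo α β) isOpen_Ioo
    (Set.nonempty_Ioo.mpr hαβ)
  rw [Set.mem_iUnion] at hy2
  obtain ⟨m, hm⟩ := hy2
  have h1 : Set.Ioo α β ∩ interior (Y m ∪ (Set.Iic α ∪ Set.Ici β)) ∈ 𝓝 y :=
    (isOpen_Ioo.inter isOpen_interior).mem_nhds ⟨hy1, hm⟩
  obtain ⟨r, hr, hball⟩ := Metric.mem_nhds_iff.mp h1
  have h2 : ∀ x ∈ Set.Icc (y - r / 2) (y + r / 2), x ∈ Set.Ioo α β ∧ x ∈ Y m := by
    intro x hx
    rw [Set.mem_Icc] at hx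
    have h3 : x ∈ Metric.ball y r := by
      rw [Metric.mem_ball, Real.dist_eq, abs_lt]
      constructor <;> linarith
    have h4 := hball h3
    refine ⟨h4.1, ?_⟩
    rcases interior_subset h4.2 with h5 | h5 | h5
    · exact h5
    · exact absurd h4.1.1 (not_lt.mpr h5)
    · exact absurd h4.1.2 (not_lt.mpr h5)
  have h3 := (h2 (y - r / 2) (by rw [Set.mem_Icc]; constructor <;> linarith)).1
  have h4 := (h2 (y + r / 2) (by rw [Set.mem_Icc]; constructor <;> linarith)).1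
  exact ⟨m, y - r / 2, y + r / 2, h3.1.le, by linarith, h4.2.le, fun x hx => (h2 x hx).2.2⟩

theorem no_line (h : C(ℝ, ℝ) → E)
    (P1 : ∀ (q : E →L[ℝ] ℝ) (ε : ℝ), 0 < ε →
      ∃ A : Finset ℝ, ∀ f : C(ℝ, ℝ), (∀ a ∈ A, f a = 0) → |q (h f)| ≤ ε)
    (P2 : ∀ x ∈ Set.Icc (0 : ℝ) 1, ∃ k : ℕ, ∃ c : Fin k → (E →L[ℝ] ℝ),
      ∀ f : C(ℝ, ℝ), (∀ i, |c i (h f)| < 1) → |f x| < 1 / 2) : False := by
  classical
  obtain ⟨α0, β0, R0, h0α, hαβ0, hβ1, hR0⟩ := step_bdd h P1
  obtain ⟨m, α, β, hα, hαβ, hβ, hc⟩ := step_baire h α0 β0 hαβ0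
    (fun x hx => P2 x ⟨h0α.trans hx.1, hx.2.trans hβ1⟩)
  choose! c hc1 hc2 using hc
  have hm : 1 ≤ m := by
    by_contra hcon
    have hm0 : m = 0 := by omega
    subst hm0
    obtain ⟨i, _⟩ := hc2 α ⟨le_rfl, hαβ.le⟩ (ContinuousMap.const ℝ 1) (by norm_num)
    exact i.elim0
  set pos : X01 → ℝ := fun t => α + (β - α) * (t : ℝ) with hpos
  have hβα : 0 < β - α := by linarith
  have hposmem : ∀ t, pos t ∈ Set.Icc α β := by
    intro t
    have h1 := t.2.1
    have h2 := t.2.2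
    constructor
    · simp only [hpos]; nlinarith
    · simp only [hpos]; nlinarith
  have hposinj : Function.Injective pos := by
    intro s t hst
    simp only [hpos, add_right_inj, mul_eq_mul_left_iff] at hst
    rcases hst with h1 | h1
    · exact Subtype.ext h1
    · exact absurd h1 hβα.ne'
  have hTF : ∀ f ∈ TF α β, ‖h f‖ ≤ R0 := by
    intro f hf
    refine hR0 f ⟨hf.1, fun x hx => hf.2 x fun hx' => hx ⟨?_, ?_⟩⟩
    · linarith [hx'.1]
    · linarith [hx'.2]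
  have hR00 : 0 ≤ R0 := (norm_nonneg _).trans
    (hTF 0 ⟨fun x => by simp, fun x _ => by simp⟩)
  have hm' : (1 : ℝ) ≤ m := by exact_mod_cast hm
  refine core (E := E) (X := X01) (U := TF α β) (fun u => h u.1) m hm
    (fun t i => c (pos t) i) (m * (1 + R0)) (by nlinarith) ?_ ?_
    (fun u => {t | u.1 (pos t) = 0}) (fun u => {t | 1 / 2 < u.1 (pos t)}) ?_ ?_
    mean01 cell cell_lt mean01_cell ?_
  · intro t i
    have := hc1 (pos t) (hposmem t) i
    nlinarith
  · intro t i u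
    have h1 := (c (pos t) i).le_opNorm (h u.1)
    have h2 := hc1 (pos t) (hposmem t) i
    have h3 := hTF u.1 u.2
    rw [Real.norm_eq_abs] at h1
    have h4 : ‖c (pos t) i‖ * ‖h u.1‖ ≤ m * R0 :=
      mul_le_mul h2 h3 (norm_nonneg _) (by linarith)
    nlinarith
  · intro u t ht
    exact hc2 (pos t) (hposmem t) u.1 ht
  · intro q ε hε
    obtain ⟨A, hA⟩ := P1 q ε hε
    refine ⟨A.preimage pos hposinj.injOn, fun u hu => hA u.1 fun a ha => ?_⟩
    by_cases hab : a ∈ Set.Ioo α β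
    · have h1 : (a - α) / (β - α) ∈ Set.Ico (0 : ℝ) 1 := by
        constructor
        · exact div_nonneg (by linarith [hab.1]) hβα.le
        · rw [div_lt_one hβα]
          linarith [hab.2]
      have h2 : pos ⟨(a - α) / (β - α), h1⟩ = a := by
        simp only [hpos]
        field_simp
        ring
      have h3 := hu ⟨(a - α) / (β - α), h1⟩ (by
        rw [Finset.mem_preimage, h2]
        exact ha)
      simp only [Set.mem_ofPred_eq] at h3
      rwa [h2] at h3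
    · exact u.2.2 a hab
  · intro n B A η hη
    obtain ⟨w, hw1, hw2, hw3, hw4, hw5, hw6⟩ := rich01 n B A η hη
    have hposw : ∀ t : X01, (pos t - α) / (β - α) = t := by
      intro t
      simp only [hpos]
      field_simp
      ring
    refine ⟨⟨⟨fun x => w ((x - α) / (β - α)), by fun_prop⟩, fun x => hw1 _, fun x hx => ?_⟩,
      fun t ht => ?_, fun t ht => ?_, ?_⟩
    · show w ((x - α) / (β - α)) = 0
      rw [Set.mem_Ioo, not_and_or, not_lt, not_lt] at hx
      rcases hx with hx | hx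
      · exact hw2 _ (div_nonpos_of_nonpos_of_nonneg (by linarith) hβα.le)
      · refine hw3 _ ?_
        rw [le_div_iff₀ hβα]
        linarith
    · show w ((pos t - α) / (β - α)) = 0
      rw [hposw]
      exact hw4 t ht
    · show w ((pos t - α) / (β - α)) = 0
      rw [hposw]
      exact hw5 t ht
    · have h1 : {t : X01 | t ∉ {t : X01 | 1 / 2 < w ((pos t - α) / (β - α))} ∧ cell n t ∉ B} =
          {t : X01 | ¬ (1 / 2 < w t) ∧ cell n t ∉ B} := by
        ext t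
        simp only [Set.mem_ofPred_eq, hposw]
      show mean01.toFun (ind {t : X01 | t ∉ {t : X01 | 1 / 2 < w ((pos t - α) / (β - α))} ∧
        cell n t ∉ B}) ≤ η
      rw [h1]
      exact hw6

end

end Pool.Agent.H299R3
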