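import Pool.Agent.H299R3.CpLine

/-!
For an infinite compact Hausdorff space the pointwise topology and the weak topology on the
continuous real functions are not homeomorphic (epsilon-delta form).
-/

set_option autoImplicit false

namespace Pool.Agent.H299R3

open Filter Topology

section

variable {K : Type*} [TopologicalSpace K] [CompactSpace K] [T2Space K]

/-- Case A: the compactum maps onto an interval. -/
theorem caseA (Φ : C(K, ℝ)) (hΦ : Set.Icc (0 : ℝ) 1 ⊆ Set.range Φ)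
    (e e' : C(K, ℝ) → C(K, ℝ)) (he : ∀ f, e' (e f) = f)
    (hcont : ∀ (f0 : C(K, ℝ)) (q : C(K, ℝ) →L[ℝ] ℝ) (ε : ℝ), 0 < ε →
      ∃ A : Finset K, ∃ δ > 0, ∀ f : C(K, ℝ), (∀ a ∈ A, |f a - f0 a| < δ) →
        |q (e f) - q (e f0)| < ε)
    (hcont' : ∀ (g0 : C(K, ℝ)) (x : K) (ε : ℝ), 0 < ε →
      ∃ S : Finset (C(K, ℝ) →L[ℝ] ℝ), ∃ δ > 0, ∀ g : C(K, ℝ), (∀ q ∈ S, |q g - q g0| < δ) →
        |e' g x - e' g0 x| < ε) : False := by
  classical
  refine no_line (E := C(K, ℝ)) (fun f => e (f.comp Φ) - e 0) ?_ ?_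
  · intro q ε hε
    obtain ⟨A, δ, hδ, hA⟩ := hcont 0 q ε hε
    refine ⟨A.image Φ, fun f hf => ?_⟩
    rw [map_sub]
    refine (hA (f.comp Φ) fun a ha => ?_).le
    have := hf (Φ a) (Finset.mem_image_of_mem _ ha)
    simp [this, hδ]
  · intro x hx
    obtain ⟨y, hy⟩ := hΦ hx
    obtain ⟨S, δ, hδ, hS⟩ := hcont' (e 0) y (1 / 2) (by norm_num)
    refine ⟨S.card, fun i => (1 / δ) • (S.equivFin.symm i).1, fun f hf => ?_⟩
    have h1 := hS (e (f.comp Φ)) (fun q hq => by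
      have h2 := hf (S.equivFin ⟨q, hq⟩)
      simp only [Equiv.symm_apply_apply, smul_apply, smul_eq_mul, map_sub] at h2
      rw [← mul_sub, abs_mul, abs_of_pos (by positivity : 0 < 1 / δ), one_div,
        inv_mul_lt_iff₀ hδ, mul_one] at h2
      exact h2)
    rw [he, he] at h1
    simpa [hy] using h1

/-- Case B, first part: countably many functions are controlled by countably many points. -/
theorem caseB_points [Nonempty K]
    (hno : ¬ ∃ Φ : C(K, ℝ), Set.Icc (0 : ℝ) 1 ⊆ Set.range Φ) (S : ℕ → C(K, ℝ)) :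
    ∃ x : ℕ → K, ∀ y : K, ∃ j, ∀ n, S n y = S n (x j) := by
  classical
  let Ψ : C(K, ℕ → ℝ) := ⟨fun y n => S n y, continuous_pi fun n => (S n).continuous⟩
  have hclosed : IsClosed (Set.range Ψ) := (isCompact_range Ψ.continuous).isClosed
  by_cases hc : (Set.range Ψ).Countable
  · obtain ⟨g, hg⟩ := hc.exists_eq_range (Set.range_nonempty Ψ)
    have h1 : ∀ j, ∃ x, Ψ x = g j := by
      intro j
      have : g j ∈ Set.range Ψ := by rw [hg]; exact Set.mem_range_self j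
      exact this
    choose x hx using h1
    refine ⟨x, fun y => ?_⟩
    have h2 : Ψ y ∈ Set.range g := by rw [← hg]; exact Set.mem_range_self y
    obtain ⟨j, hj⟩ := h2
    refine ⟨j, fun n => ?_⟩
    have h3 : Ψ y = Ψ (x j) := by rw [hx, hj]
    exact congrFun h3 n
  · exfalso
    apply hno
    obtain ⟨f, hf1, hf2, hf3⟩ := hclosed.exists_nat_bool_injection_of_not_countable hc
    obtain ⟨g, hg1, hg2⟩ := exists_nat_bool_continuous_surjective_of_compact unitInterval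
    have hemb : IsClosedEmbedding f := hf2.isClosedEmbedding hf3
    obtain ⟨G, hG⟩ := ContinuousMap.exists_extension' hemb
      (⟨fun b => (g b : ℝ), continuous_subtype_val.comp hg1⟩ : C(ℕ → Bool, ℝ))
    refine ⟨G.comp Ψ, fun t ht => ?_⟩
    obtain ⟨b, hb⟩ := hg2 ⟨t, ht⟩
    obtain ⟨y, hy⟩ := hf1 (Set.mem_range_self b)
    refine ⟨y, ?_⟩
    have h1 : G (f b) = (g b : ℝ) := congrFun hG b
    rw [ContinuousMap.comp_apply, hy, h1, hb]

/-- A weakly null sequence of norm at least one. -/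
theorem exists_weakly_null [Infinite K] :
    ∃ φ : ℕ → C(K, ℝ), (∀ k, 1 ≤ ‖φ k‖) ∧
      ∀ q : C(K, ℝ) →L[ℝ] ℝ, Tendsto (fun k => q (φ k)) atTop (𝓝 0) := by
  classical
  obtain ⟨U, hU1, hU2, hU3⟩ := exists_seq_infinite_isOpen_pairwise_disjoint K
  choose x hx using fun n => (hU1 n).nonempty
  have h1 : ∀ n, ∃ f : C(K, ℝ), Set.EqOn f 0 (U n)ᶜ ∧ Set.EqOn f 1 {x n} ∧
      ∀ y, f y ∈ Set.Icc (0 : ℝ) 1 := fun n =>
    exists_continuous_zero_one_of_isClosed (hU2 n).isClosed_compl isClosed_singleton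
      (Set.disjoint_left.mpr fun y hy hy' => hy (by rw [Set.mem_singleton_iff.mp hy']; exact hx n))
  choose φ hφ1 hφ2 hφ3 using h1
  refine ⟨φ, fun k => ?_, fun q => ?_⟩
  · have h2 : φ k (x k) = 1 := hφ2 k (Set.mem_singleton _)
    calc (1 : ℝ) = ‖φ k (x k)‖ := by rw [h2]; simp
      _ ≤ ‖φ k‖ := (φ k).norm_coe_le_norm _
  · have hsum : ∀ (F : Finset ℕ) (y : K), ∑ k ∈ F, φ k y ≤ 1 := by
      intro F y
      by_cases hy : ∃ j ∈ F, y ∈ U j
      · obtain ⟨j, hjF, hj⟩ := hy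
        rw [Finset.sum_eq_single_of_mem j hjF]
        · exact (hφ3 j y).2
        · intro k _ hkj
          refine hφ1 k fun hyk => ?_
          exact (Set.disjoint_left.mp (hU3 hkj) hyk) hj
      · push Not at hy
        rw [Finset.sum_eq_zero fun k hk => hφ1 k (hy k hk)]
        exact zero_le_one
    have hbound : ∀ F : Finset ℕ, ∑ k ∈ F, |q (φ k)| ≤ ‖q‖ := by
      intro F
      have h2 : ∑ k ∈ F, |q (φ k)| = q (∑ k ∈ F, (SignType.sign (q (φ k)) : ℝ) • φ k) := by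
        rw [map_sum]
        refine Finset.sum_congr rfl fun k _ => ?_
        rw [map_smul, smul_eq_mul, sign_mul_self]
      rw [h2]
      have h3 : ‖∑ k ∈ F, (SignType.sign (q (φ k)) : ℝ) • φ k‖ ≤ 1 := by
        rw [ContinuousMap.norm_le _ zero_le_one]
        intro y
        rw [ContinuousMap.sum_apply]
        refine (norm_sum_le _ _).trans ((Finset.sum_le_sum fun k _ => ?_).trans (hsum F y))
        rw [ContinuousMap.smul_apply, smul_eq_mul, norm_mul]
        have h4 : ‖((SignType.sign (q (φ k)) : SignType) : ℝ)‖ ≤ 1 := by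
          rcases SignType.sign (q (φ k)) with _ | _ | _ <;> simp
        have h5 : ‖φ k y‖ = φ k y := by
          rw [Real.norm_eq_abs, abs_of_nonneg (hφ3 k y).1]
        rw [h5]
        have := (hφ3 k y).1
        nlinarith
      calc q (∑ k ∈ F, (SignType.sign (q (φ k)) : ℝ) • φ k)
          ≤ |q (∑ k ∈ F, (SignType.sign (q (φ k)) : ℝ) • φ k)| := le_abs_self _
        _ ≤ ‖q‖ * ‖∑ k ∈ F, (SignType.sign (q (φ k)) : ℝ) • φ k‖ := q.le_opNorm _
        _ ≤ ‖q‖ * 1 := mul_le_mul_of_nonneg_left h3 q.opNorm_nonneg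
        _ = ‖q‖ := mul_one _
    have h6 : Summable fun k => |q (φ k)| :=
      summable_of_sum_le (fun k => abs_nonneg _) hbound
    exact (tendsto_zero_iff_abs_tendsto_zero _).mpr h6.tendsto_atTop_zero

/-- Case B: the compactum does not map onto an interval. -/
theorem caseB [Infinite K] (hno : ¬ ∃ Φ : C(K, ℝ), Set.Icc (0 : ℝ) 1 ⊆ Set.range Φ)
    (e e' : C(K, ℝ) → C(K, ℝ)) (he : ∀ f, e' (e f) = f) (he' : ∀ f, e (e' f) = f)
    (hcont : ∀ (f0 : C(K, ℝ)) (q : C(K, ℝ) →L[ℝ] ℝ) (ε : ℝ), 0 < ε →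
      ∃ A : Finset K, ∃ δ > 0, ∀ f : C(K, ℝ), (∀ a ∈ A, |f a - f0 a| < δ) →
        |q (e f) - q (e f0)| < ε)
    (hcont' : ∀ (g0 : C(K, ℝ)) (x : K) (ε : ℝ), 0 < ε →
      ∃ S : Finset (C(K, ℝ) →L[ℝ] ℝ), ∃ δ > 0, ∀ g : C(K, ℝ), (∀ q ∈ S, |q g - q g0| < δ) →
        |e' g x - e' g0 x| < ε) : False := by
  classical
  obtain ⟨φ, hφ1, hφ2⟩ := exists_weakly_null (K := K)
  let f : ℕ → ℕ → C(K, ℝ) := fun n k => e' (e 0 + (n : ℝ) • φ k)
  have hf : ∀ n k, e (f n k) = e 0 + (n : ℝ) • φ k := fun n k => he' _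
  have hlim : ∀ n (y : K), Tendsto (fun k => f n k y) atTop (𝓝 0) := by
    intro n y
    rw [Metric.tendsto_atTop]
    intro ε hε
    obtain ⟨S, δ, hδ, hS⟩ := hcont' (e 0) y ε hε
    have h1 : ∀ᶠ k in (atTop : Filter ℕ), ∀ q ∈ S, |(n : ℝ) * q (φ k)| < δ := by
      rw [Filter.eventually_all_finset]
      intro q _
      have h2 : Tendsto (fun k => |(n : ℝ) * q (φ k)|) atTop (𝓝 |(n : ℝ) * 0|) :=
        ((hφ2 q).const_mul _).abs
      rw [mul_zero, abs_zero] at h2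
      exact h2.eventually (gt_mem_nhds hδ)
    obtain ⟨N, hN⟩ := eventually_atTop.mp h1
    refine ⟨N, fun k hk => ?_⟩
    have h2 := hS (e 0 + (n : ℝ) • φ k) (fun q hq => by
      rw [map_add, add_sub_cancel_left, map_smul, smul_eq_mul]
      exact hN k hk q hq)
    rw [he] at h2
    rw [Real.dist_eq]
    simpa using h2
  obtain ⟨x, hx⟩ := caseB_points hno (fun p => f p.unpair.1 p.unpair.2)
  have hx' : ∀ y : K, ∃ j, ∀ n k, f n k y = f n k (x j) := by
    intro y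
    obtain ⟨j, hj⟩ := hx y
    refine ⟨j, fun n k => ?_⟩
    have := hj (Nat.pair n k)
    simpa using this
  have hk : ∀ n : ℕ, ∃ k, ∀ j ∈ Finset.range (n + 1), |f n k (x j)| < 1 / ((n : ℝ) + 1) := by
    intro n
    have h1 : ∀ᶠ k in (atTop : Filter ℕ), ∀ j ∈ Finset.range (n + 1),
        |f n k (x j)| < 1 / ((n : ℝ) + 1) := by
      rw [Filter.eventually_all_finset]
      intro j _
      have h2 := (hlim n (x j)).abs
      rw [abs_zero] at h2
      exact h2.eventually (gt_mem_nhds (by positivity))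
    exact h1.exists
  choose k hk using hk
  obtain ⟨C, hC⟩ := bounded_of_weakly_bounded (fun n : ℕ => (n : ℝ) • φ (k n)) (fun q => by
    obtain ⟨A, δ, hδ, hA⟩ := hcont 0 q 1 one_pos
    refine bounded_of_eventually _ ?_
    have h1 : ∀ᶠ n in (atTop : Filter ℕ), ∀ a ∈ A, |f n (k n) a - (0 : C(K, ℝ)) a| < δ := by
      rw [Filter.eventually_all_finset]
      intro a _
      obtain ⟨j, hj⟩ := hx' a
      have h3 : ∀ᶠ n : ℕ in atTop, 1 / ((n : ℝ) + 1) < δ :=
        tendsto_one_div_add_atTop_nhds_zero_nat.eventually (gt_mem_nhds hδ)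
      filter_upwards [h3, eventually_ge_atTop j] with n hn hnj
      have h4 := hk n j (Finset.mem_range.mpr (by omega))
      rw [ContinuousMap.zero_apply, sub_zero, hj]
      exact h4.trans hn
    filter_upwards [h1] with n hn
    have h2 := hA (f n (k n)) hn
    rw [hf, map_add, add_sub_cancel_left] at h2
    exact h2.le)
  obtain ⟨n, hn⟩ := exists_nat_gt C
  have h1 := hC n
  rw [norm_smul, Real.norm_eq_abs, abs_of_nonneg (Nat.cast_nonneg n)] at h1
  have h2 := hφ1 (k n)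
  have h3 : (0 : ℝ) ≤ n := Nat.cast_nonneg n
  nlinarith

theorem main_eps [Infinite K] (e e' : C(K, ℝ) → C(K, ℝ))
    (he : ∀ f, e' (e f) = f) (he' : ∀ f, e (e' f) = f)
    (hcont : ∀ (f0 : C(K, ℝ)) (q : C(K, ℝ) →L[ℝ] ℝ) (ε : ℝ), 0 < ε →
      ∃ A : Finset K, ∃ δ > 0, ∀ f : C(K, ℝ), (∀ a ∈ A, |f a - f0 a| < δ) →
        |q (e f) - q (e f0)| < ε)
    (hcont' : ∀ (g0 : C(K, ℝ)) (x : K) (ε : ℝ), 0 < ε →
      ∃ S : Finset (C(K, ℝ) →L[ℝ] ℝ), ∃ δ > 0, ∀ g : C(K, ℝ), (∀ q ∈ S, |q g - q g0| < δ) →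
        |e' g x - e' g0 x| < ε) : False := by
  by_cases h : ∃ Φ : C(K, ℝ), Set.Icc (0 : ℝ) 1 ⊆ Set.range Φ
  · obtain ⟨Φ, hΦ⟩ := h
    exact caseA Φ hΦ e e' he hcont hcont'
  · exact caseB h e e' he he' hcont hcont'

end

/-- finite control for functions continuous in an induced product topology -/
theorem finite_control {α ι : Type*} (F : α → ι → ℝ) (G : α → ℝ)
    (hG : @Continuous α ℝ (TopologicalSpace.induced F Pi.topologicalSpace) _ G)
    (a0 : α) (ε : ℝ) (hε : 0 < ε) :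
    ∃ A : Finset ι, ∃ δ > 0, ∀ a, (∀ i ∈ A, |F a i - F a0 i| < δ) → |G a - G a0| < ε := by
  classical
  let _ : TopologicalSpace α := TopologicalSpace.induced F Pi.topologicalSpace
  have h1 : G ⁻¹' (Metric.ball (G a0) ε) ∈ 𝓝 a0 :=
    hG.continuousAt.preimage_mem_nhds (Metric.ball_mem_nhds _ hε)
  rw [nhds_induced, Filter.mem_comap] at h1
  obtain ⟨t, ht, hsub⟩ := h1
  rw [nhds_pi] at ht
  obtain ⟨⟨I, δ⟩, ⟨hI, hδ⟩, ht⟩ :=
    (Filter.hasBasis_pi (fun i => Metric.nhds_basis_ball (x := F a0 i))).mem_iff.mp ht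
  simp only at hI hδ ht
  obtain ⟨δ0, hδ0, hδ0'⟩ : ∃ δ0 > 0, ∀ i ∈ I, δ0 ≤ δ i := by
    rcases I.eq_empty_or_nonempty with rfl | hne
    · exact ⟨1, one_pos, fun i hi => absurd hi (Set.notMem_empty i)⟩
    · obtain ⟨i0, hi0, hmin⟩ := Set.exists_min_image I δ hI hne
      exact ⟨δ i0, hδ i0 hi0, hmin⟩
  refine ⟨hI.toFinset, δ0, hδ0, fun a ha => ?_⟩
  have h2 : F a ∈ t := by
    apply ht
    intro i hi
    rw [Metric.mem_ball, Real.dist_eq]
    exact (ha i (hI.mem_toFinset.mpr hi)).trans_le (hδ0' i hi)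
  have h3 := hsub h2
  rw [Set.mem_preimage, Metric.mem_ball, Real.dist_eq] at h3
  exact h3

/-- the topology generated by a family of real functions is induced from the product -/
theorem iInf_induced_eq {α ι : Type*} (F : α → ι → ℝ) :
    (⨅ i, TopologicalSpace.induced (fun a => F a i) (inferInstance : TopologicalSpace ℝ)) =
      TopologicalSpace.induced F Pi.topologicalSpace := by
  rw [Pi.topologicalSpace, induced_iInf]
  simp only [induced_compose]
  rfl

end Pool.Agent.H299R3
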