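import Mathlib

/-!
Ultrafilter limits of bounded sequences, means on bounded functions, and
bounded linear functionals obtained by averaging.
-/

set_option autoImplicit false

namespace Pool.Agent.H299R3

open Filter Topology

/-- the limit of a bounded real sequence along a fixed free ultrafilter on the naturals -/
noncomputable def ul (a : ℕ → ℝ) : ℝ := limUnder (hyperfilter ℕ : Filter ℕ) a

theorem ul_tendsto {a : ℕ → ℝ} (C : ℝ) (h : ∀ n, |a n| ≤ C) :
    Tendsto a (hyperfilter ℕ : Filter ℕ) (𝓝 (ul a)) := by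
  have hmem : (Set.Icc (-C) C) ∈ ((hyperfilter ℕ).map a : Ultrafilter ℝ) := by
    have : a ⁻¹' (Set.Icc (-C) C) = Set.univ := by
      ext n
      simp only [Set.mem_preimage, Set.mem_Icc, Set.mem_univ, iff_true]
      exact abs_le.mp (h n)
    rw [Ultrafilter.mem_map, this]
    exact Filter.univ_mem
  obtain ⟨x, -, hx⟩ := (isCompact_Icc (a := -C) (b := C)).ultrafilter_le_nhds' _ hmem
  exact tendsto_nhds_limUnder ⟨x, hx⟩

theorem ul_eq {a : ℕ → ℝ} {x : ℝ} (h : Tendsto a (hyperfilter ℕ : Filter ℕ) (𝓝 x)) :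
    ul a = x := h.limUnder_eq

theorem ul_add {a b : ℕ → ℝ} (C D : ℝ) (ha : ∀ n, |a n| ≤ C) (hb : ∀ n, |b n| ≤ D) :
    ul (fun n => a n + b n) = ul a + ul b :=
  ul_eq ((ul_tendsto C ha).add (ul_tendsto D hb))

theorem ul_smul {a : ℕ → ℝ} (C : ℝ) (ha : ∀ n, |a n| ≤ C) (r : ℝ) :
    ul (fun n => r * a n) = r * ul a :=
  ul_eq ((ul_tendsto C ha).const_mul r)

theorem ul_le {a : ℕ → ℝ} (C : ℝ) (ha : ∀ n, |a n| ≤ C) {r : ℝ}
    (h : ∀ᶠ n in (hyperfilter ℕ : Filter ℕ), a n ≤ r) : ul a ≤ r :=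
  le_of_tendsto (ul_tendsto C ha) h

theorem le_ul {a : ℕ → ℝ} (C : ℝ) (ha : ∀ n, |a n| ≤ C) {r : ℝ}
    (h : ∀ᶠ n in (hyperfilter ℕ : Filter ℕ), r ≤ a n) : r ≤ ul a :=
  ge_of_tendsto (ul_tendsto C ha) h

theorem abs_ul_le {a : ℕ → ℝ} (C : ℝ) (ha : ∀ n, |a n| ≤ C) : |ul a| ≤ C :=
  abs_le.mpr ⟨le_ul C ha (Eventually.of_forall fun n => (abs_le.mp (ha n)).1),
    ul_le C ha (Eventually.of_forall fun n => (abs_le.mp (ha n)).2)⟩

section CLM

variable {E : Type*} [NormedAddCommGroup E] [NormedSpace ℝ E]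

/-- ultrafilter limit of a bounded sequence of functionals -/
theorem exists_ulCLM (φ : ℕ → (E →L[ℝ] ℝ)) (C : ℝ) (hC : ∀ n, ‖φ n‖ ≤ C) :
    ∃ q : E →L[ℝ] ℝ, ‖q‖ ≤ C ∧ ∀ e, q e = ul (fun n => φ n e) := by
  have hb : ∀ e n, |φ n e| ≤ C * ‖e‖ := fun e n =>
    ((φ n).le_opNorm e).trans (mul_le_mul_of_nonneg_right (hC n) (norm_nonneg e))
  have hC0 : 0 ≤ C := (norm_nonneg _).trans (hC 0)
  refine ⟨LinearMap.mkContinuous
    { toFun := fun e => ul (fun n => φ n e)
      map_add' := fun x y => by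
        simp only [map_add]
        exact ul_add _ _ (hb x) (hb y)
      map_smul' := fun r x => by
        simp only [map_smul, smul_eq_mul, RingHom.id_apply]
        exact ul_smul _ (hb x) r } C (fun e => abs_ul_le _ (hb e)), ?_, fun e => rfl⟩
  exact LinearMap.mkContinuous_norm_le _ hC0 _

end CLM

/-- bounded function -/
def Bd {X : Type*} (f : X → ℝ) : Prop := ∃ C : ℝ, ∀ x, |f x| ≤ C

theorem Bd.add {X : Type*} {f g : X → ℝ} (hf : Bd f) (hg : Bd g) : Bd (fun x => f x + g x) := by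
  obtain ⟨C, hC⟩ := hf
  obtain ⟨D, hD⟩ := hg
  exact ⟨C + D, fun x => (abs_add_le _ _).trans (add_le_add (hC x) (hD x))⟩

theorem Bd.mul {X : Type*} {f g : X → ℝ} (hf : Bd f) (hg : Bd g) : Bd (fun x => f x * g x) := by
  obtain ⟨C, hC⟩ := hf
  obtain ⟨D, hD⟩ := hg
  refine ⟨C * D, fun x => ?_⟩
  rw [abs_mul]
  exact mul_le_mul (hC x) (hD x) (abs_nonneg _) ((abs_nonneg _).trans (hC x))

theorem Bd.const {X : Type*} (r : ℝ) : Bd (fun _ : X => r) := ⟨|r|, fun _ => le_rfl⟩

theorem Bd.const_mul {X : Type*} {f : X → ℝ} (hf : Bd f) (r : ℝ) : Bd (fun x => r * f x) :=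
  (Bd.const r).mul hf

theorem Bd.sum {X ι : Type*} (s : Finset ι) {f : ι → X → ℝ} (hf : ∀ i ∈ s, Bd (f i)) :
    Bd (fun x => ∑ i ∈ s, f i x) := by
  classical
  induction s using Finset.induction_on with
  | empty => simpa using Bd.const (X := X) 0
  | insert a s ha ih =>
    simp only [Finset.sum_insert ha]
    exact (hf a (Finset.mem_insert_self a s)).add
      (ih fun i hi => hf i (Finset.mem_insert_of_mem hi))

/-- a finitely additive mean on the bounded functions on `X` -/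
structure Mean (X : Type*) where
  toFun : (X → ℝ) → ℝ
  add' : ∀ f g, Bd f → Bd g → toFun (fun x => f x + g x) = toFun f + toFun g
  smul' : ∀ (r : ℝ) f, Bd f → toFun (fun x => r * f x) = r * toFun f
  mono' : ∀ f g, Bd f → Bd g → (∀ x, f x ≤ g x) → toFun f ≤ toFun g
  one' : toFun (fun _ => 1) = 1

namespace Mean

variable {X : Type*} (L : Mean X)

theorem zero : L.toFun (fun _ => 0) = 0 := by
  have := L.smul' 0 (fun _ => 1) (Bd.const 1)
  simpa using this

theorem sum {ι : Type*} (s : Finset ι) (f : ι → X → ℝ) (hf : ∀ i ∈ s, Bd (f i)) :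
    L.toFun (fun x => ∑ i ∈ s, f i x) = ∑ i ∈ s, L.toFun (f i) := by
  classical
  induction s using Finset.induction_on with
  | empty => simpa using L.zero
  | insert a s ha ih =>
    simp only [Finset.sum_insert ha]
    rw [L.add' _ _ (hf a (Finset.mem_insert_self a s))
      (Bd.sum s fun i hi => hf i (Finset.mem_insert_of_mem hi)),
      ih fun i hi => hf i (Finset.mem_insert_of_mem hi)]

theorem nonneg {f : X → ℝ} (hf : Bd f) (h : ∀ x, 0 ≤ f x) : 0 ≤ L.toFun f := by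
  have := L.mono' (fun _ => 0) f (Bd.const 0) hf h
  rwa [L.zero] at this

theorem abs_le {f g : X → ℝ} (hf : Bd f) (hg : Bd g) (h : ∀ x, |f x| ≤ g x) :
    |L.toFun f| ≤ L.toFun g := by
  rw [_root_.abs_le]
  constructor
  · have h1 := L.mono' (fun x => (-1) * g x) f (hg.const_mul _) hf
      (fun x => by have := (_root_.abs_le.mp (h x)).1; linarith)
    rw [L.smul' _ _ hg] at h1
    linarith
  · exact L.mono' f g hf hg (fun x => (_root_.abs_le.mp (h x)).2)

theorem const (r : ℝ) : L.toFun (fun _ => r) = r := by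
  have := L.smul' r (fun _ => 1) (Bd.const 1)
  simpa [L.one'] using this

variable {E : Type*} [NormedAddCommGroup E] [NormedSpace ℝ E]

/-- averaging a bounded family of functionals against a bounded weight -/
theorem exists_avg (c : X → (E →L[ℝ] ℝ)) (R : ℝ) (hc : ∀ x, ‖c x‖ ≤ R) (ψ : X → ℝ) (hψ : Bd ψ) :
    ∃ q : E →L[ℝ] ℝ, ∀ e, q e = L.toFun (fun x => ψ x * c x e) := by
  have hb : ∀ e x, |c x e| ≤ R * ‖e‖ := fun e x =>
    ((c x).le_opNorm e).trans (mul_le_mul_of_nonneg_right (hc x) (norm_nonneg e))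
  have hbd : ∀ e, Bd (fun x => c x e) := fun e => ⟨_, hb e⟩
  obtain ⟨C, hC⟩ := hψ
  have hψ : Bd ψ := ⟨C, hC⟩
  refine ⟨LinearMap.mkContinuous
    { toFun := fun e => L.toFun (fun x => ψ x * c x e)
      map_add' := fun x y => by
        rw [← L.add' _ _ (hψ.mul (hbd x)) (hψ.mul (hbd y))]
        congr 1
        ext z
        simp [mul_add]
      map_smul' := fun r x => by
        rw [RingHom.id_apply, smul_eq_mul, ← L.smul' _ _ (hψ.mul (hbd x))]
        congr 1
        ext z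
        simp only [map_smul, smul_eq_mul]
        ring } (C * R) (fun e => ?_), fun e => rfl⟩
  have h1 : |L.toFun (fun x => ψ x * c x e)| ≤ L.toFun (fun _ => C * (R * ‖e‖)) := by
    refine L.abs_le (hψ.mul (hbd e)) (Bd.const _) fun x => ?_
    rw [abs_mul]
    exact mul_le_mul (hC x) (hb e x) (abs_nonneg _) ((abs_nonneg _).trans (hC x))
  rw [L.const] at h1
  calc ‖_‖ = |L.toFun (fun x => ψ x * c x e)| := rfl
    _ ≤ C * (R * ‖e‖) := h1
    _ = C * R * ‖e‖ := by ring

end Mean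

end Pool.Agent.H299R3
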