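import Pool.Agent.H299R3.CpMain

/-!
For a metric space and an infinite-dimensional normed space, the continuous real functions with the
pointwise topology are not homeomorphic to the normed space with its weak topology
(epsilon-delta form).
-/

set_option autoImplicit false

namespace Pool.Agent.H299R3

open Filter Topology

section Gen

variable {M : Type*} [MetricSpace M] {E : Type*} [NormedAddCommGroup E] [NormedSpace ℝ E]

/-- Case A: the space maps onto an interval. -/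
theorem genA (Φ : C(M, ℝ)) (hΦ : Set.Icc (0 : ℝ) 1 ⊆ Set.range Φ)
    (e : C(M, ℝ) → E) (e' : E → C(M, ℝ)) (he : ∀ f, e' (e f) = f)
    (hcont : ∀ (f0 : C(M, ℝ)) (q : E →L[ℝ] ℝ) (ε : ℝ), 0 < ε →
      ∃ A : Finset M, ∃ δ > 0, ∀ f : C(M, ℝ), (∀ a ∈ A, |f a - f0 a| < δ) →
        |q (e f) - q (e f0)| < ε)
    (hcont' : ∀ (g0 : E) (x : M) (ε : ℝ), 0 < ε →
      ∃ S : Finset (E →L[ℝ] ℝ), ∃ δ > 0, ∀ g : E, (∀ q ∈ S, |q g - q g0| < δ) →
        |e' g x - e' g0 x| < ε) : False := by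
  classical
  refine no_line (E := E) (fun f => e (f.comp Φ) - e 0) ?_ ?_
  · intro q ε hε
    obtain ⟨A, δ, hδ, hA⟩ := hcont 0 q ε hε
    refine ⟨A.image Φ, fun f hf => ?_⟩
    rw [map_sub]
    refine (hA (f.comp Φ) fun a ha => ?_).le
    have := hf (Φ a) (Finset.mem_image_of_mem _ ha)
    simp [this, hδ]
  · intro x hx
    obtain ⟨y, hy⟩ := hΦ hx
    obtain ⟨S, δ, hδ, hS⟩ := hcont' (e 0) y (1 / 2) (by norm_num)
    refine ⟨S.card, fun i => (1 / δ) • (S.equivFin.symm i).1, fun f hf => ?_⟩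
    have h1 := hS (e (f.comp Φ)) (fun q hq => by
      have h2 := hf (S.equivFin ⟨q, hq⟩)
      simp only [Equiv.symm_apply_apply, smul_apply, smul_eq_mul, map_sub] at h2
      rw [← mul_sub, abs_mul, abs_of_pos (by positivity : 0 < 1 / δ), one_div,
        inv_mul_lt_iff₀ hδ, mul_one] at h2
      exact h2)
    rw [he, he] at h1
    simpa [hy] using h1

theorem exists_ker (hE : ¬ FiniteDimensional ℝ E) (S : Finset (E →L[ℝ] ℝ)) (C : ℝ) :
    ∃ v : E, (∀ q ∈ S, q v = 0) ∧ C ≤ ‖v‖ := by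
  classical
  let T : E →ₗ[ℝ] (S → ℝ) := LinearMap.pi (fun q => (q.1 : E →L[ℝ] ℝ).toLinearMap)
  have hT : ¬ Function.Injective T := fun hinj => hE (FiniteDimensional.of_injective T hinj)
  rw [← LinearMap.ker_eq_bot, Submodule.eq_bot_iff] at hT
  push Not at hT
  obtain ⟨v, hv, hv0⟩ := hT
  have hvn : 0 < ‖v‖ := norm_pos_iff.mpr hv0
  have hq : ∀ q ∈ S, q v = 0 := by
    intro q hq
    have h1 : T v = 0 := LinearMap.mem_ker.mp hv
    exact congrFun h1 ⟨q, hq⟩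
  refine ⟨(|C| / ‖v‖) • v, fun q hqS => ?_, ?_⟩
  · rw [map_smul, hq q hqS, smul_zero]
  · rw [norm_smul, norm_div, norm_norm, Real.norm_eq_abs, abs_abs, div_mul_cancel₀ _ hvn.ne']
    exact le_abs_self C

/-- Case B: the space is countable. -/
theorem genB (hM : Countable M) (hE : ¬ FiniteDimensional ℝ E)
    (e : C(M, ℝ) → E) (e' : E → C(M, ℝ)) (he : ∀ f, e' (e f) = f) (he' : ∀ g, e (e' g) = g)
    (hcont : ∀ (f0 : C(M, ℝ)) (q : E →L[ℝ] ℝ) (ε : ℝ), 0 < ε →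
      ∃ A : Finset M, ∃ δ > 0, ∀ f : C(M, ℝ), (∀ a ∈ A, |f a - f0 a| < δ) →
        |q (e f) - q (e f0)| < ε)
    (hcont' : ∀ (g0 : E) (x : M) (ε : ℝ), 0 < ε →
      ∃ S : Finset (E →L[ℝ] ℝ), ∃ δ > 0, ∀ g : E, (∀ q ∈ S, |q g - q g0| < δ) →
        |e' g x - e' g0 x| < ε) : False := by
  classical
  obtain ⟨g, hg⟩ := exists_injective_nat M
  have hfin : ∀ k : ℕ, {x : M | g x ≤ k}.Finite := fun k =>
    Set.Finite.preimage hg.injOn (Set.finite_Iic k)
  have h1 : ∀ k : ℕ, ∃ v : E, (k : ℝ) ≤ ‖v‖ ∧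
      ∀ x : M, g x ≤ k → |e' (e 0 + v) x| < 1 / ((k : ℝ) + 1) := by
    intro k
    choose S δ hδ hS using fun x : M => hcont' (e 0) x (1 / ((k : ℝ) + 1)) (by positivity)
    obtain ⟨v, hv1, hv2⟩ := exists_ker hE ((hfin k).toFinset.biUnion S) k
    refine ⟨v, hv2, fun x hx => ?_⟩
    have h2 := hS x (e 0 + v) (fun q hq => by
      rw [map_add, hv1 q (Finset.mem_biUnion.mpr ⟨x, (hfin k).mem_toFinset.mpr hx, hq⟩),
        add_zero, sub_self, abs_zero]
      exact hδ x)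
    rw [he] at h2
    simpa using h2
  choose v hv1 hv2 using h1
  obtain ⟨C, hC⟩ := bounded_of_weakly_bounded v (fun q => by
    obtain ⟨A, δ, hδ, hA⟩ := hcont 0 q 1 one_pos
    refine bounded_of_eventually _ ?_
    have h2 : ∀ᶠ n in (atTop : Filter ℕ), ∀ a ∈ A, |e' (e 0 + v n) a - (0 : C(M, ℝ)) a| < δ := by
      rw [Filter.eventually_all_finset]
      intro a _
      have h3 : ∀ᶠ n : ℕ in atTop, 1 / ((n : ℝ) + 1) < δ :=
        tendsto_one_div_add_atTop_nhds_zero_nat.eventually (gt_mem_nhds hδ)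
      filter_upwards [h3, eventually_ge_atTop (g a)] with n hn hna
      rw [ContinuousMap.zero_apply, sub_zero]
      exact (hv2 n a hna).trans hn
    filter_upwards [h2] with n hn
    have h3 := hA _ hn
    rw [he', map_add, add_sub_cancel_left] at h3
    exact h3.le)
  obtain ⟨n, hn⟩ := exists_nat_gt C
  have := hC n
  have := hv1 n
  linarith

/-- points controlled by `m` functionals of norm at most `m` -/
def ctl (e : C(M, ℝ) → E) (m : ℕ) : Set M :=
  {x | ∃ c : Fin m → (E →L[ℝ] ℝ), (∀ i, ‖c i‖ ≤ m) ∧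
        ∀ f : C(M, ℝ), 1 / 2 < f x → ∃ i, 1 ≤ |c i (e f - e 0)|}

theorem ctl_lim (e : C(M, ℝ) → E) (m : ℕ) (xs : ℕ → M) (hxs : ∀ n, xs n ∈ ctl e m) :
    ∃ q : Fin m → (E →L[ℝ] ℝ), (∀ i, ‖q i‖ ≤ m) ∧
      ∀ f : C(M, ℝ), (∀ᶠ n in (atTop : Filter ℕ), 1 / 2 < f (xs n)) →
        ∃ i, 1 ≤ |q i (e f - e 0)| := by
  choose c hc1 hc2 using hxs
  have h2 : ∀ i : Fin m, ∃ q : E →L[ℝ] ℝ, ‖q‖ ≤ m ∧ ∀ e, q e = ul (fun n => c n i e) :=
    fun i => exists_ulCLM (fun n => c n i) m (fun n => hc1 n i)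
  choose q hq1 hq2 using h2
  refine ⟨q, hq1, fun f hf => ?_⟩
  have h3' : ∀ᶠ n in (hyperfilter ℕ : Filter ℕ), 1 / 2 < f (xs n) :=
    Nat.hyperfilter_le_atTop hf
  have h4 : ∀ᶠ n in (hyperfilter ℕ : Filter ℕ), ∃ i : Fin m, 1 ≤ |c n i (e f - e 0)| :=
    h3'.mono fun n hn => hc2 n f hn
  obtain ⟨i, hi⟩ := Ultrafilter.eventually_exists_iff.mp h4
  refine ⟨i, ?_⟩
  rw [hq2]
  have hb : ∀ n, |c n i (e f - e 0)| ≤ m * ‖e f - e 0‖ := fun n =>
    ((c n i).le_opNorm _).trans (mul_le_mul_of_nonneg_right (hc1 n i) (norm_nonneg _))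
  exact ge_of_tendsto (ul_tendsto _ hb).abs hi

theorem ctl_compact (e : C(M, ℝ) → E) (m : ℕ)
    (hcont : ∀ (f0 : C(M, ℝ)) (q : E →L[ℝ] ℝ) (ε : ℝ), 0 < ε →
      ∃ A : Finset M, ∃ δ > 0, ∀ f : C(M, ℝ), (∀ a ∈ A, |f a - f0 a| < δ) →
        |q (e f) - q (e f0)| < ε) : IsCompact (ctl e m) := by
  classical
  apply IsSeqCompact.isCompact
  intro xs hxs
  have hsub : ∃ a, ∃ φ : ℕ → ℕ, StrictMono φ ∧ Tendsto (xs ∘ φ) atTop (𝓝 a) := by
    by_contra hcon
    push Not at hcon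
    have h1 : ∀ a : M, ∃ r > 0, ∀ᶠ n in atTop, r ≤ dist (xs n) a := by
      intro a
      by_contra hcon2
      push Not at hcon2
      have h2 : MapClusterPt a atTop xs := by
        rw [mapClusterPt_iff_frequently]
        intro s hs
        obtain ⟨r, hr, hrs⟩ := Metric.mem_nhds_iff.mp hs
        have h3 := hcon2 r hr
        exact h3.mono fun n hn => hrs (by rw [Metric.mem_ball]; exact hn)
      obtain ⟨φ, hφ1, hφ2⟩ := h2.tendsto_subseq
      exact hcon a φ hφ1 hφ2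
    choose r hr hr' using h1
    obtain ⟨q, -, hq⟩ := ctl_lim e m xs hxs
    choose A δ hδ hA using fun i : Fin m => hcont 0 (q i) 1 one_pos
    let AA : Finset M := Finset.univ.biUnion A
    let f : C(M, ℝ) := ⟨fun x => ∏ a ∈ AA, (dist x a / r a), by fun_prop⟩
    obtain ⟨i, hi⟩ := hq f (by
      have h2 : ∀ᶠ n in atTop, ∀ a ∈ AA, r a ≤ dist (xs n) a := by
        rw [Filter.eventually_all_finset]
        exact fun a _ => hr' a
      filter_upwards [h2] with n hn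
      have h3 : (1 : ℝ) ≤ ∏ a ∈ AA, (dist (xs n) a / r a) := by
        calc (1 : ℝ) = ∏ a ∈ AA, (1 : ℝ) := by rw [Finset.prod_const_one]
          _ ≤ ∏ a ∈ AA, (dist (xs n) a / r a) := by
            refine Finset.prod_le_prod (fun _ _ => zero_le_one) (fun a ha => ?_)
            rw [le_div_iff₀ (hr a), one_mul]
            exact hn a ha
      show 1 / 2 < ∏ a ∈ AA, (dist (xs n) a / r a)
      linarith)
    have h3 := hA i f (fun a ha => by
      have h4 : f a = 0 := by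
        show ∏ b ∈ AA, (dist a b / r b) = 0
        refine Finset.prod_eq_zero (i := a) (Finset.mem_biUnion.mpr ⟨i, Finset.mem_univ _, ha⟩) ?_
        rw [dist_self, zero_div]
      rw [h4, ContinuousMap.zero_apply, sub_zero, abs_zero]
      exact hδ i)
    rw [← map_sub] at h3
    linarith
  obtain ⟨a, φ, hφ1, hφ2⟩ := hsub
  refine ⟨a, ?_, φ, hφ1, hφ2⟩
  obtain ⟨q, hq1, hq2⟩ := ctl_lim e m (xs ∘ φ) (fun n => hxs _)
  refine ⟨q, hq1, fun f hf => hq2 f ?_⟩
  exact ((f.continuous.tendsto a).comp hφ2).eventually (lt_mem_nhds hf)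

theorem ctl_cover (e : C(M, ℝ) → E) (e' : E → C(M, ℝ)) (he : ∀ f, e' (e f) = f)
    (hcont' : ∀ (g0 : E) (x : M) (ε : ℝ), 0 < ε →
      ∃ S : Finset (E →L[ℝ] ℝ), ∃ δ > 0, ∀ g : E, (∀ q ∈ S, |q g - q g0| < δ) →
        |e' g x - e' g0 x| < ε) (x : M) : ∃ m, x ∈ ctl e m := by
  classical
  obtain ⟨S, δ, hδ, hS⟩ := hcont' (e 0) x (1 / 2) (by norm_num)
  obtain ⟨m1, hm1⟩ : ∃ m1 : ℕ, ∀ q ∈ S, ‖(1 / δ) • q‖ ≤ m1 := by
    obtain ⟨m1, hm1⟩ := exists_nat_ge (∑ q ∈ S, ‖(1 / δ) • q‖)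
    exact ⟨m1, fun q hq => (Finset.single_le_sum (f := fun q => ‖(1 / δ) • q‖)
      (fun i _ => norm_nonneg _) hq).trans hm1⟩
  refine ⟨max S.card m1, fun i => if hi : (i : ℕ) < S.card then
    (1 / δ) • (S.equivFin.symm ⟨i, hi⟩).1 else 0, ?_, ?_⟩
  · intro i
    simp only
    split_ifs with hi
    · refine (hm1 _ (S.equivFin.symm ⟨i, hi⟩).2).trans ?_
      exact_mod_cast le_max_right S.card m1
    · rw [norm_zero]
      positivity
  · intro f hf
    by_contra hcon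
    push Not at hcon
    have h1 : ∀ q ∈ S, |q (e f) - q (e 0)| < δ := by
      intro q hq
      have h2 := hcon ⟨S.equivFin ⟨q, hq⟩, lt_of_lt_of_le (S.equivFin ⟨q, hq⟩).2
        (le_max_left S.card m1)⟩
      simp only [Fin.is_lt, ↓reduceDIte, Fin.eta, Equiv.symm_apply_apply, smul_apply,
        smul_eq_mul] at h2
      rw [abs_mul, abs_of_pos (by positivity : 0 < 1 / δ), one_div,
        inv_mul_lt_iff₀ hδ, mul_one, map_sub] at h2
      exact h2
    have h2 := hS (e f) h1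
    rw [he, he, ContinuousMap.zero_apply, sub_zero] at h2
    have h3 := le_abs_self (f x)
    linarith

/-- an uncountable countable union of compact sets in a metric space maps onto an interval -/
theorem exists_onto (hM : ¬ Countable M) (K : ℕ → Set M) (hK : ∀ m, IsCompact (K m))
    (hcov : ∀ x, ∃ m, x ∈ K m) : ∃ Φ : C(M, ℝ), Set.Icc (0 : ℝ) 1 ⊆ Set.range Φ := by
  obtain ⟨m, hm⟩ : ∃ m, ¬ (K m).Countable := by
    by_contra hcon
    push Not at hcon
    apply hM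
    have h1 : (⋃ m, K m).Countable := Set.countable_iUnion hcon
    have h2 : (⋃ m, K m) = Set.univ := by
      rw [Set.eq_univ_iff_forall]
      intro x
      exact Set.mem_iUnion.mpr (hcov x)
    rw [h2] at h1
    exact Set.countable_univ_iff.mp h1
  have : CompactSpace (K m) := isCompact_iff_compactSpace.mp (hK m)
  have hunc : ¬ (Set.univ : Set (K m)).Countable := by
    intro h
    exact hm (Set.countable_coe_iff.mp (Set.countable_univ_iff.mp h))
  obtain ⟨f, -, hf2, hf3⟩ := isClosed_univ.exists_nat_bool_injection_of_not_countable hunc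
  obtain ⟨g, hg1, hg2⟩ := exists_nat_bool_continuous_surjective_of_compact unitInterval
  have hemb : IsClosedEmbedding (fun b => (f b : M)) :=
    (continuous_subtype_val.comp hf2).isClosedEmbedding (Subtype.val_injective.comp hf3)
  obtain ⟨G, hG⟩ := ContinuousMap.exists_extension' hemb
    (⟨fun b => (g b : ℝ), continuous_subtype_val.comp hg1⟩ : C(ℕ → Bool, ℝ))
  refine ⟨G, fun t ht => ?_⟩
  obtain ⟨b, hb⟩ := hg2 ⟨t, ht⟩
  refine ⟨f b, ?_⟩
  have h1 : G (f b) = (g b : ℝ) := congrFun hG b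
  rw [h1, hb]

theorem gen_main (hE : ¬ FiniteDimensional ℝ E)
    (e : C(M, ℝ) → E) (e' : E → C(M, ℝ)) (he : ∀ f, e' (e f) = f) (he' : ∀ g, e (e' g) = g)
    (hcont : ∀ (f0 : C(M, ℝ)) (q : E →L[ℝ] ℝ) (ε : ℝ), 0 < ε →
      ∃ A : Finset M, ∃ δ > 0, ∀ f : C(M, ℝ), (∀ a ∈ A, |f a - f0 a| < δ) →
        |q (e f) - q (e f0)| < ε)
    (hcont' : ∀ (g0 : E) (x : M) (ε : ℝ), 0 < ε →
      ∃ S : Finset (E →L[ℝ] ℝ), ∃ δ > 0, ∀ g : E, (∀ q ∈ S, |q g - q g0| < δ) →
        |e' g x - e' g0 x| < ε) : False := by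
  by_cases hM : Countable M
  · exact genB hM hE e e' he he' hcont hcont'
  · obtain ⟨Φ, hΦ⟩ := exists_onto hM (ctl e) (fun m => ctl_compact e m hcont)
      (ctl_cover e e' he hcont')
    exact genA Φ hΦ e e' he hcont hcont'

end Gen

end Pool.Agent.H299R3
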