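import Pool.Agent.H299R3.CpCoreB

/-!
A mean on the bounded functions on `[0,1)` with small mass on small intervals.
-/

set_option autoImplicit false

namespace Pool.Agent.H299R3

open Filter Topology

/-- the half open unit interval -/
abbrev X01 := Set.Ico (0 : ℝ) 1

/-- equidistributed points -/
noncomputable def pt (N i : ℕ) : X01 :=
  ⟨((i % (N + 1) : ℕ) : ℝ) / (N + 1), by
    have h : (i % (N + 1)) < N + 1 := Nat.mod_lt _ (Nat.succ_pos _)
    have h' : ((i % (N + 1) : ℕ) : ℝ) < N + 1 := by exact_mod_cast h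
    constructor
    · positivity
    · rw [div_lt_one (by positivity)]
      exact h'⟩

theorem pt_val {N i : ℕ} (h : i < N + 1) : ((pt N i : X01) : ℝ) = (i : ℝ) / (N + 1) := by
  simp [pt, Nat.mod_eq_of_lt h]

/-- finite averages -/
noncomputable def avg (f : X01 → ℝ) (N : ℕ) : ℝ :=
  (∑ i ∈ Finset.range (N + 1), f (pt N i)) / (N + 1)

theorem abs_avg_le {f : X01 → ℝ} {C : ℝ} (hC : ∀ x, |f x| ≤ C) (N : ℕ) : |avg f N| ≤ C := by
  have hN : (0 : ℝ) < (N : ℝ) + 1 := by positivity
  rw [avg, abs_div, abs_of_pos hN, div_le_iff₀ hN]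
  refine (Finset.abs_sum_le_sum_abs _ _).trans ?_
  refine (Finset.sum_le_sum fun i _ => hC (pt N i)).trans ?_
  rw [Finset.sum_const, Finset.card_range, nsmul_eq_mul]
  push_cast
  linarith

/-- the mean -/
noncomputable def mean01 : Mean X01 where
  toFun f := ul (avg f)
  add' f g hf hg := by
    obtain ⟨C, hC⟩ := hf
    obtain ⟨D, hD⟩ := hg
    rw [← ul_add C D (abs_avg_le hC) (abs_avg_le hD)]
    congr 1
    ext N
    simp only [avg]
    rw [Finset.sum_add_distrib, add_div]
  smul' r f hf := by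
    obtain ⟨C, hC⟩ := hf
    rw [← ul_smul C (abs_avg_le hC) r]
    congr 1
    ext N
    simp only [avg]
    rw [← Finset.mul_sum, mul_div_assoc]
  mono' f g hf hg h := by
    obtain ⟨C, hC⟩ := hf
    obtain ⟨D, hD⟩ := hg
    refine le_of_tendsto_of_tendsto (ul_tendsto C (abs_avg_le hC)) (ul_tendsto D (abs_avg_le hD))
      (Eventually.of_forall fun N => ?_)
    simp only [avg]
    exact div_le_div_of_nonneg_right (Finset.sum_le_sum fun i _ => h _) (by positivity)
  one' := by
    have : avg (fun _ => (1 : ℝ)) = fun _ => 1 := by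
      ext N
      simp only [avg, Finset.sum_const, Finset.card_range, nsmul_eq_mul, mul_one]
      push_cast
      rw [div_self (by positivity)]
    rw [this]
    exact ul_eq tendsto_const_nhds

theorem card_le_of_mem_Icc (T : Finset ℕ) (p q : ℝ) (hpq : p ≤ q)
    (hT : ∀ i ∈ T, p ≤ (i : ℝ) ∧ (i : ℝ) ≤ q) : (T.card : ℝ) ≤ q - p + 1 := by
  rcases T.eq_empty_or_nonempty with rfl | ⟨i0, hi0⟩
  · simp only [Finset.card_empty, Nat.cast_zero]
    linarith
  · have hq : 0 ≤ q := (Nat.cast_nonneg i0).trans (hT i0 hi0).2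
    have hsub : T ⊆ Finset.Icc ⌈p⌉₊ ⌊q⌋₊ := by
      intro i hi
      rw [Finset.mem_Icc]
      exact ⟨Nat.ceil_le.mpr (hT i hi).1, Nat.le_floor (hT i hi).2⟩
    have hcard := Finset.card_le_card hsub
    rw [Nat.card_Icc] at hcard
    have h1 : (T.card : ℝ) ≤ ((⌊q⌋₊ + 1 - ⌈p⌉₊ : ℕ) : ℝ) := by exact_mod_cast hcard
    refine h1.trans ?_
    rcases Nat.le_total ⌈p⌉₊ (⌊q⌋₊ + 1) with h | h
    · rw [Nat.cast_sub h]
      push_cast
      have h2 := Nat.floor_le hq
      have h3 := Nat.le_ceil p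
      linarith
    · rw [Nat.sub_eq_zero_of_le h]
      simp only [Nat.cast_zero]
      linarith

theorem mean01_interval (S : Set X01) (a b : ℝ) (hab : a ≤ b)
    (hS : ∀ x ∈ S, a ≤ (x : ℝ) ∧ (x : ℝ) ≤ b) : mean01.toFun (ind S) ≤ b - a := by
  classical
  have hb : ∀ x, |ind S x| ≤ 1 := fun x => by
    rw [abs_of_nonneg (ind_nonneg S x)]; exact ind_le_one S x
  have h1 : ∀ N, avg (ind S) N ≤ (b - a) + 1 / ((N : ℝ) + 1) := by
    intro N
    have hN : (0 : ℝ) < (N : ℝ) + 1 := by positivity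
    have h2 : ∑ i ∈ Finset.range (N + 1), ind S (pt N i) =
        (((Finset.range (N + 1)).filter fun i => pt N i ∈ S).card : ℝ) := by
      rw [Finset.card_filter]
      push_cast
      refine Finset.sum_congr rfl fun i _ => ?_
      by_cases h : pt N i ∈ S
      · rw [ind_of_mem h, if_pos h]
      · rw [ind_of_notMem h, if_neg h]
    have h3 := card_le_of_mem_Icc ((Finset.range (N + 1)).filter fun i => pt N i ∈ S)
      (a * (N + 1)) (b * (N + 1)) (mul_le_mul_of_nonneg_right hab hN.le) (by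
        intro i hi
        rw [Finset.mem_filter, Finset.mem_range] at hi
        have h4 := hS _ hi.2
        rw [pt_val hi.1, le_div_iff₀ hN, div_le_iff₀ hN] at h4
        exact h4)
    rw [avg, h2, div_le_iff₀ hN]
    have h5 : (b - a + 1 / ((N : ℝ) + 1)) * (N + 1) = b * (N + 1) - a * (N + 1) + 1 := by
      field_simp
    rw [h5]
    exact h3
  have h2 : Tendsto (fun N : ℕ => (b - a) + 1 / ((N : ℝ) + 1)) (hyperfilter ℕ : Filter ℕ)
      (𝓝 ((b - a) + 0)) :=
    (tendsto_const_nhds.add tendsto_one_div_add_atTop_nhds_zero_nat).mono_left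
      Nat.hyperfilter_le_atTop
  rw [add_zero] at h2
  exact le_of_tendsto_of_tendsto (ul_tendsto 1 (abs_avg_le hb)) h2 (Eventually.of_forall h1)

/-- dyadic cells -/
noncomputable def cell (n : ℕ) (x : X01) : ℕ := ⌊(2 : ℝ) ^ n * (x : ℝ)⌋₊

theorem cell_lt (n : ℕ) (x : X01) : cell n x < 2 ^ n := by
  rw [cell, Nat.floor_lt (mul_nonneg (by positivity) x.2.1)]
  push_cast
  have := x.2.2
  have h : (0 : ℝ) < 2 ^ n := by positivity
  nlinarith

theorem cell_eq_iff (n s : ℕ) (x : X01) :
    cell n x = s ↔ (s : ℝ) ≤ 2 ^ n * (x : ℝ) ∧ 2 ^ n * (x : ℝ) < s + 1 :=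
  Nat.floor_eq_iff (mul_nonneg (by positivity) x.2.1)

theorem mean01_cell (n s : ℕ) : mean01.toFun (ind {x | cell n x = s}) ≤ (1 / 2) ^ n := by
  have h2 : (0 : ℝ) < 2 ^ n := by positivity
  have := mean01_interval {x | cell n x = s} ((s : ℝ) / 2 ^ n) (((s : ℝ) + 1) / 2 ^ n)
    (by apply div_le_div_of_nonneg_right _ h2.le; linarith) (by
      intro x hx
      have h1 := (cell_eq_iff n s x).mp hx
      rw [div_le_iff₀ h2, le_div_iff₀ h2]
      constructor
      · linarith [h1.1]
      · linarith [h1.2])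
  refine this.trans (le_of_eq ?_)
  rw [div_pow, one_pow]
  ring

/-- Richness: a function vanishing on prescribed cells and points, and larger than one half on
most of the other cells. -/
theorem rich01 (n : ℕ) (B : Finset ℕ) (A : Finset X01) (η : ℝ) (hη : 0 < η) :
    ∃ w : C(ℝ, ℝ), (∀ x, 0 ≤ w x ∧ w x ≤ 1) ∧ (∀ x, x ≤ 0 → w x = 0) ∧ (∀ x, 1 ≤ x → w x = 0) ∧
      (∀ x : X01, cell n x ∈ B → w x = 0) ∧ (∀ x ∈ A, w (x : ℝ) = 0) ∧
      mean01.toFun (ind {x : X01 | ¬ (1 / 2 < w x) ∧ cell n x ∉ B}) ≤ η := by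
  classical
  have h2n : (0 : ℝ) < 2 ^ n := by positivity
  set ZZ : Set ℝ := Set.Iic 0 ∪ Set.Ici 1 ∪ ((A.image (fun x : X01 => (x : ℝ)) : Finset ℝ) : Set ℝ) ∪
    ⋃ s ∈ B, Set.Icc ((s : ℝ) / 2 ^ n) (((s : ℝ) + 1) / 2 ^ n) with hZZ
  have h0 : (0 : ℝ) ∈ ZZ := Or.inl (Or.inl (Or.inl (Set.mem_Iic.mpr le_rfl)))
  set Ends : Finset ℝ := {0, 1} ∪ A.image (fun x : X01 => (x : ℝ)) ∪
    (B.image (fun s : ℕ => (s : ℝ) / 2 ^ n) ∪ B.image (fun s : ℕ => ((s : ℝ) + 1) / 2 ^ n))
    with hEnds
  set r : ℝ := η / (2 * (Ends.card + 1)) with hr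
  have hr0 : 0 < r := by positivity
  let w : C(ℝ, ℝ) := ⟨fun x => min 1 (Metric.infDist x ZZ / r),
    continuous_const.min ((Metric.continuous_infDist_pt ZZ).div_const r)⟩
  have hw : ∀ x, w x = min 1 (Metric.infDist x ZZ / r) := fun x => rfl
  have hwz : ∀ x ∈ ZZ, w x = 0 := by
    intro x hx
    rw [hw, Metric.infDist_zero_of_mem hx, zero_div]
    exact min_eq_right zero_le_one
  refine ⟨w, fun x => ⟨?_, ?_⟩, fun x hx => hwz x ?_, fun x hx => hwz x ?_, fun x hx => hwz x ?_,
    fun x hx => hwz x ?_, ?_⟩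
  · rw [hw]
    exact le_min zero_le_one (div_nonneg Metric.infDist_nonneg hr0.le)
  · rw [hw]
    exact min_le_left _ _
  · exact Or.inl (Or.inl (Or.inl hx))
  · exact Or.inl (Or.inl (Or.inr hx))
  · right
    have h1 := (cell_eq_iff n _ x).mp rfl
    refine Set.mem_biUnion hx ?_
    rw [Set.mem_Icc, div_le_iff₀ h2n, le_div_iff₀ h2n]
    constructor
    · linarith [h1.1]
    · linarith [h1.2]
  · exact Or.inl (Or.inr (by
      rw [Finset.mem_coe, Finset.mem_image]
      exact ⟨x, hx, rfl⟩))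
  · -- the bad set is covered by short intervals around the end points
    have hbad : ∀ x : X01, ¬ (1 / 2 < w x) ∧ cell n x ∉ B → ∃ e ∈ Ends, |(x : ℝ) - e| ≤ r := by
      rintro x ⟨hx1, hx2⟩
      have h1 : Metric.infDist (x : ℝ) ZZ < r := by
        rw [hw, not_lt, min_le_iff] at hx1
        rcases hx1 with h | h
        · norm_num at h
        · rw [div_le_iff₀ hr0] at h
          linarith
      obtain ⟨z, hz, hxz⟩ := (Metric.infDist_lt_iff ⟨0, h0⟩).mp h1
      rw [Real.dist_eq] at hxz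
      have hxz' := abs_lt.mp hxz
      rcases hz with ((hz | hz) | hz) | hz
      · refine ⟨0, by simp [hEnds], ?_⟩
        rw [Set.mem_Iic] at hz
        rw [sub_zero, abs_of_nonneg x.2.1]
        linarith
      · refine ⟨1, by simp [hEnds], ?_⟩
        rw [Set.mem_Ici] at hz
        rw [abs_le]
        have := x.2.2
        constructor <;> linarith
      · refine ⟨z, ?_, hxz.le⟩
        rw [Finset.mem_coe] at hz
        rw [hEnds]
        exact Finset.mem_union_left _ (Finset.mem_union_right _ hz)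
      · rw [Set.mem_iUnion₂] at hz
        obtain ⟨s, hs, hz⟩ := hz
        rw [Set.mem_Icc] at hz
        by_cases hlt : (x : ℝ) < (s : ℝ) / 2 ^ n
        · refine ⟨(s : ℝ) / 2 ^ n, ?_, ?_⟩
          · rw [hEnds]
            exact Finset.mem_union_right _ (Finset.mem_union_left _
              (Finset.mem_image_of_mem _ hs))
          · rw [abs_le]
            constructor <;> linarith [hz.1]
        · have hge : ((s : ℝ) + 1) / 2 ^ n ≤ x := by
            by_contra hcon
            push Not at hcon hlt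
            apply hx2
            have : cell n x = s := by
              rw [cell_eq_iff]
              rw [div_le_iff₀ h2n] at hlt
              rw [lt_div_iff₀ h2n] at hcon
              constructor
              · linarith
              · linarith
            rw [this]
            exact hs
          refine ⟨((s : ℝ) + 1) / 2 ^ n, ?_, ?_⟩
          · rw [hEnds]
            exact Finset.mem_union_right _ (Finset.mem_union_right _
              (Finset.mem_image_of_mem (fun s : ℕ => ((s : ℝ) + 1) / 2 ^ n) hs))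
          · rw [abs_le]
            constructor <;> linarith [hz.2]
    have h1 : mean01.toFun (ind {x : X01 | ¬ (1 / 2 < w x) ∧ cell n x ∉ B}) ≤
        mean01.toFun (fun x => ∑ e ∈ Ends, ind {x : X01 | |(x : ℝ) - e| ≤ r} x) := by
      refine mean01.mono' _ _ (bd_ind _) (Bd.sum _ fun e _ => bd_ind _) fun x => ?_
      by_cases hx : ¬ (1 / 2 < w x) ∧ cell n x ∉ B
      · obtain ⟨e, he, hxe⟩ := hbad x hx
        rw [ind_of_mem (show x ∈ {x : X01 | ¬ (1 / 2 < w x) ∧ cell n x ∉ B} from hx)]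
        have h3 := Finset.single_le_sum (f := fun e => ind {x : X01 | |(x : ℝ) - e| ≤ r} x)
          (fun e _ => ind_nonneg _ x) he
        rwa [ind_of_mem (show x ∈ {x : X01 | |(x : ℝ) - e| ≤ r} from hxe)] at h3
      · rw [ind_of_notMem (show x ∉ {x : X01 | ¬ (1 / 2 < w x) ∧ cell n x ∉ B} from hx)]
        exact Finset.sum_nonneg fun e _ => ind_nonneg _ x
    refine h1.trans ?_
    rw [mean01.sum _ _ fun e _ => bd_ind _]
    have h3 : ∀ e ∈ Ends, mean01.toFun (ind {x : X01 | |(x : ℝ) - e| ≤ r}) ≤ 2 * r := by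
      intro e _
      have := mean01_interval {x : X01 | |(x : ℝ) - e| ≤ r} (e - r) (e + r) (by linarith) (by
        intro x hx
        have := abs_le.mp (show |(x : ℝ) - e| ≤ r from hx)
        constructor <;> linarith)
      linarith
    refine (Finset.sum_le_sum h3).trans ?_
    rw [Finset.sum_const, nsmul_eq_mul]
    have h4 : (Ends.card : ℝ) * (2 * r) = η * (Ends.card / (Ends.card + 1)) := by
      rw [hr]; field_simp
    rw [h4]
    have h5 : (Ends.card : ℝ) / (Ends.card + 1) ≤ 1 := by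
      rw [div_le_one (by positivity)]; linarith
    nlinarith

end Pool.Agent.H299R3
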