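import Pool.Agent.H299R3.QPBl

/-!
Averages of the logarithm of the norm function over a circle of parameters.
-/

set_option autoImplicit false

open Filter Topology Metric Real MeasureTheory

namespace Pool.Agent.H299R3.QP

theorem ne_mem_codiscrete (a : ℂ) (S : Set ℂ) : {z | z ≠ a} ∈ codiscreteWithin S := by
  apply codiscreteWithin_iff_locallyFiniteComplementWithin.2
  intro z hz
  refine ⟨Set.univ, univ_mem, ?_⟩
  apply Set.Subsingleton.finite
  intro z₁ hz₁ z₂ hz₂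
  have h1 : z₁ = a := not_not.mp hz₁.2.2
  have h2 : z₂ = a := not_not.mp hz₂.2.2
  rw [h1, h2]

theorem avg_le_off_point {f g : ℂ → ℝ} {r : ℝ} (hr : r ≠ 0) (hf : CircleIntegrable f 0 r)
    (hg : CircleIntegrable g 0 r) (a : ℂ) (h : ∀ z ∈ sphere (0 : ℂ) |r|, z ≠ a → f z ≤ g z) :
    circleAverage f 0 r ≤ circleAverage g 0 r := by
  classical
  set f₂ : ℂ → ℝ := fun z => if z = a then g z else f z with hf₂
  have h1 : f =ᶠ[codiscreteWithin (sphere (0 : ℂ) |r|)] f₂ := by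
    filter_upwards [ne_mem_codiscrete a _] with z hz
    simp only [hf₂, if_neg hz]
  rw [circleAverage_congr_codiscreteWithin h1 hr]
  apply circleAverage_mono (hf.congr_codiscreteWithin h1) hg
  intro z hz
  simp only [hf₂]
  split_ifs with h2
  · exact le_rfl
  · exact h z hz h2

theorem conj_half : (starRingEnd ℂ) (1 / 2) = 1 / 2 := by rw [map_div₀, map_one, map_ofNat]
theorem conj_quarter : (starRingEnd ℂ) (1 / 4) = 1 / 4 := by rw [map_div₀, map_one, map_ofNat]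

theorem mo_half (x : ℂ) : mo (1 / 2) x = (1 / 2 - x) / (1 - (1 / 2) * x) := by
  rw [mo, conj_half]

theorem mo_quarter (x : ℂ) : mo (1 / 4) x = (1 / 4 - x) / (1 - (1 / 4) * x) := by
  rw [mo, conj_quarter]

theorem half_lt : ‖(1 / 2 : ℂ)‖ < 1 := by norm_num
theorem quarter_lt : ‖(1 / 4 : ℂ)‖ < 1 := by norm_num

theorem mo_circle_integrable (w : ℂ) :
    CircleIntegrable (fun μ => -Real.log ‖mo (1 / 2) (μ * w)‖) 0 1 := by
  have h : CircleIntegrable (fun μ => Real.log ‖mo (1 / 2) (μ * w)‖) 0 1 := by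
    apply MeromorphicOn.circleIntegrable_log_norm
    intro μ _
    have : (fun μ => mo (1 / 2) (μ * w)) =
        fun μ : ℂ => (1 / 2 - μ * w) / (1 - (1 / 2) * (μ * w)) := by
      funext μ; rw [mo_half]
    rw [this]
    fun_prop
  exact h.neg

theorem avg_mo {w : ℂ} (hw : ‖w‖ < 1) :
    circleAverage (fun μ => -Real.log ‖mo (1 / 2) (μ * w)‖) 0 1 ≤ 2 * (1 - ‖w‖ ^ 2) := by
  have hlog2 : Real.log 2 ≤ 1 := by
    have := Real.log_two_lt_d9
    linarith
  by_cases hw0 : w = 0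
  · subst hw0
    have h1 : (fun μ : ℂ => -Real.log ‖mo (1 / 2) (μ * 0)‖) = fun _ => Real.log 2 := by
      funext μ
      rw [mul_zero, mo_half]
      simp [Real.log_inv]
    rw [h1, circleAverage_const]
    simp
    linarith
  · set a : ℂ := (1 / 2) / w with ha
    have hwpos : 0 < ‖w‖ := norm_pos_iff.mpr hw0
    have hden : ∀ μ : ℂ, ‖μ‖ ≤ 1 → 1 - (1 / 2) * (μ * w) ≠ 0 := by
      intro μ hμ h0
      have h1 : (1 / 2 : ℂ) * (μ * w) = 1 := (sub_eq_zero.mp h0).symm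
      have h2 := congrArg norm h1
      rw [norm_mul, norm_mul, norm_one] at h2
      have h3 : ‖(1 / 2 : ℂ)‖ = 1 / 2 := by norm_num
      rw [h3] at h2
      nlinarith [norm_nonneg μ]
    have h1 : (fun μ : ℂ => -Real.log ‖mo (1 / 2) (μ * w)‖)
        =ᶠ[codiscreteWithin (sphere (0 : ℂ) |1|)]
        (fun μ : ℂ => Real.log ‖1 - (1 / 2) * (μ * w)‖ - (Real.log ‖w‖ + Real.log ‖μ - a‖)) := by
      filter_upwards [ne_mem_codiscrete a _, self_mem_codiscreteWithin _] with μ hμ hμs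
      rw [mem_sphere_zero_iff_norm, abs_one] at hμs
      have h2 : 1 / 2 - μ * w = -(w * (μ - a)) := by
        rw [ha]; field_simp; ring
      have h3 : ‖w * (μ - a)‖ ≠ 0 := by
        rw [norm_ne_zero_iff]
        exact mul_ne_zero hw0 (sub_ne_zero.mpr hμ)
      rw [mo_half, norm_div, Real.log_div, h2, norm_neg, norm_mul, Real.log_mul]
      · ring
      · exact hwpos.ne'
      · exact norm_ne_zero_iff.mpr (sub_ne_zero.mpr hμ)
      · rw [h2, norm_neg]; exact h3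
      · exact norm_ne_zero_iff.mpr (hden μ hμs.le)
    have h2 : CircleIntegrable (fun μ : ℂ => Real.log ‖1 - (1 / 2) * (μ * w)‖) 0 1 := by
      apply MeromorphicOn.circleIntegrable_log_norm
      intro μ _
      fun_prop
    have h3 : CircleIntegrable (fun μ : ℂ => Real.log ‖μ - a‖) 0 1 := by
      apply MeromorphicOn.circleIntegrable_log_norm
      intro μ _
      fun_prop
    have h4 : circleAverage (fun μ : ℂ => Real.log ‖1 - (1 / 2) * (μ * w)‖) 0 1 = 0 := by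
      rw [AnalyticOnNhd.circleAverage_log_norm_of_ne_zero]
      · simp
      · intro μ _
        fun_prop
      · intro μ hμ
        rw [abs_one, mem_closedBall_zero_iff] at hμ
        exact hden μ hμ
    have h5 : circleAverage (fun μ : ℂ => Real.log ‖μ - a‖) 0 1 = Real.posLog ‖a‖ :=
      circleAverage_log_norm_sub_const_eq_posLog
    have h6 : CircleIntegrable (fun μ : ℂ => Real.log ‖w‖ + Real.log ‖μ - a‖) 0 1 :=
      (circleIntegrable_const _ _ _).add h3
    rw [circleAverage_congr_codiscreteWithin h1 one_ne_zero,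
      circleAverage_fun_sub h2 h6,
      circleAverage_fun_add (circleIntegrable_const _ _ _) h3, h4, h5, circleAverage_const]
    have ha1 : ‖a‖ = 1 / (2 * ‖w‖) := by
      rw [ha, norm_div]
      norm_num
      ring
    rcases le_or_gt (1 / 2) ‖w‖ with hcase | hcase
    · have h6 : -Real.log ‖w‖ ≤ 2 * (1 - ‖w‖) := by
        have h7 := Real.log_le_sub_one_of_pos (inv_pos.mpr hwpos)
        rw [Real.log_inv] at h7
        have h8 : ‖w‖⁻¹ - 1 = (1 - ‖w‖) / ‖w‖ := by field_simp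
        rw [h8] at h7
        refine h7.trans ?_
        rw [div_le_iff₀ hwpos]
        nlinarith
      have h7 : 0 ≤ Real.posLog ‖a‖ := Real.posLog_nonneg
      nlinarith
    · have h6 : Real.posLog ‖a‖ = Real.log ‖a‖ := by
        apply Real.posLog_eq_log
        rw [abs_norm, ha1, le_div_iff₀ (by positivity)]
        linarith
      rw [h6, ha1, Real.log_div one_ne_zero (by positivity), Real.log_one,
        Real.log_mul two_ne_zero hwpos.ne']
      nlinarith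

/-- The norm function. -/
noncomputable def Nf (μ z t : ℂ) : ℂ :=
  ((1 / 2 - (1 / 4) * (μ * z)) ^ 2 - t * (1 / 8 - μ * z) ^ 2) /
    ((1 - (1 / 8) * (μ * z)) ^ 2 - t * (1 / 4 - (1 / 2) * (μ * z)) ^ 2)

theorem theta_eq {x y : ℂ} (hy : ‖y‖ < 1) : mo (1 / 2) (x * mo (1 / 4) y) =
    ((1 / 2 - (1 / 4) * x) - y * (1 / 8 - x)) / ((1 - (1 / 8) * x) - y * (1 / 4 - (1 / 2) * x)) := by
  have h1 : 1 - (1 / 4) * y ≠ 0 := by
    have := den_ne quarter_lt hy
    rwa [conj_quarter] at this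
  rw [mo_half, mo_quarter]
  have h2 : 1 / 2 - x * ((1 / 4 - y) / (1 - (1 / 4) * y)) =
      ((1 / 2 - (1 / 4) * x) - y * (1 / 8 - x)) / (1 - (1 / 4) * y) := by
    rw [eq_div_iff h1, sub_mul, mul_assoc x, div_mul_cancel₀ _ h1]
    ring
  have h3 : 1 - (1 / 2) * (x * ((1 / 4 - y) / (1 - (1 / 4) * y))) =
      ((1 - (1 / 8) * x) - y * (1 / 4 - (1 / 2) * x)) / (1 - (1 / 4) * y) := by
    rw [eq_div_iff h1, sub_mul, mul_assoc (1 / 2 : ℂ), mul_assoc x, div_mul_cancel₀ _ h1]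
    ring
  rw [h2, h3, div_div_div_cancel_right₀ h1]

theorem theta_mul {μ z y : ℂ} (hy : ‖y‖ < 1) :
    mo (1 / 2) (μ * z * mo (1 / 4) y) * mo (1 / 2) (μ * z * mo (1 / 4) (-y)) = Nf μ z (y ^ 2) := by
  rw [theta_eq hy, theta_eq (by rwa [norm_neg]), div_mul_div_comm, Nf]
  congr 1 <;> ring

theorem w_norm {z y : ℂ} (hz : ‖z‖ < 1) (hy : ‖y‖ < 1) : ‖z * mo (1 / 4) y‖ < 1 := by
  rw [norm_mul]
  have := mo_norm_lt quarter_lt hy
  nlinarith [norm_nonneg z, norm_nonneg (mo (1 / 4) y)]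

theorem Nf_lt {μ z t : ℂ} (hμ : ‖μ‖ = 1) (hz : ‖z‖ < 1) (ht : ‖t‖ < 1) : ‖Nf μ z t‖ < 1 := by
  obtain ⟨y, hy'⟩ := IsAlgClosed.exists_pow_nat_eq t (n := 2) (by norm_num)
  have hy := hy'.symm
  have hy1 : ‖y‖ < 1 := by
    have h1 : ‖y‖ ^ 2 < 1 := by rw [← norm_pow, ← hy]; exact ht
    nlinarith [norm_nonneg y]
  rw [hy, ← theta_mul hy1, norm_mul]
  have h1 : ‖μ * z * mo (1 / 4) y‖ < 1 := by
    rw [mul_assoc, norm_mul, hμ, one_mul]; exact w_norm hz hy1
  have h2 : ‖μ * z * mo (1 / 4) (-y)‖ < 1 := by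
    rw [mul_assoc, norm_mul, hμ, one_mul]; exact w_norm hz (by rwa [norm_neg])
  have h3 := mo_norm_lt half_lt h1
  have h4 := mo_norm_lt half_lt h2
  nlinarith [norm_nonneg (mo (1 / 2) (μ * z * mo (1 / 4) y)),
    norm_nonneg (mo (1 / 2) (μ * z * mo (1 / 4) (-y)))]

theorem w_bound {z y : ℂ} (hz : ‖z‖ < 1) (hy : ‖y‖ < 1) :
    1 - ‖z * mo (1 / 4) y‖ ^ 2 ≤ (1 - ‖z‖ ^ 2) + 5 / 3 * (1 - ‖y‖ ^ 2) := by
  have h1 := mo_upper quarter_lt hy
  have h2 : (1 + ‖(1 / 4 : ℂ)‖) / (1 - ‖(1 / 4 : ℂ)‖) = 5 / 3 := by norm_num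
  rw [h2] at h1
  rw [norm_mul, mul_pow]
  have h3 := one_sub_sq_pos hz
  have h4 : 0 < 1 - ‖mo (1 / 4) y‖ ^ 2 := one_sub_sq_pos (mo_norm_lt quarter_lt hy)
  have h5 : 0 ≤ ‖z‖ ^ 2 := by positivity
  nlinarith

theorem Nf_circle_integrable (z t : ℂ) :
    CircleIntegrable (fun μ => -Real.log ‖Nf μ z t‖) 0 1 := by
  have h : CircleIntegrable (fun μ => Real.log ‖Nf μ z t‖) 0 1 := by
    apply MeromorphicOn.circleIntegrable_log_norm
    intro μ _
    unfold Nf
    fun_prop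
  exact h.neg

theorem neg_log_mul_le {x y : ℝ} (hx0 : 0 ≤ x) (hx : x ≤ 1) (hy0 : 0 ≤ y) (hy : y ≤ 1) :
    -Real.log (x * y) ≤ -Real.log x + -Real.log y := by
  rcases hx0.eq_or_lt with rfl | hx0
  · have := Real.log_nonpos hy0 hy
    simp; linarith
  rcases hy0.eq_or_lt with rfl | hy0
  · have := Real.log_nonpos hx0.le hx
    simp; linarith
  rw [Real.log_mul hx0.ne' hy0.ne']
  linarith

theorem avg_Nf {z t : ℂ} (hz : ‖z‖ < 1) (ht : ‖t‖ < 1) :
    circleAverage (fun μ => -Real.log ‖Nf μ z t‖) 0 1 ≤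
      4 * ((1 - ‖z‖ ^ 2) + 5 / 3 * (1 - ‖t‖)) := by
  obtain ⟨y, hy'⟩ := IsAlgClosed.exists_pow_nat_eq t (n := 2) (by norm_num)
  have hy := hy'.symm
  have hyt : ‖y‖ ^ 2 = ‖t‖ := by rw [← norm_pow, ← hy]
  have hy1 : ‖y‖ < 1 := by
    have h1 : ‖y‖ ^ 2 < 1 := by rw [hyt]; exact ht
    nlinarith [norm_nonneg y]
  have hy2 : ‖-y‖ < 1 := by rwa [norm_neg]
  have h1 := w_norm hz hy1
  have h2 := w_norm hz hy2
  have h3 : circleAverage (fun μ => -Real.log ‖Nf μ z t‖) 0 1 ≤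
      circleAverage (fun μ => -Real.log ‖mo (1 / 2) (μ * (z * mo (1 / 4) y))‖ +
        -Real.log ‖mo (1 / 2) (μ * (z * mo (1 / 4) (-y)))‖) 0 1 := by
    apply circleAverage_mono (Nf_circle_integrable z t)
      ((mo_circle_integrable _).add (mo_circle_integrable _))
    intro μ hμ
    rw [mem_sphere_zero_iff_norm, abs_one] at hμ
    change _ ≤ -Real.log ‖mo (1 / 2) (μ * (z * mo (1 / 4) y))‖ +
        -Real.log ‖mo (1 / 2) (μ * (z * mo (1 / 4) (-y)))‖
    rw [hy, ← theta_mul hy1, norm_mul, ← mul_assoc, ← mul_assoc]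
    apply neg_log_mul_le (norm_nonneg _) _ (norm_nonneg _)
    · refine (mo_norm_lt half_lt ?_).le
      rw [mul_assoc, norm_mul, hμ, one_mul]; exact h2
    · refine (mo_norm_lt half_lt ?_).le
      rw [mul_assoc, norm_mul, hμ, one_mul]; exact h1
  rw [circleAverage_fun_add (mo_circle_integrable _) (mo_circle_integrable _)] at h3
  have h4 := avg_mo h1
  have h5 := avg_mo h2
  have h6 := w_bound hz hy1
  have h7 := w_bound hz hy2
  rw [norm_neg] at h7
  rw [hyt] at h6 h7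
  linarith

end Pool.Agent.H299R3.QP
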