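import Pool.Agent.H299R3.QPDefs

/-!
Blaschke products on the disc.
-/

set_option autoImplicit false

open Filter Topology Metric

namespace Pool.Agent.H299R3.QP

/-- The disc automorphism interchanging `0` and `a`. -/
noncomputable def mo (a z : ℂ) : ℂ := (a - z) / (1 - (starRingEnd ℂ) a * z)

theorem mo_id (a z : ℂ) : ‖1 - (starRingEnd ℂ) a * z‖ ^ 2 - ‖a - z‖ ^ 2 =
    (1 - ‖a‖ ^ 2) * (1 - ‖z‖ ^ 2) := by
  simp only [← Complex.normSq_eq_norm_sq, Complex.normSq_apply, Complex.sub_re, Complex.sub_im,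
    Complex.mul_re, Complex.mul_im, Complex.conj_re, Complex.conj_im, Complex.one_re,
    Complex.one_im]
  ring

theorem den_lower (a z : ℂ) :
    1 - ‖a‖ * ‖z‖ ≤ ‖1 - (starRingEnd ℂ) a * z‖ := by
  have h := norm_sub_norm_le (1 : ℂ) ((starRingEnd ℂ) a * z)
  rw [norm_one, norm_mul, Complex.norm_conj] at h
  exact h

theorem den_pos {a z : ℂ} (ha : ‖a‖ < 1) (hz : ‖z‖ < 1) :
    0 < ‖1 - (starRingEnd ℂ) a * z‖ := by
  have h := den_lower a z
  have h1 : ‖a‖ * ‖z‖ < 1 := by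
    nlinarith [norm_nonneg a, norm_nonneg z]
  linarith

theorem den_ne {a z : ℂ} (ha : ‖a‖ < 1) (hz : ‖z‖ < 1) : 1 - (starRingEnd ℂ) a * z ≠ 0 :=
  norm_pos_iff.mp (den_pos ha hz)

theorem mo_norm_sq {a z : ℂ} (ha : ‖a‖ < 1) (hz : ‖z‖ < 1) :
    1 - ‖mo a z‖ ^ 2 = (1 - ‖a‖ ^ 2) * (1 - ‖z‖ ^ 2) / ‖1 - (starRingEnd ℂ) a * z‖ ^ 2 := by
  have h := den_pos ha hz
  have h2 : ‖1 - (starRingEnd ℂ) a * z‖ ^ 2 ≠ 0 := by positivity
  rw [mo, norm_div, div_pow, ← mo_id, sub_div, div_self h2]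

theorem one_sub_sq_pos {a : ℂ} (ha : ‖a‖ < 1) : 0 < 1 - ‖a‖ ^ 2 := by
  nlinarith [norm_nonneg a]

theorem mo_norm_lt {a z : ℂ} (ha : ‖a‖ < 1) (hz : ‖z‖ < 1) : ‖mo a z‖ < 1 := by
  have h : 0 < 1 - ‖mo a z‖ ^ 2 := by
    rw [mo_norm_sq ha hz]
    have := one_sub_sq_pos ha
    have := one_sub_sq_pos hz
    have := den_pos ha hz
    positivity
  nlinarith [norm_nonneg (mo a z)]

theorem mo_upper {a z : ℂ} (ha : ‖a‖ < 1) (hz : ‖z‖ < 1) :
    1 - ‖mo a z‖ ^ 2 ≤ (1 + ‖a‖) / (1 - ‖a‖) * (1 - ‖z‖ ^ 2) := by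
  rw [mo_norm_sq ha hz]
  have h1 := den_lower a z
  have h2 : 1 - ‖a‖ ≤ ‖1 - (starRingEnd ℂ) a * z‖ := by
    nlinarith [norm_nonneg a, norm_nonneg z]
  have h3 : 0 < 1 - ‖a‖ := by linarith
  have h4 := one_sub_sq_pos hz
  rw [div_mul_eq_mul_div, div_le_div_iff₀ (pow_pos (den_pos ha hz) 2) h3]
  have h5 : (1 - ‖a‖) ^ 2 ≤ ‖1 - (starRingEnd ℂ) a * z‖ ^ 2 := by
    apply pow_le_pow_left₀ h3.le h2
  have h6 : (1 - ‖a‖ ^ 2) * (1 - ‖z‖ ^ 2) * (1 - ‖a‖) =
    (1 + ‖a‖) * (1 - ‖z‖ ^ 2) * (1 - ‖a‖) ^ 2 := by ring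
  rw [h6]
  apply mul_le_mul_of_nonneg_left h5
  have := norm_nonneg a
  positivity

theorem mo_self (a : ℂ) : mo a a = 0 := by simp [mo]

theorem mo_differentiableOn {a : ℂ} (ha : ‖a‖ < 1) : DifferentiableOn ℂ (mo a) (ball 0 1) := by
  intro z hz
  rw [mem_ball_zero_iff] at hz
  apply DifferentiableAt.differentiableWithinAt
  unfold mo
  have h := den_ne ha hz
  fun_prop (disch := assumption)

theorem bf_eq {a : ℂ} (h : a ≠ 0) (z : ℂ) : bf a z = ((‖a‖ : ℂ) / a) * mo a z := by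
  rw [bf, if_neg h]; rfl

theorem bf_norm (a z : ℂ) : ‖bf a z‖ = ‖mo a z‖ := by
  by_cases h : a = 0
  · subst h
    simp [bf, mo]
  · rw [bf_eq h, norm_mul, norm_div, Complex.norm_real, norm_norm,
      div_self (norm_ne_zero_iff.mpr h), one_mul]

theorem bf_self (a : ℂ) : bf a a = 0 := by
  have : ‖bf a a‖ = 0 := by rw [bf_norm, mo_self, norm_zero]
  exact norm_eq_zero.mp this

theorem bf_differentiableOn {a : ℂ} (ha : ‖a‖ < 1) : DifferentiableOn ℂ (bf a) (ball 0 1) := by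
  by_cases h : a = 0
  · subst h
    have : bf 0 = fun z => z := by funext z; simp [bf]
    rw [this]
    exact differentiableOn_id
  · have : bf a = fun z => ((‖a‖ : ℂ) / a) * mo a z := by funext z; exact bf_eq h z
    rw [this]
    exact (mo_differentiableOn ha).const_mul _

theorem bf_sub_one {a z : ℂ} (ha : ‖a‖ < 1) (hz : ‖z‖ < 1) :
    ‖bf a z - 1‖ ≤ (1 - ‖a‖) * ((1 + ‖z‖) / (1 - ‖z‖)) := by
  have hz1 : 0 < 1 - ‖z‖ := by linarith
  by_cases h : a = 0
  · subst h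
    simp only [bf, if_true, norm_zero, sub_zero, one_mul]
    rw [le_div_iff₀ hz1]
    have h1 : ‖z - 1‖ ≤ ‖z‖ + 1 := by
      have := norm_sub_le z 1
      rwa [norm_one] at this
    nlinarith [norm_nonneg z, norm_nonneg (z - 1)]
  · have hden := den_ne ha hz
    have hconj : (starRingEnd ℂ) a = (‖a‖ : ℂ) ^ 2 / a := by
      rw [eq_div_iff h, mul_comm, Complex.mul_conj, Complex.normSq_eq_norm_sq]
      push_cast
      ring
    have h1 : bf a z - 1 = -((1 - (‖a‖ : ℂ)) * (1 + z * ((‖a‖ : ℂ) / a)) /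
        (1 - (starRingEnd ℂ) a * z)) := by
      rw [bf_eq h, mo, eq_neg_iff_add_eq_zero, mul_div_assoc', div_sub' hden, ← add_div]
      apply div_eq_zero_iff.mpr
      left
      rw [hconj]
      field_simp
      ring
    rw [h1, norm_neg, norm_div, norm_mul, mul_div_assoc]
    have h2 : ‖1 - (‖a‖ : ℂ)‖ = 1 - ‖a‖ := by
      rw [show (1 : ℂ) - (‖a‖ : ℂ) = ((1 - ‖a‖ : ℝ) : ℂ) by push_cast; ring, Complex.norm_real,
        Real.norm_of_nonneg (by linarith)]
    rw [h2]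
    apply mul_le_mul_of_nonneg_left _ (by linarith)
    have h3 : ‖1 + z * ((‖a‖ : ℂ) / a)‖ ≤ 1 + ‖z‖ := by
      refine (norm_add_le _ _).trans ?_
      rw [norm_one, norm_mul, norm_div, Complex.norm_real, norm_norm,
        div_self (norm_ne_zero_iff.mpr h), mul_one]
    have h4 : 1 - ‖z‖ ≤ ‖1 - (starRingEnd ℂ) a * z‖ := by
      have := den_lower a z
      nlinarith [norm_nonneg a, norm_nonneg z]
    exact div_le_div₀ (by linarith [norm_nonneg z]) h3 hz1 h4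

/-- Sequences of factors. -/
structure Sq (f : ℕ → ℂ → ℂ) (d : ℕ → ℝ) : Prop where
  hol : ∀ n, DifferentiableOn ℂ (f n) (ball 0 1)
  le : ∀ n z, ‖z‖ < 1 → ‖f n z‖ ≤ 1
  close : ∀ n z, ‖z‖ < 1 → ‖f n z - 1‖ ≤ d n * ((1 + ‖z‖) / (1 - ‖z‖))
  zero : ∀ n, 1 - d n ≤ ‖f n 0‖
  bdry : ∀ n, ∃ C, 0 ≤ C ∧ ∀ z, ‖z‖ < 1 → 1 - ‖f n z‖ ≤ C * (1 - ‖z‖ ^ 2)
  nn : ∀ n, 0 ≤ d n
  summ : Summable d

theorem Sq.shift {f : ℕ → ℂ → ℂ} {d : ℕ → ℝ} (h : Sq f d) (N : ℕ) :
    Sq (fun n => f (n + N)) (fun n => d (n + N)) where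
  hol n := h.hol _
  le n := h.le _
  close n := h.close _
  zero n := h.zero _
  bdry n := h.bdry _
  nn n := h.nn _
  summ := (summable_nat_add_iff N).mpr h.summ

/-- The factors of a Blaschke product, indexed by all natural numbers. -/
noncomputable def fac (J : Set ℕ) (a : ℕ → ℂ) (n : ℕ) (z : ℂ) : ℂ :=
  J.mulIndicator (fun n => bf (a n) z) n

theorem fac_sq {J : Set ℕ} {a : ℕ → ℂ} (ha : ∀ n ∈ J, ‖a n‖ < 1)
    (hs : Summable (fun n : J => 1 - ‖a n‖)) :
    Sq (fac J a) (J.indicator (fun n => 1 - ‖a n‖)) := by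
  classical
  have h1 : ∀ n, n ∈ J → fac J a n = bf (a n) := by
    intro n hn; funext z; simp [fac, hn]
  have h2 : ∀ n, n ∉ J → fac J a n = fun _ => 1 := by
    intro n hn; funext z; simp [fac, hn]
  refine ⟨?_, ?_, ?_, ?_, ?_, ?_, summable_subtype_iff_indicator.mp hs⟩
  · intro n
    by_cases hn : n ∈ J
    · rw [h1 n hn]; exact bf_differentiableOn (ha n hn)
    · rw [h2 n hn]; exact differentiableOn_const _
  · intro n z hz
    by_cases hn : n ∈ J
    · rw [h1 n hn, bf_norm]; exact (mo_norm_lt (ha n hn) hz).le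
    · rw [h2 n hn]; simp
  · intro n z hz
    by_cases hn : n ∈ J
    · rw [h1 n hn, Set.indicator_of_mem hn]; exact bf_sub_one (ha n hn) hz
    · rw [h2 n hn, Set.indicator_of_notMem hn]; simp
  · intro n
    by_cases hn : n ∈ J
    · rw [h1 n hn, Set.indicator_of_mem hn, bf_norm]; simp [mo]
    · rw [h2 n hn, Set.indicator_of_notMem hn]; simp
  · intro n
    by_cases hn : n ∈ J
    · refine ⟨(1 + ‖a n‖) / (1 - ‖a n‖), ?_, ?_⟩
      · have := ha n hn
        have := norm_nonneg (a n)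
        apply div_nonneg <;> linarith
      · intro z hz
        rw [h1 n hn, bf_norm]
        refine le_trans ?_ (mo_upper (ha n hn) hz)
        have := mo_norm_lt (ha n hn) hz
        nlinarith [norm_nonneg (mo (a n) z)]
    · refine ⟨0, le_rfl, ?_⟩
      intro z hz
      rw [h2 n hn]; simp
  · intro n
    by_cases hn : n ∈ J
    · rw [Set.indicator_of_mem hn]; linarith [ha n hn]
    · rw [Set.indicator_of_notMem hn]

variable {f : ℕ → ℂ → ℂ} {d : ℕ → ℝ}

theorem Sq.mult (h : Sq f d) {z : ℂ} (hz : ‖z‖ < 1) : Multipliable (fun n => f n z) := by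
  have h1 : Summable (fun n => ‖f n z - 1‖) :=
    Summable.of_nonneg_of_le (fun n => norm_nonneg _) (fun n => h.close n z hz)
      (h.summ.mul_right _)
  have := multipliable_one_add_of_summable h1
  refine this.congr fun n => ?_
  ring

theorem Sq.tendsto (h : Sq f d) {z : ℂ} (hz : ‖z‖ < 1) :
    Tendsto (fun N => ∏ n ∈ Finset.range N, f n z) atTop (𝓝 (∏' n, f n z)) :=
  (h.mult hz).tendsto_prod_tprod_nat

theorem Sq.prod_le (h : Sq f d) {z : ℂ} (hz : ‖z‖ < 1) (N : ℕ) :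
    ‖∏ n ∈ Finset.range N, f n z‖ ≤ 1 := by
  rw [norm_prod]
  exact Finset.prod_le_one (fun n _ => norm_nonneg _) (fun n _ => h.le n z hz)

theorem Sq.tprod_le (h : Sq f d) {z : ℂ} (hz : ‖z‖ < 1) : ‖∏' n, f n z‖ ≤ 1 :=
  le_of_tendsto (h.tendsto hz).norm (Eventually.of_forall fun N => h.prod_le hz N)

theorem Sq.prod_sub (h : Sq f d) {z : ℂ} (hz : ‖z‖ < 1) (N M : ℕ) :
    ‖∏ n ∈ Finset.range (N + M), f n z - ∏ n ∈ Finset.range N, f n z‖ ≤
      (∑ n ∈ Finset.range M, d (n + N)) * ((1 + ‖z‖) / (1 - ‖z‖)) := by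
  induction M with
  | zero => simp
  | succ M ih =>
    rw [← add_assoc, Finset.prod_range_succ, Finset.sum_range_succ, add_mul]
    have e : (∏ n ∈ Finset.range (N + M), f n z) * f (N + M) z - ∏ n ∈ Finset.range N, f n z =
      ((∏ n ∈ Finset.range (N + M), f n z) - ∏ n ∈ Finset.range N, f n z) +
        (∏ n ∈ Finset.range (N + M), f n z) * (f (N + M) z - 1) := by ring
    rw [e]
    refine (norm_add_le _ _).trans (add_le_add ih ?_)
    rw [norm_mul]
    calc _ ≤ 1 * ‖f (N + M) z - 1‖ :=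
          mul_le_mul_of_nonneg_right (h.prod_le hz _) (norm_nonneg _)
      _ = ‖f (M + N) z - 1‖ := by rw [one_mul, add_comm]
      _ ≤ _ := h.close _ z hz

theorem Sq.tprod_sub (h : Sq f d) {z : ℂ} (hz : ‖z‖ < 1) (N : ℕ) :
    ‖∏' n, f n z - ∏ n ∈ Finset.range N, f n z‖ ≤
      (∑' n, d (n + N)) * ((1 + ‖z‖) / (1 - ‖z‖)) := by
  have h1 : Tendsto (fun M => ‖∏ n ∈ Finset.range (N + M), f n z - ∏ n ∈ Finset.range N, f n z‖)
      atTop (𝓝 ‖∏' n, f n z - ∏ n ∈ Finset.range N, f n z‖) := by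
    have h2 : Tendsto (fun M => ∏ n ∈ Finset.range (N + M), f n z) atTop
        (𝓝 (∏' n, f n z)) := by
      have h3 := (h.tendsto hz).comp (tendsto_add_atTop_nat N)
      refine h3.congr fun M => ?_
      simp [Function.comp, add_comm]
    exact (h2.sub_const _).norm
  refine le_of_tendsto h1 (Eventually.of_forall fun M => (h.prod_sub hz N M).trans ?_)
  apply mul_le_mul_of_nonneg_right
  · exact ((summable_nat_add_iff N).mpr h.summ).sum_le_tsum _ (fun n _ => h.nn _)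
  · have : 0 < 1 - ‖z‖ := by linarith
    have := norm_nonneg z
    positivity

theorem Sq.prod_hol (h : Sq f d) (N : ℕ) :
    DifferentiableOn ℂ (fun z => ∏ n ∈ Finset.range N, f n z) (ball 0 1) := by
  induction N with
  | zero => simp
  | succ N ih =>
    simp only [Finset.prod_range_succ]
    exact ih.mul (h.hol N)

theorem Sq.tprod_hol (h : Sq f d) : DifferentiableOn ℂ (fun z => ∏' n, f n z) (ball 0 1) := by
  have hlu : TendstoLocallyUniformlyOn (fun N z => ∏ n ∈ Finset.range N, f n z)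
      (fun z => ∏' n, f n z) atTop (ball 0 1) := by
    rw [tendstoLocallyUniformlyOn_iff_forall_isCompact isOpen_ball]
    intro K hK hKc
    rw [Metric.tendstoUniformlyOn_iff]
    intro ε hε
    obtain ⟨r, hr0, hr1, hKr⟩ : ∃ r : ℝ, 0 ≤ r ∧ r < 1 ∧ ∀ z ∈ K, ‖z‖ ≤ r := by
      rcases K.eq_empty_or_nonempty with rfl | hne
      · exact ⟨0, le_rfl, one_pos, by simp⟩
      · obtain ⟨z0, hz0, hmax⟩ := hKc.exists_isMaxOn hne continuous_norm.continuousOn
        refine ⟨‖z0‖, norm_nonneg _, ?_, fun z hz => hmax hz⟩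
        have := hK hz0
        rwa [mem_ball_zero_iff] at this
    have h1 : Tendsto (fun N => (∑' n, d (n + N)) * ((1 + r) / (1 - r))) atTop (𝓝 0) := by
      have := (tendsto_sum_nat_add d).mul_const ((1 + r) / (1 - r))
      rwa [zero_mul] at this
    filter_upwards [h1.eventually (gt_mem_nhds hε)] with N hN z hz
    have hz1 : ‖z‖ < 1 := lt_of_le_of_lt (hKr z hz) hr1
    rw [dist_eq_norm]
    refine lt_of_le_of_lt ((h.tprod_sub hz1 N).trans ?_) hN
    apply mul_le_mul_of_nonneg_left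
    · have := hKr z hz
      apply div_le_div₀ <;> linarith
    · exact tsum_nonneg fun n => h.nn _
  exact hlu.differentiableOn (Eventually.of_forall fun N => h.prod_hol N) isOpen_ball

theorem Sq.prod_zero (h : Sq f d) (N : ℕ) :
    1 - ∑ n ∈ Finset.range N, d n ≤ ‖∏ n ∈ Finset.range N, f n 0‖ := by
  induction N with
  | zero => simp
  | succ N ih =>
    rw [Finset.sum_range_succ, Finset.prod_range_succ, norm_mul]
    have h1 := h.zero N
    have h2 := h.le N 0 (by simp)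
    have h3 := h.prod_le (z := 0) (by simp) N
    have h4 := norm_nonneg (∏ n ∈ Finset.range N, f n 0)
    have h5 := norm_nonneg (f N 0)
    have h6 := h.nn N
    nlinarith

theorem Sq.tprod_zero (h : Sq f d) : 1 - ∑' n, d n ≤ ‖∏' n, f n 0‖ := by
  refine le_of_tendsto_of_tendsto (h.summ.hasSum.tendsto_sum_nat.const_sub 1)
    (h.tendsto (z := 0) (by simp)).norm (Eventually.of_forall fun N => h.prod_zero N)

theorem Sq.prod_bdry (h : Sq f d) (N : ℕ) : ∃ C, 0 ≤ C ∧ ∀ z, ‖z‖ < 1 →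
    1 - ‖∏ n ∈ Finset.range N, f n z‖ ≤ C * (1 - ‖z‖ ^ 2) := by
  induction N with
  | zero => exact ⟨0, le_rfl, by simp⟩
  | succ N ih =>
    obtain ⟨C, hC0, hC⟩ := ih
    obtain ⟨C', hC0', hC'⟩ := h.bdry N
    refine ⟨C + C', by positivity, fun z hz => ?_⟩
    rw [Finset.prod_range_succ, norm_mul]
    have h1 := hC z hz
    have h2 := hC' z hz
    have h3 := h.prod_le hz N
    have h4 := h.le N z hz
    have h5 := norm_nonneg (∏ n ∈ Finset.range N, f n z)
    have h6 := norm_nonneg (f N z)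
    nlinarith

theorem Sq.split (h : Sq f d) {z : ℂ} (hz : ‖z‖ < 1) (N : ℕ) :
    ∏' n, f n z = (∏ n ∈ Finset.range N, f n z) * ∏' n, f (n + N) z :=
  (Multipliable.prod_mul_tprod_nat_mul' (f := fun n => f n z) ((h.shift N).mult hz)).symm

open Real in
/-- The circle averages of `1 - |b|` tend to zero. -/
theorem Sq.average (h : Sq f d) {ε : ℝ} (hε : 0 < ε) : ∃ C, 0 ≤ C ∧ ∀ r, 0 < r → r < 1 →
    circleAverage (fun z => 1 - ‖∏' n, f n z‖) 0 r ≤ C * (1 - r ^ 2) + ε := by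
  obtain ⟨N, hN⟩ : ∃ N, ∑' n, d (n + N) < ε :=
    ((tendsto_sum_nat_add d).eventually (gt_mem_nhds hε)).exists
  obtain ⟨C, hC0, hC⟩ := h.prod_bdry N
  refine ⟨C, hC0, fun r hr0 hr1 => ?_⟩
  have hsub : sphere (0 : ℂ) |r| ⊆ ball 0 1 := by
    intro z hz
    rw [mem_sphere_zero_iff_norm, abs_of_pos hr0] at hz
    rw [mem_ball_zero_iff, hz]; exact hr1
  set T : ℂ → ℂ := fun z => ∏' n, f (n + N) z with hT
  have hTd : DifferentiableOn ℂ T (ball 0 1) := (h.shift N).tprod_hol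
  have hTc : ContinuousOn T (sphere (0 : ℂ) |r|) := hTd.continuousOn.mono hsub
  have hbc : ContinuousOn (fun z => ∏' n, f n z) (sphere (0 : ℂ) |r|) :=
    h.tprod_hol.continuousOn.mono hsub
  have hi1 : CircleIntegrable (fun z => 1 - ‖∏' n, f n z‖) 0 r :=
    (continuousOn_const.sub hbc.norm).circleIntegrable'
  have hi2 : CircleIntegrable (fun z => ‖T z‖) 0 r := hTc.norm.circleIntegrable'
  have hi3 : CircleIntegrable (fun z => (C * (1 - r ^ 2) + 1) - ‖T z‖) 0 r :=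
    (continuousOn_const.sub hTc.norm).circleIntegrable'
  have h1 : circleAverage (fun z => 1 - ‖∏' n, f n z‖) 0 r ≤
      circleAverage (fun z => (C * (1 - r ^ 2) + 1) - ‖T z‖) 0 r := by
    apply circleAverage_mono hi1 hi3
    intro z hz
    have hz1 : ‖z‖ < 1 := by
      have := hsub hz
      rwa [mem_ball_zero_iff] at this
    rw [mem_sphere_zero_iff_norm, abs_of_pos hr0] at hz
    have h2 := hC z hz1
    rw [hz] at h2
    rw [h.split hz1 N, norm_mul]
    have h3 := h.prod_le hz1 N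
    have h4 : ‖T z‖ ≤ 1 := (h.shift N).tprod_le hz1
    have h5 := norm_nonneg (∏ n ∈ Finset.range N, f n z)
    have h6 := norm_nonneg (T z)
    change 1 - _ * ‖T z‖ ≤ _
    nlinarith
  refine h1.trans ?_
  have h2 : circleAverage (fun z => (C * (1 - r ^ 2) + 1) - ‖T z‖) 0 r =
      (C * (1 - r ^ 2) + 1) - circleAverage (fun z => ‖T z‖) 0 r := by
    rw [circleAverage_fun_sub (circleIntegrable_const _ _ _) hi2, circleAverage_const]
  rw [h2]
  have h3 : ‖T 0‖ ≤ circleAverage (fun z => ‖T z‖) 0 r := by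
    have hdc : DiffContOnCl ℂ T (ball 0 |r|) := by
      apply DifferentiableOn.diffContOnCl
      rw [closure_ball _ (abs_pos.mpr hr0.ne').ne']
      apply hTd.mono
      intro z hz
      rw [mem_closedBall_zero_iff, abs_of_pos hr0] at hz
      rw [mem_ball_zero_iff]; linarith
    rw [← hdc.circleAverage, circleAverage_def, circleAverage_def, norm_smul, Real.norm_of_nonneg
      (by positivity), smul_eq_mul]
    apply mul_le_mul_of_nonneg_left _ (by positivity)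
    exact intervalIntegral.norm_integral_le_integral_norm (by positivity)
  have h4 : 1 - ∑' n, d (n + N) ≤ ‖T 0‖ := (h.shift N).tprod_zero
  linarith

theorem IsBlaschke.rep {b : ℂ → ℂ} (hb : IsBlaschke b) : ∃ (J : Set ℕ) (a : ℕ → ℂ) (c : ℂ)
    (d : ℕ → ℝ), ‖c‖ = 1 ∧ (∀ n ∈ J, ‖a n‖ < 1) ∧ Sq (fac J a) d ∧
      ∀ z, ‖z‖ < 1 → b z = c * ∏' n, fac J a n z := by
  obtain ⟨J, a, c, hc, ha, hs, hb⟩ := hb
  refine ⟨J, a, c, _, hc, ha, fac_sq ha hs, fun z hz => ?_⟩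
  rw [hb z hz, tprod_subtype J (fun n => bf (a n) z)]
  rfl

theorem IsBlaschke.le {b : ℂ → ℂ} (hb : IsBlaschke b) {z : ℂ} (hz : ‖z‖ < 1) : ‖b z‖ ≤ 1 := by
  obtain ⟨J, a, c, d, hc, -, hs, hb⟩ := hb.rep
  rw [hb z hz, norm_mul, hc, one_mul]
  exact hs.tprod_le hz

theorem IsBlaschke.hol {b : ℂ → ℂ} (hb : IsBlaschke b) : DifferentiableOn ℂ b (ball 0 1) := by
  obtain ⟨J, a, c, d, hc, -, hs, hb⟩ := hb.rep
  refine (hs.tprod_hol.const_mul c).congr fun z hz => hb z ?_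
  rwa [mem_ball_zero_iff] at hz

theorem IsBlaschke.const_or_zero {b : ℂ → ℂ} (hb : IsBlaschke b) :
    (∃ c : ℂ, ∀ z, ‖z‖ < 1 → b z = c) ∨ ∃ z, ‖z‖ < 1 ∧ b z = 0 := by
  obtain ⟨J, a, c, d, hc, ha, hs, hb⟩ := hb.rep
  rcases J.eq_empty_or_nonempty with rfl | ⟨n, hn⟩
  · left
    refine ⟨c, fun z hz => ?_⟩
    rw [hb z hz]
    simp [fac]
  · right
    refine ⟨a n, ha n hn, ?_⟩
    rw [hb _ (ha n hn)]
    have h1 : ∏' m, fac J a m (a n) = 0 := by
      refine tendsto_nhds_unique (hs.tendsto (ha n hn)) ?_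
      apply tendsto_const_nhds.congr'
      filter_upwards [eventually_gt_atTop n] with N hN
      symm
      apply Finset.prod_eq_zero (Finset.mem_range.mpr hN)
      simp [fac, hn, bf_self]
    rw [h1, mul_zero]

open Real in
theorem IsBlaschke.average {b : ℂ → ℂ} (hb : IsBlaschke b) {ε : ℝ} (hε : 0 < ε) :
    ∃ C, 0 ≤ C ∧ ∀ r, 0 < r → r < 1 →
      circleAverage (fun z => 1 - ‖b z‖) 0 r ≤ C * (1 - r ^ 2) + ε := by
  obtain ⟨J, a, c, d, hc, ha, hs, hb⟩ := hb.rep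
  obtain ⟨C, hC0, hC⟩ := hs.average hε
  refine ⟨C, hC0, fun r hr0 hr1 => ?_⟩
  refine le_trans (le_of_eq ?_) (hC r hr0 hr1)
  apply circleAverage_congr_sphere
  intro z hz
  rw [mem_sphere_zero_iff_norm, abs_of_pos hr0] at hz
  have hz1 : ‖z‖ < 1 := by rw [hz]; exact hr1
  simp only
  rw [hb z hz1, norm_mul, hc, one_mul]

end Pool.Agent.H299R3.QP
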