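import Mathlib

/-!
Definitions for quasi-proper maps of two-sheeted coverings of the disc.
-/

set_option autoImplicit false

open scoped Manifold ContDiff
open Filter Topology

namespace Pool.Agent.H299R3.QP

/-- The Blaschke factor of the unit disc with zero `a`. -/
noncomputable def bf (a z : ℂ) : ℂ :=
  if a = 0 then z else ((‖a‖ : ℂ) / a) * ((a - z) / (1 - (starRingEnd ℂ) a * z))

/-- Finite or infinite Blaschke products on the unit disc (a unimodular constant factor is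
allowed): `J` is the index set of the zeros `a n`, `n ∈ J`, and `∑ (1 - |a n|) < ∞`. -/
def IsBlaschke (b : ℂ → ℂ) : Prop :=
  ∃ (J : Set ℕ) (a : ℕ → ℂ) (c : ℂ), ‖c‖ = 1 ∧ (∀ n ∈ J, ‖a n‖ < 1) ∧
    Summable (fun n : J => 1 - ‖a n‖) ∧ ∀ z, ‖z‖ < 1 → b z = c * ∏' n : J, bf (a n) z

/-- Inner functions on the unit disc. -/
def IsInner (u : ℂ → ℂ) : Prop :=
  DifferentiableOn ℂ u (Metric.ball 0 1) ∧ (∀ z, ‖z‖ < 1 → ‖u z‖ ≤ 1) ∧
    ∀ᵐ t : ℝ, Tendsto (fun r : ℝ => ‖u (r * Complex.exp (t * Complex.I))‖) (𝓝[<] 1) (𝓝 1)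

section
variable {X : Type} [TopologicalSpace X] [ChartedSpace ℂ X]

/-- Quasi-proper maps `θ : X → 𝔻`. -/
def QuasiProper (θ : X → ℂ) : Prop :=
  MDifferentiable 𝓘(ℂ) 𝓘(ℂ) θ ∧ (∀ x, ‖θ x‖ < 1) ∧
    ∀ f : X → ℂ, MDifferentiable 𝓘(ℂ) 𝓘(ℂ) f → ⨆ x, ‖f x‖ₑ = ⨆ x, ‖θ x * f x‖ₑ

/-- The order of vanishing of `φ` at `p`, computed in the preferred chart. -/
noncomputable def ordAt (φ : X → ℂ) (p : X) : ℕ∞ :=
  analyticOrderAt (fun w : ℂ => φ ((chartAt ℂ p).symm w)) (chartAt ℂ p p)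

/-- `φ` has exactly two zeros, counted with multiplicity. -/
def TwoZeros (φ : X → ℂ) : Prop :=
  (∃ p, ordAt φ p = 2 ∧ ∀ x, φ x = 0 → x = p) ∨
    (∃ p q, p ≠ q ∧ ordAt φ p = 1 ∧ ordAt φ q = 1 ∧ ∀ x, φ x = 0 → x = p ∨ x = q)

/-- The set of points where `dφ` vanishes. -/
def branch (φ : X → ℂ) : Set X := {x | mfderiv 𝓘(ℂ) 𝓘(ℂ) φ x = 0}

/-- The situation of the problem: `φ : X → 𝔻` is a proper holomorphic map with exactly two zeros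
and infinitely many branch points, `σ` is the sheet interchange, `B` is the Blaschke product with
simple zeros exactly at the branch values, and `ϑ ^ 2 = B ∘ φ`, `ϑ ∘ σ = -ϑ`. -/
structure Setup (φ : X → ℂ) (σ : X → X) (B : ℂ → ℂ) (ϑ : X → ℂ) : Prop where
  hol : MDifferentiable 𝓘(ℂ) 𝓘(ℂ) φ
  disc : ∀ x, ‖φ x‖ < 1
  proper : ∀ E : Set ℂ, IsCompact E → E ⊆ Metric.ball 0 1 → IsCompact (φ ⁻¹' E)
  two : TwoZeros φ
  inf : (branch φ).Infinite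
  sigma_hol : MDifferentiable 𝓘(ℂ) 𝓘(ℂ) σ
  sigma_sigma : ∀ x, σ (σ x) = x
  phi_sigma : ∀ x, φ (σ x) = φ x
  sigma_ne : σ ≠ id
  summ : Summable (fun x : branch φ => 1 - ‖φ x‖)
  blaschke : IsBlaschke B
  zeros : ∀ z, ‖z‖ < 1 → (B z = 0 ↔ ∃ x ∈ branch φ, φ x = z)
  simple : ∀ z, ‖z‖ < 1 → B z = 0 → deriv B z ≠ 0
  theta_hol : MDifferentiable 𝓘(ℂ) 𝓘(ℂ) ϑ
  theta_sq : ∀ x, ϑ x ^ 2 = B (φ x)
  theta_sigma : ∀ x, ϑ (σ x) = -ϑ x

/-- The class `𝓛` of the problem: (i) `b ∘ φ` with `b` a Blaschke product; (ii) `ϑ`;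
(iii) `b ∘ ((u ∘ φ) ϑ)` with `b` a Blaschke product, `u` inner and `b^* (u ^ 2 B)` a Blaschke
product, where `b^*` is determined up to a unimodular constant by
`b^* (w ^ 2) = c b(w) b(-w)`. -/
def MemL (φ : X → ℂ) (B : ℂ → ℂ) (ϑ : X → ℂ) (G : X → ℂ) : Prop :=
  (∃ b, IsBlaschke b ∧ G = fun x => b (φ x)) ∨ G = ϑ ∨
    (∃ (b u bs : ℂ → ℂ) (c : ℂ), IsBlaschke b ∧ IsInner u ∧ ‖c‖ = 1 ∧
      (∀ w, ‖w‖ < 1 → bs (w ^ 2) = c * (b w * b (-w))) ∧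
      IsBlaschke (fun z => bs (u z ^ 2 * B z)) ∧ G = fun x => b (u (φ x) * ϑ x))

/-- `θ` is a (finite or infinite, pointwise convergent) product of members of `𝓛`; the constant
function `1` belongs to `𝓛`, so finite products are included. -/
def IsProductOfL (φ : X → ℂ) (B : ℂ → ℂ) (ϑ : X → ℂ) (θ : X → ℂ) : Prop :=
  ∃ G : ℕ → X → ℂ, (∀ n, MemL φ B ϑ (G n)) ∧
    ∀ x, Tendsto (fun N => ∏ n ∈ Finset.range N, G n x) atTop (𝓝 (θ x))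

end

end Pool.Agent.H299R3.QP
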