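import Pool.Agent.H299R3.QPAvg

/-!
Existence of a good parameter.
-/

set_option autoImplicit false

open Filter Topology Metric Real MeasureTheory

namespace Pool.Agent.H299R3.QP

theorem lint_circle {f : ℂ → ℝ} {r : ℝ} (hf : CircleIntegrable f 0 r)
    (h0 : ∀ z ∈ sphere (0 : ℂ) |r|, 0 ≤ f z) :
    ∫⁻ θ in Set.Ioc 0 (2 * π), ENNReal.ofReal (f (circleMap 0 r θ)) =
      ENNReal.ofReal (2 * π * circleAverage f 0 r) := by
  have hpi : (0 : ℝ) < 2 * π := by positivity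
  have h1 : 2 * π * circleAverage f 0 r = ∫ θ in Set.Ioc 0 (2 * π), f (circleMap 0 r θ) := by
    rw [circleAverage_def, smul_eq_mul, ← mul_assoc, mul_inv_cancel₀ hpi.ne', one_mul,
      intervalIntegral.integral_of_le hpi.le]
  rw [h1, ofReal_integral_eq_lintegral_ofReal]
  · exact hf.1
  · exact Eventually.of_forall fun θ => h0 _ (circleMap_mem_sphere' 0 r θ)

theorem exists_radius {B : ℂ → ℂ} (hB : IsBlaschke B) {ε : ℝ} (hε : 0 < ε) :
    ∃ r, 0 < r ∧ r < 1 ∧
      4 * ((1 - r ^ 2) + 5 / 3 * circleAverage (fun z => 1 - ‖B z‖) 0 r) ≤ ε := by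
  obtain ⟨C, hC0, hC⟩ := hB.average (ε := 3 * ε / 40) (by positivity)
  have h1 : Tendsto (fun r : ℝ => (4 + 20 * C / 3) * (1 - r ^ 2)) (𝓝[<] 1) (𝓝 0) := by
    have h2 : Tendsto (fun r : ℝ => (4 + 20 * C / 3) * (1 - r ^ 2)) (𝓝 1)
        (𝓝 ((4 + 20 * C / 3) * (1 - 1 ^ 2))) := by
      apply Continuous.tendsto
      fun_prop
    have h3 : (4 + 20 * C / 3) * (1 - (1 : ℝ) ^ 2) = 0 := by ring
    rw [h3] at h2
    exact h2.mono_left nhdsWithin_le_nhds
  have h4 : ∀ᶠ r : ℝ in 𝓝[<] 1, (4 + 20 * C / 3) * (1 - r ^ 2) < ε / 2 :=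
    h1.eventually (gt_mem_nhds (by positivity))
  have h5 : ∀ᶠ r : ℝ in 𝓝[<] 1, 0 < r :=
    nhdsWithin_le_nhds (lt_mem_nhds one_pos)
  obtain ⟨r, hr1, hr2, hr3⟩ := (h4.and (h5.and self_mem_nhdsWithin)).exists
  refine ⟨r, hr2, hr3, ?_⟩
  have h6 := hC r hr2 hr3
  nlinarith

theorem measurable_h {B : ℂ → ℂ} (hB : IsBlaschke B) {r : ℝ} (hr0 : 0 < r) (hr1 : r < 1) :
    Measurable (fun p : ℝ × ℝ => ENNReal.ofReal (-Real.log ‖Nf (circleMap 0 1 p.1)
      (circleMap 0 r p.2) (B (circleMap 0 r p.2))‖)) := by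
  have hc : Continuous (fun t : ℝ => B (circleMap 0 r t)) := by
    apply hB.hol.continuousOn.comp_continuous (continuous_circleMap 0 r)
    intro t
    rw [mem_ball_zero_iff]
    simpa [abs_of_pos hr0] using hr1
  have hm : Measurable (fun t : ℝ => B (circleMap 0 r t)) := hc.measurable
  have h1 : Measurable (fun t : ℝ => circleMap 0 1 t) := (continuous_circleMap 0 1).measurable
  have h2 : Measurable (fun t : ℝ => circleMap 0 r t) := (continuous_circleMap 0 r).measurable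
  have h1' : Measurable (fun p : ℝ × ℝ => circleMap 0 1 p.1) := h1.comp measurable_fst
  have h2' : Measurable (fun p : ℝ × ℝ => circleMap 0 r p.2) := h2.comp measurable_snd
  have hm' : Measurable (fun p : ℝ × ℝ => B (circleMap 0 r p.2)) := hm.comp measurable_snd
  unfold Nf
  apply ENNReal.measurable_ofReal.comp
  apply Measurable.neg
  apply Real.measurable_log.comp
  apply Measurable.norm
  have hx := h1'.mul h2'
  exact (((measurable_const.sub (measurable_const.mul hx)).pow_const 2).sub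
    (hm'.mul ((measurable_const.sub hx).pow_const 2))).div
    (((measurable_const.sub (measurable_const.mul hx)).pow_const 2).sub
    (hm'.mul ((measurable_const.sub (measurable_const.mul hx)).pow_const 2)))

theorem circle_norm_lt {r : ℝ} (hr0 : 0 < r) (hr1 : r < 1) (t : ℝ) : ‖circleMap 0 r t‖ < 1 := by
  simpa [abs_of_pos hr0] using hr1

theorem double {B : ℂ → ℂ} (hB : IsBlaschke B) (hB1 : ∀ z, ‖z‖ < 1 → ‖B z‖ < 1) {r : ℝ}
    (hr0 : 0 < r) (hr1 : r < 1) :
    ∫⁻ s in Set.Ioc 0 (2 * π), ∫⁻ t in Set.Ioc 0 (2 * π),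
      ENNReal.ofReal (-Real.log ‖Nf (circleMap 0 1 s) (circleMap 0 r t) (B (circleMap 0 r t))‖) ≤
      ENNReal.ofReal (2 * π * (2 * π *
        (4 * ((1 - r ^ 2) + 5 / 3 * circleAverage (fun z => 1 - ‖B z‖) 0 r)))) := by
  have hpi : (0 : ℝ) < 2 * π := by positivity
  rw [lintegral_lintegral_swap (measurable_h hB hr0 hr1).aemeasurable]
  have hsub : sphere (0 : ℂ) |r| ⊆ ball 0 1 := by
    intro z hz
    rw [mem_sphere_zero_iff_norm, abs_of_pos hr0] at hz
    rw [mem_ball_zero_iff, hz]; exact hr1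
  have hBc : ContinuousOn B (sphere (0 : ℂ) |r|) := hB.hol.continuousOn.mono hsub
  have h1 : ∀ t : ℝ, ∫⁻ s in Set.Ioc 0 (2 * π),
      ENNReal.ofReal (-Real.log ‖Nf (circleMap 0 1 s) (circleMap 0 r t) (B (circleMap 0 r t))‖) ≤
      ENNReal.ofReal (2 * π * (4 * ((1 - r ^ 2) + 5 / 3 * (1 - ‖B (circleMap 0 r t)‖)))) := by
    intro t
    have hz := circle_norm_lt hr0 hr1 t
    rw [lint_circle (f := fun μ => -Real.log ‖Nf μ (circleMap 0 r t) (B (circleMap 0 r t))‖)
      (r := 1) (Nf_circle_integrable _ _)]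
    · apply ENNReal.ofReal_le_ofReal
      apply mul_le_mul_of_nonneg_left _ hpi.le
      have h2 := avg_Nf hz (hB1 _ hz)
      have h3 : ‖circleMap 0 r t‖ = r := by simp [abs_of_pos hr0]
      rwa [h3] at h2
    · intro μ hμ
      rw [mem_sphere_zero_iff_norm, abs_one] at hμ
      have := Nf_lt hμ hz (hB1 _ hz)
      exact neg_nonneg.mpr (Real.log_nonpos (norm_nonneg _) this.le)
  refine (lintegral_mono h1).trans (le_of_eq ?_)
  have hi0 : CircleIntegrable (fun z => ‖B z‖) 0 r := hBc.norm.circleIntegrable'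
  have hi1 : CircleIntegrable (fun z => 1 - ‖B z‖) 0 r :=
    (continuousOn_const.sub hBc.norm).circleIntegrable'
  have hcont : ContinuousOn
      (fun z => 2 * π * (4 * ((1 - r ^ 2) + 5 / 3 * (1 - ‖B z‖)))) (sphere (0 : ℂ) |r|) :=
    continuousOn_const.mul (continuousOn_const.mul (continuousOn_const.add
      (continuousOn_const.mul (continuousOn_const.sub hBc.norm))))
  have hi2 : CircleIntegrable (fun z => 2 * π * (4 * ((1 - r ^ 2) + 5 / 3 * (1 - ‖B z‖)))) 0 r :=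
    hcont.circleIntegrable'
  rw [lint_circle (f := fun z => 2 * π * (4 * ((1 - r ^ 2) + 5 / 3 * (1 - ‖B z‖)))) hi2]
  · congr 2
    have e1 : (fun z => 2 * π * (4 * ((1 - r ^ 2) + 5 / 3 * (1 - ‖B z‖)))) =
        fun z => (2 * π * 4 * (1 - r ^ 2)) + (2 * π * 4 * (5 / 3)) • (1 - ‖B z‖) := by
      funext z; rw [smul_eq_mul]; ring
    have hc3 : ContinuousOn (fun z => (2 * π * 4 * (5 / 3)) • (1 - ‖B z‖)) (sphere (0 : ℂ) |r|) :=
      (continuousOn_const.mul (continuousOn_const.sub hBc.norm) :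
        ContinuousOn (fun z => (2 * π * 4 * (5 / 3)) * (1 - ‖B z‖)) (sphere (0 : ℂ) |r|))
    have hi3 : CircleIntegrable (fun z => (2 * π * 4 * (5 / 3)) • (1 - ‖B z‖)) 0 r :=
      hc3.circleIntegrable'
    rw [e1, circleAverage_fun_add (circleIntegrable_const _ _ _) hi3, circleAverage_const,
      circleAverage_fun_smul, smul_eq_mul]
    ring
  · intro z hz
    have h3 := hB1 z (by simpa using hsub hz)
    have h4 : 0 < 1 - r ^ 2 := by nlinarith
    have h5 : 0 < 1 - ‖B z‖ := by linarith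
    positivity

/-- For a suitable unimodular parameter, the circle averages of `log |N|` come arbitrarily close
to zero. -/
theorem exists_mu {B : ℂ → ℂ} (hB : IsBlaschke B) (hB1 : ∀ z, ‖z‖ < 1 → ‖B z‖ < 1) :
    ∃ μ : ℂ, ‖μ‖ = 1 ∧ ∀ ε > 0, ∃ r, 0 < r ∧ r < 1 ∧
      circleAverage (fun z => -Real.log ‖Nf μ z (B z)‖) 0 r ≤ ε := by
  have hpi : (0 : ℝ) < 2 * π := by positivity
  have h1 : ∀ n : ℕ, ∃ r, 0 < r ∧ r < 1 ∧
      4 * ((1 - r ^ 2) + 5 / 3 * circleAverage (fun z => 1 - ‖B z‖) 0 r) ≤ (1 / 2 : ℝ) ^ n :=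
    fun n => exists_radius hB (by positivity)
  choose r hr0 hr1 hr using h1
  set G : ℕ → ℝ → ENNReal := fun n s => ∫⁻ t in Set.Ioc 0 (2 * π),
      ENNReal.ofReal (-Real.log ‖Nf (circleMap 0 1 s) (circleMap 0 (r n) t)
        (B (circleMap 0 (r n) t))‖) with hG
  have hGm : ∀ n, Measurable (G n) := by
    intro n
    exact (measurable_h hB (hr0 n) (hr1 n)).lintegral_prod_right'
  have h2 : ∀ n, ∫⁻ s in Set.Ioc 0 (2 * π), G n s ≤
      ENNReal.ofReal (2 * π * (2 * π * (1 / 2 : ℝ) ^ n)) := by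
    intro n
    refine (double hB hB1 (hr0 n) (hr1 n)).trans (ENNReal.ofReal_le_ofReal ?_)
    have := hr n
    gcongr
  have h3 : ∑' n, ∫⁻ s in Set.Ioc 0 (2 * π), G n s ≠ ⊤ := by
    have h4 : ∑' n : ℕ, ENNReal.ofReal (2 * π * (2 * π * (1 / 2 : ℝ) ^ n)) ≠ ⊤ := by
      have hs : Summable (fun n : ℕ => 2 * π * (2 * π * (1 / 2 : ℝ) ^ n)) :=
        (summable_geometric_two.mul_left _).mul_left _
      rw [← ENNReal.ofReal_tsum_of_nonneg (fun n => by positivity) hs]
      exact ENNReal.ofReal_ne_top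
    exact ne_top_of_le_ne_top h4 (ENNReal.tsum_le_tsum h2)
  rw [← lintegral_tsum (fun n => (hGm n).aemeasurable)] at h3
  have h4 : ∀ᵐ s ∂(volume.restrict (Set.Ioc 0 (2 * π))), ∑' n, G n s < ⊤ :=
    ae_lt_top (Measurable.ennreal_tsum hGm) h3
  have hne : (ae (volume.restrict (Set.Ioc (0 : ℝ) (2 * π)))).NeBot := by
    rw [ae_neBot]
    intro h0
    have h5 := Measure.restrict_eq_zero.mp h0
    rw [Real.volume_Ioc, sub_zero] at h5
    exact absurd (ENNReal.ofReal_eq_zero.mp h5) (not_le.mpr hpi)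
  obtain ⟨s, hs⟩ := h4.exists
  have h5 : Tendsto (fun n => G n s) atTop (𝓝 0) := ENNReal.tendsto_atTop_zero_of_tsum_ne_top hs.ne
  refine ⟨circleMap 0 1 s, by simp, fun ε hε => ?_⟩
  have h6 : ∀ᶠ n in atTop, G n s < ENNReal.ofReal (2 * π * ε) :=
    h5.eventually (gt_mem_nhds (ENNReal.ofReal_pos.mpr (by positivity)))
  obtain ⟨n, hn⟩ := h6.exists
  refine ⟨r n, hr0 n, hr1 n, ?_⟩
  have hμ : ‖circleMap 0 1 s‖ = 1 := by simp
  have hsub : sphere (0 : ℂ) |r n| ⊆ ball 0 1 := by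
    intro z hz
    rw [mem_sphere_zero_iff_norm, abs_of_pos (hr0 n)] at hz
    rw [mem_ball_zero_iff, hz]; exact hr1 n
  have hBa : AnalyticOnNhd ℂ B (ball 0 1) := hB.hol.analyticOnNhd isOpen_ball
  have hi : CircleIntegrable (fun z => -Real.log ‖Nf (circleMap 0 1 s) z (B z)‖) 0 (r n) := by
    apply CircleIntegrable.neg
    apply MeromorphicOn.circleIntegrable_log_norm
    intro z hz
    have hBz : MeromorphicAt B z := (hBa z (hsub hz)).meromorphicAt
    unfold Nf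
    fun_prop
  have h7 : G n s = ENNReal.ofReal (2 * π *
      circleAverage (fun z => -Real.log ‖Nf (circleMap 0 1 s) z (B z)‖) 0 (r n)) := by
    apply lint_circle hi
    intro z hz
    have hz1 : ‖z‖ < 1 := by simpa using hsub hz
    exact neg_nonneg.mpr (Real.log_nonpos (norm_nonneg _) (Nf_lt hμ hz1 (hB1 _ hz1)).le)
  rw [h7] at hn
  have h8 := (ENNReal.ofReal_lt_ofReal_iff (by positivity)).mp hn
  exact (lt_of_mul_lt_mul_left h8 hpi.le).le

end Pool.Agent.H299R3.QP
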