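import Pool.Agent.H299R3.QPEx

/-!
Division by finitely many zeros, and a form of the Schwarz-Pick estimate.
-/

set_option autoImplicit false

open Filter Topology Metric Real MeasureTheory

namespace Pool.Agent.H299R3.QP

theorem div_disc {b S : ℂ → ℂ} (hS : DifferentiableOn ℂ S (ball 0 1)) {M C : ℝ}
    (hC : 0 ≤ C) (h : ∀ z, ‖z‖ < 1 → ‖b z * S z‖ ≤ M)
    (hb : ∀ z, ‖z‖ < 1 → 1 - ‖b z‖ ≤ C * (1 - ‖z‖ ^ 2)) {z : ℂ} (hz : ‖z‖ < 1) : ‖S z‖ ≤ M := by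
  have h1 : ∀ r : ℝ, ‖z‖ < r → r < 1 → 0 < 1 - C * (1 - r ^ 2) →
      (1 - C * (1 - r ^ 2)) * ‖S z‖ ≤ M := by
    intro r hr hr1 hpos
    have hr0 : 0 < r := lt_of_le_of_lt (norm_nonneg _) hr
    have hdc : DiffContOnCl ℂ S (ball 0 r) := by
      apply DifferentiableOn.diffContOnCl
      rw [closure_ball _ hr0.ne']
      apply hS.mono
      intro x hx
      rw [mem_closedBall_zero_iff] at hx
      rw [mem_ball_zero_iff]; linarith
    have h2 : ‖S z‖ ≤ M / (1 - C * (1 - r ^ 2)) := by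
      apply Complex.norm_le_of_forall_mem_frontier_norm_le isBounded_ball hdc
      · intro x hx
        rw [frontier_ball _ hr0.ne', mem_sphere_zero_iff_norm] at hx
        have hx1 : ‖x‖ < 1 := by rw [hx]; exact hr1
        have h3 := h x hx1
        have h4 := hb x hx1
        rw [norm_mul] at h3
        rw [hx] at h4
        rw [le_div_iff₀ hpos]
        nlinarith [norm_nonneg (S x)]
      · rw [closure_ball _ hr0.ne', mem_closedBall_zero_iff]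
        exact hr.le
    rw [le_div_iff₀ hpos] at h2
    linarith
  have h2 : Tendsto (fun r : ℝ => (1 - C * (1 - r ^ 2)) * ‖S z‖) (𝓝[<] 1) (𝓝 ‖S z‖) := by
    have h3 : Tendsto (fun r : ℝ => (1 - C * (1 - r ^ 2)) * ‖S z‖) (𝓝 1)
        (𝓝 ((1 - C * (1 - 1 ^ 2)) * ‖S z‖)) := by
      apply Continuous.tendsto
      fun_prop
    have h4 : (1 - C * (1 - (1 : ℝ) ^ 2)) * ‖S z‖ = ‖S z‖ := by ring
    rw [h4] at h3
    exact h3.mono_left nhdsWithin_le_nhds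
  refine le_of_tendsto h2 ?_
  have h5 : ∀ᶠ r : ℝ in 𝓝[<] 1, ‖z‖ < r := nhdsWithin_le_nhds (lt_mem_nhds hz)
  have h6 : ∀ᶠ r : ℝ in 𝓝[<] 1, 0 < 1 - C * (1 - r ^ 2) := by
    have h7 : Tendsto (fun r : ℝ => 1 - C * (1 - r ^ 2)) (𝓝 1) (𝓝 (1 - C * (1 - 1 ^ 2))) := by
      apply Continuous.tendsto
      fun_prop
    have h8 : 1 - C * (1 - (1 : ℝ) ^ 2) = 1 := by ring
    rw [h8] at h7
    exact nhdsWithin_le_nhds (h7.eventually (lt_mem_nhds one_pos))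
  filter_upwards [h5, h6, self_mem_nhdsWithin] with r hr1 hr2 hr3
  exact h1 r hr1 hr3 hr2

/-- The quotient by a Blaschke factor. -/
noncomputable def quo (N : ℂ → ℂ) (a z : ℂ) : ℂ := -(1 - (starRingEnd ℂ) a * z) * dslope N a z

theorem quo_hol {N : ℂ → ℂ} (hN : DifferentiableOn ℂ N (ball 0 1)) {a : ℂ} (ha : ‖a‖ < 1) :
    DifferentiableOn ℂ (quo N a) (ball 0 1) := by
  have h1 : DifferentiableOn ℂ (dslope N a) (ball 0 1) :=
    (Complex.differentiableOn_dslope (isOpen_ball.mem_nhds (by simpa using ha))).mpr hN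
  unfold quo
  fun_prop

theorem quo_mul {N : ℂ → ℂ} {a z : ℂ} (ha : ‖a‖ < 1) (hz : ‖z‖ < 1) (hNa : N a = 0) :
    N z = mo a z * quo N a z := by
  have h1 : (z - a) * dslope N a z = N z := by
    have := sub_smul_dslope N a z
    rwa [hNa, sub_zero, smul_eq_mul] at this
  have h2 := den_ne ha hz
  rw [mo, quo, ← h1, div_mul_eq_mul_div, eq_div_iff h2]
  ring

theorem mo_bdry {a : ℂ} (ha : ‖a‖ < 1) {z : ℂ} (hz : ‖z‖ < 1) :
    1 - ‖mo a z‖ ≤ (1 + ‖a‖) / (1 - ‖a‖) * (1 - ‖z‖ ^ 2) := by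
  refine le_trans ?_ (mo_upper ha hz)
  have := mo_norm_lt ha hz
  nlinarith [norm_nonneg (mo a z)]

theorem mo_C {a : ℂ} (ha : ‖a‖ < 1) : 0 ≤ (1 + ‖a‖) / (1 - ‖a‖) := by
  have := norm_nonneg a
  apply div_nonneg <;> linarith

theorem quo_le {N : ℂ → ℂ} (hN : DifferentiableOn ℂ N (ball 0 1))
    (hN1 : ∀ z, ‖z‖ < 1 → ‖N z‖ ≤ 1) {a : ℂ} (ha : ‖a‖ < 1) (hNa : N a = 0) {z : ℂ}
    (hz : ‖z‖ < 1) : ‖quo N a z‖ ≤ 1 :=
  div_disc (b := mo a) (quo_hol hN ha) (mo_C ha)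
    (fun z hz => by rw [← quo_mul ha hz hNa]; exact hN1 z hz) (fun z hz => mo_bdry ha hz) hz

theorem log_integrable {N : ℂ → ℂ} (hN : DifferentiableOn ℂ N (ball 0 1)) {r : ℝ} (hr0 : 0 < r)
    (hr1 : r < 1) : CircleIntegrable (fun z => Real.log ‖N z‖) 0 r := by
  apply MeromorphicOn.circleIntegrable_log_norm
  intro z hz
  have : z ∈ ball (0 : ℂ) 1 := by
    rw [mem_sphere_zero_iff_norm, abs_of_pos hr0] at hz
    rw [mem_ball_zero_iff, hz]; exact hr1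
  exact ((hN.analyticOnNhd isOpen_ball) z this).meromorphicAt

theorem mo_ne {a z : ℂ} (ha : ‖a‖ < 1) (hz : ‖z‖ < 1) (h : z ≠ a) : mo a z ≠ 0 :=
  div_ne_zero (sub_ne_zero.mpr (Ne.symm h)) (den_ne ha hz)

theorem log_quo {N : ℂ → ℂ} (hN : DifferentiableOn ℂ N (ball 0 1)) {a : ℂ} (ha : ‖a‖ < 1)
    (hNa : N a = 0) {r : ℝ} (hr0 : 0 < r) (hr1 : r < 1) :
    circleAverage (fun z => Real.log ‖N z‖) 0 r ≤
      circleAverage (fun z => Real.log ‖quo N a z‖) 0 r := by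
  apply avg_le_off_point hr0.ne' (log_integrable hN hr0 hr1)
    (log_integrable (quo_hol hN ha) hr0 hr1) a
  intro z hz hza
  rw [mem_sphere_zero_iff_norm, abs_of_pos hr0] at hz
  have hz1 : ‖z‖ < 1 := by rw [hz]; exact hr1
  rw [quo_mul ha hz1 hNa, norm_mul]
  by_cases h0 : quo N a z = 0
  · rw [h0]; simp
  · rw [Real.log_mul (norm_ne_zero_iff.mpr (mo_ne ha hz1 hza)) (norm_ne_zero_iff.mpr h0)]
    have := Real.log_nonpos (norm_nonneg _) (mo_norm_lt ha hz1).le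
    linarith

theorem extract {r : ℝ} (hr0 : 0 < r) (hr1 : r < 1) (k : ℕ) : ∀ N : ℂ → ℂ,
    DifferentiableOn ℂ N (ball 0 1) → (∀ z, ‖z‖ < 1 → ‖N z‖ ≤ 1) → N 0 ≠ 0 → r ^ k ≤ ‖N 0‖ →
    ∃ (b S : ℂ → ℂ) (C : ℝ), DifferentiableOn ℂ b (ball 0 1) ∧ DifferentiableOn ℂ S (ball 0 1) ∧
      (∀ z, ‖z‖ < 1 → N z = b z * S z) ∧ (∀ z, ‖z‖ < 1 → ‖b z‖ ≤ 1) ∧
      (∀ z, ‖z‖ < 1 → ‖S z‖ ≤ 1) ∧ 0 ≤ C ∧
      (∀ z, ‖z‖ < 1 → 1 - ‖b z‖ ≤ C * (1 - ‖z‖ ^ 2)) ∧ S 0 ≠ 0 ∧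
      circleAverage (fun z => Real.log ‖N z‖) 0 r ≤ Real.log ‖S 0‖ := by
  induction k with
  | zero =>
    intro N hN hN1 hN0 hk
    refine ⟨fun _ => 1, N, 0, differentiableOn_const _, hN, by simp, by simp, hN1, le_rfl,
      by simp, hN0, ?_⟩
    rw [pow_zero] at hk
    have h1 : ‖N 0‖ = 1 := le_antisymm (hN1 0 (by simp)) hk
    rw [h1, Real.log_one]
    have h2 : circleAverage (fun z => Real.log ‖N z‖) 0 r ≤
        circleAverage (fun _ => (0 : ℝ)) 0 r := by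
      apply circleAverage_mono (log_integrable hN hr0 hr1) (circleIntegrable_const _ _ _)
      intro z hz
      rw [mem_sphere_zero_iff_norm, abs_of_pos hr0] at hz
      exact Real.log_nonpos (norm_nonneg _) (hN1 z (by rw [hz]; exact hr1))
    rwa [circleAverage_const] at h2
  | succ k ih =>
    intro N hN hN1 hN0 hk
    by_cases hz : ∃ a, ‖a‖ ≤ r ∧ N a = 0
    · obtain ⟨a, har, hNa⟩ := hz
      have ha : ‖a‖ < 1 := lt_of_le_of_lt har hr1
      have e0 := quo_mul (z := 0) ha (by simp) hNa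
      have hm0 : mo a 0 = a := by simp [mo]
      rw [hm0] at e0
      have hq0 : quo N a 0 ≠ 0 := by
        intro h0
        rw [h0, mul_zero] at e0
        exact hN0 e0
      have hk' : r ^ k ≤ ‖quo N a 0‖ := by
        rw [e0, norm_mul, pow_succ] at hk
        have h1 : ‖a‖ * ‖quo N a 0‖ ≤ r * ‖quo N a 0‖ :=
          mul_le_mul_of_nonneg_right har (norm_nonneg _)
        have h2 : r * r ^ k ≤ r * ‖quo N a 0‖ := by linarith
        exact le_of_mul_le_mul_left h2 hr0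
      obtain ⟨b, S, C, hb, hS, hbS, hb1, hS1, hC0, hC, hS0, hlog⟩ :=
        ih (quo N a) (quo_hol hN ha) (fun z hz => quo_le hN hN1 ha hNa hz) hq0 hk'
      refine ⟨fun z => mo a z * b z, S, (1 + ‖a‖) / (1 - ‖a‖) + C,
        (mo_differentiableOn ha).mul hb, hS, ?_, ?_, hS1, add_nonneg (mo_C ha) hC0, ?_, hS0,
        (log_quo hN ha hNa hr0 hr1).trans hlog⟩
      · intro z hz
        rw [quo_mul ha hz hNa, hbS z hz, mul_assoc]
      · intro z hz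
        rw [norm_mul]
        exact mul_le_one₀ (mo_norm_lt ha hz).le (norm_nonneg _) (hb1 z hz)
      · intro z hz
        rw [norm_mul, add_mul]
        have h1 := mo_bdry ha hz
        have h2 := hC z hz
        have h3 := mo_norm_lt ha hz
        have h4 := hb1 z hz
        have h5 := norm_nonneg (mo a z)
        have h6 := norm_nonneg (b z)
        nlinarith
    · push Not at hz
      refine ⟨fun _ => 1, N, 0, differentiableOn_const _, hN, by simp, by simp, hN1, le_rfl,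
        by simp, hN0, ?_⟩
      rw [AnalyticOnNhd.circleAverage_log_norm_of_ne_zero]
      · intro z hz'
        rw [mem_closedBall_zero_iff, abs_of_pos hr0] at hz'
        exact (hN.analyticOnNhd isOpen_ball) z (by rw [mem_ball_zero_iff]; linarith)
      · intro z hz'
        rw [mem_closedBall_zero_iff, abs_of_pos hr0] at hz'
        exact hz z hz'

theorem const_of_norm_one {S : ℂ → ℂ} (hS : DifferentiableOn ℂ S (ball 0 1))
    (hS1 : ∀ z, ‖z‖ < 1 → ‖S z‖ ≤ 1) {z0 : ℂ} (hz0 : ‖z0‖ < 1) (h : ‖S z0‖ = 1) {z : ℂ}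
    (hz : ‖z‖ < 1) : ‖S z‖ = 1 := by
  have h1 := Complex.norm_eqOn_of_isPreconnected_of_isMaxOn (U := ball (0 : ℂ) 1) (c := z0)
    (convex_ball (0 : ℂ) 1).isPreconnected isOpen_ball hS (by simpa using hz0)
    (fun x hx => by
      simp only [Function.comp, Set.mem_ofPred_eq]
      rw [h]
      exact hS1 x (by simpa using hx))
  have h2 := h1 (show z ∈ ball (0 : ℂ) 1 by simpa using hz)
  simpa [h] using h2

theorem schwarz_pick {S : ℂ → ℂ} (hS : DifferentiableOn ℂ S (ball 0 1))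
    (hS1 : ∀ z, ‖z‖ < 1 → ‖S z‖ ≤ 1) {z : ℂ} (hz : ‖z‖ < 1) :
    (1 - ‖S z‖) * (1 - ‖z‖ ^ 2) ≤ 2 * (1 - ‖S 0‖ ^ 2) := by
  have hz2 := one_sub_sq_pos hz
  by_cases h1 : ∃ z0, ‖z0‖ < 1 ∧ ‖S z0‖ = 1
  · obtain ⟨z0, hz0, h⟩ := h1
    rw [const_of_norm_one hS hS1 hz0 h hz, const_of_norm_one hS hS1 hz0 h (z := 0) (by simp)]
    simp
  · push Not at h1
    have hlt : ∀ z, ‖z‖ < 1 → ‖S z‖ < 1 := fun z hz => lt_of_le_of_ne (hS1 z hz) (h1 z hz)
    have hS0 := hlt 0 (by simp)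
    have hSz := hlt z hz
    set g : ℂ → ℂ := fun z => mo (S 0) (S z) with hg
    have hgd : DifferentiableOn ℂ g (ball 0 1) :=
      (mo_differentiableOn hS0).comp hS (fun x hx => by
        rw [mem_ball_zero_iff] at hx ⊢
        exact hlt x hx)
    have h2 : ‖g z‖ ≤ ‖z‖ := by
      apply Complex.norm_le_norm_of_mapsTo_ball hgd _ _ hz
      · intro x hx
        rw [mem_ball_zero_iff] at hx
        rw [mem_closedBall_zero_iff]
        exact (mo_norm_lt hS0 (hlt x hx)).le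
      · simp [hg, mo_self]
    have h3 := mo_norm_sq hS0 hSz
    have h4 : 1 - ‖S z‖ ≤ ‖1 - (starRingEnd ℂ) (S 0) * S z‖ := by
      have := den_lower (S 0) (S z)
      nlinarith [norm_nonneg (S 0), norm_nonneg (S z)]
    have h5 : 0 < ‖1 - (starRingEnd ℂ) (S 0) * S z‖ ^ 2 := pow_pos (den_pos hS0 hSz) 2
    have h6 : (1 - ‖g z‖ ^ 2) * ‖1 - (starRingEnd ℂ) (S 0) * S z‖ ^ 2 =
        (1 - ‖S 0‖ ^ 2) * (1 - ‖S z‖ ^ 2) := by
      simp only [hg]
      rw [h3, div_mul_cancel₀ _ h5.ne']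
    have h7 : 1 - ‖z‖ ^ 2 ≤ 1 - ‖g z‖ ^ 2 := by
      have := norm_nonneg (g z)
      nlinarith
    have h8 : (1 - ‖S z‖) ^ 2 ≤ ‖1 - (starRingEnd ℂ) (S 0) * S z‖ ^ 2 :=
      pow_le_pow_left₀ (by linarith) h4 2
    have h9 : (1 - ‖z‖ ^ 2) * (1 - ‖S z‖) ^ 2 ≤ (1 - ‖S 0‖ ^ 2) * (1 - ‖S z‖ ^ 2) := by
      rw [← h6]
      apply mul_le_mul h7 h8 (by positivity) (by linarith)
    have h10 : (1 - ‖z‖ ^ 2) * (1 - ‖S z‖) * (1 - ‖S z‖) ≤
        ((1 - ‖S 0‖ ^ 2) * (1 + ‖S z‖)) * (1 - ‖S z‖) := by nlinarith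
    have h11 := le_of_mul_le_mul_right h10 (by linarith)
    have h12 := one_sub_sq_pos hS0
    nlinarith

end Pool.Agent.H299R3.QP
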