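import Pool.Agent.H299R3.QPFact

/-!
Riemann surface part.
-/

set_option autoImplicit false

open Filter Topology Metric
open scoped Manifold

namespace Pool.Agent.H299R3.QP

variable {X : Type} [TopologicalSpace X] [ChartedSpace ℂ X] [IsManifold 𝓘(ℂ) ⊤ X]

theorem chart_analytic {g : X → ℂ} (hg : MDifferentiable 𝓘(ℂ) 𝓘(ℂ) g) (p : X) :
    AnalyticAt ℂ (fun w => g ((chartAt ℂ p).symm w)) (chartAt ℂ p p) := by
  have h1 : ContMDiffOn 𝓘(ℂ) 𝓘(ℂ) ⊤ (chartAt ℂ p).symm (chartAt ℂ p).target :=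
    contMDiffOn_chart_symm
  have h2 : MDifferentiableOn 𝓘(ℂ) 𝓘(ℂ) (g ∘ (chartAt ℂ p).symm) (chartAt ℂ p).target :=
    hg.comp_mdifferentiableOn (h1.mdifferentiableOn (by simp))
  have h3 : DifferentiableOn ℂ (fun w => g ((chartAt ℂ p).symm w)) (chartAt ℂ p).target :=
    mdifferentiableOn_iff_differentiableOn.mp h2
  exact h3.analyticAt ((chartAt ℂ p).open_target.mem_nhds (mem_chart_target ℂ p))

theorem dichotomy {g : X → ℂ} (hg : MDifferentiable 𝓘(ℂ) 𝓘(ℂ) g) (p : X) (c : ℂ) :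
    (∀ᶠ x in 𝓝 p, g x = c) ∨ (∀ᶠ x in 𝓝[≠] p, g x ≠ c) := by
  have hsrc : (chartAt ℂ p).source ∈ 𝓝 p := chart_source_mem_nhds ℂ p
  have hcont : Tendsto (chartAt ℂ p) (𝓝 p) (𝓝 (chartAt ℂ p p)) :=
    (chartAt ℂ p).continuousAt (mem_chart_source ℂ p)
  rcases (chart_analytic hg p).eventually_eq_or_eventually_ne
    (analyticAt_const (v := c)) with h | h
  · left
    filter_upwards [hcont.eventually h, hsrc] with x hx hxs
    rwa [(chartAt ℂ p).left_inv hxs] at hx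
  · right
    have h2 : Tendsto (chartAt ℂ p) (𝓝[≠] p) (𝓝[≠] (chartAt ℂ p p)) := by
      rw [tendsto_nhdsWithin_iff]
      refine ⟨hcont.mono_left nhdsWithin_le_nhds, ?_⟩
      filter_upwards [self_mem_nhdsWithin, nhdsWithin_le_nhds hsrc] with x hx hxs h0
      exact hx ((chartAt ℂ p).injOn hxs (mem_chart_source ℂ p) h0)
    filter_upwards [h2.eventually h, nhdsWithin_le_nhds hsrc] with x hx hxs
    rwa [(chartAt ℂ p).left_inv hxs] at hx

theorem const_of_eventually [ConnectedSpace X] {g : X → ℂ}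
    (hg : MDifferentiable 𝓘(ℂ) 𝓘(ℂ) g) {p : X} {c : ℂ} (h : ∀ᶠ x in 𝓝 p, g x = c) (x : X) :
    g x = c := by
  set E : Set X := {x | ∀ᶠ y in 𝓝 x, g y = c} with hE
  have hopen : IsOpen E := isOpen_setOfPred_eventually_nhds
  have hclosed : IsClosed E := by
    rw [← closure_subset_iff_isClosed]
    intro x hx
    rcases dichotomy hg x c with h1 | h1
    · exact h1
    · by_contra hxE
      obtain ⟨U, hU, hUo, hxU⟩ := mem_nhds_iff.mp (mem_nhdsWithin_iff_eventually.mp h1)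
      rw [_root_.mem_closure_iff] at hx
      obtain ⟨y, hyU, hyE⟩ := hx U hUo hxU
      have hyx : y ≠ x := fun h0 => hxE (h0 ▸ hyE)
      have h2 := hU hyU
      exact h2 hyx (hyE.self_of_nhds)
  have huniv : E = Set.univ := IsClopen.eq_univ ⟨hclosed, hopen⟩ ⟨p, h⟩
  have : x ∈ E := by rw [huniv]; trivial
  exact this.self_of_nhds

theorem range_mem_nhds {g : X → ℂ} (hg : MDifferentiable 𝓘(ℂ) 𝓘(ℂ) g) (p : X)
    (hne : ¬ ∀ᶠ x in 𝓝 p, g x = g p) : Set.range g ∈ 𝓝 (g p) := by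
  have hp : (chartAt ℂ p).symm (chartAt ℂ p p) = p :=
    (chartAt ℂ p).left_inv (mem_chart_source ℂ p)
  rcases (chart_analytic hg p).eventually_constant_or_nhds_le_map_nhds with h | h
  · exfalso
    apply hne
    have hsrc : (chartAt ℂ p).source ∈ 𝓝 p := chart_source_mem_nhds ℂ p
    have hcont : Tendsto (chartAt ℂ p) (𝓝 p) (𝓝 (chartAt ℂ p p)) :=
      (chartAt ℂ p).continuousAt (mem_chart_source ℂ p)
    filter_upwards [hcont.eventually h, hsrc] with x hx hxs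
    rwa [(chartAt ℂ p).left_inv hxs, hp] at hx
  · simp only [hp] at h
    apply h
    rw [mem_map]
    exact Filter.univ_mem' fun w => ⟨_, rfl⟩

variable {φ : X → ℂ} {σ : X → X} {B : ℂ → ℂ} {ϑ : X → ℂ}

section
variable [ConnectedSpace X]

theorem Setup.nonconst (h : Setup φ σ B ϑ) (p : X) (c : ℂ) : ¬ ∀ᶠ x in 𝓝 p, φ x = c := by
  intro h1
  have h2 : ∀ x, φ x = c := const_of_eventually h.hol h1
  have h3 : ∀ q : X, ordAt φ q ≠ 0 → ordAt φ q = ⊤ := by
    intro q hq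
    have h4 := apply_eq_zero_of_analyticOrderAt_ne_zero hq
    rw [h2] at h4
    unfold ordAt
    rw [analyticOrderAt_eq_top]
    exact Eventually.of_forall fun w => by rw [h2, h4]
  rcases h.two with ⟨p, hp, -⟩ | ⟨p, q, -, hp, -⟩
  · have := h3 p (by rw [hp]; simp)
    rw [hp] at this
    exact absurd this (by simp)
  · have := h3 p (by rw [hp]; simp)
    rw [hp] at this
    exact absurd this (by simp)

theorem Setup.surj (h : Setup φ σ B ϑ) {z : ℂ} (hz : ‖z‖ < 1) : ∃ x, φ x = z := by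
  have hcont : Continuous φ := h.hol.continuous
  have hsub : ball (0 : ℂ) 1 ⊆ Set.range φ := by
    apply (convex_ball (0 : ℂ) 1).isPreconnected.subset_of_closure_inter_subset
    · rw [isOpen_iff_mem_nhds]
      rintro _ ⟨p, rfl⟩
      exact range_mem_nhds h.hol p (h.nonconst p _)
    · obtain ⟨p⟩ : Nonempty X := inferInstance
      exact ⟨φ p, by simpa using h.disc p, ⟨p, rfl⟩⟩
    · rintro w ⟨hw1, hw2⟩
      rw [mem_ball_zero_iff] at hw2
      obtain ⟨ε, hε, hεs⟩ : ∃ ε > 0, closedBall w ε ⊆ ball (0 : ℂ) 1 :=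
        nhds_basis_closedBall.mem_iff.mp (isOpen_ball.mem_nhds (by simpa using hw2))
      have hK : IsCompact (φ ⁻¹' closedBall w ε) := h.proper _ (isCompact_closedBall w ε) hεs
      have hK2 : IsClosed (φ '' (φ ⁻¹' closedBall w ε)) := (hK.image hcont).isClosed
      have h1 : w ∈ closure (φ '' (φ ⁻¹' closedBall w ε)) := by
        rw [mem_closure_iff_nhds] at hw1 ⊢
        intro t ht
        obtain ⟨_, hx1, x, rfl⟩ := hw1 (t ∩ ball w ε) (inter_mem ht (ball_mem_nhds w hε))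
        exact ⟨φ x, hx1.1, x, ball_subset_closedBall hx1.2, rfl⟩
      rw [hK2.closure_eq] at h1
      obtain ⟨x, -, hx⟩ := h1
      exact ⟨x, hx⟩
  exact hsub (by simpa using hz)

theorem Setup.two_branch (h : Setup φ σ B ϑ) :
    ∃ x ∈ branch φ, ∃ y ∈ branch φ, φ x ≠ φ y := by
  by_contra hcon
  push Not at hcon
  obtain ⟨x0, hx0⟩ := h.inf.nonempty
  have hK : IsCompact (φ ⁻¹' {φ x0}) := h.proper _ isCompact_singleton (by
    intro w hw
    rw [Set.mem_singleton_iff.mp hw]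
    simpa using h.disc x0)
  obtain ⟨x, -, hx⟩ := h.inf.exists_accPt_of_subset_isCompact hK
    (fun y hy => hcon y hy x0 hx0)
  rcases dichotomy h.hol x (φ x0) with h1 | h1
  · exact h.nonconst x _ h1
  · rw [accPt_iff_frequently_nhdsNE] at hx
    obtain ⟨y, hy1, hy2⟩ := (hx.and_eventually h1).exists
    exact hy2 (hcon y hy1 x0 hx0)

theorem max_principle {g : X → ℂ} (hg : MDifferentiable 𝓘(ℂ) 𝓘(ℂ) g) (hcont : Continuous φ)
    {r C : ℝ} (hK : IsCompact {x | ‖φ x‖ ≤ r}) (hex : ∃ x, r < ‖φ x‖)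
    (hbd : ∀ x, ‖φ x‖ = r → ‖g x‖ ≤ C) {x : X} (hx : ‖φ x‖ ≤ r) : ‖g x‖ ≤ C := by
  have hgc : Continuous g := hg.continuous
  obtain ⟨p, hp, hmax⟩ := hK.exists_isMaxOn ⟨x, hx⟩ hgc.norm.continuousOn
  have hmax' : ∀ y, ‖φ y‖ ≤ r → ‖g y‖ ≤ ‖g p‖ := fun y hy => hmax hy
  by_contra hlt
  push Not at hlt
  have hCp : C < ‖g p‖ := lt_of_lt_of_le hlt (hmax' x hx)
  set U : Set X := {y | ‖φ y‖ < r ∧ ‖g y‖ = ‖g p‖} with hU
  have hsub : ∀ y, ‖φ y‖ ≤ r → ‖g y‖ = ‖g p‖ → y ∈ U := by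
    intro y hy1 hy2
    refine ⟨lt_of_le_of_ne hy1 fun h0 => ?_, hy2⟩
    have := hbd y h0
    linarith
  have hUo : IsOpen U := by
    rw [isOpen_iff_mem_nhds]
    intro y hy
    have hV : {x | ‖φ x‖ < r} ∈ 𝓝 y := (isOpen_lt hcont.norm continuous_const).mem_nhds hy.1
    have hlm : IsLocalMax (norm ∘ g) y := by
      filter_upwards [hV] with x hx
      simp only [Function.comp]
      rw [hy.2]
      exact hmax' x hx.le
    have h1 := Complex.norm_eventually_eq_of_mdifferentiableAt_of_isLocalMax (I := 𝓘(ℂ))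
      (Eventually.of_forall fun z => hg z) hlm
    filter_upwards [hV, h1] with x hx1 hx2
    exact ⟨hx1, hx2.trans hy.2⟩
  have hUc : IsClosed U := by
    have : U = {y | ‖φ y‖ ≤ r} ∩ {y | ‖g y‖ = ‖g p‖} := by
      ext y
      exact ⟨fun hy => ⟨hy.1.le, hy.2⟩, fun hy => hsub y hy.1 hy.2⟩
    rw [this]
    exact (isClosed_le hcont.norm continuous_const).inter
      (isClosed_eq hgc.norm continuous_const)
  have huniv : U = Set.univ := IsClopen.eq_univ ⟨hUc, hUo⟩ ⟨p, hsub p hp rfl⟩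
  obtain ⟨q, hq⟩ := hex
  have : q ∈ U := by rw [huniv]; trivial
  exact absurd this.1 (not_lt.mpr hq.le)

theorem Setup.div (h : Setup φ σ B ϑ) {b : ℂ → ℂ} {S : X → ℂ}
    (hS : MDifferentiable 𝓘(ℂ) 𝓘(ℂ) S) {M C : ℝ} (hC : 0 ≤ C)
    (hbS : ∀ x, ‖b (φ x) * S x‖ ≤ M)
    (hb : ∀ z, ‖z‖ < 1 → 1 - ‖b z‖ ≤ C * (1 - ‖z‖ ^ 2)) (x : X) : ‖S x‖ ≤ M := by
  have hcont : Continuous φ := h.hol.continuous
  have hxd := h.disc x
  have h1 : ∀ r : ℝ, ‖φ x‖ < r → r < 1 → 0 < 1 - C * (1 - r ^ 2) →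
      (1 - C * (1 - r ^ 2)) * ‖S x‖ ≤ M := by
    intro r hr hr1 hpos
    have hr0 : 0 < r := lt_of_le_of_lt (norm_nonneg _) hr
    have hK : IsCompact {x | ‖φ x‖ ≤ r} := by
      have h2 := h.proper (closedBall 0 r) (isCompact_closedBall _ _)
        (closedBall_subset_ball hr1)
      have h3 : φ ⁻¹' closedBall 0 r = {x | ‖φ x‖ ≤ r} := by
        ext y; simp
      rwa [h3] at h2
    have hex : ∃ y, r < ‖φ y‖ := by
      obtain ⟨y, hy⟩ := h.surj (z := (((r + 1) / 2 : ℝ) : ℂ)) (by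
        rw [Complex.norm_real, Real.norm_of_nonneg (by linarith)]; linarith)
      refine ⟨y, ?_⟩
      rw [hy, Complex.norm_real, Real.norm_of_nonneg (by linarith)]; linarith
    have h2 : ‖S x‖ ≤ M / (1 - C * (1 - r ^ 2)) := by
      apply max_principle hS hcont hK hex _ hr.le
      intro y hy
      have h3 := hbS y
      have h4 := hb (φ y) (h.disc y)
      rw [norm_mul] at h3
      rw [hy] at h4
      rw [le_div_iff₀ hpos]
      nlinarith [norm_nonneg (S y)]
    rw [le_div_iff₀ hpos] at h2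
    linarith
  have h2 : Tendsto (fun r : ℝ => (1 - C * (1 - r ^ 2)) * ‖S x‖) (𝓝[<] 1) (𝓝 ‖S x‖) := by
    have h3 : Tendsto (fun r : ℝ => (1 - C * (1 - r ^ 2)) * ‖S x‖) (𝓝 1)
        (𝓝 ((1 - C * (1 - 1 ^ 2)) * ‖S x‖)) := by
      apply Continuous.tendsto
      fun_prop
    have h4 : (1 - C * (1 - (1 : ℝ) ^ 2)) * ‖S x‖ = ‖S x‖ := by ring
    rw [h4] at h3
    exact h3.mono_left nhdsWithin_le_nhds
  refine le_of_tendsto h2 ?_
  have h5 : ∀ᶠ r : ℝ in 𝓝[<] 1, ‖φ x‖ < r := nhdsWithin_le_nhds (lt_mem_nhds hxd)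
  have h6 : ∀ᶠ r : ℝ in 𝓝[<] 1, 0 < 1 - C * (1 - r ^ 2) := by
    have h7 : Tendsto (fun r : ℝ => 1 - C * (1 - r ^ 2)) (𝓝 1) (𝓝 (1 - C * (1 - 1 ^ 2))) := by
      apply Continuous.tendsto
      fun_prop
    have h8 : 1 - C * (1 - (1 : ℝ) ^ 2) = 1 := by ring
    rw [h8] at h7
    exact nhdsWithin_le_nhds (h7.eventually (lt_mem_nhds one_pos))
  filter_upwards [h5, h6, self_mem_nhdsWithin] with r hr1 hr2 hr3
  exact h1 r hr1 hr3 hr2

end

theorem Setup.B_lt (h : Setup φ σ B ϑ) {z : ℂ} (hz : ‖z‖ < 1) : ‖B z‖ < 1 := by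
  refine lt_of_le_of_ne (h.blaschke.le hz) fun h0 => ?_
  obtain ⟨x, hx⟩ := h.inf.nonempty
  have h1 := const_of_norm_one h.blaschke.hol (fun z hz => h.blaschke.le hz) hz h0 (h.disc x)
  rw [(h.zeros _ (h.disc x)).mpr ⟨x, hx, rfl⟩, norm_zero] at h1
  exact zero_ne_one h1

theorem Setup.theta_lt (h : Setup φ σ B ϑ) (x : X) : ‖ϑ x‖ < 1 := by
  have h1 := h.B_lt (h.disc x)
  rw [← h.theta_sq, norm_pow] at h1
  nlinarith [norm_nonneg (ϑ x)]

theorem Setup.theta_branch (h : Setup φ σ B ϑ) {x : X} (hx : x ∈ branch φ) : ϑ x = 0 := by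
  have h1 := (h.zeros _ (h.disc x)).mpr ⟨x, hx, rfl⟩
  rw [← h.theta_sq] at h1
  exact pow_eq_zero_iff two_ne_zero |>.mp h1

/-- The quasi-proper map. -/
noncomputable def qp (φ ϑ : X → ℂ) (μ : ℂ) (x : X) : ℂ :=
  mo (1 / 2) (μ * φ x * mo (1 / 4) (ϑ x))

theorem Setup.arg_lt (h : Setup φ σ B ϑ) {μ : ℂ} (hμ : ‖μ‖ = 1) (x : X) :
    ‖μ * φ x * mo (1 / 4) (ϑ x)‖ < 1 := by
  rw [mul_assoc, norm_mul, hμ, one_mul]
  exact w_norm (h.disc x) (h.theta_lt x)

theorem Setup.qp_lt (h : Setup φ σ B ϑ) {μ : ℂ} (hμ : ‖μ‖ = 1) (x : X) : ‖qp φ ϑ μ x‖ < 1 :=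
  mo_norm_lt half_lt (h.arg_lt hμ x)

theorem mo_differentiableAt {a z : ℂ} (ha : ‖a‖ < 1) (hz : ‖z‖ < 1) :
    DifferentiableAt ℂ (mo a) z :=
  (mo_differentiableOn ha).differentiableAt (isOpen_ball.mem_nhds (by simpa using hz))

theorem Setup.qp_hol (h : Setup φ σ B ϑ) {μ : ℂ} (hμ : ‖μ‖ = 1) :
    MDifferentiable 𝓘(ℂ) 𝓘(ℂ) (qp φ ϑ μ) := by
  intro x
  have h1 : MDifferentiableAt 𝓘(ℂ) 𝓘(ℂ) (fun x => mo (1 / 4) (ϑ x)) x :=
    DifferentiableAt.comp_mdifferentiableAt (g := mo (1 / 4))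
      (mo_differentiableAt quarter_lt (h.theta_lt x)) (h.theta_hol x)
  have h2 : MDifferentiableAt 𝓘(ℂ) 𝓘(ℂ) (fun x => μ * φ x) x := (h.hol x).const_smul μ
  have h3 : MDifferentiableAt 𝓘(ℂ) 𝓘(ℂ) (fun x => μ * φ x * mo (1 / 4) (ϑ x)) x := h2.mul h1
  exact DifferentiableAt.comp_mdifferentiableAt (g := mo (1 / 2))
      (mo_differentiableAt half_lt (h.arg_lt hμ x)) h3

theorem Setup.qp_mul (h : Setup φ σ B ϑ) (μ : ℂ) (x : X) :
    qp φ ϑ μ x * qp φ ϑ μ (σ x) = Nf μ (φ x) (B (φ x)) := by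
  rw [qp, qp, h.phi_sigma, h.theta_sigma, theta_mul (h.theta_lt x), h.theta_sq]

theorem Nf_zero {μ t : ℂ} (ht : ‖t‖ < 1) : Nf μ 0 t = 1 / 4 := by
  have h1 : (1 : ℂ) - t * (1 / 4) ^ 2 ≠ 0 := by
    intro h0
    have h2 : t = 16 := by
      linear_combination (-16) * h0
    rw [h2] at ht
    norm_num at ht
  rw [Nf]
  simp only [mul_zero, sub_zero, one_pow]
  rw [div_eq_iff h1]
  ring

theorem Setup.quasi [ConnectedSpace X] (h : Setup φ σ B ϑ) {μ : ℂ} (hμ : ‖μ‖ = 1)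
    (hav : ∀ ε > 0, ∃ r, 0 < r ∧ r < 1 ∧
      Real.circleAverage (fun z => -Real.log ‖Nf μ z (B z)‖) 0 r ≤ ε) :
    QuasiProper (qp φ ϑ μ) := by
  refine ⟨h.qp_hol hμ, h.qp_lt hμ, fun f hf => le_antisymm ?_ ?_⟩
  · rcases eq_or_ne (⨆ x, ‖qp φ ϑ μ x * f x‖ₑ) ⊤ with htop | htop
    · rw [htop]; exact le_top
    · set M : ℝ := (⨆ x, ‖qp φ ϑ μ x * f x‖ₑ).toReal with hM
      have hMb : ∀ x, ‖qp φ ϑ μ x * f x‖ ≤ M := by
        intro x
        have h1 : ‖qp φ ϑ μ x * f x‖ₑ ≤ ⨆ x, ‖qp φ ϑ μ x * f x‖ₑ :=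
          le_iSup (fun x => ‖qp φ ϑ μ x * f x‖ₑ) x
        have h2 := ENNReal.toReal_mono htop h1
        rwa [toReal_enorm] at h2
      have hM0 : 0 ≤ M := ENNReal.toReal_nonneg
      have hND : DifferentiableOn ℂ (fun z => Nf μ z (B z)) (ball 0 1) := by
        have hden : ∀ z ∈ ball (0 : ℂ) 1, (1 - (1 / 8) * (μ * z)) ^ 2 -
            B z * (1 / 4 - (1 / 2) * (μ * z)) ^ 2 ≠ 0 := by
          intro z hz h0
          rw [mem_ball_zero_iff] at hz
          have hB := h.B_lt hz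
          have hmz : ‖μ * z‖ < 1 := by rw [norm_mul, hμ, one_mul]; exact hz
          have h1 : ‖(1 / 2) * (μ * z)‖ < 1 := by
            rw [norm_mul]
            have : ‖(1 / 2 : ℂ)‖ = 1 / 2 := by norm_num
            rw [this]
            linarith
          have h2 := mo_norm_lt quarter_lt h1
          rw [mo_quarter, norm_div] at h2
          have h3 : 1 - (1 / 4) * ((1 / 2) * (μ * z)) ≠ 0 := by
            have := den_ne quarter_lt h1
            rwa [conj_quarter] at this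
          rw [div_lt_one (norm_pos_iff.mpr h3)] at h2
          have h4 : 1 - (1 / 4) * ((1 / 2) * (μ * z)) = 1 - (1 / 8) * (μ * z) := by ring
          rw [h4] at h2
          have h5 := congrArg norm (sub_eq_zero.mp h0)
          rw [norm_pow, norm_mul, norm_pow] at h5
          have h6 := norm_nonneg (1 / 4 - (1 / 2) * (μ * z))
          have h7 := norm_nonneg (B z)
          have h8 : ‖1 / 4 - (1 / 2) * (μ * z)‖ ^ 2 < ‖1 - (1 / 8) * (μ * z)‖ ^ 2 :=
            pow_lt_pow_left₀ h2 h6 two_ne_zero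
          nlinarith [sq_nonneg ‖1 / 4 - (1 / 2) * (μ * z)‖]
        have hB := h.blaschke.hol
        unfold Nf
        fun_prop (disch := exact hden)
      have hN1 : ∀ z, ‖z‖ < 1 → ‖Nf μ z (B z)‖ ≤ 1 := fun z hz => (Nf_lt hμ hz (h.B_lt hz)).le
      have hN0 : ‖Nf μ 0 (B 0)‖ = 1 / 4 := by
        rw [Nf_zero (h.B_lt (by simp))]; norm_num
      have key : ∀ x, ‖f x‖ ≤ M := by
        intro x
        have hxd := h.disc x
        have hx2 := one_sub_sq_pos hxd
        have h1 : ∀ ε > 0, (1 - 4 * ε / (1 - ‖φ x‖ ^ 2)) * ‖f x‖ ≤ M := by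
          intro ε hε
          obtain ⟨r, hr0, hr1, hr⟩ := hav ε hε
          obtain ⟨k, hk⟩ := exists_pow_lt_of_lt_one (show (0 : ℝ) < 1 / 4 by norm_num) hr1
          obtain ⟨b, S, C, hb, hS, hbS, hb1, hS1, hC0, hC, hS0, hlog⟩ :=
            extract hr0 hr1 k (fun z => Nf μ z (B z)) hND hN1
              (by rw [← norm_ne_zero_iff, hN0]; norm_num) (by rw [hN0]; exact hk.le)
          have h2 : Real.circleAverage (fun z => -Real.log ‖Nf μ z (B z)‖) 0 r =
              -Real.circleAverage (fun z => Real.log ‖Nf μ z (B z)‖) 0 r := by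
            rw [Real.circleAverage_def, Real.circleAverage_def, intervalIntegral.integral_neg,
              smul_neg]
          rw [h2] at hr
          have h3 : -ε ≤ Real.log ‖S 0‖ := by linarith
          have hS0pos : 0 < ‖S 0‖ := norm_pos_iff.mpr hS0
          have h4 : 1 - ε ≤ ‖S 0‖ := by
            have := Real.log_le_sub_one_of_pos hS0pos
            linarith
          set F : X → ℂ := fun x => S (φ x) * f x with hF
          have hFd : MDifferentiable 𝓘(ℂ) 𝓘(ℂ) F := by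
            intro y
            have h5 : MDifferentiableAt 𝓘(ℂ) 𝓘(ℂ) (fun x => S (φ x)) y :=
              DifferentiableAt.comp_mdifferentiableAt (g := S)
                (hS.differentiableAt (isOpen_ball.mem_nhds (by simpa using h.disc y))) (h.hol y)
            exact h5.mul (hf y)
          have h5 : ‖F x‖ ≤ M := by
            apply h.div hFd hC0 _ hC
            intro y
            have h6 : b (φ y) * F y = qp φ ϑ μ (σ y) * (qp φ ϑ μ y * f y) := by
              rw [hF]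
              simp only
              rw [← mul_assoc, ← hbS _ (h.disc y), ← h.qp_mul μ y]
              ring
            rw [h6, norm_mul]
            have h7 := h.qp_lt hμ (σ y)
            have h8 := hMb y
            have h9 := norm_nonneg (qp φ ϑ μ (σ y))
            have h10 := norm_nonneg (qp φ ϑ μ y * f y)
            nlinarith
          have h6 := schwarz_pick hS hS1 hxd
          have h7 : 1 - 4 * ε / (1 - ‖φ x‖ ^ 2) ≤ ‖S (φ x)‖ := by
            have h8 : 1 - ‖S (φ x)‖ ≤ 4 * ε / (1 - ‖φ x‖ ^ 2) := by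
              rw [le_div_iff₀ hx2]
              have h9 := hS1 0 (by simp)
              nlinarith
            linarith
          rw [hF] at h5
          simp only [norm_mul] at h5
          exact (mul_le_mul_of_nonneg_right h7 (norm_nonneg _)).trans h5
        have h2 : Tendsto (fun ε : ℝ => (1 - 4 * ε / (1 - ‖φ x‖ ^ 2)) * ‖f x‖) (𝓝[>] 0)
            (𝓝 ‖f x‖) := by
          have h3 : Tendsto (fun ε : ℝ => (1 - 4 * ε / (1 - ‖φ x‖ ^ 2)) * ‖f x‖) (𝓝 0)
              (𝓝 ((1 - 4 * 0 / (1 - ‖φ x‖ ^ 2)) * ‖f x‖)) := by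
            apply Continuous.tendsto
            fun_prop
          have h4 : (1 - 4 * 0 / (1 - ‖φ x‖ ^ 2)) * ‖f x‖ = ‖f x‖ := by simp
          rw [h4] at h3
          exact h3.mono_left nhdsWithin_le_nhds
        refine le_of_tendsto h2 ?_
        filter_upwards [self_mem_nhdsWithin] with ε hε
        exact h1 ε hε
      apply iSup_le
      intro x
      rw [← ENNReal.ofReal_toReal htop, ← hM]
      rw [← ofReal_norm]
      exact ENNReal.ofReal_le_ofReal (key x)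
  · apply iSup_le
    intro x
    refine le_trans ?_ (le_iSup (fun x => ‖f x‖ₑ) x)
    rw [← ofReal_norm, ← ofReal_norm, norm_mul]
    apply ENNReal.ofReal_le_ofReal
    have := h.qp_lt hμ x
    nlinarith [norm_nonneg (f x), norm_nonneg (qp φ ϑ μ x)]

/-- The quasi-proper map has no common zero with its conjugate. -/
theorem Setup.qp_no_common (h : Setup φ σ B ϑ) {μ : ℂ} (hμ : ‖μ‖ = 1) (x : X)
    (h1 : qp φ ϑ μ x = 0) (h2 : qp φ ϑ μ (σ x) = 0) : False := by
  have hz : ∀ w : ℂ, ‖w‖ < 1 → mo (1 / 2) w = 0 → w = 1 / 2 := by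
    intro w hw h0
    by_contra hne
    exact mo_ne half_lt hw hne h0
  have h3 := hz _ (h.arg_lt hμ x) h1
  have h4 := hz _ (h.arg_lt hμ (σ x)) h2
  rw [h.phi_sigma, h.theta_sigma] at h4
  set y := ϑ x with hy
  have hy1 : ‖y‖ < 1 := h.theta_lt x
  have hy2 : ‖-y‖ < 1 := by rwa [norm_neg]
  have hφ0 : μ * φ x ≠ 0 := by
    intro h0
    rw [h0, zero_mul] at h3
    norm_num at h3
  have h5 : mo (1 / 4) y = mo (1 / 4) (-y) := mul_left_cancel₀ hφ0 (h3.trans h4.symm)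
  have hd1 : 1 - (1 / 4) * y ≠ 0 := by
    have := den_ne quarter_lt hy1
    rwa [conj_quarter] at this
  have hd2 : 1 - (1 / 4) * (-y) ≠ 0 := by
    have := den_ne quarter_lt hy2
    rwa [conj_quarter] at this
  rw [mo_quarter, mo_quarter, div_eq_div_iff hd1 hd2] at h5
  have h6 : y = 0 := by
    linear_combination (-8 / 15) * h5
  rw [h6, mo_quarter] at h3
  have h7 := congrArg norm h3
  rw [norm_mul, norm_mul, hμ] at h7
  have h8 := h.disc x
  norm_num at h7
  linarith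

theorem tendsto_zero_of_factor {G : ℕ → ℂ} {c : ℂ} {n : ℕ} (hn : G n = 0)
    (h : Tendsto (fun N => ∏ n ∈ Finset.range N, G n) atTop (𝓝 c)) : c = 0 := by
  refine tendsto_nhds_unique h ?_
  apply tendsto_const_nhds.congr'
  filter_upwards [eventually_gt_atTop n] with N hN
  exact (Finset.prod_eq_zero (Finset.mem_range.mpr hN) hn).symm

/-- It is not a product of members of the class. -/
theorem Setup.not_product [ConnectedSpace X] (h : Setup φ σ B ϑ) {μ : ℂ} (hμ : ‖μ‖ = 1) :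
    ¬ IsProductOfL φ B ϑ (qp φ ϑ μ) := by
  rintro ⟨G, hG, hlim⟩
  have hno : ∀ n x, G n x = 0 → G n (σ x) = 0 → False := by
    intro n x h1 h2
    exact h.qp_no_common hμ x (tendsto_zero_of_factor h1 (hlim x))
      (tendsto_zero_of_factor h2 (hlim (σ x)))
  have hbr : ∀ n x y, x ∈ branch φ → y ∈ branch φ → G n x = G n y := by
    intro n x y hx hy
    rcases hG n with ⟨b, hb, hGb⟩ | hGb | ⟨b, u, bs, c, hb, -, -, -, -, hGb⟩
    · rcases hb.const_or_zero with ⟨c, hc⟩ | ⟨z, hz, hbz⟩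
      · rw [hGb]
        simp only
        rw [hc _ (h.disc x), hc _ (h.disc y)]
      · exfalso
        obtain ⟨p, hp⟩ := h.surj hz
        apply hno n p
        · rw [hGb]; simp only; rw [hp, hbz]
        · rw [hGb]; simp only; rw [h.phi_sigma, hp, hbz]
    · exfalso
      apply hno n x
      · rw [hGb, h.theta_branch hx]
      · rw [hGb, h.theta_sigma, h.theta_branch hx, neg_zero]
    · rw [hGb]
      simp only
      rw [h.theta_branch hx, h.theta_branch hy, mul_zero, mul_zero]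
  obtain ⟨x, hx, y, hy, hxy⟩ := h.two_branch
  have h1 : qp φ ϑ μ x = qp φ ϑ μ y := by
    refine tendsto_nhds_unique (hlim x) ((hlim y).congr fun N => ?_)
    exact Finset.prod_congr rfl fun n _ => (hbr n x y hx hy).symm
  have hax := h.arg_lt hμ x
  have hay := h.arg_lt hμ y
  rw [qp, qp] at h1
  have hd1 : 1 - (1 / 2) * (μ * φ x * mo (1 / 4) (ϑ x)) ≠ 0 := by
    have := den_ne half_lt hax
    rwa [conj_half] at this
  have hd2 : 1 - (1 / 2) * (μ * φ y * mo (1 / 4) (ϑ y)) ≠ 0 := by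
    have := den_ne half_lt hay
    rwa [conj_half] at this
  rw [mo_half, mo_half, div_eq_div_iff hd1 hd2, h.theta_branch hx, h.theta_branch hy,
    mo_quarter] at h1
  have hμ0 : μ ≠ 0 := by
    intro h0
    rw [h0, norm_zero] at hμ
    exact zero_ne_one hμ
  apply hxy
  apply mul_left_cancel₀ hμ0
  linear_combination (-16 / 3) * h1

/-- The main result. -/
theorem main [ConnectedSpace X] (h : Setup φ σ B ϑ) :
    ∃ θ : X → ℂ, QuasiProper θ ∧ ¬ IsProductOfL φ B ϑ θ := by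
  obtain ⟨μ, hμ, hav⟩ := exists_mu h.blaschke (fun z hz => h.B_lt hz)
  exact ⟨qp φ ϑ μ, h.quasi hμ hav, h.not_product hμ⟩

end Pool.Agent.H299R3.QP
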