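import Mathlib

/-!
Parameters for a Riemann surface that is not embedded in the character space of its algebra
of bounded holomorphic functions.
-/

set_option autoImplicit false

namespace Pool.Agent.H299R3.RS

open Filter Topology

/-- radii increasing to one -/
noncomputable def s (i : ℕ) : ℝ := 1 - 1 / ((i : ℝ) + 2)

theorem s_pos (i : ℕ) : 0 < s i := by
  have h : (0 : ℝ) < (i : ℝ) + 2 := by positivity
  rw [s, sub_pos, div_lt_one h]
  have : (0 : ℝ) ≤ i := Nat.cast_nonneg i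
  linarith

theorem s_lt_one (i : ℕ) : s i < 1 := by
  have h : (0 : ℝ) < 1 / ((i : ℝ) + 2) := by positivity
  rw [s]; linarith

theorem s_strictMono : StrictMono s := by
  intro i j hij
  have : (i : ℝ) < j := by exact_mod_cast hij
  rw [s, s]
  have := one_div_lt_one_div_of_lt (by positivity : (0 : ℝ) < (i : ℝ) + 2)
    (by linarith : (i : ℝ) + 2 < (j : ℝ) + 2)
  linarith

theorem exists_lt_s (x : ℝ) (hx : x < 1) : ∃ j, x < s (2 * j) := by
  obtain ⟨n, hn⟩ := exists_nat_gt (1 / (1 - x))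
  have hx' : 0 < 1 - x := by linarith
  refine ⟨n, ?_⟩
  have h1 : 1 / ((2 * n : ℕ) + 2 : ℝ) < 1 - x := by
    rw [div_lt_iff₀ (by positivity)]
    rw [div_lt_iff₀ hx'] at hn
    push_cast
    have : (0 : ℝ) ≤ n := Nat.cast_nonneg n
    nlinarith
  rw [s]
  linarith

theorem exists_k (j : ℕ) : ∃ k : ℕ, 1 ≤ k ∧ (s (2 * j) / s (2 * j + 1)) ^ k ≤ 1 / 4 ∧
    1 + 16 ^ (j + 1) ≤ (s (2 * j + 2) / s (2 * j + 1)) ^ k := by
  have h0 := s_pos (2 * j)
  have h1 := s_pos (2 * j + 1)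
  have h01 : s (2 * j) < s (2 * j + 1) := s_strictMono (by omega)
  have h12 : s (2 * j + 1) < s (2 * j + 2) := s_strictMono (by omega)
  have ha : Tendsto (fun k : ℕ => (s (2 * j) / s (2 * j + 1)) ^ k) atTop (𝓝 0) :=
    tendsto_pow_atTop_nhds_zero_of_lt_one (by positivity) ((div_lt_one h1).mpr h01)
  have hb : Tendsto (fun k : ℕ => (s (2 * j + 2) / s (2 * j + 1)) ^ k) atTop atTop :=
    tendsto_pow_atTop_atTop_of_one_lt ((one_lt_div h1).mpr h12)
  have := ((eventually_ge_atTop 1).and ((ha.eventually_le_const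
    (by norm_num : (0 : ℝ) < 1 / 4)).and (hb.eventually_ge_atTop (1 + 16 ^ (j + 1))))).exists
  exact this

/-- exponents -/
noncomputable def kk (j : ℕ) : ℕ := Classical.choose (exists_k j)

theorem kk_pos (j : ℕ) : 1 ≤ kk j := (Classical.choose_spec (exists_k j)).1
theorem kk_small (j : ℕ) : (s (2 * j) / s (2 * j + 1)) ^ kk j ≤ 1 / 4 :=
  (Classical.choose_spec (exists_k j)).2.1
theorem kk_large (j : ℕ) : 1 + 16 ^ (j + 1) ≤ (s (2 * j + 2) / s (2 * j + 1)) ^ kk j :=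
  (Classical.choose_spec (exists_k j)).2.2

/-- the functions whose square roots are adjoined -/
noncomputable def F (j : ℕ) (z : ℂ) : ℂ := 1 - (z / (s (2 * j + 1) : ℝ)) ^ kk j

theorem norm_quot (j : ℕ) (z : ℂ) :
    ‖(z / (s (2 * j + 1) : ℝ)) ^ kk j‖ = (‖z‖ / s (2 * j + 1)) ^ kk j := by
  rw [norm_pow, norm_div, Complex.norm_real, Real.norm_eq_abs, abs_of_pos (s_pos _)]

theorem F_differentiable (j : ℕ) : Differentiable ℂ (F j) := by
  unfold F
  fun_prop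

theorem F_continuous (j : ℕ) : Continuous (F j) := (F_differentiable j).continuous

theorem F_zero (j : ℕ) : F j 0 = 1 := by
  have := kk_pos j
  rw [F, zero_div, zero_pow (by omega), sub_zero]

theorem F_near {j : ℕ} {z : ℂ} (hz : ‖z‖ ≤ s (2 * j)) : ‖F j z - 1‖ ≤ 1 / 4 := by
  have h1 := s_pos (2 * j + 1)
  have : F j z - 1 = -((z / (s (2 * j + 1) : ℝ)) ^ kk j) := by rw [F]; ring
  rw [this, norm_neg, norm_quot]
  refine le_trans ?_ (kk_small j)
  exact pow_le_pow_left₀ (by positivity) (div_le_div_of_nonneg_right hz h1.le) _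

theorem F_re_pos {j : ℕ} {z : ℂ} (hz : ‖z‖ < s (2 * j + 1)) : 0 < (F j z).re := by
  have h1 := s_pos (2 * j + 1)
  have h2 : ‖(z / (s (2 * j + 1) : ℝ)) ^ kk j‖ < 1 := by
    rw [norm_quot]
    refine pow_lt_one₀ (by positivity) ((div_lt_one h1).mpr hz) ?_
    have := kk_pos j
    omega
  have h3 := (abs_le.mp (Complex.abs_re_le_norm ((z / (s (2 * j + 1) : ℝ)) ^ kk j))).2
  rw [F, Complex.sub_re, Complex.one_re]
  linarith

theorem F_large {j : ℕ} {z : ℂ} (hz : s (2 * j + 2) ≤ ‖z‖) : 16 ^ (j + 1) ≤ ‖F j z‖ := by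
  have h1 := s_pos (2 * j + 1)
  have h2 : 1 + 16 ^ (j + 1) ≤ ‖(z / (s (2 * j + 1) : ℝ)) ^ kk j‖ := by
    rw [norm_quot]
    refine (kk_large j).trans ?_
    exact pow_le_pow_left₀ (div_nonneg (s_pos _).le h1.le)
      (div_le_div_of_nonneg_right hz h1.le) _
  have h3 : ‖(z / (s (2 * j + 1) : ℝ)) ^ kk j‖ - ‖(1 : ℂ)‖ ≤ ‖F j z‖ := by
    rw [F, norm_sub_rev]
    exact norm_sub_norm_le _ _
  rw [norm_one] at h3
  linarith

theorem F_zero_norm {j : ℕ} {z : ℂ} (hz : F j z = 0) : ‖z‖ = s (2 * j + 1) := by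
  have h1 := s_pos (2 * j + 1)
  have h2 : (z / (s (2 * j + 1) : ℝ)) ^ kk j = 1 := by
    rw [F, sub_eq_zero] at hz
    exact hz.symm
  have h3 : (‖z‖ / s (2 * j + 1)) ^ kk j = 1 := by
    rw [← norm_quot, h2, norm_one]
  have h4 : ‖z‖ / s (2 * j + 1) = 1 := by
    have := kk_pos j
    exact (pow_eq_one_iff_of_nonneg (by positivity) (by omega)).mp h3
  rw [div_eq_one_iff_eq h1.ne'] at h4
  exact h4

theorem F_bdd (j : ℕ) : ∃ C, ∀ z : ℂ, ‖z‖ < 1 → ‖F j z‖ ≤ C := by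
  refine ⟨1 + (1 / s (2 * j + 1)) ^ kk j, fun z hz => ?_⟩
  rw [F]
  refine (norm_sub_le _ _).trans ?_
  rw [norm_one, norm_quot]
  have h1 := s_pos (2 * j + 1)
  have : (‖z‖ / s (2 * j + 1)) ^ kk j ≤ (1 / s (2 * j + 1)) ^ kk j :=
    pow_le_pow_left₀ (by positivity) (div_le_div_of_nonneg_right hz.le h1.le) _
  linarith

theorem F_hasDerivAt (j : ℕ) (z : ℂ) : ∃ d : ℂ, HasDerivAt (F j) d z ∧ (z ≠ 0 → d ≠ 0) := by
  have h1 := s_pos (2 * j + 1)
  have h1' : ((s (2 * j + 1) : ℝ) : ℂ) ≠ 0 := by exact_mod_cast h1.ne'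
  refine ⟨-((kk j : ℂ) * (z / (s (2 * j + 1) : ℝ)) ^ (kk j - 1) * (1 / (s (2 * j + 1) : ℝ))), ?_, ?_⟩
  · have h2 : HasDerivAt (fun z : ℂ => z / (s (2 * j + 1) : ℝ)) (1 / ((s (2 * j + 1) : ℝ) : ℂ)) z :=
      (hasDerivAt_id z).div_const _
    exact (h2.pow (kk j)).const_sub 1
  · intro hz
    have := kk_pos j
    refine neg_ne_zero.mpr (mul_ne_zero (mul_ne_zero ?_ ?_) ?_)
    · exact_mod_cast (by omega : kk j ≠ 0)
    · exact pow_ne_zero _ (div_ne_zero hz h1')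
    · exact one_div_ne_zero h1'

/-- the principal square root -/
noncomputable def csqrt (x : ℂ) : ℂ := x ^ ((2 : ℕ) : ℂ)⁻¹

theorem csqrt_sq (x : ℂ) : csqrt x ^ 2 = x := Complex.cpow_nat_inv_pow x two_ne_zero

theorem csqrt_ne_zero {x : ℂ} (hx : x ≠ 0) : csqrt x ≠ 0 := by
  intro h
  apply hx
  rw [← csqrt_sq x, h]
  ring

theorem csqrt_norm (x : ℂ) : ‖csqrt x‖ ^ 2 = ‖x‖ := by
  rw [← norm_pow, csqrt_sq]

theorem csqrt_one : csqrt 1 = 1 := Complex.one_cpow _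

theorem csqrt_re_pos {x : ℂ} (hx : 0 < x.re) : 0 < (csqrt x).re := by
  have hx0 : x ≠ 0 := by
    rintro rfl
    simp at hx
  have harg : |x.arg| < Real.pi / 2 := Complex.abs_arg_lt_pi_div_two_iff.mpr (Or.inl hx)
  have h1 := abs_lt.mp harg
  rw [csqrt, Complex.cpow_def_of_ne_zero hx0, Complex.exp_re]
  refine mul_pos (Real.exp_pos _) (Real.cos_pos_of_mem_Ioo ?_)
  have h2 : (Complex.log x * ((2 : ℕ) : ℂ)⁻¹).im = x.arg / 2 := by
    have : (((2 : ℕ) : ℂ)⁻¹) = ((1 / 2 : ℝ) : ℂ) := by push_cast; norm_num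
    rw [this, Complex.mul_im, Complex.ofReal_re, Complex.ofReal_im, Complex.log_im]
    ring
  rw [h2]
  constructor <;> linarith

theorem eq_of_sq_eq {a b : ℂ} (h : a ^ 2 = b ^ 2) (ha : 0 < a.re) (hb : 0 < b.re) : a = b := by
  rcases sq_eq_sq_iff_eq_or_eq_neg.mp h with h | h
  · exact h
  · exfalso
    rw [h, Complex.neg_re] at ha
    linarith

theorem csqrt_differentiableAt {x : ℂ} (hx : 0 < x.re) : DifferentiableAt ℂ csqrt x := by
  unfold csqrt
  exact differentiableAt_id.cpow_const (Or.inl hx)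

theorem re_pos_of_near {x : ℂ} (h : ‖x - 1‖ < 1) : 0 < x.re := by
  have h1 := (abs_le.mp (Complex.abs_re_le_norm (x - 1))).1
  rw [Complex.sub_re, Complex.one_re] at h1
  linarith

/-- good points: points of the disc at which none of the functions vanishes -/
def Good (z : ℂ) : Prop := ‖z‖ < 1 ∧ ∀ j, F j z ≠ 0

theorem good_zero : Good 0 := ⟨by simp, fun j => by rw [F_zero]; exact one_ne_zero⟩

theorem exists_rad (z₀ : ℂ) (h : Good z₀) : ∃ r > 0, ∀ z ∈ Metric.ball z₀ r, ‖z‖ < 1 ∧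
    ∀ j, ‖F j z / F j z₀ - 1‖ < 1 := by
  obtain ⟨m, hm⟩ := exists_lt_s ‖z₀‖ h.1
  have h1 : ∀ᶠ z in 𝓝 z₀, ‖z‖ < s (2 * m) :=
    (continuous_norm.tendsto z₀).eventually (gt_mem_nhds hm)
  have h2 : ∀ᶠ z in 𝓝 z₀, ∀ j ∈ Finset.range m, ‖F j z / F j z₀ - 1‖ < 1 := by
    rw [Filter.eventually_all_finset]
    intro j _
    have h3 : Tendsto (fun z => ‖F j z / F j z₀ - 1‖) (𝓝 z₀) (𝓝 ‖F j z₀ / F j z₀ - 1‖) :=
      ((((F_continuous j).tendsto z₀).div_const _).sub_const _).norm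
    rw [div_self (h.2 j), sub_self, norm_zero] at h3
    exact h3.eventually (gt_mem_nhds one_pos)
  obtain ⟨r, hr, hball⟩ := Metric.eventually_nhds_iff_ball.mp (h1.and h2)
  refine ⟨r, hr, fun z hz => ⟨(hball z hz).1.trans (s_lt_one _), fun j => ?_⟩⟩
  rcases Nat.lt_or_ge j m with hj | hj
  · exact (hball z hz).2 j (Finset.mem_range.mpr hj)
  · have hsj : s (2 * m) ≤ s (2 * j) := s_strictMono.monotone (by omega)
    have h3 := F_near (j := j) (z := z) ((hball z hz).1.le.trans hsj)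
    have h4 := F_near (j := j) (z := z₀) (hm.le.trans hsj)
    have h5 : 3 / 4 ≤ ‖F j z₀‖ := by
      have := norm_sub_norm_le (1 : ℂ) (F j z₀)
      rw [norm_sub_rev, norm_one] at this
      linarith
    have h6 : F j z / F j z₀ - 1 = ((F j z - 1) - (F j z₀ - 1)) / F j z₀ := by
      field_simp [h.2 j]
      ring
    rw [h6, norm_div, div_lt_one (by linarith)]
    calc ‖(F j z - 1) - (F j z₀ - 1)‖ ≤ ‖F j z - 1‖ + ‖F j z₀ - 1‖ := norm_sub_le _ _
      _ ≤ 1 / 4 + 1 / 4 := add_le_add h3 h4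
      _ < 3 / 4 := by norm_num
      _ ≤ ‖F j z₀‖ := h5

open Classical in
/-- the radius of the standard disc around a good point -/
noncomputable def rad (z₀ : ℂ) : ℝ :=
  if h : Good z₀ then Classical.choose (exists_rad z₀ h) else 1

theorem rad_pos (z₀ : ℂ) : 0 < rad z₀ := by
  unfold rad
  split_ifs with h
  · exact (Classical.choose_spec (exists_rad z₀ h)).1
  · exact one_pos

theorem rad_spec {z₀ : ℂ} (h : Good z₀) {z : ℂ} (hz : z ∈ Metric.ball z₀ (rad z₀)) :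
    ‖z‖ < 1 ∧ ∀ j, ‖F j z / F j z₀ - 1‖ < 1 := by
  have h1 : rad z₀ = Classical.choose (exists_rad z₀ h) := dif_pos h
  rw [h1] at hz
  exact (Classical.choose_spec (exists_rad z₀ h)).2 z hz

theorem good_of_mem {z₀ : ℂ} (h : Good z₀) {z : ℂ} (hz : z ∈ Metric.ball z₀ (rad z₀)) :
    Good z := by
  obtain ⟨h1, h2⟩ := rad_spec h hz
  refine ⟨h1, fun j h0 => ?_⟩
  have := h2 j
  rw [h0, zero_div, zero_sub, norm_neg, norm_one] at this
  exact lt_irrefl _ this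

end Pool.Agent.H299R3.RS
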