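import Pool.Agent.H299R3.RSSurf

/-!
The key estimate: bounded holomorphic functions almost agree at the base point and at the point
obtained by changing the sign of one root.
-/

set_option autoImplicit false

namespace Pool.Agent.H299R3.RS

open Filter Topology

theorem csqrt_norm_eq (x : ℂ) : ‖csqrt x‖ = Real.sqrt ‖x‖ := by
  rw [← csqrt_norm x, Real.sqrt_sq (norm_nonneg _)]

theorem csqrt_mul_re_pos {a b : ℂ} (ha : 0 < a.re) (hb : 0 < b.re) :
    0 < (csqrt a * csqrt b).re := by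
  have key : ∀ x : ℂ, 0 < x.re → 0 < (csqrt x).re ∧ |(csqrt x).im| < (csqrt x).re := by
    intro x hx
    have h1 := csqrt_re_pos hx
    refine ⟨h1, ?_⟩
    have h2 : x.re = (csqrt x).re ^ 2 - (csqrt x).im ^ 2 := by
      conv_lhs => rw [← csqrt_sq x]
      rw [pow_two, Complex.mul_re]
      ring
    exact abs_lt_of_sq_lt_sq (by nlinarith) h1.le
  obtain ⟨h1, h2⟩ := key a ha
  obtain ⟨h3, h4⟩ := key b hb
  rw [Complex.mul_re]
  have h5 : |(csqrt a).im * (csqrt b).im| < (csqrt a).re * (csqrt b).re := by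
    rw [abs_mul]
    exact mul_lt_mul'' h2 h4 (abs_nonneg _) (abs_nonneg _)
  have := (abs_lt.mp h5).2
  linarith

theorem csqrt_mul_quot {a b : ℂ} (ha : 0 < a.re) (hb : 0 < b.re) (hq : 0 < (b / a).re) :
    csqrt a * csqrt (b / a) = csqrt b := by
  have ha0 : a ≠ 0 := by
    rintro rfl
    simp at ha
  refine eq_of_sq_eq ?_ (csqrt_mul_re_pos ha hq) (csqrt_re_pos hb)
  rw [mul_pow, csqrt_sq, csqrt_sq, csqrt_sq, mul_div_cancel₀ _ ha0]

/-- the signs, extended by one -/
noncomputable def sgn {n : ℕ} (ε : Fin (n + 1) → ℤˣ) (j : ℕ) : ℂ :=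
  if h : j < n + 1 then (((ε ⟨j, h⟩ : ℤˣ) : ℤ) : ℂ) else 1

theorem sgn_sq {n : ℕ} (ε : Fin (n + 1) → ℤˣ) (j : ℕ) : sgn ε j ^ 2 = 1 := by
  unfold sgn
  split_ifs with h
  · rcases Int.units_eq_one_or (ε ⟨j, h⟩) with h1 | h1 <;> rw [h1] <;> simp
  · simp

theorem sgn_norm {n : ℕ} (ε : Fin (n + 1) → ℤˣ) (j : ℕ) : ‖sgn ε j‖ = 1 := by
  have h1 : ‖sgn ε j‖ ^ 2 = 1 := by rw [← norm_pow, sgn_sq, norm_one]
  have h2 := norm_nonneg (sgn ε j)
  nlinarith

open Classical in
/-- the points over `z` whose roots with large index are principal -/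
noncomputable def fib {n : ℕ} (ε : Fin (n + 1) → ℤˣ) (z : ℂ) : Pt :=
  if h : Good z then
    { z := z
      w := fun j => sgn ε j * csqrt (F j z)
      good := h
      sq := fun j => by rw [mul_pow, sgn_sq, csqrt_sq, one_mul] }
  else p0

theorem fib_z {n : ℕ} (ε : Fin (n + 1) → ℤˣ) {z : ℂ} (h : Good z) : (fib ε z).z = z := by
  unfold fib; rw [dif_pos h]

theorem fib_w {n : ℕ} (ε : Fin (n + 1) → ℤˣ) {z : ℂ} (h : Good z) (j : ℕ) :
    (fib ε z).w j = sgn ε j * csqrt (F j z) := by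
  unfold fib; rw [dif_pos h]

/-- the weight -/
noncomputable def K (n : ℕ) (q : Pt) : ℂ :=
  (q.w n)⁻¹ * (∏ j ∈ Finset.range n, (1 + (q.w j)⁻¹)) / 2 ^ n

/-- the sum over the fibre -/
noncomputable def Phi (n : ℕ) (g : Pt → ℂ) (z : ℂ) : ℂ :=
  ∑ ε : Fin (n + 1) → ℤˣ, g (fib ε z) * K n (fib ε z)

theorem F_re_pos_of_lt {n j : ℕ} (hj : n < j) {z : ℂ} (hz : ‖z‖ < s (2 * n + 3)) :
    0 < (F j z).re :=
  F_re_pos (hz.trans_le (s_strictMono.monotone (by omega)))

theorem good_of {n : ℕ} {z : ℂ} (hz : ‖z‖ < s (2 * n + 3)) (h : ∀ j ≤ n, F j z ≠ 0) :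
    Good z := by
  refine ⟨hz.trans (s_lt_one _), fun j => ?_⟩
  rcases Nat.lt_or_ge n j with hj | hj
  · intro h0
    have := F_re_pos_of_lt hj hz
    rw [h0] at this
    simp at this
  · exact h j hj

theorem Phi_local {n : ℕ} (Ψ : Pt → ℂ) {z₀ : ℂ} (h0 : Good z₀) (hz₀ : ‖z₀‖ < s (2 * n + 3))
    {z : ℂ} (hz : z ∈ Metric.ball z₀ (rad z₀)) (hzn : ‖z‖ < s (2 * n + 3)) :
    ∑ ε : Fin (n + 1) → ℤˣ, Ψ (fib ε z) =
      ∑ ε : Fin (n + 1) → ℤˣ, Ψ (sec (fib ε z₀) z) := by
  classical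
  have hg : Good z := good_of_mem h0 hz
  -- the signs relating the two branches
  let η : Fin (n + 1) → ℤˣ := fun j =>
    if csqrt (F j z₀) * csqrt (F j z / F j z₀) = csqrt (F j z) then 1 else -1
  have hη : ∀ j : Fin (n + 1), csqrt (F j z₀) * csqrt (F j z / F j z₀) =
      (((η j : ℤˣ) : ℤ) : ℂ) * csqrt (F j z) := by
    intro j
    by_cases h : csqrt (F j z₀) * csqrt (F j z / F j z₀) = csqrt (F j z)
    · simp only [η, if_pos h]
      rw [h]; simp
    · simp only [η, if_neg h]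
      have h1 : (csqrt (F j z₀) * csqrt (F j z / F j z₀)) ^ 2 = csqrt (F j z) ^ 2 := by
        rw [mul_pow, csqrt_sq, csqrt_sq, csqrt_sq, mul_div_cancel₀ _ (h0.2 j)]
      rcases sq_eq_sq_iff_eq_or_eq_neg.mp h1 with h2 | h2
      · exact absurd h2 h
      · rw [h2]; simp
  have hsec : ∀ ε : Fin (n + 1) → ℤˣ, sec (fib ε z₀) z = fib (ε * η) z := by
    intro ε
    have hB : z ∈ (fib ε z₀).B := by
      unfold Pt.B
      rw [fib_z ε h0]
      exact hz
    ext j
    · rw [sec_z hB, fib_z _ hg]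
    · rw [sec_w hB, fib_w _ hg, fib_w _ h0, fib_z _ h0, mul_assoc]
      by_cases hj : j < n + 1
      · have h1 := hη ⟨j, hj⟩
        simp only at h1
        rw [h1]
        unfold sgn
        rw [dif_pos hj, dif_pos hj, Pi.mul_apply, Units.val_mul]
        push_cast
        ring
      · have h1 : csqrt (F j z₀) * csqrt (F j z / F j z₀) = csqrt (F j z) :=
          csqrt_mul_quot (F_re_pos_of_lt (by omega) hz₀) (F_re_pos_of_lt (by omega) hzn)
            (re_pos_of_near ((rad_spec h0 hz).2 j))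
        rw [h1]
        unfold sgn
        rw [dif_neg hj, dif_neg hj]
  simp only [hsec]
  exact (Equiv.sum_comp (Equiv.mulRight η) (fun ε => Ψ (fib ε z))).symm

theorem Phi_differentiableAt {n : ℕ} {g : Pt → ℂ}
    (hg : ∀ p : Pt, DifferentiableOn ℂ (fun z => g (sec p z)) p.B)
    {z₀ : ℂ} (h0 : Good z₀) (hz₀ : ‖z₀‖ < s (2 * n + 3)) : DifferentiableAt ℂ (Phi n g) z₀ := by
  have h1 : Phi n g =ᶠ[𝓝 z₀] fun z => ∑ ε : Fin (n + 1) → ℤˣ,
      g (sec (fib ε z₀) z) * K n (sec (fib ε z₀) z) := by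
    have h2 : ∀ᶠ z in 𝓝 z₀, ‖z‖ < s (2 * n + 3) :=
      (continuous_norm.tendsto z₀).eventually (gt_mem_nhds hz₀)
    filter_upwards [h2, Metric.ball_mem_nhds z₀ (rad_pos z₀)] with z hz hz'
    exact Phi_local (fun q => g q * K n q) h0 hz₀ hz' hz
  refine DifferentiableAt.congr_of_eventuallyEq ?_ h1
  refine DifferentiableAt.fun_sum fun ε _ => ?_
  have hmem : z₀ ∈ (fib ε z₀).B := by
    unfold Pt.B
    rw [fib_z ε h0]
    exact Metric.mem_ball_self (rad_pos _)
  have hnhds : (fib ε z₀).B ∈ 𝓝 z₀ := Metric.isOpen_ball.mem_nhds hmem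
  refine ((hg _).differentiableAt hnhds).mul ?_
  have hw : ∀ j, DifferentiableAt ℂ (fun z => ((sec (fib ε z₀) z).w j)⁻¹) z₀ := fun j =>
    ((sec_w_differentiableOn _ j).differentiableAt hnhds).inv ((sec (fib ε z₀) z₀).w_ne j)
  unfold K
  refine ((hw n).mul ?_).div_const _
  refine DifferentiableAt.fun_finsetProd fun j _ => (hw j).const_add 1

theorem Phi_bound {n : ℕ} {g : Pt → ℂ} {C : ℝ} (hC : ∀ q, ‖g q‖ ≤ C) {z : ℂ} (h : Good z) :
    ‖Phi n g z‖ ≤ 2 * C * ((Real.sqrt ‖F n z‖)⁻¹ *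
      ∏ j ∈ Finset.range n, (1 + (Real.sqrt ‖F j z‖)⁻¹)) := by
  have hC0 : 0 ≤ C := (norm_nonneg _).trans (hC p0)
  have h1 : ∀ ε : Fin (n + 1) → ℤˣ, ‖g (fib ε z) * K n (fib ε z)‖ ≤
      C * (((Real.sqrt ‖F n z‖)⁻¹ *
        ∏ j ∈ Finset.range n, (1 + (Real.sqrt ‖F j z‖)⁻¹)) / 2 ^ n) := by
    intro ε
    have hw : ∀ j, ‖(fib ε z).w j‖ = Real.sqrt ‖F j z‖ := by
      intro j
      rw [fib_w ε h, norm_mul, sgn_norm, one_mul, csqrt_norm_eq]
    rw [norm_mul, K, norm_div, norm_mul, norm_inv, hw, norm_pow, norm_prod]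
    have h2 : ∏ j ∈ Finset.range n, ‖1 + ((fib ε z).w j)⁻¹‖ ≤
        ∏ j ∈ Finset.range n, (1 + (Real.sqrt ‖F j z‖)⁻¹) := by
      refine Finset.prod_le_prod (fun j _ => norm_nonneg _) fun j _ => ?_
      refine (norm_add_le _ _).trans ?_
      rw [norm_one, norm_inv, hw]
    have h3 : ‖(2 : ℂ)‖ = 2 := by simp
    rw [h3]
    have h4 : 0 ≤ ∏ j ∈ Finset.range n, ‖1 + ((fib ε z).w j)⁻¹‖ :=
      Finset.prod_nonneg fun j _ => norm_nonneg _
    have h5 : 0 ≤ (Real.sqrt ‖F n z‖)⁻¹ := inv_nonneg.mpr (Real.sqrt_nonneg _)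
    refine mul_le_mul (hC _) ?_ (by positivity) hC0
    refine div_le_div_of_nonneg_right ?_ (by positivity)
    exact mul_le_mul_of_nonneg_left h2 h5
  unfold Phi
  refine (norm_sum_le _ _).trans ((Finset.sum_le_sum fun ε _ => h1 ε).trans ?_)
  rw [Finset.sum_const, Finset.card_univ, nsmul_eq_mul]
  have h6 : (Fintype.card (Fin (n + 1) → ℤˣ) : ℝ) = 2 * 2 ^ n := by
    rw [Fintype.card_pi, Finset.prod_const, Finset.card_univ, Fintype.card_fin]
    have : Fintype.card ℤˣ = 2 := rfl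
    rw [this]
    push_cast
    ring
  rw [h6]
  apply le_of_eq
  have : (2 : ℝ) ^ n ≠ 0 := by positivity
  field_simp

/-- the point over zero with only the `n`-th root changed -/
noncomputable def pn (n : ℕ) : Pt where
  z := 0
  w := fun j => if j = n then -1 else 1
  good := good_zero
  sq := fun j => by
    rw [F_zero]
    split_ifs <;> ring

theorem Phi_zero (n : ℕ) (g : Pt → ℂ) : Phi n g 0 = g p0 - g (pn n) := by
  classical
  unfold Phi
  let a : Fin (n + 1) → ℤˣ := fun _ => 1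
  let b : Fin (n + 1) → ℤˣ := fun j => if (j : ℕ) = n then -1 else 1
  have hab : a ≠ b := by
    intro h
    have h1 := congrFun h ⟨n, by omega⟩
    simp only [a, b, if_true] at h1
    exact absurd h1 (by decide)
  have hsa : ∀ j, sgn a j = 1 := by
    intro j
    unfold sgn
    split_ifs <;> simp [a]
  have hsb : ∀ j, sgn b j = if j = n then -1 else 1 := by
    intro j
    unfold sgn
    by_cases hj : j < n + 1
    · rw [dif_pos hj]
      by_cases hjn : j = n
      · simp [b, hjn]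
      · simp [b, hjn]
    · rw [dif_neg hj, if_neg (by omega)]
  have hfa : fib a 0 = p0 := by
    ext j
    · rw [fib_z a good_zero]; rfl
    · rw [fib_w a good_zero, hsa, F_zero, csqrt_one]
      simp [p0]
  have hfb : fib b 0 = pn n := by
    ext j
    · rw [fib_z b good_zero]; rfl
    · rw [fib_w b good_zero, hsb, F_zero, csqrt_one, mul_one]
      rfl
  rw [Fintype.sum_eq_add a b hab]
  · rw [hfa, hfb]
    have h1 : K n p0 = 1 := by
      have h2 : ∀ j, p0.w j = 1 := fun _ => rfl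
      unfold K
      simp only [h2, inv_one, one_mul]
      rw [Finset.prod_const, Finset.card_range]
      norm_num
    have h2 : K n (pn n) = -1 := by
      unfold K
      have h3 : (pn n).w n = -1 := by simp [pn]
      have h4 : ∏ j ∈ Finset.range n, (1 + ((pn n).w j)⁻¹) = 2 ^ n := by
        rw [Finset.prod_congr rfl (g := fun _ => (2 : ℂ)), Finset.prod_const, Finset.card_range]
        intro j hj
        have : j ≠ n := by
          have := Finset.mem_range.mp hj
          omega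
        simp only [pn, if_neg this]
        norm_num
      rw [h3, h4]
      field_simp
    rw [h1, h2]
    ring
  · intro c hc
    obtain ⟨hca, hcb⟩ := hc
    -- some sign with index below `n` is negative
    have hex : ∃ j : Fin (n + 1), (j : ℕ) < n ∧ c j = -1 := by
      by_contra hcon
      push Not at hcon
      have h1 : ∀ j : Fin (n + 1), (j : ℕ) < n → c j = 1 := by
        intro j hj
        rcases Int.units_eq_one_or (c j) with h2 | h2
        · exact h2
        · exact absurd h2 (hcon j hj)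
      rcases Int.units_eq_one_or (c ⟨n, by omega⟩) with h2 | h2
      · apply hca
        ext j
        by_cases hj : (j : ℕ) < n
        · rw [h1 j hj]
        · have : j = ⟨n, by omega⟩ := Fin.ext (by have := j.2; simp only; omega)
          rw [this, h2]
      · apply hcb
        ext j
        by_cases hj : (j : ℕ) < n
        · rw [h1 j hj]
          simp [b, hj.ne]
        · have : j = ⟨n, by omega⟩ := Fin.ext (by have := j.2; simp only; omega)
          rw [this, h2]
          simp [b]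
    obtain ⟨j, hj, hcj⟩ := hex
    have h1 : (fib c 0).w j = -1 := by
      rw [fib_w c good_zero, F_zero, csqrt_one, mul_one]
      unfold sgn
      rw [dif_pos j.2]
      simp [hcj]
    have h2 : K n (fib c 0) = 0 := by
      unfold K
      rw [Finset.prod_eq_zero (Finset.mem_range.mpr hj)]
      · simp
      · rw [h1]; norm_num
    rw [h2, mul_zero]

end Pool.Agent.H299R3.RS
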