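import Pool.Agent.H299R3.RSEst

/-!
The final estimate and the failure of the embedding.
-/

set_option autoImplicit false

namespace Pool.Agent.H299R3.RS

open Filter Topology

/-- near a zero of one of the functions -/
theorem tendsto_aux {n : ℕ} {a : ℂ} {i : ℕ} (hi : i ≤ n) (hia : F i a = 0) :
    (∀ j, j ≠ i → F j a ≠ 0) ∧
    (∀ᶠ z in 𝓝[≠] a, F i z ≠ 0) ∧
    Tendsto (fun z => ‖z - a‖ * ((Real.sqrt ‖F n z‖)⁻¹ *
      ∏ j ∈ Finset.range n, (1 + (Real.sqrt ‖F j z‖)⁻¹))) (𝓝[≠] a) (𝓝 0) := by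
  classical
  have ha := F_zero_norm hia
  have hother : ∀ j, j ≠ i → F j a ≠ 0 := by
    intro j hj h0
    have h1 := F_zero_norm h0
    rw [ha] at h1
    have h2 := s_strictMono.injective h1
    omega
  have ha0 : a ≠ 0 := by
    intro h0
    rw [h0, norm_zero] at ha
    have := s_pos (2 * i + 1)
    linarith
  obtain ⟨d, hd, hd0⟩ := F_hasDerivAt i a
  have hdn : 0 < ‖d‖ := norm_pos_iff.mpr (hd0 ha0)
  obtain ⟨A, hA⟩ : ∃ A : ℝ, ∀ᶠ z in 𝓝[≠] a, ‖z - a‖ ≤ A * ‖F i z‖ := by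
    refine ⟨2 / ‖d‖, ?_⟩
    have h1 := (hasDerivAt_iff_tendsto_slope.mp hd).norm
    have h2 : ∀ᶠ z in 𝓝[≠] a, ‖d‖ / 2 < ‖slope (F i) a z‖ :=
      h1.eventually_const_lt (half_lt_self hdn)
    filter_upwards [h2, self_mem_nhdsWithin] with z hz hza
    have hza' : 0 < ‖z - a‖ := norm_pos_iff.mpr (sub_ne_zero.mpr hza)
    rw [slope_def_field, hia, sub_zero, norm_div, lt_div_iff₀ hza'] at hz
    rw [div_mul_eq_mul_div, le_div_iff₀ hdn]
    linarith
  have hA1 : ∀ᶠ z in 𝓝[≠] a, F i z ≠ 0 := by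
    filter_upwards [hA, self_mem_nhdsWithin] with z hz hza h0
    rw [h0, norm_zero, mul_zero] at hz
    have h1 : z - a = 0 := norm_le_zero_iff.mp hz
    exact hza (sub_eq_zero.mp h1)
  refine ⟨hother, hA1, ?_⟩
  have hdist : Tendsto (fun z => ‖z - a‖) (𝓝[≠] a) (𝓝 0) := by
    have h1 : Tendsto (fun z : ℂ => ‖z - a‖) (𝓝 a) (𝓝 ‖a - a‖) :=
      ((continuous_id.sub continuous_const).norm).tendsto a
    rw [sub_self, norm_zero] at h1
    exact h1.mono_left nhdsWithin_le_nhds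
  -- the critical factor
  have hcrit : Tendsto (fun z => ‖z - a‖ * (Real.sqrt ‖F i z‖)⁻¹) (𝓝[≠] a) (𝓝 0) := by
    have h1 : Tendsto (fun z => |A| * Real.sqrt ‖F i z‖) (𝓝[≠] a) (𝓝 0) := by
      have h2 : Tendsto (fun z => |A| * Real.sqrt ‖F i z‖) (𝓝 a) (𝓝 (|A| * Real.sqrt ‖F i a‖)) :=
        (continuous_const.mul (F_continuous i).norm.sqrt).tendsto a
      rw [hia, norm_zero, Real.sqrt_zero, mul_zero] at h2
      exact h2.mono_left nhdsWithin_le_nhds
    refine squeeze_zero' (Eventually.of_forall fun z => by positivity) ?_ h1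
    filter_upwards [hA, hA1] with z hz hz1
    have h3 : 0 < Real.sqrt ‖F i z‖ := Real.sqrt_pos.mpr (norm_pos_iff.mpr hz1)
    rw [← div_eq_mul_inv, div_le_iff₀ h3, mul_assoc, Real.mul_self_sqrt (norm_nonneg _)]
    refine hz.trans ?_
    exact mul_le_mul_of_nonneg_right (le_abs_self A) (norm_nonneg _)
  have hcrit' : Tendsto (fun z => ‖z - a‖ * (1 + (Real.sqrt ‖F i z‖)⁻¹)) (𝓝[≠] a) (𝓝 0) := by
    have := hdist.add hcrit
    rw [add_zero] at this
    refine this.congr fun z => ?_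
    ring
  have hreg : ∀ j, j ≠ i → Tendsto (fun z => (Real.sqrt ‖F j z‖)⁻¹) (𝓝[≠] a)
      (𝓝 (Real.sqrt ‖F j a‖)⁻¹) := by
    intro j hj
    have h1 : ContinuousAt (fun z => (Real.sqrt ‖F j z‖)⁻¹) a := by
      refine ContinuousAt.inv₀ ((F_continuous j).norm.sqrt).continuousAt ?_
      exact (Real.sqrt_pos.mpr (norm_pos_iff.mpr (hother j hj))).ne'
    exact h1.tendsto.mono_left nhdsWithin_le_nhds
  have hreg' : ∀ j, j ≠ i → Tendsto (fun z => 1 + (Real.sqrt ‖F j z‖)⁻¹) (𝓝[≠] a)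
      (𝓝 (1 + (Real.sqrt ‖F j a‖)⁻¹)) := fun j hj => (hreg j hj).const_add 1
  by_cases hin : i = n
  · -- the critical factor is the first one
    subst hin
    have h1 : Tendsto (fun z => ∏ j ∈ Finset.range i, (1 + (Real.sqrt ‖F j z‖)⁻¹)) (𝓝[≠] a)
        (𝓝 (∏ j ∈ Finset.range i, (1 + (Real.sqrt ‖F j a‖)⁻¹))) :=
      tendsto_finsetProd _ fun j hj => hreg' j (by
        have := Finset.mem_range.mp hj
        omega)
    have h2 := hcrit.mul h1
    rw [zero_mul] at h2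
    refine h2.congr fun z => ?_
    ring
  · have hir : i ∈ Finset.range n := Finset.mem_range.mpr (by omega)
    have h1 : Tendsto (fun z => ∏ j ∈ (Finset.range n).erase i, (1 + (Real.sqrt ‖F j z‖)⁻¹))
        (𝓝[≠] a) (𝓝 (∏ j ∈ (Finset.range n).erase i, (1 + (Real.sqrt ‖F j a‖)⁻¹))) :=
      tendsto_finsetProd _ fun j hj => hreg' j (Finset.ne_of_mem_erase hj)
    have h2 := (hcrit'.mul h1).mul (hreg n (Ne.symm hin))
    rw [zero_mul, zero_mul] at h2
    refine h2.congr fun z => ?_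
    rw [← Finset.mul_prod_erase _ _ hir]
    ring

/-- the regularised sum over the fibre -/
noncomputable def PhiT (n : ℕ) (g : Pt → ℂ) (z : ℂ) : ℂ := limUnder (𝓝[≠] z) (Phi n g)

theorem PhiT_eq {n : ℕ} {g : Pt → ℂ}
    (hg : ∀ p : Pt, DifferentiableOn ℂ (fun z => g (sec p z)) p.B)
    {z : ℂ} (h : Good z) (hz : ‖z‖ < s (2 * n + 3)) : PhiT n g z = Phi n g z :=
  ((Phi_differentiableAt hg h hz).continuousAt.tendsto.mono_left nhdsWithin_le_nhds).limUnder_eq

theorem eventually_good {n : ℕ} {a : ℂ} (ha : ‖a‖ < s (2 * n + 3)) :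
    ∀ᶠ z in 𝓝[≠] a, ‖z‖ < s (2 * n + 3) ∧ Good z := by
  have h1 : ∀ᶠ z in 𝓝[≠] a, ‖z‖ < s (2 * n + 3) :=
    ((continuous_norm.tendsto a).eventually (gt_mem_nhds ha)).filter_mono nhdsWithin_le_nhds
  have h2 : ∀ᶠ z in 𝓝[≠] a, ∀ j ∈ Finset.range (n + 1), F j z ≠ 0 := by
    rw [Filter.eventually_all_finset]
    intro j hj
    by_cases h0 : F j a = 0
    · exact (tendsto_aux (n := j) le_rfl h0).2.1
    · exact (((F_continuous j).tendsto a).eventually_ne h0).filter_mono nhdsWithin_le_nhds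
  filter_upwards [h1, h2] with z hz1 hz2
  exact ⟨hz1, good_of hz1 fun j hj => hz2 j (Finset.mem_range.mpr (by omega))⟩

theorem PhiT_differentiableAt {n : ℕ} {g : Pt → ℂ}
    (hg : ∀ p : Pt, DifferentiableOn ℂ (fun z => g (sec p z)) p.B) {C : ℝ}
    (hC : ∀ q, ‖g q‖ ≤ C) {a : ℂ} (ha : ‖a‖ < s (2 * n + 3)) :
    DifferentiableAt ℂ (PhiT n g) a := by
  have hC0 : 0 ≤ C := (norm_nonneg _).trans (hC p0)
  have hev := eventually_good ha
  -- a neighbourhood all of whose other points are good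
  obtain ⟨V, hV, hVo, haV⟩ := eventually_nhds_iff.mp (eventually_nhdsWithin_iff.mp hev)
  have hVn : V ∈ 𝓝 a := hVo.mem_nhds haV
  have hdiff : DifferentiableOn ℂ (Phi n g) (V \ {a}) := by
    intro z hz
    have h1 := hV z hz.1 (by simpa using hz.2)
    exact (Phi_differentiableAt hg h1.2 h1.1).differentiableWithinAt
  have hlim : Tendsto (fun z => ‖Phi n g z‖ * ‖z - a‖) (𝓝[≠] a) (𝓝 0) := by
    by_cases hgood : Good a
    · have h1 : Tendsto (fun z => ‖Phi n g z‖ * ‖z - a‖) (𝓝 a) (𝓝 (‖Phi n g a‖ * ‖a - a‖)) :=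
        ((Phi_differentiableAt hg hgood ha).continuousAt.tendsto.norm).mul
          ((continuous_id.sub continuous_const).norm.tendsto a)
      rw [sub_self, norm_zero, mul_zero] at h1
      exact h1.mono_left nhdsWithin_le_nhds
    · have h1 : ∃ i ≤ n, F i a = 0 := by
        by_contra hcon
        push Not at hcon
        exact hgood (good_of ha hcon)
      obtain ⟨i, hi, hia⟩ := h1
      have h2 := (tendsto_aux hi hia).2.2.const_mul (2 * C)
      rw [mul_zero] at h2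
      refine squeeze_zero' (Eventually.of_forall fun z => by positivity) ?_ h2
      filter_upwards [hev] with z hz
      have h3 := Phi_bound (n := n) hC hz.2
      calc ‖Phi n g z‖ * ‖z - a‖ ≤ (2 * C * ((Real.sqrt ‖F n z‖)⁻¹ *
            ∏ j ∈ Finset.range n, (1 + (Real.sqrt ‖F j z‖)⁻¹))) * ‖z - a‖ :=
          mul_le_mul_of_nonneg_right h3 (norm_nonneg _)
        _ = _ := by ring
  have hdist : Tendsto (fun z : ℂ => ‖z - a‖) (𝓝[≠] a) (𝓝 0) := by
    have h1 : Tendsto (fun z : ℂ => ‖z - a‖) (𝓝 a) (𝓝 ‖a - a‖) :=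
      ((continuous_id.sub continuous_const).norm).tendsto a
    rw [sub_self, norm_zero] at h1
    exact h1.mono_left nhdsWithin_le_nhds
  have ho : (fun z => Phi n g z - Phi n g a) =o[𝓝[≠] a] fun z => (z - a)⁻¹ := by
    rw [Asymptotics.isLittleO_iff_tendsto']
    · rw [tendsto_zero_iff_norm_tendsto_zero]
      have h1 := hlim.add (hdist.const_mul ‖Phi n g a‖)
      rw [mul_zero, add_zero] at h1
      refine squeeze_zero (fun z => norm_nonneg _) (fun z => ?_) h1
      rw [div_inv_eq_mul, norm_mul]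
      calc ‖Phi n g z - Phi n g a‖ * ‖z - a‖ ≤ (‖Phi n g z‖ + ‖Phi n g a‖) * ‖z - a‖ :=
            mul_le_mul_of_nonneg_right (norm_sub_le _ _) (norm_nonneg _)
        _ = ‖Phi n g z‖ * ‖z - a‖ + ‖Phi n g a‖ * ‖z - a‖ := by ring
    · filter_upwards [self_mem_nhdsWithin] with z hz h0
      exact absurd (sub_eq_zero.mp (inv_eq_zero.mp h0)) hz
  have h1 := Complex.differentiableOn_update_limUnder_of_isLittleO hVn hdiff ho
  have h2 := h1.differentiableAt hVn
  refine h2.congr_of_eventuallyEq ?_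
  filter_upwards [hVn] with z hz
  by_cases hza : z = a
  · subst hza
    rw [Function.update_self]
    rfl
  · rw [Function.update_of_ne hza]
    have h3 := hV z hz hza
    exact PhiT_eq hg h3.2 h3.1

theorem prod_bound (n : ℕ) : ∏ j ∈ Finset.range n, (1 + (1 / 4 : ℝ) ^ (j + 1)) ≤ 2 - (1 / 4) ^ n := by
  induction n with
  | zero => norm_num
  | succ n ih =>
    rw [Finset.prod_range_succ]
    have h1 : (0 : ℝ) < (1 / 4) ^ n := by positivity
    have h3 : ((1 : ℝ) / 4) ^ n ≤ 1 := pow_le_one₀ (by norm_num) (by norm_num)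
    have h2 : ((1 : ℝ) / 4) ^ (n + 1) = (1 / 4) * (1 / 4) ^ n := by rw [pow_succ]; ring
    rw [h2]
    refine (mul_le_mul_of_nonneg_right ih (by positivity)).trans ?_
    nlinarith

/-- The key estimate. -/
theorem key {g : Pt → ℂ} (hg : ∀ p : Pt, DifferentiableOn ℂ (fun z => g (sec p z)) p.B) {C : ℝ}
    (hC : ∀ q, ‖g q‖ ≤ C) (n : ℕ) : ‖g p0 - g (pn n)‖ ≤ 4 * C * (1 / 4) ^ (n + 1) := by
  have hC0 : 0 ≤ C := (norm_nonneg _).trans (hC p0)
  have hr : s (2 * n + 2) < s (2 * n + 3) := s_strictMono (by omega)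
  have h0 : PhiT n g 0 = g p0 - g (pn n) := by
    rw [PhiT_eq hg good_zero (by rw [norm_zero]; exact s_pos _), Phi_zero]
  rw [← h0]
  have hd : DifferentiableOn ℂ (PhiT n g) (Metric.ball 0 (s (2 * n + 3))) := by
    intro z hz
    rw [mem_ball_zero_iff] at hz
    exact (PhiT_differentiableAt hg hC hz).differentiableWithinAt
  have hdc : DiffContOnCl ℂ (PhiT n g) (Metric.ball 0 (s (2 * n + 2))) :=
    hd.diffContOnCl_ball (Metric.closedBall_subset_ball hr)
  refine Complex.norm_le_of_forall_mem_frontier_norm_le (U := Metric.ball 0 (s (2 * n + 2)))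
    Metric.isBounded_ball hdc ?_ (subset_closure (Metric.mem_ball_self (s_pos _)))
  intro z hz
  rw [frontier_ball _ (s_pos _).ne', mem_sphere_zero_iff_norm] at hz
  have hzlt : ‖z‖ < s (2 * n + 3) := by rw [hz]; exact hr
  have hlarge : ∀ j ≤ n, 16 ^ (j + 1) ≤ ‖F j z‖ := by
    intro j hj
    apply F_large
    rw [hz]
    exact s_strictMono.monotone (by omega)
  have hgood : Good z := good_of hzlt fun j hj h => by
    have h1 := hlarge j hj
    rw [h, norm_zero] at h1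
    have : (0 : ℝ) < 16 ^ (j + 1) := by positivity
    linarith
  have hsq : ∀ j ≤ n, (Real.sqrt ‖F j z‖)⁻¹ ≤ (1 / 4) ^ (j + 1) := by
    intro j hj
    have h1 : (4 : ℝ) ^ (j + 1) ≤ Real.sqrt ‖F j z‖ := by
      apply Real.le_sqrt_of_sq_le
      rw [← pow_mul, mul_comm (j + 1) 2, pow_mul]
      norm_num
      exact hlarge j hj
    rw [one_div, inv_pow]
    exact inv_anti₀ (by positivity) h1
  rw [PhiT_eq hg hgood hzlt]
  refine (Phi_bound hC hgood).trans ?_
  have h2 : ∏ j ∈ Finset.range n, (1 + (Real.sqrt ‖F j z‖)⁻¹) ≤ 2 := by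
    have h3 : ∏ j ∈ Finset.range n, (1 + (Real.sqrt ‖F j z‖)⁻¹) ≤
        ∏ j ∈ Finset.range n, (1 + (1 / 4 : ℝ) ^ (j + 1)) := by
      refine Finset.prod_le_prod (fun j _ => by positivity) fun j hj => ?_
      have := hsq j (Finset.mem_range.mp hj).le
      linarith
    have h4 := prod_bound n
    have h5 : (0 : ℝ) < (1 / 4) ^ n := by positivity
    linarith
  have h3 : 0 ≤ ∏ j ∈ Finset.range n, (1 + (Real.sqrt ‖F j z‖)⁻¹) :=
    Finset.prod_nonneg fun j _ => by positivity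
  calc 2 * C * ((Real.sqrt ‖F n z‖)⁻¹ * ∏ j ∈ Finset.range n, (1 + (Real.sqrt ‖F j z‖)⁻¹))
      ≤ 2 * C * ((1 / 4) ^ (n + 1) * 2) := by
        refine mul_le_mul_of_nonneg_left ?_ (by positivity)
        exact mul_le_mul (hsq n le_rfl) h2 h3 (by positivity)
    _ = 4 * C * (1 / 4) ^ (n + 1) := by ring

/-- the nearby points belong to the surface -/
theorem pn_mem (n : ℕ) (hn : 1 ≤ n) : Relation.EqvGen rr p0 (pn n) := by
  classical
  by_contra hcon
  let g : Pt → ℂ := fun q => if Relation.EqvGen rr p0 q then 1 else 0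
  have hg : ∀ p : Pt, DifferentiableOn ℂ (fun z => g (sec p z)) p.B := by
    intro p
    refine (differentiableOn_const (g p)).congr fun z hz => ?_
    simp only [g]
    have h1 : Relation.EqvGen rr p (sec p z) := Relation.EqvGen.rel _ _ (sec_mem hz)
    by_cases hp : Relation.EqvGen rr p0 p
    · rw [if_pos hp, if_pos (Relation.EqvGen.trans _ _ _ hp h1)]
    · rw [if_neg hp, if_neg]
      intro h2
      exact hp (Relation.EqvGen.trans _ _ _ h2 (Relation.EqvGen.symm _ _ h1))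
  have hC : ∀ q, ‖g q‖ ≤ 1 := by
    intro q
    simp only [g]
    split_ifs <;> simp
  have h1 := key hg hC n
  have h2 : g p0 = 1 := by
    simp only [g]
    rw [if_pos (Relation.EqvGen.refl _)]
  have h3 : g (pn n) = 0 := by
    simp only [g]
    rw [if_neg hcon]
  rw [h2, h3, sub_zero, norm_one, mul_one] at h1
  have h4 : ((1 : ℝ) / 4) ^ (n + 1) ≤ (1 / 4) ^ 2 :=
    pow_le_pow_of_le_one (by norm_num) (by norm_num) (by omega)
  norm_num at h1 h4
  linarith

/-- the nearby points as points of the surface -/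
noncomputable def Pn (n : ℕ) : RA := ⟨pn (n + 1), pn_mem _ (by omega)⟩

open scoped Manifold

/-- bounded holomorphic functions on the surface converge along the nearby points -/
theorem tendsto_eval (f : RA → ℂ) (hf : MDifferentiable 𝓘(ℂ) 𝓘(ℂ) f) (C : ℝ)
    (hC : ∀ x, ‖f x‖ ≤ C) : Tendsto (fun n => f (Pn n)) atTop (𝓝 (f P0)) := by
  classical
  have hC0 : 0 ≤ C := (norm_nonneg _).trans (hC P0)
  let g : Pt → ℂ := fun q => if h : Relation.EqvGen rr p0 q then f ⟨q, h⟩ else 0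
  have hf' := (mdiff_iff f).mp hf
  have hg : ∀ p : Pt, DifferentiableOn ℂ (fun z => g (sec p z)) p.B := by
    intro p
    by_cases hp : Relation.EqvGen rr p0 p
    · refine (hf' ⟨p, hp⟩).congr fun z hz => ?_
      have h1 : Relation.EqvGen rr p0 (sec p z) :=
        Relation.EqvGen.trans _ _ _ hp (Relation.EqvGen.rel _ _ (sec_mem hz))
      simp only [g]
      rw [dif_pos h1]
      rfl
    · refine (differentiableOn_const (0 : ℂ)).congr fun z hz => ?_
      simp only [g]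
      rw [dif_neg]
      intro h2
      exact hp (Relation.EqvGen.trans _ _ _ h2
        (Relation.EqvGen.symm _ _ (Relation.EqvGen.rel _ _ (sec_mem hz))))
  have hCg : ∀ q, ‖g q‖ ≤ C := by
    intro q
    simp only [g]
    split_ifs with h
    · exact hC _
    · rw [norm_zero]; exact hC0
  have h1 : ∀ n, ‖f P0 - f (Pn n)‖ ≤ 4 * C * (1 / 4) ^ (n + 2) := by
    intro n
    have h2 := key hg hCg (n + 1)
    have h3 : g p0 = f P0 := by
      simp only [g]
      rw [dif_pos (Relation.EqvGen.refl _)]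
      rfl
    have h4 : g (pn (n + 1)) = f (Pn n) := by
      simp only [g]
      rw [dif_pos (pn_mem (n + 1) (by omega))]
      rfl
    rw [h3, h4] at h2
    exact h2
  rw [tendsto_iff_norm_sub_tendsto_zero]
  have h5 : Tendsto (fun n : ℕ => 4 * C * (1 / 4 : ℝ) ^ (n + 2)) atTop (𝓝 (4 * C * 0)) := by
    refine Tendsto.const_mul _ ?_
    exact (tendsto_pow_atTop_nhds_zero_of_lt_one (by norm_num) (by norm_num)).comp
      (tendsto_add_atTop_nat 2)
  rw [mul_zero] at h5
  refine squeeze_zero (fun n => norm_nonneg _) (fun n => ?_) h5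
  rw [norm_sub_rev]
  exact h1 n

/-- the coordinate is holomorphic and bounded -/
theorem z_mdiff : MDifferentiable 𝓘(ℂ) 𝓘(ℂ) (fun x : RA => x.1.z) := by
  rw [mdiff_iff]
  intro p
  exact differentiableOn_id.congr fun z hz => sec_z hz

theorem w_mdiff (j : ℕ) : MDifferentiable 𝓘(ℂ) 𝓘(ℂ) (fun x : RA => x.1.w j) := by
  rw [mdiff_iff]
  intro p
  exact sec_w_differentiableOn p.1 j

theorem w_bdd (j : ℕ) : ∃ C : ℝ, ∀ x : RA, ‖x.1.w j‖ ≤ C := by
  obtain ⟨C, hC⟩ := F_bdd j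
  refine ⟨Real.sqrt C, fun x => ?_⟩
  apply Real.le_sqrt_of_sq_le
  rw [← norm_pow, x.1.sq j]
  exact hC _ x.1.good.1

theorem separates (x y : RA) (hxy : x ≠ y) : ∃ f : RA → ℂ, MDifferentiable 𝓘(ℂ) 𝓘(ℂ) f ∧
    (∃ C : ℝ, ∀ z, ‖f z‖ ≤ C) ∧ f x ≠ f y := by
  by_cases hz : x.1.z = y.1.z
  · by_cases hw : ∀ j, x.1.w j = y.1.w j
    · exact absurd (Subtype.ext (Pt.ext hz (funext hw))) hxy
    · push Not at hw
      obtain ⟨j, hj⟩ := hw
      exact ⟨_, w_mdiff j, w_bdd j, hj⟩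
  · exact ⟨_, z_mdiff, ⟨1, fun x => x.1.good.1.le⟩, hz⟩

/-- the nearby points do not converge to the base point -/
theorem not_tendsto : ¬ Tendsto Pn atTop (𝓝 P0) := by
  intro h
  have h1 : ∀ᶠ n in atTop, (Pn n).1 ∈ Src p0 :=
    h.eventually ((isOpen_src P0).mem_nhds (self_mem p0))
  obtain ⟨n, hn⟩ := h1.exists
  have h2 := hn.2 (n + 1)
  have h3 : (Pn n).1.w (n + 1) = -1 := by simp [Pn, pn]
  have h4 : p0.w (n + 1) = 1 := rfl
  rw [h3, h4] at h2
  norm_num at h2

end Pool.Agent.H299R3.RS
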