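import Pool.Agent.H299R3.RSBase

/-!
The Riemann surface: an infinite covering of a domain in the disc, on which all the square roots
of the functions `F j` are defined.
-/

set_option autoImplicit false

namespace Pool.Agent.H299R3.RS

open Filter Topology

/-- a good point together with a choice of all the square roots -/
@[ext] structure Pt where
  z : ℂ
  w : ℕ → ℂ
  good : Good z
  sq : ∀ j, w j ^ 2 = F j z

theorem Pt.w_ne (p : Pt) (j : ℕ) : p.w j ≠ 0 := by
  intro h
  apply p.good.2 j
  rw [← p.sq j, h]
  ring

/-- the standard disc at a point -/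
def Pt.B (p : Pt) : Set ℂ := Metric.ball p.z (rad p.z)

theorem Pt.center_mem (p : Pt) : p.z ∈ p.B := Metric.mem_ball_self (rad_pos _)

open Classical in
/-- the standard section through a point -/
noncomputable def sec (p : Pt) (z : ℂ) : Pt :=
  if h : z ∈ p.B then
    { z := z
      w := fun j => p.w j * csqrt (F j z / F j p.z)
      good := good_of_mem p.good h
      sq := fun j => by
        rw [mul_pow, csqrt_sq, p.sq j, mul_div_cancel₀ _ (p.good.2 j)] }
  else p

theorem sec_z {p : Pt} {z : ℂ} (h : z ∈ p.B) : (sec p z).z = z := by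
  unfold sec; rw [dif_pos h]

theorem sec_w {p : Pt} {z : ℂ} (h : z ∈ p.B) (j : ℕ) :
    (sec p z).w j = p.w j * csqrt (F j z / F j p.z) := by
  unfold sec; rw [dif_pos h]

/-- the standard sheet at a point -/
def Src (p : Pt) : Set Pt := {q | q.z ∈ p.B ∧ ∀ j, 0 < (q.w j / p.w j).re}

theorem quot_re_pos (p : Pt) {z : ℂ} (h : z ∈ p.B) (j : ℕ) : 0 < (F j z / F j p.z).re :=
  re_pos_of_near ((rad_spec p.good h).2 j)

theorem sec_mem {p : Pt} {z : ℂ} (h : z ∈ p.B) : sec p z ∈ Src p := by
  refine ⟨by rw [sec_z h]; exact h, fun j => ?_⟩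
  rw [sec_w h, mul_div_cancel_left₀ _ (p.w_ne j)]
  exact csqrt_re_pos (quot_re_pos p h j)

theorem self_mem (p : Pt) : p ∈ Src p :=
  ⟨p.center_mem, fun j => by rw [div_self (p.w_ne j)]; exact one_pos⟩

theorem eq_sec {p q : Pt} (h : q ∈ Src p) : sec p q.z = q := by
  obtain ⟨h1, h2⟩ := h
  ext j
  · exact sec_z h1
  · rw [sec_w h1]
    have h3 : q.w j / p.w j = csqrt (F j q.z / F j p.z) := by
      refine eq_of_sq_eq ?_ (h2 j) (csqrt_re_pos (quot_re_pos p h1 j))
      rw [csqrt_sq, div_pow, q.sq, p.sq]
    rw [← h3, mul_div_cancel₀ _ (p.w_ne j)]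

theorem sec_self (p : Pt) : sec p p.z = p := eq_sec (self_mem p)

theorem sec_w_continuousOn (p : Pt) (j : ℕ) : ContinuousOn (fun z => (sec p z).w j) p.B := by
  have h1 : ContinuousOn (fun z => p.w j * csqrt (F j z / F j p.z)) p.B := by
    intro z hz
    have h2 := (csqrt_differentiableAt (quot_re_pos p hz j)).continuousAt
    have h3 : ContinuousAt (fun z => F j z / F j p.z) z :=
      (F_continuous j).continuousAt.div_const _
    exact (continuousAt_const.mul (ContinuousAt.comp (f := fun z => F j z / F j p.z) h2 h3)).continuousWithinAt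
  exact h1.congr fun z hz => sec_w hz j

theorem sec_w_differentiableOn (p : Pt) (j : ℕ) : DifferentiableOn ℂ (fun z => (sec p z).w j) p.B := by
  have h1 : DifferentiableOn ℂ (fun z => p.w j * csqrt (F j z / F j p.z)) p.B := by
    intro z hz
    have h2 := csqrt_differentiableAt (quot_re_pos p hz j)
    have h3 : DifferentiableAt ℂ (fun z => F j z / F j p.z) z :=
      (F_differentiable j).differentiableAt.div_const _
    exact ((differentiableAt_const _).mul
      (DifferentiableAt.comp (f := fun z => F j z / F j p.z) z h2 h3)).differentiableWithinAt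
  exact h1.congr fun z hz => sec_w hz j

/-- two standard sections that agree at one point agree on the intersection of the discs -/
theorem overlap {p q : Pt} {z₁ : ℂ} (hp : z₁ ∈ p.B) (hq : z₁ ∈ q.B) (h : sec p z₁ = sec q z₁)
    {z : ℂ} (hzp : z ∈ p.B) (hzq : z ∈ q.B) : sec p z = sec q z := by
  have hpre : IsPreconnected (p.B ∩ q.B) :=
    ((convex_ball _ _).inter (convex_ball _ _)).isPreconnected
  ext j
  · rw [sec_z hzp, sec_z hzq]
  · refine IsPreconnected.eq_of_sq_eq hpre (f := fun z => (sec p z).w j)
      (g := fun z => (sec q z).w j) ((sec_w_continuousOn p j).mono Set.inter_subset_left)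
      ((sec_w_continuousOn q j).mono Set.inter_subset_right) ?_ ?_ ⟨hp, hq⟩ (by simp only [h])
      ⟨hzp, hzq⟩
    · intro x hx
      simp only [Pi.pow_apply]
      rw [(sec p x).sq, (sec q x).sq, sec_z hx.1, sec_z hx.2]
    · intro x _
      exact (sec q x).w_ne j

/-- the base point -/
noncomputable def p0 : Pt where
  z := 0
  w := fun _ => 1
  good := good_zero
  sq := fun j => by rw [F_zero]; ring

/-- lying in a common standard sheet -/
def rr (p q : Pt) : Prop := q ∈ Src p

/-- the underlying type of the surface -/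
def RA : Type := {p : Pt // Relation.EqvGen rr p0 p}

/-- the section as a map to the surface -/
noncomputable def secA (p : RA) (z : ℂ) : RA :=
  ⟨sec p.1 z, by
    by_cases h : z ∈ p.1.B
    · exact Relation.EqvGen.trans _ _ _ p.2 (Relation.EqvGen.rel _ _ (sec_mem h))
    · have : sec p.1 z = p.1 := by unfold sec; rw [dif_neg h]
      rw [this]
      exact p.2⟩

/-- the standard chart -/
noncomputable def chartP (p : RA) : PartialEquiv RA ℂ where
  toFun x := x.1.z
  invFun z := secA p z
  source := {x | x.1 ∈ Src p.1}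
  target := p.1.B
  map_source' _ hx := hx.1
  map_target' _ hz := sec_mem hz
  left_inv' _ hx := Subtype.ext (eq_sec hx)
  right_inv' _ hz := sec_z hz

theorem trans_source_eq (p q : RA) :
    ((chartP p).symm.trans (chartP q)).source = {z | z ∈ p.1.B ∧ sec p.1 z ∈ Src q.1} := by
  rw [PartialEquiv.trans_source]
  rfl

theorem isOpen_overlap (p q : Pt) : IsOpen {z | z ∈ p.B ∧ sec p z ∈ Src q} := by
  rcases Set.eq_empty_or_nonempty {z | z ∈ p.B ∧ sec p z ∈ Src q} with h | ⟨z₁, h1, h2⟩
  · rw [h]; exact isOpen_empty
  · have h3 : z₁ ∈ q.B := by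
      have := h2.1
      rwa [sec_z h1] at this
    have h4 : sec p z₁ = sec q z₁ := by
      have := eq_sec h2
      rw [sec_z h1] at this
      exact this.symm
    have h5 : {z | z ∈ p.B ∧ sec p z ∈ Src q} = p.B ∩ q.B := by
      ext z
      constructor
      · rintro ⟨h6, h7⟩
        refine ⟨h6, ?_⟩
        have := h7.1
        rwa [sec_z h6] at this
      · rintro ⟨h6, h7⟩
        refine ⟨h6, ?_⟩
        rw [overlap h1 h3 h4 h6 h7]
        exact sec_mem h7
    rw [h5]
    exact Metric.isOpen_ball.inter Metric.isOpen_ball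

/-- the charted space core -/
noncomputable def core : ChartedSpaceCore ℂ RA where
  atlas := Set.range chartP
  chartAt := chartP
  mem_chart_source x := self_mem x.1
  chart_mem_atlas x := Set.mem_range_self x
  open_source := by
    rintro _ _ ⟨p, rfl⟩ ⟨q, rfl⟩
    rw [trans_source_eq]
    exact isOpen_overlap _ _
  continuousOn_toFun := by
    rintro _ _ ⟨p, rfl⟩ ⟨q, rfl⟩
    refine continuousOn_id.congr fun z hz => ?_
    rw [trans_source_eq] at hz
    exact sec_z hz.1

noncomputable instance : TopologicalSpace RA := core.toTopologicalSpace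

noncomputable instance : ChartedSpace ℂ RA := core.toChartedSpace

theorem chartAt_source (p : RA) : (chartAt ℂ p).source = {x : RA | x.1 ∈ Src p.1} := rfl
theorem chartAt_target (p : RA) : (chartAt ℂ p).target = p.1.B := rfl
theorem chartAt_apply (p x : RA) : chartAt ℂ p x = x.1.z := rfl
theorem chartAt_symm_apply (p : RA) (z : ℂ) : (chartAt ℂ p).symm z = secA p z := rfl

theorem isOpen_src (p : RA) : IsOpen {x : RA | x.1 ∈ Src p.1} := (chartAt ℂ p).open_source

theorem secA_continuousOn (p : RA) : ContinuousOn (secA p) p.1.B :=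
  (chartAt ℂ p).continuousOn_symm

theorem z_continuous : Continuous (fun x : RA => x.1.z) := by
  rw [continuous_iff_continuousAt]
  intro x
  have h := (chartAt ℂ x).continuousAt (mem_chart_source ℂ x)
  exact h

theorem mem_atlas_iff {e : OpenPartialHomeomorph RA ℂ} (he : e ∈ atlas ℂ RA) :
    ∃ p : RA, e = chartAt ℂ p := by
  have h : e ∈ ⋃ (e : PartialEquiv RA ℂ) (he : e ∈ core.atlas),
    ({core.openPartialHomeomorph e he} : Set (OpenPartialHomeomorph RA ℂ)) := he
  simp only [Set.mem_iUnion, Set.mem_singleton_iff] at h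
  obtain ⟨e', ⟨p, rfl⟩, rfl⟩ := h
  exact ⟨p, rfl⟩

open scoped Manifold ContDiff

instance : IsManifold 𝓘(ℂ) ⊤ RA := by
  apply isManifold_of_contDiffOn
  intro e e' he he'
  obtain ⟨p, rfl⟩ := mem_atlas_iff he
  obtain ⟨q, rfl⟩ := mem_atlas_iff he'
  refine contDiffOn_id.congr ?_
  intro z hz
  have h1 : z ∈ p.1.B := by
    have := hz.1
    simp only [Set.mem_preimage, OpenPartialHomeomorph.trans_source] at this
    exact this.1
  show (secA p z).1.z = z
  exact sec_z h1

instance : T2Space RA := by
  constructor
  intro p q hpq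
  by_cases hz : p.1.z = q.1.z
  · refine ⟨{x | x.1 ∈ Src p.1}, {x | x.1 ∈ Src q.1}, isOpen_src p, isOpen_src q, self_mem _,
      self_mem _, ?_⟩
    rw [Set.disjoint_left]
    intro x hxp hxq
    apply hpq
    apply Subtype.ext
    have h1 : x.1.z ∈ p.1.B := hxp.1
    have h2 : x.1.z ∈ q.1.B := hxq.1
    have h3 : sec p.1 x.1.z = sec q.1 x.1.z := by rw [eq_sec hxp, eq_sec hxq]
    have h4 : p.1.z ∈ q.1.B := by rw [hz]; exact q.1.center_mem
    have h5 := overlap h1 h2 h3 p.1.center_mem h4
    rw [sec_self] at h5
    rw [h5, hz, sec_self]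
  · obtain ⟨U, V, hU, hV, hpU, hqV, hUV⟩ := t2_separation hz
    exact ⟨_, _, hU.preimage z_continuous, hV.preimage z_continuous, hpU, hqV,
      hUV.preimage _⟩

/-- the base point of the surface -/
noncomputable def P0 : RA := ⟨p0, Relation.EqvGen.refl _⟩

instance : ConnectedSpace RA := by
  have : Nonempty RA := ⟨P0⟩
  have : PreconnectedSpace RA := by
    apply preconnectedSpace_of_forall_constant
    intro f hf
    -- constant along each sheet
    have h1 : ∀ (p q : RA), q.1 ∈ Src p.1 → f q = f p := by
      intro p q hq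
      have hpre : IsPreconnected p.1.B := (convex_ball _ _).isPreconnected
      have hc : ContinuousOn (fun z => f (secA p z)) p.1.B :=
        hf.comp_continuousOn (secA_continuousOn p)
      have h2 := hpre.constant hc hq.1 p.1.center_mem
      have h3 : secA p q.1.z = q := Subtype.ext (eq_sec hq)
      have h4 : secA p p.1.z = p := Subtype.ext (sec_self p.1)
      simp only [h3, h4] at h2
      exact h2
    have h2 : ∀ p q : Pt, Relation.EqvGen rr p q → ∀ (hp : Relation.EqvGen rr p0 p)
        (hq : Relation.EqvGen rr p0 q), f ⟨p, hp⟩ = f ⟨q, hq⟩ := by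
      intro p q h
      induction h with
      | rel p q h => exact fun hp hq => (h1 ⟨p, hp⟩ ⟨q, hq⟩ h).symm
      | refl p => exact fun _ _ => rfl
      | symm p q _ ih => exact fun hp hq => (ih hq hp).symm
      | trans p q r hpq _ ih1 ih2 =>
        intro hp hr
        have hq := Relation.EqvGen.trans _ _ _ hp hpq
        exact (ih1 hp hq).trans (ih2 hq hr)
    intro x y
    exact h2 x.1 y.1 (Relation.EqvGen.trans _ _ _ (Relation.EqvGen.symm _ _ x.2) y.2) x.2 y.2
  exact ⟨inferInstance⟩

theorem mdiff_iff (f : RA → ℂ) : MDifferentiable 𝓘(ℂ) 𝓘(ℂ) f ↔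
    ∀ p : RA, DifferentiableOn ℂ (fun z => f (secA p z)) p.1.B := by
  constructor
  · intro hf p z hz
    -- differentiate at the point `secA p z`
    set q := secA p z with hq
    have hqz : q.1.z = z := sec_z hz
    have h1 := (hf q).differentiableWithinAt_writtenInExtChartAt
    have h2 : DifferentiableAt ℂ (fun z => f (secA q z)) z := by
      have h3 : DifferentiableWithinAt ℂ (fun z => f (secA q z)) Set.univ q.1.z := by
        simpa [writtenInExtChartAt, extChartAt, Function.comp_def, chartAt_apply,
          chartAt_symm_apply, chartAt_self_eq] using h1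
      rw [hqz, differentiableWithinAt_univ] at h3
      exact h3
    have h4 : (fun z => f (secA p z)) =ᶠ[𝓝 z] (fun z => f (secA q z)) := by
      have h5 : z ∈ q.1.B := by
        rw [← hqz]; exact q.1.center_mem
      have h6 : sec p.1 z = sec q.1 z := by
        have := sec_self q.1
        rw [hqz] at this
        rw [this]
        rfl
      filter_upwards [Metric.isOpen_ball.mem_nhds hz, Metric.isOpen_ball.mem_nhds h5] with y hy hy'
      have h7 : secA p y = secA q y := Subtype.ext (overlap hz h5 h6 hy hy')
      rw [h7]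
    exact (h2.congr_of_eventuallyEq h4).differentiableWithinAt
  · intro hf p
    rw [mdifferentiableAt_iff]
    have h1 : DifferentiableAt ℂ (fun z => f (secA p z)) p.1.z :=
      (hf p).differentiableAt (Metric.isOpen_ball.mem_nhds p.1.center_mem)
    constructor
    · have h2 : ContinuousAt (fun x : RA => f (secA p x.1.z)) p :=
        ContinuousAt.comp (f := fun x : RA => x.1.z) (g := fun z => f (secA p z))
          h1.continuousAt z_continuous.continuousAt
      refine h2.congr ?_
      filter_upwards [(isOpen_src p).mem_nhds (self_mem p.1)] with x hx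
      have : secA p x.1.z = x := Subtype.ext (eq_sec hx)
      rw [this]
    · have h3 : DifferentiableWithinAt ℂ (fun z => f (secA p z)) Set.univ p.1.z :=
        h1.differentiableWithinAt
      simpa [writtenInExtChartAt, extChartAt, Function.comp_def, chartAt_apply,
          chartAt_symm_apply, chartAt_self_eq] using h3

end Pool.Agent.H299R3.RS
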